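import Mathlib

/-!
# Chunk FAR: Farkas' lemma with bounded certificates

Proof by induction on the set `s` of columns (claim for all `s : Finset κ` with the bound
`(2 * M ^ 2) ^ (2 ^ (s.card + 1) - 1)`, the combinations and the inequalities `0 ≤ h · A_j` being
restricted to `j ∈ s`). `s = ∅`: if `u ≠ 0` take `h = ∓ e_i`. Step `s ∪ {a}`: suppose all `h`
bounded by the new bound `F'` with `h · A_j ≥ 0` on `s ∪ {a}` have `h · u ≥ 0`. Let `H` be the
finite set of the `h` bounded by the old bound `F` with `h · A_j ≥ 0` on `s`. If no `h ∈ H` with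
`h · a < 0` has `h · u < 0`, then `h · u ≥ 0` for all `h ∈ H`, done by induction. Otherwise choose
`h' ∈ H` with `h' · a < 0`, `h' · u < 0` such that `(h' · u) / (h' · a)` is maximal (compare the
cross products or work in `ℚ`), and put `q = - h' · a ≥ 1`, `p = - h' · u ≥ 1`, `u' = q u - p a`.
For all `h ∈ H`: `h · u' ≥ 0`. (`h · a < 0`: by the choice of `h'`, or since `h · u ≥ 0`.
`h · a = 0`: `h · u ≥ 0`. `h · a > 0`: apply the assumption to `(h · a) h' + q h`, which vanishes on
`a` and is bounded by `2 m M F ^ 2 ≤ F'`.) By induction `k₀ u'` is a combination of the columns in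
`s`, so `k₀ q u = k₀ u' + k₀ p a` is a combination of the columns in `s ∪ {a}`.
-/

set_option autoImplicit false

namespace Pool.Agent.H24U

/-- the bound for the certificates -/
def fk (M : ℕ) : ℕ := (2 * (M + 1) ^ 2) ^ 2 ^ (M + 1)

/-- the bound for `n` columns -/
def FAR_b (M : ℕ) : ℕ → ℕ
  | 0 => 1
  | n + 1 => 2 * (M + 1) ^ 2 * FAR_b M n ^ 2

theorem FAR_b_le (M n : ℕ) : 2 * (M + 1) ^ 2 * FAR_b M n ≤ (2 * (M + 1) ^ 2) ^ 2 ^ n := by
  induction n with
  | zero => simp [FAR_b]
  | succ n ih =>
    have h1 : 2 * (M + 1) ^ 2 * FAR_b M (n + 1) = (2 * (M + 1) ^ 2 * FAR_b M n) ^ 2 := by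
      rw [FAR_b]; ring
    rw [h1, pow_succ 2 n, pow_mul]
    exact Nat.pow_le_pow_left ih 2

theorem FAR_b_mono (M n : ℕ) : FAR_b M n ≤ FAR_b M (n + 1) := by
  rw [FAR_b]
  have h1 : 1 ≤ FAR_b M n := by
    induction n with
    | zero => simp [FAR_b]
    | succ n ih => rw [FAR_b]; nlinarith [Nat.one_le_pow 2 (FAR_b M n) ih,
        Nat.one_le_pow 2 (M + 1) (Nat.succ_pos M)]
  nlinarith [Nat.one_le_pow 2 (M + 1) (Nat.succ_pos M)]

theorem FAR_b_mono' (M : ℕ) {n m : ℕ} (h : n ≤ m) : FAR_b M n ≤ FAR_b M m :=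
  monotone_nat_of_le_succ (FAR_b_mono M) h

theorem FAR_dot {μ : Type} [Fintype μ] (M F : ℕ) (hm : Fintype.card μ ≤ M) (h c : μ → ℤ)
    (hh : ∀ i, |h i| ≤ F) (hc : ∀ i, |c i| ≤ M) : |∑ i, h i * c i| ≤ M * M * F := by
  refine (Finset.abs_sum_le_sum_abs _ _).trans ?_
  have h1 : ∀ i ∈ Finset.univ, |h i * c i| ≤ (F : ℤ) * M := by
    intro i _
    rw [abs_mul]
    exact mul_le_mul (hh i) (hc i) (abs_nonneg _) (by positivity)
  refine (Finset.sum_le_card_nsmul _ _ _ h1).trans ?_
  rw [nsmul_eq_mul, Finset.card_univ]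
  have h2 : (Fintype.card μ : ℤ) ≤ M := by exact_mod_cast hm
  calc (Fintype.card μ : ℤ) * ((F : ℤ) * M) ≤ M * ((F : ℤ) * M) :=
        mul_le_mul_of_nonneg_right h2 (by positivity)
    _ = M * M * F := by ring

theorem FAR_ind {μ κ : Type} [Fintype μ] [DecidableEq κ] (M : ℕ) (A : μ → κ → ℤ)
    (hm : Fintype.card μ ≤ M) (hA : ∀ i j, |A i j| ≤ M) (s : Finset κ) :
    ∀ u : μ → ℤ,
    (∃ k₀ : ℕ, 1 ≤ k₀ ∧ ∃ v : κ → ℕ, ∀ i, ∑ j ∈ s, A i j * (v j : ℤ) = k₀ * u i) ∨
    ∃ h : μ → ℤ, (∀ i, |h i| ≤ FAR_b M s.card) ∧ (∀ j ∈ s, 0 ≤ ∑ i, h i * A i j) ∧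
      ∑ i, h i * u i < 0 := by
  classical
  induction s using Finset.induction_on with
  | empty =>
    intro u
    by_cases hu : ∀ i, u i = 0
    · exact Or.inl ⟨1, le_rfl, fun _ => 0, fun i => by simp [hu i]⟩
    · push Not at hu
      obtain ⟨i, hi⟩ := hu
      right
      refine ⟨fun i' => if i' = i then (if 0 < u i then -1 else 1) else 0, ?_, ?_, ?_⟩
      · intro i'
        dsimp only
        split_ifs <;> simp [FAR_b]
      · intro j hj
        exact absurd hj (Finset.notMem_empty j)
      · rw [Finset.sum_eq_single i]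
        · simp only [if_true]
          split_ifs with h
          · linarith
          · have : u i < 0 := lt_of_le_of_ne (not_lt.1 h) hi
            linarith
        · intro b _ hb
          simp [hb]
        · intro h
          exact absurd (Finset.mem_univ i) h
  | insert a s ha ih =>
    intro u
    by_contra hcon
    push Not at hcon
    obtain ⟨hno, H1⟩ := hcon
    set F : ℕ := FAR_b M s.card with hF
    have hF' : FAR_b M (insert a s).card = 2 * (M + 1) ^ 2 * F ^ 2 := by
      rw [Finset.card_insert_of_notMem ha, FAR_b]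
    have hFF : F ≤ FAR_b M (insert a s).card := FAR_b_mono' M (by
      rw [Finset.card_insert_of_notMem ha]; exact Nat.le_succ _)
    set Hs : Set (μ → ℤ) := {h | (∀ i, |h i| ≤ F) ∧ (∀ j ∈ s, 0 ≤ ∑ i, h i * A i j) ∧
      ∑ i, h i * A i a < 0 ∧ ∑ i, h i * u i < 0} with hHs
    have hfin : Hs.Finite := by
      refine (Set.finite_Icc (fun _ : μ => -(F : ℤ)) (fun _ : μ => (F : ℤ))).subset ?_
      intro h hh
      rw [Set.mem_Icc, Pi.le_def, Pi.le_def]
      exact ⟨fun i => (abs_le.1 (hh.1 i)).1, fun i => (abs_le.1 (hh.1 i)).2⟩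
    rcases Hs.eq_empty_or_nonempty with he | hne
    · rcases ih u with ⟨k₀, hk, v, hv⟩ | ⟨h, hb, hs, hu⟩
      · obtain ⟨i, hi⟩ := hno k₀ hk (fun j => if j = a then 0 else v j)
        apply hi
        rw [Finset.sum_insert ha]
        simp only [if_true]
        rw [← hv i]
        have : ∑ x ∈ s, A i x * (((if x = a then 0 else v x) : ℕ) : ℤ) =
            ∑ j ∈ s, A i j * (v j : ℤ) := by
          refine Finset.sum_congr rfl fun j hj => ?_
          rw [if_neg (ne_of_mem_of_not_mem hj ha)]
        rw [this]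
        simp
      · have ha0 : 0 ≤ ∑ i, h i * A i a := by
          by_contra hlt
          push Not at hlt
          have : h ∈ Hs := ⟨hb, hs, hlt, hu⟩
          rw [he] at this
          exact this
        have h2 := H1 h (fun i => (hb i).trans (by exact_mod_cast hFF)) (by
          intro j hj
          rcases Finset.mem_insert.1 hj with rfl | hj
          · exact ha0
          · exact hs j hj)
        exact absurd hu (not_lt.2 h2)
    · obtain ⟨h', hh', hmax⟩ := Set.exists_max_image Hs
        (fun h => ((∑ i, h i * u i : ℤ) : ℚ) / ((∑ i, h i * A i a : ℤ) : ℚ)) hfin hne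
      obtain ⟨hb', hs', ha', hu'⟩ := hh'
      obtain ⟨q, hq⟩ := Int.eq_ofNat_of_zero_le (a := -∑ i, h' i * A i a) (by linarith)
      obtain ⟨p, hp⟩ := Int.eq_ofNat_of_zero_le (a := -∑ i, h' i * u i) (by linarith)
      have hq1 : 1 ≤ q := by omega
      have key : ∀ h : μ → ℤ, (∀ i, |h i| ≤ F) → (∀ j ∈ s, 0 ≤ ∑ i, h i * A i j) →
          0 ≤ (q : ℤ) * (∑ i, h i * u i) - p * (∑ i, h i * A i a) := by
        intro h hb hs
        rcases lt_or_ge (∑ i, h i * A i a) 0 with hlt | hge
        · rcases lt_or_ge (∑ i, h i * u i) 0 with hlt' | hge'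
          · have h1 := hmax h ⟨hb, hs, hlt, hlt'⟩
            have h2 : ((∑ i, h i * A i a : ℤ) : ℚ) < 0 := by exact_mod_cast hlt
            have h3 : ((∑ i, h' i * A i a : ℤ) : ℚ) < 0 := by exact_mod_cast ha'
            rw [div_le_iff_of_neg h2, div_mul_eq_mul_div, div_le_iff_of_neg h3] at h1
            have h4 : (∑ i, h i * u i) * (∑ i, h' i * A i a) ≤
                (∑ i, h' i * u i) * (∑ i, h i * A i a) := by exact_mod_cast h1
            have h5 : ∑ i, h' i * A i a = -q := by
              linarith [hq]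
            have h6 : ∑ i, h' i * u i = -p := by
              linarith [hp]
            rw [h5, h6] at h4
            linarith
          · have h1 : 0 ≤ (q : ℤ) * (∑ i, h i * u i) := mul_nonneg (by positivity) hge'
            have h2 : (p : ℤ) * (∑ i, h i * A i a) ≤ 0 :=
              mul_nonpos_of_nonneg_of_nonpos (by positivity) hlt.le
            linarith
        · have hg := H1 (fun i => (∑ i, h i * A i a) * h' i + q * h i) ?_ ?_
          · have h1 : ∑ i, ((∑ i, h i * A i a) * h' i + q * h i) * u i =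
                (∑ i, h i * A i a) * (∑ i, h' i * u i) + q * ∑ i, h i * u i := by
              rw [Finset.mul_sum, Finset.mul_sum, ← Finset.sum_add_distrib]
              exact Finset.sum_congr rfl fun i _ => by ring
            rw [h1] at hg
            have h6 : ∑ i, h' i * u i = -p := by
              linarith [hp]
            rw [h6] at hg
            linarith
          · intro i
            have h1 : |∑ i, h i * A i a| ≤ M * M * F := FAR_dot M F hm h _ hb (fun i => hA i a)
            have h2 : |(q : ℤ)| ≤ M * M * F := by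
              have h3 : (q : ℤ) = -∑ i, h' i * A i a := by
                rw [hq]
              rw [h3, abs_neg]
              exact FAR_dot M F hm h' _ hb' (fun i => hA i a)
            refine (abs_add_le _ _).trans ?_
            rw [abs_mul, abs_mul]
            have h4 : |∑ i, h i * A i a| * |h' i| ≤ (M * M * F) * F :=
              mul_le_mul h1 (hb' i) (abs_nonneg _) (by positivity)
            have h5 : |(q : ℤ)| * |h i| ≤ (M * M * F) * F :=
              mul_le_mul h2 (hb i) (abs_nonneg _) (by positivity)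
            rw [hF']
            push_cast
            have h6 : (0 : ℤ) ≤ M := by positivity
            have h7 : (0 : ℤ) ≤ F := by positivity
            nlinarith [mul_nonneg h6 (mul_nonneg h7 h7), mul_nonneg h7 h7]
          · intro j hj
            have h1 : ∑ i, ((∑ i, h i * A i a) * h' i + q * h i) * A i j =
                (∑ i, h i * A i a) * (∑ i, h' i * A i j) + q * ∑ i, h i * A i j := by
              rw [Finset.mul_sum, Finset.mul_sum, ← Finset.sum_add_distrib]
              exact Finset.sum_congr rfl fun i _ => by ring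
            rw [h1]
            rcases Finset.mem_insert.1 hj with rfl | hj
            · have h3 : (q : ℤ) = -∑ i, h' i * A i j := by
                rw [hq]
              rw [h3]
              linarith
            · exact add_nonneg (mul_nonneg hge (hs' j hj)) (mul_nonneg (by positivity) (hs j hj))
      rcases ih (fun i => q * u i - p * A i a) with ⟨k₀, hk, v, hv⟩ | ⟨h, hb, hs, hu⟩
      · obtain ⟨i, hi⟩ := hno (k₀ * q) (Nat.mul_pos hk hq1)
          (fun j => if j = a then k₀ * p else v j)
        apply hi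
        rw [Finset.sum_insert ha]
        have : ∑ x ∈ s, A i x * (((if x = a then k₀ * p else v x) : ℕ) : ℤ) =
            ∑ j ∈ s, A i j * (v j : ℤ) := by
          refine Finset.sum_congr rfl fun j hj => ?_
          rw [if_neg (ne_of_mem_of_not_mem hj ha)]
        rw [this, hv i]
        simp only [if_true]
        push_cast
        ring
      · have h1 := key h hb hs
        have h2 : ∑ i, h i * (q * u i - p * A i a) =
            q * (∑ i, h i * u i) - p * (∑ i, h i * A i a) := by
          rw [Finset.mul_sum, Finset.mul_sum, ← Finset.sum_sub_distrib]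
          exact Finset.sum_congr rfl fun i _ => by ring
        rw [h2] at hu
        linarith

theorem farkas {μ κ : Type} [Fintype μ] [Fintype κ] (M : ℕ) (A : μ → κ → ℤ) (u : μ → ℤ)
    (hm : Fintype.card μ ≤ M) (hn : Fintype.card κ ≤ M) (hA : ∀ i j, |A i j| ≤ M) :
    (∃ k₀ : ℕ, 1 ≤ k₀ ∧ ∃ v : κ → ℕ, ∀ i, ∑ j, A i j * (v j : ℤ) = k₀ * u i) ∨
    ∃ h : μ → ℤ, (∀ i, |h i| ≤ fk M) ∧ (∀ j, 0 ≤ ∑ i, h i * A i j) ∧ ∑ i, h i * u i < 0 := by
  classical
  rcases FAR_ind M A hm hA Finset.univ u with h | ⟨h, hb, hs, hu⟩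
  · exact Or.inl h
  · refine Or.inr ⟨h, fun i => (hb i).trans ?_, fun j => hs j (Finset.mem_univ j), hu⟩
    have h1 : FAR_b M (Finset.univ : Finset κ).card ≤ fk M := by
      rw [Finset.card_univ]
      have h2 := FAR_b_le M (M + 1)
      have h3 : FAR_b M (Fintype.card κ) ≤ FAR_b M (M + 1) := FAR_b_mono' M (by omega)
      have h4 : FAR_b M (M + 1) ≤ 2 * (M + 1) ^ 2 * FAR_b M (M + 1) := by
        nlinarith [Nat.one_le_pow 2 (M + 1) (Nat.succ_pos M)]
      exact h3.trans (h4.trans h2)
    exact_mod_cast h1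

end Pool.Agent.H24U
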