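import Mathlib

/-!
# Systems of linear equations as lists

An equation `((l, a), (l', b))` says: the sum of the variables in `l` plus `a` is the sum of the
variables in `l'` plus `b`. The variables in the list `nv` have given values.
-/

set_option autoImplicit false

namespace Pool.Agent.H24U

/-- equations -/
abbrev Eqn (V : Type) : Type := (List V × ℕ) × (List V × ℕ)

/-- systems of equations -/
abbrev Sys (V : Type) : Type := List (Eqn V)

/-- `v` solves the equation `e` (in `ℕ` or in the cardinals) -/
def Holds {V R : Type*} [AddMonoidWithOne R] (v : V → R) (e : (List V × ℕ) × (List V × ℕ)) : Prop :=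
  (e.1.1.map v).sum + (e.1.2 : R) = (e.2.1.map v).sum + (e.2.2 : R)

/-- the list of the occurrences of variables -/
def occ {V : Type} (E : Sys V) : List V := E.flatMap fun e => e.1.1 ++ e.2.1

/-- the system `E` has a solution with the given values `N` of the variables in `nv` -/
def Sol {V : Type} {R : Type*} [AddMonoidWithOne R] (nv : List V) (E : Sys V) (N : V → R) : Prop :=
  ∃ v : V → R, (∀ x ∈ nv, v x = N x) ∧ ∀ e ∈ E, Holds v e

/-- systems of size `M` -/
structure SmallSys {V : Type} (M : ℕ) (E : Sys V) : Prop where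
  len : E.length ≤ M
  occ : (occ E).length ≤ M
  const : ∀ e ∈ E, e.1.2 ≤ M ∧ e.2.2 ≤ M

theorem Sol.congr {V : Type} {R : Type*} [AddMonoidWithOne R] {nv : List V} {E : Sys V}
    {N N' : V → R} (h : ∀ x ∈ nv, N x = N' x) : Sol nv E N ↔ Sol nv E N' := by
  constructor <;> rintro ⟨v, h1, h2⟩
  · exact ⟨v, fun x hx => (h1 x hx).trans (h x hx), h2⟩
  · exact ⟨v, fun x hx => (h1 x hx).trans (h x hx).symm, h2⟩

end Pool.Agent.H24U
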