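import Pool.Agent.Lib.H24U.Bound
import Pool.Agent.Lib.H24U.Sys

/-!
# Chunk BTL: the bound for systems given by lists

Apply `bound_main` with the bound `2 * M`, `ι = ↥(nv ++ occ EI).toFinset`, `ν = Fin EI.length`,
`E i x = count x l - count x l'`, `e i = b - a` for the `i`-th equation `((l, a), (l', b))`
(`Finset.sum_list_map_count`: `(l.map v).sum = Σ_{x ∈ l.toFinset} l.count x • v x`, then extend the
sum to a bigger finite set). For `F ∈ J` let `p w` say that `F` has a solution `v` with `v x = w x`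
for `x ∈ nv`: `IsJ (2 * M) p` with `μ = Fin F.length`, `κ` = the variables of `F` which are not in
`nv`, `C i x = - (count x l - count x l')` for `x ∈ nv` and `0` otherwise, `c i = b - a`.
-/

set_option autoImplicit false

namespace Pool.Agent.H24U

/-- the coefficient of `x` in the equation `e` -/
def btl_cc {V : Type} [DecidableEq V] (x : V) (e : Eqn V) : ℤ :=
  (e.1.1.count x : ℤ) - (e.2.1.count x : ℤ)

theorem btl_cc_abs {V : Type} [DecidableEq V] (M : ℕ) (x : V) (E : Sys V)
    (h : (occ E).length ≤ M) (e : Eqn V) (he : e ∈ E) : |btl_cc x e| ≤ M := by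
  have h1 : (e.1.1 ++ e.2.1).length ≤ (occ E).length := by
    rw [occ, List.length_flatMap]
    exact List.single_le_sum (fun _ _ => Nat.zero_le _) _ (List.mem_map.2 ⟨e, he, rfl⟩)
  rw [List.length_append] at h1
  have h2 : e.1.1.count x ≤ e.1.1.length := List.count_le_length
  have h3 : e.2.1.count x ≤ e.2.1.length := List.count_le_length
  rw [btl_cc, abs_le]
  constructor <;> omega

theorem btl_sum {V : Type} [DecidableEq V] (v : V → ℕ) (l : List V) (S : Finset V)
    (hS : ∀ x ∈ l, x ∈ S) : (((l.map v).sum : ℕ) : ℤ) = ∑ x ∈ S, (l.count x : ℤ) * (v x : ℤ) := by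
  induction l with
  | nil => simp
  | cons a l ih =>
    have h1 := ih (fun x hx => hS x (List.mem_cons_of_mem _ hx))
    have h2 : ∀ x, ((List.count x (a :: l) : ℕ) : ℤ) = (l.count x : ℤ) + if x = a then 1 else 0 := by
      intro x
      rw [List.count_cons]
      by_cases h : x = a
      · simp [h]
      · simp [h, Ne.symm h]
    simp only [h2, add_mul, Finset.sum_add_distrib, List.map_cons, List.sum_cons]
    push_cast at h1 ⊢
    rw [h1, add_comm]
    congr 1
    simp [Finset.sum_ite_eq', hS a (List.mem_cons_self ..)]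

theorem btl_holds {V : Type} [DecidableEq V] (v : V → ℕ) (e : Eqn V) (S : Finset V)
    (hS : ∀ x ∈ e.1.1 ++ e.2.1, x ∈ S) :
    Holds v e ↔ ∑ x ∈ S, btl_cc x e * (v x : ℤ) = (e.2.2 : ℤ) - (e.1.2 : ℤ) := by
  have h1 := btl_sum v e.1.1 S (fun x hx => hS x (List.mem_append_left _ hx))
  have h2 := btl_sum v e.2.1 S (fun x hx => hS x (List.mem_append_right _ hx))
  have h3 : ∑ x ∈ S, btl_cc x e * (v x : ℤ) =
      ∑ x ∈ S, (e.1.1.count x : ℤ) * (v x : ℤ) - ∑ x ∈ S, (e.2.1.count x : ℤ) * (v x : ℤ) := by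
    rw [← Finset.sum_sub_distrib]
    refine Finset.sum_congr rfl fun x _ => ?_
    rw [btl_cc, sub_mul]
  rw [h3, ← h1, ← h2, Holds]
  simp only [Nat.cast_id]
  omega

/-- extension by `0` of a function on a finite set -/
def btl_ext {V : Type} [DecidableEq V] (S : Finset V) (w : S → ℕ) (x : V) : ℕ :=
  if h : x ∈ S then w ⟨x, h⟩ else 0

theorem btl_ext_mem {V : Type} [DecidableEq V] (S : Finset V) (w : S → ℕ) (x : S) :
    btl_ext S w x = w x := by
  rw [btl_ext, dif_pos x.2]

theorem btl_isJ {V : Type} [DecidableEq V] (M : ℕ) (nv : List V) (S : Finset V)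
    (hS : ∀ x ∈ nv, x ∈ S) (E : Sys V) (hE : SmallSys M E) :
    IsJ (2 * M) (fun w : S → ℕ => Sol nv E (btl_ext S w)) := by
  classical
  set T : Finset V := (occ E).toFinset.filter (fun x => x ∉ nv) with hT
  have hocc : ∀ e ∈ E, ∀ x ∈ e.1.1 ++ e.2.1, x ∈ (occ E).toFinset := by
    intro e he x hx
    rw [List.mem_toFinset, occ, List.mem_flatMap]
    exact ⟨e, he, hx⟩
  have hzero : ∀ e ∈ E, ∀ x, x ∉ (occ E).toFinset → btl_cc x e = 0 := by
    intro e he x hx
    have h1 : x ∉ e.1.1 ++ e.2.1 := fun h => hx (hocc e he x h)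
    rw [List.mem_append, not_or] at h1
    rw [btl_cc, List.count_eq_zero_of_not_mem h1.1, List.count_eq_zero_of_not_mem h1.2]
    simp
  -- splitting of the equation
  have hsplit : ∀ e ∈ E, ∀ v : V → ℕ, Holds v e ↔
      ∑ x ∈ T, btl_cc x e * (v x : ℤ) + ∑ x ∈ S, (if x ∈ nv then btl_cc x e * (v x : ℤ) else 0) =
        (e.2.2 : ℤ) - (e.1.2 : ℤ) := by
    intro e he v
    rw [btl_holds v e (S ∪ (occ E).toFinset)
      (fun x hx => Finset.mem_union_right _ (hocc e he x hx))]
    rw [← Finset.sum_filter_add_sum_filter_not (S ∪ (occ E).toFinset) (fun x => x ∉ nv)]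
    have e1 : ∑ x ∈ (S ∪ (occ E).toFinset).filter (fun x => x ∉ nv), btl_cc x e * (v x : ℤ) =
        ∑ x ∈ T, btl_cc x e * (v x : ℤ) := by
      symm
      apply Finset.sum_subset
      · rw [hT]
        exact Finset.filter_subset_filter _ Finset.subset_union_right
      · intro x hx hx'
        rw [hT, Finset.mem_filter, not_and] at hx'
        rw [Finset.mem_filter] at hx
        have h1 : x ∉ (occ E).toFinset := fun h => hx' h hx.2
        rw [hzero e he x h1, zero_mul]
    have e2 : ∑ x ∈ (S ∪ (occ E).toFinset).filter (fun x => ¬ (x ∉ nv)), btl_cc x e * (v x : ℤ) =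
        ∑ x ∈ S, (if x ∈ nv then btl_cc x e * (v x : ℤ) else 0) := by
      rw [← Finset.sum_filter]
      apply Finset.sum_congr _ (fun _ _ => rfl)
      ext x
      simp only [Finset.mem_filter, Finset.mem_union, not_not]
      constructor
      · rintro ⟨_, h⟩
        exact ⟨hS x h, h⟩
      · rintro ⟨h1, h2⟩
        exact ⟨Or.inl h1, h2⟩
    rw [e1, e2]
  refine ⟨Fin E.length, T, inferInstance, inferInstance,
    fun i j => btl_cc (j : V) (E.get i),
    fun i x => if (x : V) ∈ nv then - btl_cc (x : V) (E.get i) else 0,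
    fun i => ((E.get i).2.2 : ℤ) - ((E.get i).1.2 : ℤ), ?_, ?_, ?_, ?_, ?_, ?_⟩
  · rw [Fintype.card_fin]
    exact hE.len.trans (by omega)
  · rw [Fintype.card_coe]
    calc T.card ≤ (occ E).toFinset.card := Finset.card_filter_le _ _
      _ ≤ (occ E).length := List.toFinset_card_le _
      _ ≤ M := hE.occ
      _ ≤ 2 * M := by omega
  · intro i j
    have := btl_cc_abs M (j : V) E hE.occ (E.get i) (List.get_mem _ _)
    refine this.trans ?_
    push_cast
    omega
  · intro i x
    have := btl_cc_abs M (x : V) E hE.occ (E.get i) (List.get_mem _ _)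
    dsimp only
    split_ifs
    · rw [abs_neg]
      refine this.trans ?_
      push_cast
      omega
    · rw [abs_zero]
      positivity
  · intro i
    have := hE.const (E.get i) (List.get_mem _ _)
    rw [abs_le]
    push_cast
    constructor <;> omega
  · intro w
    constructor
    · rintro ⟨v, hv1, hv2⟩
      refine ⟨fun j => v j, fun i => ?_⟩
      have h1 := (hsplit (E.get i) (List.get_mem _ _) v).1 (hv2 _ (List.get_mem _ _))
      have h2 : ∑ x ∈ S, (if x ∈ nv then btl_cc x (E.get i) * (v x : ℤ) else 0) =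
          - ∑ x : S, (if (x : V) ∈ nv then - btl_cc (x : V) (E.get i) else 0) * (w x : ℤ) := by
        rw [← Finset.sum_coe_sort S, ← Finset.sum_neg_distrib]
        refine Finset.sum_congr rfl fun x _ => ?_
        by_cases h : (x : V) ∈ nv
        · rw [if_pos h, if_pos h, hv1 _ h, btl_ext_mem]
          ring
        · rw [if_neg h, if_neg h]
          ring
      rw [h2, ← Finset.sum_coe_sort T] at h1
      linarith
    · rintro ⟨u, hu⟩
      refine ⟨fun x => if x ∈ nv then btl_ext S w x else btl_ext T u x, fun x hx => if_pos hx, ?_⟩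
      intro e he
      obtain ⟨i, rfl⟩ := List.get_of_mem he
      rw [hsplit _ he]
      have h1 := hu i
      have h2 : ∑ x ∈ S, (if x ∈ nv then btl_cc x (E.get i) *
          ((if x ∈ nv then btl_ext S w x else btl_ext T u x : ℕ) : ℤ) else 0) =
          - ∑ x : S, (if (x : V) ∈ nv then - btl_cc (x : V) (E.get i) else 0) * (w x : ℤ) := by
        rw [← Finset.sum_coe_sort S, ← Finset.sum_neg_distrib]
        refine Finset.sum_congr rfl fun x _ => ?_
        by_cases h : (x : V) ∈ nv
        · rw [if_pos h, if_pos h, if_pos h, btl_ext_mem]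
          ring
        · rw [if_neg h, if_neg h]
          ring
      have h3 : ∑ x ∈ T, btl_cc x (E.get i) *
          ((if x ∈ nv then btl_ext S w x else btl_ext T u x : ℕ) : ℤ) =
          ∑ j : T, btl_cc (j : V) (E.get i) * (u j : ℤ) := by
        rw [← Finset.sum_coe_sort T]
        refine Finset.sum_congr rfl fun x _ => ?_
        have hx : (x : V) ∉ nv := (Finset.mem_filter.1 x.2).2
        rw [if_neg hx, btl_ext_mem]
      rw [h2, h3]
      linarith

theorem bound_list {V : Type} [DecidableEq V] (M : ℕ) (nv : List V) (hnv : nv.length ≤ M)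
    (EI : Sys V) (hI : SmallSys M EI) (J : Set (Sys V)) (hJ : ∀ E ∈ J, SmallSys M E) (N : V → ℕ)
    (h1 : Sol nv EI N) (h2 : ∀ E ∈ J, ¬ Sol nv E N) :
    ∃ N' : V → ℕ, (∀ x, N' x < 2 ^ 2 ^ bb (2 * M)) ∧ Sol nv EI N' ∧ ∀ E ∈ J, ¬ Sol nv E N' := by
  classical
  set S : Finset V := (nv ++ occ EI).toFinset with hSdef
  have hS : ∀ x ∈ nv, x ∈ S := by
    intro x hx
    rw [hSdef, List.mem_toFinset]
    exact List.mem_append_left _ hx
  have hSI : ∀ e ∈ EI, ∀ x ∈ e.1.1 ++ e.2.1, x ∈ S := by
    intro e he x hx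
    rw [hSdef, List.mem_toFinset]
    refine List.mem_append_right _ ?_
    rw [occ, List.mem_flatMap]
    exact ⟨e, he, hx⟩
  obtain ⟨v, hv1, hv2⟩ := h1
  set P : Set ((S → ℕ) → Prop) := {p | ∃ E ∈ J, p = fun w : S → ℕ => Sol nv E (btl_ext S w)} with hP
  obtain ⟨w', hw1, hw2, hw3⟩ := bound_main (ι := S) (ν := Fin EI.length) (2 * M) (by
      rw [Fintype.card_coe]
      calc S.card ≤ (nv ++ occ EI).length := List.toFinset_card_le _
        _ = nv.length + (occ EI).length := List.length_append
        _ ≤ 2 * M := by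
          have := hI.occ
          omega)
    (fun i x => btl_cc (x : V) (EI.get i))
    (fun i => ((EI.get i).2.2 : ℤ) - ((EI.get i).1.2 : ℤ)) (by
      intro i x
      have := btl_cc_abs M (x : V) EI hI.occ (EI.get i) (List.get_mem _ _)
      refine this.trans ?_
      push_cast
      omega) (by
      intro i
      have := hI.const (EI.get i) (List.get_mem _ _)
      rw [abs_le]
      push_cast
      constructor <;> omega) P (by
      rintro p ⟨E, hE, rfl⟩
      exact btl_isJ M nv S hS E (hJ E hE)) (fun x => v x) (by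
      intro i
      have h3 := (btl_holds v (EI.get i) S (hSI _ (List.get_mem _ _))).1 (hv2 _ (List.get_mem _ _))
      rw [← Finset.sum_coe_sort S] at h3
      exact h3) (by
      rintro p ⟨E, hE, rfl⟩ h3
      apply h2 E hE
      rwa [Sol.congr (N' := N)] at h3
      intro x hx
      rw [btl_ext, dif_pos (hS x hx)]
      exact hv1 x hx)
  refine ⟨btl_ext S w', fun x => ?_, ⟨btl_ext S w', fun x _ => rfl, fun e he => ?_⟩,
    fun E hE => hw3 _ ⟨E, hE, rfl⟩⟩
  · rw [btl_ext]
    split_ifs with h
    · exact (hw1 _).trans_lt (wb_lt _)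
    · positivity
  · obtain ⟨i, rfl⟩ := List.get_of_mem he
    rw [btl_holds _ _ S (hSI _ he), ← Finset.sum_coe_sort S]
    simp only [btl_ext_mem]
    exact hw2 i

end Pool.Agent.H24U
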