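import Pool.Agent.Lib.H24U.Level
import Pool.Agent.Lib.H24U.BoundList

/-!
# The arithmetical problem: one of the systems `I` is solvable and all systems `J` are unsolvable
-/

set_option autoImplicit false

namespace Pool.Agent.H24U

open Cardinal

theorem SmallSys.redL {V : Type} {M : ℕ} {E : Sys V} (h : SmallSys M E) (lv : V → ℕ) :
    SmallSys M (redL lv E) where
  len := (List.length_filter_le _ _).trans h.len
  occ := by
    refine le_trans ?_ h.occ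
    exact (List.Sublist.flatMap List.filter_sublist _).length_le
  const := fun e he => h.const e (List.mem_of_mem_filter he)

/-- completeness: levels and bounded values from cardinals -/
theorem ap_complete {V : Type} [DecidableEq V] (M : ℕ) (nv : List V) (hnv : nv.length ≤ M)
    (I J : List (Sys V)) (hI : ∀ E ∈ I, SmallSys M E) (hJ : ∀ E ∈ J, SmallSys M E)
    (h : ∃ N : V → Cardinal.{0}, (∃ E ∈ I, Sol nv E N) ∧ ∀ E ∈ J, ¬ Sol nv E N) :
    ∃ lam N : V → ℕ, (∀ x, lam x ≤ nv.length ∧ N x < 2 ^ 2 ^ bb (2 * M)) ∧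
      (∃ E ∈ I, SolL nv E (nv.length + 1) lam N) ∧
      ∀ E ∈ J, ¬ SolL nv E (nv.length + 1) lam N := by
  obtain ⟨N, ⟨E₀, hE₀, h1⟩, h2⟩ := h
  obtain ⟨lam, Nf, hlam, hcol⟩ := collapse nv N
  have hs : ∀ (E : Sys V) (N : V → ℕ), Sol nv E (fun x => cv (lam x) (N x)) ↔
      SolL nv E (nv.length + 1) lam N := fun E N =>
    sol_cv nv E (nv.length + 1) (by omega) lam N (fun x _ => (hlam x).trans (by omega))
  rw [hcol, hs] at h1
  obtain ⟨lv, a1, a2, a3, a4⟩ := h1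
  let 𝓙 : Set (Sys V) := {F | ∃ E ∈ J, ∃ lv : V → ℕ, (∀ x ∈ nv, lv x = lam x) ∧
    (∀ x, lv x ≤ nv.length + 1) ∧ consL lv E = true ∧ F = redL lv E}
  obtain ⟨N', b1, b2, b3⟩ := bound_list M nv hnv (redL lv E₀) ((hI E₀ hE₀).redL lv) 𝓙
    (by
      rintro F ⟨E, hE, lv', -, -, -, rfl⟩
      exact (hJ E hE).redL lv')
    Nf a4 (by
      rintro F ⟨E, hE, lv', c1, c2, c3, rfl⟩ hF
      apply h2 E hE
      rw [hcol, hs]
      exact ⟨lv', c1, c2, c3, hF⟩)
  refine ⟨lam, N', fun x => ⟨hlam x, b1 x⟩, ⟨E₀, hE₀, lv, a1, a2, a3, b2⟩, ?_⟩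
  rintro E hE ⟨lv', c1, c2, c3, c4⟩
  exact b3 (redL lv' E) ⟨E, hE, lv', c1, c2, c3, rfl⟩ c4

/-- soundness: cardinals from levels and values -/
theorem ap_sound {V : Type} (nv : List V) (I J : List (Sys V)) (lam N : V → ℕ)
    (hlam : ∀ x ∈ nv, lam x ≤ nv.length + 1)
    (hI : ∃ E ∈ I, SolL nv E (nv.length + 1) lam N)
    (hJ : ∀ E ∈ J, ¬ SolL nv E (nv.length + 1) lam N) :
    ∃ N : V → Cardinal.{0}, (∃ E ∈ I, Sol nv E N) ∧ ∀ E ∈ J, ¬ Sol nv E N := by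
  obtain ⟨E, hE, h1⟩ := hI
  have hs : ∀ E : Sys V, Sol nv E (fun x => cv (lam x) (N x)) ↔
      SolL nv E (nv.length + 1) lam N := fun E =>
    sol_cv nv E (nv.length + 1) (by omega) lam N hlam
  exact ⟨fun x => cv (lam x) (N x), ⟨E, hE, (hs E).2 h1⟩, fun E hE h => hJ E hE ((hs E).1 h)⟩

theorem SolL.congr {V : Type} {nv : List V} {E : Sys V} {K : ℕ} {lam N lam' N' : V → ℕ}
    (h : ∀ x ∈ nv, lam x = lam' x ∧ N x = N' x) : SolL nv E K lam N ↔ SolL nv E K lam' N' := by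
  constructor
  · rintro ⟨lv, h1, h2, h3, h4⟩
    exact ⟨lv, fun x hx => (h1 x hx).trans (h x hx).1, h2, h3,
      (Sol.congr fun x hx => (h x hx).2).1 h4⟩
  · rintro ⟨lv, h1, h2, h3, h4⟩
    exact ⟨lv, fun x hx => (h1 x hx).trans (h x hx).1.symm, h2, h3,
      (Sol.congr fun x hx => (h x hx).2).2 h4⟩

end Pool.Agent.H24U
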