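import Pool.Agent.Lib.H24U.NeedCard

/-!
# Chunks ATT (attach) and MAT (matching)

ATT: for `θ, θ' ∈ Θ` the inequality and `need_card` give an injection `j` of
`Σ y : {y // τ y = θ'}, Fin (mult (u y) θ)` into `{x // τ x = θ ∧ s x = (1, [θ'])}`. Let `a x` be the
first component of the preimage of `x` if `x` is in the image, and any element of type `θ'` else (it
exists: `s x = (1, [θ'])` is a possible status, so `1 ≤ sup θ'`). For `u y = (3, π)` the list `w` has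
the entries `j (y, number of earlier occurrences of π_k in π)` for the positions `k` of `π`.
MAT: choose bijections for all pairs `θ, θ' ∈ Θ`.
-/

set_option autoImplicit false

namespace Pool.Agent.H24U

open Cardinal

theorem ATT_list {Δ V : Type} [BEq V] [LawfulBEq V] (τ : Δ → V) (π : List V)
    (S : V → Finset Δ) (hS : ∀ θ, ∀ x ∈ S θ, τ x = θ) (hc : ∀ θ ∈ π, π.count θ ≤ (S θ).card) :
    ∃ w : List Δ, w.Nodup ∧ w.map τ = π ∧ ∀ x ∈ w, x ∈ S (τ x) := by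
  classical
  induction π generalizing S with
  | nil => exact ⟨[], List.nodup_nil, rfl, fun x hx => by simp at hx⟩
  | cons θ π ih =>
    have h1 := hc θ List.mem_cons_self
    rw [List.count_cons_self] at h1
    obtain ⟨x0, hx0⟩ : (S θ).Nonempty := Finset.card_pos.mp (by omega)
    set S' : V → Finset Δ := fun θ' => (S θ').erase x0 with hS'
    obtain ⟨w, hw1, hw2, hw3⟩ := ih S' (fun θ' x hx => hS θ' x (Finset.mem_of_mem_erase hx)) (by
      intro θ' hθ'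
      by_cases h : θ' = θ
      · subst h
        rw [hS', Finset.card_erase_of_mem hx0]
        omega
      · have h2 := hc θ' (List.mem_cons_of_mem _ hθ')
        rw [List.count_cons_of_ne (Ne.symm h)] at h2
        have h4 : S' θ' = S θ' := Finset.erase_eq_of_notMem fun h3 =>
          h ((hS θ' x0 h3).symm.trans (hS θ x0 hx0))
        rw [h4]
        exact h2)
    refine ⟨x0 :: w, List.nodup_cons.mpr ⟨fun h => ?_, hw1⟩, ?_, ?_⟩
    · exact absurd (hw3 x0 h) (Finset.notMem_erase _ _)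
    · rw [List.map_cons, hw2, hS θ x0 hx0]
    · intro x hx
      rcases List.mem_cons.mp hx with rfl | hx
      · rw [hS θ x hx0]
        exact hx0
      · exact Finset.mem_of_mem_erase (hw3 x hx)

theorem ATT_pos {Δ : Type} {s : ℕ} {τ' : Δ → Th} {θ : Th} (h : SupOk s (cnt τ' θ))
    (hs : 1 ≤ s) : ∃ x, τ' x = θ := by
  have h0 : cnt τ' θ ≠ 0 := by
    rcases h with ⟨h1, h2⟩ | ⟨h1, h2⟩
    · rw [h2, Nat.cast_ne_zero]
      omega
    · intro h3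
      rw [h3] at h2
      exact absurd h2 (not_le.mpr (by exact zero_lt_two))
  rw [cnt, Cardinal.mk_ne_zero_iff] at h0
  obtain ⟨x⟩ := h0
  exact ⟨x.1, x.2⟩

theorem ATT_mem3 {ρ : Rd} {Θ : List Th} {pats : List (List Th)} {sup : Th → ℕ} {θ : Th} {t : St}
    (h : t ∈ outSt ρ Θ pats sup θ) (h3 : t.1 = 3) : t.2 ∈ pats := by
  have h1 := (List.mem_filter.mp h).1
  unfold allSt at h1
  rw [List.mem_append, List.mem_append, List.mem_append] at h1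
  rcases h1 with ((h1 | h1) | h1) | h1
  · obtain ⟨a, -, rfl⟩ := List.mem_map.mp h1
    simp at h3
  · obtain ⟨a, -, rfl⟩ := List.mem_map.mp h1
    simp at h3
  · rw [List.mem_singleton] at h1
    subst h1
    simp at h3
  · obtain ⟨a, h2, rfl⟩ := List.mem_map.mp h1
    exact h2

theorem ATT_mem1 {ρ : Rd} {Θ : List Th} {pats : List (List Th)} {sup : Th → ℕ} {θ θ' : Th}
    (h : ((1, [θ']) : St) ∈ outSt ρ Θ pats sup θ) : θ' ∈ Θ ∧ 1 ≤ sup θ' := by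
  obtain ⟨h1, h2⟩ := List.mem_filter.mp h
  constructor
  · unfold allSt at h1
    rw [List.mem_append, List.mem_append, List.mem_append] at h1
    rcases h1 with ((h1 | h1) | h1) | h1
    · obtain ⟨a, -, ha⟩ := List.mem_map.mp h1
      simp at ha
    · obtain ⟨a, ha, hb⟩ := List.mem_map.mp h1
      simp only [Prod.mk.injEq, List.cons.injEq, and_true, true_and] at hb
      rwa [← hb]
    · simp at h1
    · obtain ⟨a, -, ha⟩ := List.mem_map.mp h1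
      simp at ha
  · simp [okSt] at h2
    exact h2.2

theorem attach {Δ : Type} (ρ : Rd) (Θ : List Th) (hΘ : Θ.Nodup) (pats : List (List Th)) (K : ℕ)
    (hp : PatsOk Θ pats K) (sup : Th → ℕ) (τ : Δ → Th) (hτ : ∀ x, τ x ∈ Θ)
    (hsup : ∀ θ ∈ Θ, SupOk (sup θ) (cnt τ θ)) (s u : Δ → St)
    (hs : ∀ x, s x ∈ outSt ρ Θ pats sup (τ x))
    (hu : ∀ y, u y ∈ outSt (rflip ρ) Θ pats sup (τ y))
    (h : ∀ θ ∈ Θ, ∀ θ' ∈ Θ,
      ((need (rflip ρ) Θ pats sup θ' θ).map fun t => #{y // τ y = θ' ∧ u y = t}).sum ≤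
        #{x // τ x = θ ∧ s x = (1, [θ'])}) :
    ∃ a : Δ → Δ, (∀ x θ', s x = (1, [θ']) → τ (a x) = θ') ∧
      ∀ y, (u y).1 = 3 → ∃ w : List Δ, w.Nodup ∧ w.map τ = (u y).2 ∧
        ∀ x ∈ w, s x = (1, [τ y]) ∧ a x = y := by
  classical
  have h' : ∀ θ, θ ∈ Θ → ∀ θ', θ' ∈ Θ →
      Nonempty ((Σ y : {y // τ y = θ'}, Fin (mult (u y.1) θ)) ↪
        {x // τ x = θ ∧ s x = (1, [θ'])}) := by
    intro θ hθ θ' hθ'
    have h1 := h θ hθ θ' hθ'
    rw [need_card (rflip ρ) Θ hΘ pats hp.nodup sup τ u hu θ' θ] at h1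
    exact (Cardinal.le_def _ _).mp h1
  have J := h'
  let A : Δ → Δ → Prop := fun x y => ∃ (θ : Th) (hθ : θ ∈ Θ) (θ' : Th) (hθ' : θ' ∈ Θ)
    (p : Σ y : {y // τ y = θ'}, Fin (mult (u y.1) θ)),
      ((J θ hθ θ' hθ').some p).1 = x ∧ p.1.1 = y
  have hA1 : ∀ x y, A x y → s x = (1, [τ y]) := by
    rintro x y ⟨θ, hθ, θ', hθ', p, rfl, rfl⟩
    rw [p.1.2]
    exact ((J θ hθ θ' hθ').some p).2.2
  have hA2 : ∀ x y z, A x y → A x z → y = z := by
    rintro x y z ⟨θ, hθ, θ', hθ', p, h1, rfl⟩ ⟨θ₂, hθ₂, θ₂', hθ₂', p₂, h2, rfl⟩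
    have e1 : θ = θ₂ := by
      rw [← ((J θ hθ θ' hθ').some p).2.1, ← ((J θ₂ hθ₂ θ₂' hθ₂').some p₂).2.1, h1, h2]
    have e2 : θ' = θ₂' := by
      have h3 := ((J θ hθ θ' hθ').some p).2.2
      have h4 := ((J θ₂ hθ₂ θ₂' hθ₂').some p₂).2.2
      rw [h1] at h3
      rw [h2, h3] at h4
      simpa using h4
    subst e1
    subst e2
    have h3 : p = p₂ := (J θ hθ θ' hθ').some.injective (Subtype.ext (h1.trans h2.symm))
    rw [h3]
  have hex : ∀ x, ∃ b, (∀ y, A x y → b = y) ∧ ∀ θ', s x = (1, [θ']) → τ b = θ' := by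
    intro x
    by_cases hy : ∃ y, A x y
    · obtain ⟨y, hy⟩ := hy
      refine ⟨y, fun z hz => hA2 x y z hy hz, fun θ' hθ' => ?_⟩
      have h1 := hA1 x y hy
      rw [hθ'] at h1
      simp only [Prod.mk.injEq, List.cons.injEq, and_true, true_and] at h1
      exact h1.symm
    · by_cases ht : ∃ θ', s x = (1, [θ'])
      · obtain ⟨θ', hθ'⟩ := ht
        have h1 := hs x
        rw [hθ'] at h1
        obtain ⟨h2, h3⟩ := ATT_mem1 h1
        obtain ⟨b, hb⟩ := ATT_pos (hsup θ' h2) h3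
        refine ⟨b, fun y hy' => absurd ⟨y, hy'⟩ hy, fun θ'' hθ'' => ?_⟩
        rw [hθ'] at hθ''
        simp only [Prod.mk.injEq, List.cons.injEq, and_true, true_and] at hθ''
        rw [hb, hθ'']
      · exact ⟨x, fun y hy' => absurd ⟨y, hy'⟩ hy, fun θ'' hθ'' => absurd ⟨θ'', hθ''⟩ ht⟩
  choose a ha1 ha2 using hex
  refine ⟨a, ha2, fun y hy => ?_⟩
  have hπ := (hp.mem _).mp (ATT_mem3 (hu y) hy)
  let S : Th → Finset Δ := fun θ => if hθ : θ ∈ Θ then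
    Finset.univ.image fun i : Fin (mult (u y) θ) => ((J θ hθ (τ y) (hτ y)).some ⟨⟨y, rfl⟩, i⟩).1
    else ∅
  have hS : ∀ θ, ∀ x ∈ S θ, τ x = θ ∧ A x y := by
    intro θ x hx
    by_cases hθ : θ ∈ Θ
    · simp only [S, dif_pos hθ, Finset.mem_image] at hx
      obtain ⟨i, -, rfl⟩ := hx
      exact ⟨((J θ hθ (τ y) (hτ y)).some ⟨⟨y, rfl⟩, i⟩).2.1, θ, hθ, τ y, hτ y, ⟨⟨y, rfl⟩, i⟩,
        rfl, rfl⟩
    · simp only [S, dif_neg hθ] at hx
      simp at hx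
  obtain ⟨w, hw1, hw2, hw3⟩ := ATT_list τ (u y).2 S (fun θ x hx => (hS θ x hx).1) (by
    intro θ hθ
    have hθ' := hπ.2 θ hθ
    simp only [S, dif_pos hθ']
    rw [Finset.card_image_of_injective _ (by
      intro i j hij
      have h1 := (J θ hθ' (τ y) (hτ y)).some.injective (Subtype.ext hij)
      simpa using h1), Finset.card_univ, Fintype.card_fin, mult, if_pos hy])
  refine ⟨w, hw1, hw2, fun x hx => ?_⟩
  have h1 := (hS _ x (hw3 x hx)).2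
  exact ⟨hA1 x y h1, ha1 x y h1⟩

theorem matching {Δ : Type} (Θ : List Th) (τ : Δ → Th) (hτ : ∀ x, τ x ∈ Θ) (s u : Δ → St)
    (hs : ∀ x θ', s x = (0, [θ']) → θ' ∈ Θ) (hu : ∀ y θ, u y = (0, [θ]) → θ ∈ Θ)
    (h : ∀ θ ∈ Θ, ∀ θ' ∈ Θ,
      #{x // τ x = θ ∧ s x = (0, [θ'])} = #{y // τ y = θ' ∧ u y = (0, [θ])}) :
    ∃ M : Δ → Δ → Prop, (∀ x y, M x y → s x = (0, [τ y]) ∧ u y = (0, [τ x])) ∧
      (∀ x θ', s x = (0, [θ']) → ∃ y, M x y) ∧ (∀ y θ, u y = (0, [θ]) → ∃ x, M x y) ∧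
      (∀ x y z, M x y → M x z → y = z) ∧ ∀ x y z, M x y → M z y → x = z := by
  have h' : ∀ θ, θ ∈ Θ → ∀ θ', θ' ∈ Θ → Nonempty ({x // τ x = θ ∧ s x = (0, [θ'])} ≃
      {y // τ y = θ' ∧ u y = (0, [θ])}) :=
    fun θ hθ θ' hθ' => Cardinal.eq.mp (h θ hθ θ' hθ')
  have e := h'
  refine ⟨fun x y => ∃ (θ : Th) (hθ : θ ∈ Θ) (θ' : Th) (hθ' : θ' ∈ Θ)
    (hx : τ x = θ ∧ s x = (0, [θ'])), ((e θ hθ θ' hθ').some ⟨x, hx⟩).1 = y, ?_, ?_, ?_, ?_, ?_⟩
  · rintro x y ⟨θ, hθ, θ', hθ', ⟨rfl, hx⟩, rfl⟩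
    have h1 := ((e (τ x) hθ θ' hθ').some ⟨x, rfl, hx⟩).2
    exact ⟨by rw [h1.1, hx], h1.2⟩
  · intro x θ' hx
    exact ⟨_, τ x, hτ x, θ', hs x θ' hx, ⟨rfl, hx⟩, rfl⟩
  · intro y θ hy
    refine ⟨((e θ (hu y θ hy) (τ y) (hτ y)).some.symm ⟨y, rfl, hy⟩).1, θ, hu y θ hy, τ y, hτ y,
      ((e θ (hu y θ hy) (τ y) (hτ y)).some.symm ⟨y, rfl, hy⟩).2, ?_⟩
    rw [Subtype.coe_eta, Equiv.apply_symm_apply]
  · rintro x y z ⟨θ, hθ, θ', hθ', ⟨rfl, hx⟩, rfl⟩ ⟨θ₂, hθ₂, θ₂', hθ₂', ⟨rfl, hx₂⟩, rfl⟩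
    have e1 : θ' = θ₂' := by
      rw [hx] at hx₂
      simpa using hx₂
    subst e1
    rfl
  · rintro x y z ⟨θ, hθ, θ', hθ', hx, h1⟩ ⟨θ₂, hθ₂, θ₂', hθ₂', hz, h2⟩
    have h3 := ((e θ hθ θ' hθ').some ⟨x, hx⟩).2
    have h4 := ((e θ₂ hθ₂ θ₂' hθ₂').some ⟨z, hz⟩).2
    rw [h1] at h3
    rw [h2] at h4
    have e1 : θ' = θ₂' := h3.1.symm.trans h4.1
    have e2 : θ = θ₂ := by
      have h5 := h3.2.symm.trans h4.2
      simpa using h5
    subst e1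
    subst e2
    have h5 : (⟨x, hx⟩ : {x // τ x = θ ∧ s x = (0, [θ'])}) = ⟨z, hz⟩ :=
      (e θ hθ θ' hθ').some.injective (Subtype.ext (h1.trans h2.symm))
    exact congrArg Subtype.val h5

end Pool.Agent.H24U
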