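import Mathlib

/-!
# Chunk SML: small natural solutions of systems of inequalities

Any (also infinite) system of inequalities `Σ c i * x i ≤ r` with integral `c i`, `r` bounded by `H`
which has a natural solution has a small one.

Proof by induction on `k`. Write `x = (x', t)` where `t` is the last coordinate, minimal for the
given `x'`. If `t = 0`, apply the induction hypothesis. Otherwise `t - 1` violates an inequality
`(c', γ; r)`: `c' x' + γ t ≤ r < c' x' + γ (t - 1)`, so `a = - γ ≥ 1` and
`s = r - c' x' - γ t` has `0 ≤ s < a`. Put `ρ = x' % a`, `z = x' / a` (coordinatewise); then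
`c' ρ - r + s = a κ` for an integer `κ`, `|κ| ≤ (k + 1) H + 1`, and `t = κ + c' z`. The inequality
`(d', δ; r')` says `(a d' + δ c') z ≤ r' - d' ρ - δ κ`; together with `(- c') z ≤ κ` (i.e.
`0 ≤ t`) this is a system for `z` with bound `(2 k + 3) H ^ 2`. A small solution `z` gives the small
solution `(ρ + a z, κ + c' z)`.
-/

set_option autoImplicit false

namespace Pool.Agent.H24U

/-- the bound for the small solutions -/
def ss : ℕ → ℕ → ℕ
  | 0, _ => 0
  | k + 1, H => (2 * k + 3) * H * (ss k ((2 * k + 3) * H ^ 2) + 1)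

theorem ss_mono (k : ℕ) : ∀ {H H' : ℕ}, H ≤ H' → ss k H ≤ ss k H' := by
  induction k with
  | zero => intro H H' _; simp [ss]
  | succ k ih =>
    intro H H' h
    simp only [ss]
    have h2 : (2 * k + 3) * H ^ 2 ≤ (2 * k + 3) * H' ^ 2 := by gcongr
    have h1 := ih h2
    gcongr

theorem small_fin_aux_bd {k : ℕ} {B C : ℕ} (c : Fin k → ℤ) (v : Fin k → ℕ)
    (hc : ∀ i, |c i| ≤ B) (hv : ∀ i, v i ≤ C) : |∑ i, c i * (v i : ℤ)| ≤ k * (B * C) := by
  calc |∑ i, c i * (v i : ℤ)| ≤ ∑ i, |c i * (v i : ℤ)| := Finset.abs_sum_le_sum_abs _ _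
    _ ≤ ∑ _i : Fin k, ((B : ℤ) * C) := by
        apply Finset.sum_le_sum
        intro i _
        rw [abs_mul]
        have h1 : |(v i : ℤ)| ≤ C := by
          rw [abs_of_nonneg (by positivity)]
          exact_mod_cast hv i
        have := hc i
        gcongr
    _ = k * (B * C) := by simp

theorem small_fin (k : ℕ) : ∀ (H : ℕ), 1 ≤ H → ∀ (R : Set ((Fin k → ℤ) × ℤ)),
    (∀ c ∈ R, (∀ i, |c.1 i| ≤ H) ∧ |c.2| ≤ H) → ∀ (x : Fin k → ℕ),
    (∀ c ∈ R, ∑ i, c.1 i * (x i : ℤ) ≤ c.2) →
    ∃ y : Fin k → ℕ, (∀ i, y i ≤ ss k H) ∧ ∀ c ∈ R, ∑ i, c.1 i * (y i : ℤ) ≤ c.2 := by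
  induction k with
  | zero =>
    intro H hH R hR x hx
    exact ⟨x, fun i => i.elim0, hx⟩
  | succ k ih =>
    intro H hH R hR x hx
    classical
    have hex : ∃ t : ℕ, ∀ c ∈ R,
        c.1 0 * (t : ℤ) + ∑ i : Fin k, c.1 i.succ * (x i.succ : ℤ) ≤ c.2 :=
      ⟨x 0, fun c hc => by
        have := hx c hc
        rwa [Fin.sum_univ_succ] at this⟩
    obtain ⟨t, ht, htmin⟩ : ∃ t : ℕ, (∀ c ∈ R,
        c.1 0 * (t : ℤ) + ∑ i : Fin k, c.1 i.succ * (x i.succ : ℤ) ≤ c.2) ∧
        ∀ t' < t, ¬ ∀ c ∈ R,
          c.1 0 * (t' : ℤ) + ∑ i : Fin k, c.1 i.succ * (x i.succ : ℤ) ≤ c.2 :=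
      ⟨Nat.find hex, Nat.find_spec hex, fun t' ht' => Nat.find_min hex ht'⟩
    have hH1 : (1 : ℤ) ≤ H := by exact_mod_cast hH
    have hHH : H ≤ (2 * k + 3) * H ^ 2 := by nlinarith [Nat.zero_le (k * H ^ 2)]
    have hk0 : (0 : ℤ) ≤ k := by positivity
    rcases Nat.eq_zero_or_pos t with rfl | htpos
    · obtain ⟨y, hy1, hy2⟩ := ih H hH {c | ∃ d ∈ R, c = (fun i => d.1 i.succ, d.2)}
        (by
          rintro c ⟨d, hd, rfl⟩
          exact ⟨fun i => (hR d hd).1 _, (hR d hd).2⟩) (fun i => x i.succ)
        (by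
          rintro c ⟨d, hd, rfl⟩
          have := ht d hd
          simpa using this)
      refine ⟨Fin.cons 0 y, ?_, ?_⟩
      · intro i
        refine Fin.cases ?_ (fun i => ?_) i
        · simp
        · simp only [Fin.cons_succ, ss]
          have h1 := hy1 i
          have h2 := ss_mono k hHH
          have h3 : 1 ≤ (2 * k + 3) * H := by nlinarith
          calc y i ≤ ss k ((2 * k + 3) * H ^ 2) + 1 := by omega
            _ = 1 * (ss k ((2 * k + 3) * H ^ 2) + 1) := by ring
            _ ≤ _ := by gcongr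
      · intro c hc
        rw [Fin.sum_univ_succ]
        have := hy2 (fun i => c.1 i.succ, c.2) ⟨c, hc, rfl⟩
        simpa using this
    · -- the violated inequality
      have hviol := htmin (t - 1) (by omega)
      push Not at hviol
      obtain ⟨c, hc, hcv⟩ := hviol
      have hct := ht c hc
      have ht1 : ((t - 1 : ℕ) : ℤ) = (t : ℤ) - 1 := by
        push_cast [Nat.cast_sub htpos]
        ring
      rw [ht1] at hcv
      set S : ℤ := ∑ i : Fin k, c.1 i.succ * (x i.succ : ℤ) with hS
      have ha1 : 1 ≤ - c.1 0 := by nlinarith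
      obtain ⟨a, ha⟩ : ∃ a : ℕ, (a : ℤ) = - c.1 0 := ⟨(- c.1 0).toNat, by
        rw [Int.toNat_of_nonneg (by omega)]⟩
      have hapos : 1 ≤ a := by
        have : (1 : ℤ) ≤ a := by rw [ha]; exact ha1
        exact_mod_cast this
      have haH : a ≤ H := by
        have h1 := (hR c hc).1 0
        have : (a : ℤ) ≤ H := by
          rw [ha]
          exact (neg_le_abs _).trans h1
        exact_mod_cast this
      have hc0 : c.1 0 = - (a : ℤ) := by rw [ha]; ring
      rw [hc0] at hct hcv
      set ρ : Fin k → ℕ := fun i => x i.succ % a with hρ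
      set z : Fin k → ℕ := fun i => x i.succ / a with hz
      have hxz : ∀ i : Fin k, (x i.succ : ℤ) = ρ i + a * z i := by
        intro i
        have := Nat.mod_add_div (x i.succ) a
        have h2 : ((x i.succ % a + a * (x i.succ / a) : ℕ) : ℤ) = x i.succ := by rw [this]
        rw [← h2]
        push_cast
        rfl
      have hρa : ∀ i, ρ i ≤ a - 1 := fun i => by
        have := Nat.mod_lt (x i.succ) hapos
        simp only [hρ]
        omega
      set κ : ℤ := (t : ℤ) - ∑ i : Fin k, c.1 i.succ * (z i : ℤ) with hκ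
      have hsplit : ∀ d : Fin (k + 1) → ℤ, ∑ i : Fin k, d i.succ * (x i.succ : ℤ) =
          ∑ i : Fin k, d i.succ * (ρ i : ℤ) + a * ∑ i : Fin k, d i.succ * (z i : ℤ) := by
        intro d
        rw [Finset.mul_sum, ← Finset.sum_add_distrib]
        apply Finset.sum_congr rfl
        intro i _
        rw [hxz i]
        ring
      have haZ : (1 : ℤ) ≤ a := by exact_mod_cast hapos
      have haHZ : (a : ℤ) ≤ H := by exact_mod_cast haH
      have hρbd : ∀ d ∈ R, |∑ i : Fin k, d.1 i.succ * (ρ i : ℤ)| ≤ k * (H * (a - 1)) := by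
        intro d hd
        have := small_fin_aux_bd (B := H) (C := a - 1) (fun i => d.1 i.succ) ρ
          (fun i => (hR d hd).1 _) hρa
        rwa [Nat.cast_sub hapos, Nat.cast_one] at this
      have hκbd : |κ| ≤ (k + 1) * H + 1 := by
        -- a κ = c ρ - r + s with 0 ≤ s < a
        have h1 : (a : ℤ) * κ = ∑ i : Fin k, c.1 i.succ * (ρ i : ℤ) - c.2 +
            (c.2 - S + a * t) := by
          rw [hκ, hS, hsplit c.1]
          ring
        have h2 := abs_le.1 (hρbd c hc)
        have h3 := abs_le.1 (hR c hc).2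
        have h4 : |(a : ℤ) * κ| ≤ a * ((k + 1) * H + 1) := by
          rw [abs_le]
          have h5 : (k : ℤ) * (H * (a - 1)) = k * H * a - k * H := by ring
          have h6 : (0 : ℤ) ≤ k * H := by positivity
          have h7 : (H : ℤ) ≤ a * H := by nlinarith
          constructor
          · nlinarith
          · nlinarith
        rw [abs_mul, abs_of_pos (by linarith : (0 : ℤ) < a)] at h4
        exact le_of_mul_le_mul_left h4 (by linarith)
      set H' : ℕ := (2 * k + 3) * H ^ 2 with hH'
      have hH'Z : (H' : ℤ) = (2 * k + 3) * H ^ 2 := by rw [hH']; push_cast; ring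
      have hH'1 : 1 ≤ H' := le_trans hH hHH
      have hkH : (0 : ℤ) ≤ k * H ^ 2 := by positivity
      have hHsq : (H : ℤ) ≤ H ^ 2 := by nlinarith
      obtain ⟨y, hy1, hy2⟩ := ih H' hH'1
        ({e | ∃ d ∈ R, e = (fun i => a * d.1 i.succ + d.1 0 * c.1 i.succ,
          d.2 - ∑ i : Fin k, d.1 i.succ * (ρ i : ℤ) - d.1 0 * κ)} ∪
          {(fun i => - c.1 i.succ, κ)})
        (by
          rintro e (⟨d, hd, rfl⟩ | rfl)
          · constructor
            · intro i
              have h1 := (hR d hd).1 i.succ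
              have h2 := (hR d hd).1 0
              have h3 := (hR c hc).1 i.succ
              calc |(a : ℤ) * d.1 i.succ + d.1 0 * c.1 i.succ|
                  ≤ |(a : ℤ) * d.1 i.succ| + |d.1 0 * c.1 i.succ| := abs_add_le _ _
                _ = a * |d.1 i.succ| + |d.1 0| * |c.1 i.succ| := by
                    rw [abs_mul, abs_mul, abs_of_nonneg (by positivity : (0 : ℤ) ≤ a)]
                _ ≤ H * H + H * H := by gcongr
                _ ≤ H' := by rw [hH'Z]; nlinarith
            · have h1 := abs_le.1 (hρbd d hd)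
              have h2 := abs_le.1 (hR d hd).2
              have h3 : |d.1 0 * κ| ≤ H * ((k + 1) * H + 1) := by
                rw [abs_mul]
                have := (hR d hd).1 0
                gcongr
              have h3 := abs_le.1 h3
              have h5 : (k : ℤ) * (H * (a - 1)) ≤ k * H ^ 2 - k * H := by
                have : (k : ℤ) * H * a ≤ k * H * H := by gcongr
                nlinarith
              have h6 : (0 : ℤ) ≤ k * H := by positivity
              rw [abs_le, hH'Z]
              constructor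
              · nlinarith
              · nlinarith
          · constructor
            · intro i
              simp only [abs_neg]
              have := (hR c hc).1 i.succ
              have h2 : (H : ℤ) ≤ H' := by exact_mod_cast hHH
              linarith
            · simp only
              rw [hH'Z]
              have h6 : (k : ℤ) * H ≤ k * H ^ 2 := by nlinarith
              nlinarith)
        z
        (by
          rintro e (⟨d, hd, rfl⟩ | rfl)
          · simp only
            have h1 := ht d hd
            rw [hsplit d.1] at h1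
            have h2 : ∑ i : Fin k, ((a : ℤ) * d.1 i.succ + d.1 0 * c.1 i.succ) * (z i : ℤ) =
                a * ∑ i : Fin k, d.1 i.succ * (z i : ℤ) +
                d.1 0 * ∑ i : Fin k, c.1 i.succ * (z i : ℤ) := by
              rw [Finset.mul_sum, Finset.mul_sum, ← Finset.sum_add_distrib]
              exact Finset.sum_congr rfl fun i _ => by ring
            rw [h2, hκ]
            linarith [mul_sub (d.1 0) (t : ℤ) (∑ i : Fin k, c.1 i.succ * (z i : ℤ))]
          · simp only [neg_mul, Finset.sum_neg_distrib]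
            rw [hκ]
            have : (0 : ℤ) ≤ t := by positivity
            linarith)
      have hpos := hy2 (fun i => - c.1 i.succ, κ) (Or.inr rfl)
      simp only [neg_mul, Finset.sum_neg_distrib] at hpos
      obtain ⟨u, hu⟩ : ∃ u : ℕ, (u : ℤ) = κ + ∑ i : Fin k, c.1 i.succ * (y i : ℤ) :=
        ⟨(κ + ∑ i : Fin k, c.1 i.succ * (y i : ℤ)).toNat, by
          rw [Int.toNat_of_nonneg (by linarith)]⟩
      refine ⟨Fin.cons u (fun i => ρ i + a * y i), ?_, ?_⟩
      · intro i
        refine Fin.cases ?_ (fun i => ?_) i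
        · simp only [Fin.cons_zero, ss]
          rw [← hH']
          have h1 := small_fin_aux_bd (B := H) (C := ss k H') (fun i => c.1 i.succ) y
            (fun i => (hR c hc).1 _) hy1
          have h2 := (abs_le.1 h1).2
          have h3 := (abs_le.1 hκbd).2
          have h4 : (u : ℤ) ≤ ((2 * k + 3) * H * (ss k H' + 1) : ℕ) := by
            rw [hu]
            push_cast
            have h5 : (0 : ℤ) ≤ k * H * ss k H' := by positivity
            have h6 : (0 : ℤ) ≤ H * ss k H' := by positivity
            have h7 : (0 : ℤ) ≤ k * H := by positivity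
            nlinarith
          exact_mod_cast h4
        · simp only [Fin.cons_succ, ss]
          rw [← hH']
          have h1 := hρa i
          have h2 := hy1 i
          calc ρ i + a * y i ≤ H + H * ss k H' := by
                have : ρ i ≤ H := by omega
                gcongr
            _ = 1 * H * (ss k H' + 1) := by ring
            _ ≤ (2 * k + 3) * H * (ss k H' + 1) := by
                gcongr
                omega
      · intro d hd
        rw [Fin.sum_univ_succ]
        simp only [Fin.cons_zero, Fin.cons_succ]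
        have h1 := hy2 (fun i => a * d.1 i.succ + d.1 0 * c.1 i.succ,
          d.2 - ∑ i : Fin k, d.1 i.succ * (ρ i : ℤ) - d.1 0 * κ) (Or.inl ⟨d, hd, rfl⟩)
        simp only at h1
        have h2 : ∑ i : Fin k, ((a : ℤ) * d.1 i.succ + d.1 0 * c.1 i.succ) * (y i : ℤ) =
            a * ∑ i : Fin k, d.1 i.succ * (y i : ℤ) +
            d.1 0 * ∑ i : Fin k, c.1 i.succ * (y i : ℤ) := by
          rw [Finset.mul_sum, Finset.mul_sum, ← Finset.sum_add_distrib]
          exact Finset.sum_congr rfl fun i _ => by ring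
        have h3 : ∑ i : Fin k, d.1 i.succ * ((ρ i + a * y i : ℕ) : ℤ) =
            ∑ i : Fin k, d.1 i.succ * (ρ i : ℤ) + a * ∑ i : Fin k, d.1 i.succ * (y i : ℤ) := by
          rw [Finset.mul_sum, ← Finset.sum_add_distrib]
          exact Finset.sum_congr rfl fun i _ => by push_cast; ring
        rw [h2] at h1
        rw [h3, hu]
        linarith [mul_add (d.1 0) κ (∑ i : Fin k, c.1 i.succ * (y i : ℤ))]

theorem small_sol {ι : Type} [Fintype ι] (H : ℕ) (hH : 1 ≤ H) (R : Set ((ι → ℤ) × ℤ))
    (hR : ∀ c ∈ R, (∀ i, |c.1 i| ≤ H) ∧ |c.2| ≤ H) (x : ι → ℕ)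
    (hx : ∀ c ∈ R, ∑ i, c.1 i * (x i : ℤ) ≤ c.2) :
    ∃ y : ι → ℕ, (∀ i, y i ≤ ss (Fintype.card ι) H) ∧
      ∀ c ∈ R, ∑ i, c.1 i * (y i : ℤ) ≤ c.2 := by
  classical
  let e := Fintype.equivFin ι
  obtain ⟨y, hy1, hy2⟩ := small_fin (Fintype.card ι) H hH
    {c | ∃ d ∈ R, c = (fun i => d.1 (e.symm i), d.2)}
    (by
      rintro c ⟨d, hd, rfl⟩
      exact ⟨fun i => (hR d hd).1 _, (hR d hd).2⟩) (fun i => x (e.symm i))
    (by
      rintro c ⟨d, hd, rfl⟩
      simp only
      rw [Equiv.sum_comp e.symm (fun i => d.1 i * (x i : ℤ))]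
      exact hx d hd)
  refine ⟨fun i => y (e i), fun i => hy1 _, ?_⟩
  intro c hc
  have h := hy2 _ ⟨c, hc, rfl⟩
  simp only at h
  rw [← Equiv.sum_comp e] at h
  simpa using h

end Pool.Agent.H24U
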