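import Pool.Agent.Lib.H24U.Elim
import Pool.Agent.Lib.H24U.Small

/-!
# Chunks BND (bound_main) and NUM (ss_le, wb_lt): the bound for a system of linear equations with a
family of unsolvable systems

BND: write `w = ρ + D ω` with `D = dn M`, `ρ = w % D`, `ω = w / D`. Take the union `R` of the sets of
`elim` for all `p ∈ P` and of the inequalities `± Σ_x E i x * ω x ≤ ± (e i - Σ_x E i x * ρ x) / D`
(bounded by `M + M ^ 2 ≤ hb M`). `small_sol` gives `ω' ≤ ss (card ι) (hb M)`; take `w' = ρ + D ω'`.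

NUM: `ss_le` by induction on `k` (for a fixed larger constant: `k' ≤ k → ss k' H + 1 ≤
(2 * (2 * k + 3) * H) ^ 3 ^ k'`). `wb_lt`: `M ! * (M ^ 3) ^ M ≤ 2 ^ (4 * M ^ 2)`, so
`dn M ≤ 2 ^ 2 ^ (8 * M ^ 2)`; `fk M ≤ 2 ^ 2 ^ (3 * M + 4)`;
`2 * (2 * M + 3) * hb M ≤ 2 ^ 2 ^ (3 * M + 5)`; its power is at most `2 ^ 2 ^ (5 * M + 5)`.
-/

set_option autoImplicit false

namespace Pool.Agent.H24U

/-- `p` is the solvability of a system of size `M` for given values of the variables `ι` -/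
def IsJ {ι : Type} [Fintype ι] (M : ℕ) (p : (ι → ℕ) → Prop) : Prop :=
  ∃ (μ κ : Type) (_ : Fintype μ) (_ : Fintype κ) (A : μ → κ → ℤ) (C : μ → ι → ℤ) (c : μ → ℤ),
    Fintype.card μ ≤ M ∧ Fintype.card κ ≤ M ∧ (∀ i j, |A i j| ≤ M) ∧ (∀ i x, |C i x| ≤ M) ∧
    (∀ i, |c i| ≤ M) ∧ ∀ w, p w ↔ JSol A C c w

/-- the bound for the values -/
def wb (M : ℕ) : ℕ := dn M * (2 * (2 * M + 3) * hb M) ^ 3 ^ M

/-- the bound for the number of bits is `2 ^ bb M` -/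
def bb (M : ℕ) : ℕ := 8 * M ^ 2 + 5 * M + 7

theorem ss_le (k H : ℕ) (hH : 1 ≤ H) : ss k H + 1 ≤ (2 * (2 * k + 3) * H) ^ 3 ^ k := by
  induction k generalizing H with
  | zero => simp only [ss, pow_zero, pow_one]; omega
  | succ k ih =>
    have h1 := ih ((2 * k + 3) * H ^ 2) (Nat.one_le_iff_ne_zero.2 (by positivity))
    set c := 2 * k + 3 with hc
    have hcH : 1 ≤ 4 * (c * H) := by
      have : 1 ≤ c * H := Nat.one_le_iff_ne_zero.2 (by positivity)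
      omega
    have h2 : (2 * c * (c * H ^ 2)) ^ 3 ^ k * (4 * (c * H)) ≤ (2 * (2 * (k + 1) + 3) * H) ^ 3 ^ (k + 1) := by
      calc (2 * c * (c * H ^ 2)) ^ 3 ^ k * (4 * (c * H))
          ≤ (2 * c * (c * H ^ 2)) ^ 3 ^ k * (4 * (c * H)) ^ 3 ^ k :=
            Nat.mul_le_mul_left _ (Nat.le_self_pow (by positivity) _)
        _ = ((2 * c * H) ^ 3) ^ 3 ^ k := by rw [← mul_pow]; congr 1; ring
        _ = (2 * c * H) ^ 3 ^ (k + 1) := by rw [← pow_mul, pow_succ' 3 k]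
        _ ≤ (2 * (2 * (k + 1) + 3) * H) ^ 3 ^ (k + 1) := by
            apply Nat.pow_le_pow_left
            apply Nat.mul_le_mul_right
            omega
    have h3 : 1 ≤ (2 * c * (c * H ^ 2)) ^ 3 ^ k := le_trans (by omega) h1
    have h4 : ss (k + 1) H = c * H * (ss k (c * H ^ 2) + 1) := rfl
    rw [h4]
    have h5 : c * H * (ss k (c * H ^ 2) + 1) ≤ c * H * (2 * c * (c * H ^ 2)) ^ 3 ^ k :=
      Nat.mul_le_mul_left _ h1
    have h6 : 1 ≤ c * H * (2 * c * (c * H ^ 2)) ^ 3 ^ k :=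
      Nat.one_le_iff_ne_zero.2 (by positivity)
    have h7 : (2 * c * (c * H ^ 2)) ^ 3 ^ k * (4 * (c * H)) =
        4 * (c * H * (2 * c * (c * H ^ 2)) ^ 3 ^ k) := by ring
    omega

theorem bnd_dn_le (M : ℕ) : dn M ≤ 2 ^ 2 ^ (8 * M ^ 2) := by
  have h0 : M ≤ 2 ^ M := Nat.lt_two_pow_self.le
  have h1 : Nat.factorial M * (M ^ 3) ^ M ≤ 2 ^ (4 * M ^ 2) := by
    calc Nat.factorial M * (M ^ 3) ^ M ≤ M ^ M * (M ^ 3) ^ M :=
          Nat.mul_le_mul_right _ (Nat.factorial_le_pow M)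
      _ = M ^ (4 * M) := by rw [← pow_mul, ← pow_add]; congr 1; ring
      _ ≤ (2 ^ M) ^ (4 * M) := Nat.pow_le_pow_left h0 _
      _ = 2 ^ (4 * M ^ 2) := by rw [← pow_mul]; congr 1; ring
  have h2 : 4 * M ^ 2 ≤ 2 ^ (4 * M ^ 2) := Nat.lt_two_pow_self.le
  calc dn M = Nat.factorial (Nat.factorial M * (M ^ 3) ^ M) := rfl
    _ ≤ Nat.factorial (2 ^ (4 * M ^ 2)) := Nat.factorial_le h1
    _ ≤ (2 ^ (4 * M ^ 2)) ^ (2 ^ (4 * M ^ 2)) := Nat.factorial_le_pow _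
    _ = 2 ^ (4 * M ^ 2 * 2 ^ (4 * M ^ 2)) := by rw [← pow_mul]
    _ ≤ 2 ^ (2 ^ (4 * M ^ 2) * 2 ^ (4 * M ^ 2)) :=
        Nat.pow_le_pow_right (by norm_num) (Nat.mul_le_mul_right _ h2)
    _ = 2 ^ 2 ^ (8 * M ^ 2) := by rw [← pow_add]; congr 2; ring

theorem bnd_fk_le (M : ℕ) : fk M ≤ 2 ^ 2 ^ (3 * M + 2) := by
  have h0 : M + 1 ≤ 2 ^ M := Nat.lt_two_pow_self
  have h1 : 2 * (M + 1) ^ 2 ≤ 2 ^ (2 * M + 1) := by
    calc 2 * (M + 1) ^ 2 ≤ 2 * (2 ^ M) ^ 2 := Nat.mul_le_mul_left _ (Nat.pow_le_pow_left h0 _)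
      _ = 2 ^ (2 * M + 1) := by rw [← pow_mul, pow_succ]; ring
  have h2 : 2 * M + 1 ≤ 2 ^ (2 * M + 1) := Nat.lt_two_pow_self.le
  calc fk M = (2 * (M + 1) ^ 2) ^ 2 ^ (M + 1) := rfl
    _ ≤ (2 ^ (2 * M + 1)) ^ 2 ^ (M + 1) := Nat.pow_le_pow_left h1 _
    _ = 2 ^ ((2 * M + 1) * 2 ^ (M + 1)) := by rw [← pow_mul]
    _ ≤ 2 ^ (2 ^ (2 * M + 1) * 2 ^ (M + 1)) :=
        Nat.pow_le_pow_right (by norm_num) (Nat.mul_le_mul_right _ h2)
    _ = 2 ^ 2 ^ (3 * M + 2) := by rw [← pow_add]; congr 2; ring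

theorem bnd_hb_le (M : ℕ) : 2 * (2 * M + 3) * hb M ≤ 2 ^ 2 ^ (3 * M + 4) := by
  have h0 : M + 1 ≤ 2 ^ M := Nat.lt_two_pow_self
  have h1 : 2 * M + 3 ≤ 2 ^ (M + 2) := by
    have : 2 ^ (M + 2) = 2 ^ M * 4 := by rw [pow_add]; norm_num
    omega
  have h2 : 4 * M + 5 ≤ 2 ^ (3 * M + 3) := by
    have h3 : 2 ^ (3 * M + 3) = 2 ^ (3 * M) * 8 := by rw [pow_add]; norm_num
    have h4 : 3 * M + 1 ≤ 2 ^ (3 * M) := Nat.lt_two_pow_self
    omega
  calc 2 * (2 * M + 3) * hb M = 8 * (2 * M + 3) * (M + 1) ^ 3 * fk M := by rw [hb]; ring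
    _ ≤ 8 * 2 ^ (M + 2) * (2 ^ M) ^ 3 * 2 ^ 2 ^ (3 * M + 2) := by
        gcongr
        exact bnd_fk_le M
    _ = 2 ^ (4 * M + 5) * 2 ^ 2 ^ (3 * M + 2) := by
        rw [show 4 * M + 5 = 3 + (M + 2) + M * 3 by ring, pow_add 2 (3 + (M + 2)) (M * 3),
          pow_add 2 3 (M + 2), pow_mul 2 M 3]
        norm_num
    _ = 2 ^ (4 * M + 5 + 2 ^ (3 * M + 2)) := by rw [← pow_add]
    _ ≤ 2 ^ 2 ^ (3 * M + 4) := by
        apply Nat.pow_le_pow_right (by norm_num)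
        have h3 : 2 ^ (3 * M + 3) = 2 ^ (3 * M + 2) * 2 := by rw [pow_succ]
        have h4 : 2 ^ (3 * M + 4) = 2 ^ (3 * M + 3) * 2 := by rw [pow_succ]
        omega

theorem bnd_hb_pos (M : ℕ) : 1 ≤ hb M := by
  have : 0 < fk M := by rw [fk]; positivity
  rw [hb]
  exact Nat.one_le_iff_ne_zero.2 (by positivity)

theorem bnd_hb_ge (M : ℕ) : M + M ^ 2 ≤ hb M := by
  have h1 : 1 ≤ fk M := by
    have : 0 < fk M := by rw [fk]; positivity
    exact this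
  have h2 : 4 * (M + 1) ^ 3 * 1 ≤ 4 * (M + 1) ^ 3 * fk M := Nat.mul_le_mul_left _ h1
  rw [hb]
  have h3 : M + M ^ 2 ≤ 4 * (M + 1) ^ 3 * 1 := by
    have : 4 * (M + 1) ^ 3 * 1 = M + M ^ 2 + (4 * M ^ 3 + 11 * M ^ 2 + 11 * M + 4) := by ring
    omega
  exact h3.trans h2

theorem wb_lt (M : ℕ) : wb M < 2 ^ 2 ^ bb M := by
  have h3 : 3 ^ M ≤ 2 ^ (2 * M) := by
    rw [pow_mul]
    exact Nat.pow_le_pow_left (by norm_num) _
  have h4 : (2 * (2 * M + 3) * hb M) ^ 3 ^ M ≤ 2 ^ 2 ^ (5 * M + 4) := by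
    calc (2 * (2 * M + 3) * hb M) ^ 3 ^ M ≤ (2 ^ 2 ^ (3 * M + 4)) ^ 3 ^ M :=
          Nat.pow_le_pow_left (bnd_hb_le M) _
      _ ≤ (2 ^ 2 ^ (3 * M + 4)) ^ 2 ^ (2 * M) :=
          Nat.pow_le_pow_right (by positivity) h3
      _ = 2 ^ 2 ^ (5 * M + 4) := by rw [← pow_mul, ← pow_add]; congr 2; ring
  calc wb M = dn M * (2 * (2 * M + 3) * hb M) ^ 3 ^ M := rfl
    _ ≤ 2 ^ 2 ^ (8 * M ^ 2) * 2 ^ 2 ^ (5 * M + 4) := Nat.mul_le_mul (bnd_dn_le M) h4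
    _ = 2 ^ (2 ^ (8 * M ^ 2) + 2 ^ (5 * M + 4)) := by rw [← pow_add]
    _ < 2 ^ 2 ^ bb M := by
        apply Nat.pow_lt_pow_right (by norm_num)
        have h5 : 2 ^ (8 * M ^ 2) ≤ 2 ^ (8 * M ^ 2 + 5 * M + 4) :=
          Nat.pow_le_pow_right (by norm_num) (by omega)
        have h6 : 2 ^ (5 * M + 4) ≤ 2 ^ (8 * M ^ 2 + 5 * M + 4) :=
          Nat.pow_le_pow_right (by norm_num) (by omega)
        have h7 : 2 ^ bb M = 2 ^ (8 * M ^ 2 + 5 * M + 4) * 8 := by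
          rw [bb, show 8 * M ^ 2 + 5 * M + 7 = 8 * M ^ 2 + 5 * M + 4 + 3 by ring, pow_add]
          norm_num
        have h8 : 0 < 2 ^ (8 * M ^ 2 + 5 * M + 4) := by positivity
        omega

theorem bound_main {ι ν : Type} [Fintype ι] [Fintype ν] (M : ℕ) (hi : Fintype.card ι ≤ M)
    (E : ν → ι → ℤ) (e : ν → ℤ) (hE : ∀ i x, |E i x| ≤ M) (he : ∀ i, |e i| ≤ M)
    (P : Set ((ι → ℕ) → Prop)) (hP : ∀ p ∈ P, IsJ M p) (w : ι → ℕ)
    (hw : ∀ i, ∑ x, E i x * (w x : ℤ) = e i) (hn : ∀ p ∈ P, ¬ p w) :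
    ∃ w' : ι → ℕ, (∀ x, w' x ≤ wb M) ∧ (∀ i, ∑ x, E i x * (w' x : ℤ) = e i) ∧
      ∀ p ∈ P, ¬ p w' := by
  classical
  set D := dn M with hD
  have hDpos : 0 < D := dn_pos M
  set ρ : ι → ℕ := fun x => w x % D with hρdef
  set ω : ι → ℕ := fun x => w x / D with hωdef
  have hw' : w = fun x => ρ x + D * ω x := by
    funext x
    exact (Nat.mod_add_div (w x) D).symm
  have hρ : ∀ x, ρ x < D := fun x => Nat.mod_lt _ hDpos
  have key : ∀ p : (ι → ℕ) → Prop, p ∈ P → ∃ R : Set ((ι → ℤ) × ℤ),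
      (∀ r ∈ R, (∀ x, |r.1 x| ≤ hb M) ∧ |r.2| ≤ hb M) ∧
      (∀ r ∈ R, ∑ x, r.1 x * (ω x : ℤ) ≤ r.2) ∧
      ∀ ω' : ι → ℕ, (∀ r ∈ R, ∑ x, r.1 x * (ω' x : ℤ) ≤ r.2) →
        ¬ p (fun x => ρ x + D * ω' x) := by
    intro p hp
    obtain ⟨μ, κ, _, _, A, C, c, hm, hk, hA, hC, hc, hpj⟩ := hP p hp
    have hn' : ¬ JSol A C c (fun x => ρ x + dn M * ω x) := by
      rw [← hD, ← hw', ← hpj]
      exact hn p hp
    obtain ⟨R, h1, h2, h3⟩ := elim M hm hk hi A C c hA hC hc ρ hρ ω hn'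
    refine ⟨R, h1, h2, fun ω' h => ?_⟩
    rw [hpj]
    exact h3 ω' h
  choose R hR1 hR2 hR3 using key
  set q : ν → ℤ := fun i => ∑ x, E i x * (ω x : ℤ) with hq
  have hsplit : ∀ (i : ν) (v : ι → ℕ), ∑ x, E i x * (((ρ x + D * v x : ℕ)) : ℤ) =
      ∑ x, E i x * (ρ x : ℤ) + D * ∑ x, E i x * (v x : ℤ) := by
    intro i v
    rw [Finset.mul_sum, ← Finset.sum_add_distrib]
    refine Finset.sum_congr rfl fun x _ => ?_
    push_cast
    ring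
  have hqb : ∀ i, |q i| ≤ hb M := by
    intro i
    have h1 := hw i
    rw [hw'] at h1
    rw [hsplit i ω] at h1
    have h2 : |∑ x, E i x * (ρ x : ℤ)| ≤ M * M * D := by
      calc |∑ x, E i x * (ρ x : ℤ)| ≤ ∑ x, |E i x * (ρ x : ℤ)| := Finset.abs_sum_le_sum_abs _ _
        _ ≤ ∑ _x : ι, (M * D : ℤ) := by
            refine Finset.sum_le_sum fun x _ => ?_
            rw [abs_mul]
            have h3 : |(ρ x : ℤ)| ≤ D := by
              rw [abs_of_nonneg (by positivity)]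
              exact_mod_cast (hρ x).le
            exact mul_le_mul (hE i x) h3 (abs_nonneg _) (by positivity)
        _ = Fintype.card ι * (M * D : ℤ) := by simp
        _ ≤ M * (M * D : ℤ) := by
            apply mul_le_mul_of_nonneg_right _ (by positivity)
            exact_mod_cast hi
        _ = M * M * D := by ring
    have h3 : (D : ℤ) * |q i| ≤ D * (M + M ^ 2 : ℕ) := by
      have h4 : (D : ℤ) * q i = e i - ∑ x, E i x * (ρ x : ℤ) := by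
        rw [← h1]
        simp [hq]
      have h5 : (D : ℤ) * |q i| = |(D : ℤ) * q i| := by
        rw [abs_mul, abs_of_nonneg (by positivity : (0:ℤ) ≤ D)]
      have h6 : (1 : ℤ) ≤ D := by exact_mod_cast hDpos
      have h7 : (0 : ℤ) ≤ M := by positivity
      rw [h5, h4]
      calc |e i - ∑ x, E i x * (ρ x : ℤ)| ≤ |e i| + |∑ x, E i x * (ρ x : ℤ)| := abs_sub _ _
        _ ≤ M + M * M * D := add_le_add (he i) h2
        _ ≤ D * (M + M ^ 2 : ℕ) := by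
            push_cast
            nlinarith
    have h4 : |q i| ≤ ((M + M ^ 2 : ℕ) : ℤ) := by
      have h6 : (0 : ℤ) < D := by exact_mod_cast hDpos
      exact le_of_mul_le_mul_left h3 h6
    exact h4.trans (by exact_mod_cast bnd_hb_ge M)
  have hEb : ∀ i x, |E i x| ≤ hb M := by
    intro i x
    refine (hE i x).trans ?_
    have := bnd_hb_ge M
    exact_mod_cast (Nat.le_add_right _ _).trans this
  set RR : Set ((ι → ℤ) × ℤ) := {r | (∃ p, ∃ hp : p ∈ P, r ∈ R p hp) ∨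
    (∃ i, r = (E i, q i)) ∨ ∃ i, r = (-E i, - q i)} with hRR
  obtain ⟨ω', hω1, hω2⟩ := small_sol (hb M) (bnd_hb_pos M) RR (by
    rintro r (⟨p, hp, hr⟩ | ⟨i, rfl⟩ | ⟨i, rfl⟩)
    · exact hR1 p hp r hr
    · exact ⟨hEb i, hqb i⟩
    · refine ⟨fun x => ?_, ?_⟩
      · simpa using hEb i x
      · simpa using hqb i) ω (by
    rintro r (⟨p, hp, hr⟩ | ⟨i, rfl⟩ | ⟨i, rfl⟩)
    · exact hR2 p hp r hr
    · exact le_rfl
    · simp [hq])
  refine ⟨fun x => ρ x + D * ω' x, fun x => ?_, fun i => ?_, fun p hp => ?_⟩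
  · have h1 := hω1 x
    have h2 := ss_le (Fintype.card ι) (hb M) (bnd_hb_pos M)
    have h3 : (2 * (2 * Fintype.card ι + 3) * hb M) ^ 3 ^ Fintype.card ι ≤
        (2 * (2 * M + 3) * hb M) ^ 3 ^ M := by
      calc (2 * (2 * Fintype.card ι + 3) * hb M) ^ 3 ^ Fintype.card ι
          ≤ (2 * (2 * M + 3) * hb M) ^ 3 ^ Fintype.card ι := by
            apply Nat.pow_le_pow_left
            gcongr
        _ ≤ (2 * (2 * M + 3) * hb M) ^ 3 ^ M := by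
            apply Nat.pow_le_pow_right
            · have := bnd_hb_pos M
              positivity
            · exact Nat.pow_le_pow_right (by norm_num) hi
    have h4 := hρ x
    calc ρ x + D * ω' x ≤ D * (ω' x + 1) := by
          rw [mul_add, mul_one]; omega
      _ ≤ D * (2 * (2 * M + 3) * hb M) ^ 3 ^ M :=
          Nat.mul_le_mul_left _ ((Nat.add_le_add_right h1 1).trans (h2.trans h3))
      _ = wb M := rfl
  · have h1 := hω2 (E i, q i) (Or.inr (Or.inl ⟨i, rfl⟩))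
    have h2 := hω2 (-E i, -q i) (Or.inr (Or.inr ⟨i, rfl⟩))
    simp only [Pi.neg_apply, neg_mul, Finset.sum_neg_distrib, neg_le_neg_iff] at h2
    have h3 : ∑ x, E i x * (ω' x : ℤ) = q i := le_antisymm h1 h2
    have h4 := hw i
    rw [hw', hsplit i ω] at h4
    show ∑ x, E i x * (((ρ x + D * ω' x : ℕ)) : ℤ) = e i
    rw [hsplit i ω', h3]
    exact h4
  · exact hR3 p hp ω' fun r hr => hω2 r (Or.inl ⟨p, hp, hr⟩)

end Pool.Agent.H24U
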