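import Pool.Agent.Lib.H24U.Sys

/-!
# Chunks CM (CMap.add, CMap.sol) and COL (collapse): cardinal solutions depend only on the order of
the infinite values

CM: `φ (a + b) = φ a + φ b`: if `a`, `b` are natural numbers use `nat`, otherwise
`a + b = max a b` (`Cardinal.add_eq_max`) and `φ a + φ b = max (φ a) (φ b)`. Solutions are mapped by
composition with `φ`.

COL: let `F` be the finite set of the infinite values `N x`, `x ∈ nv`. For infinite `c` let
`φ c = ℵ_ (#{f ∈ F | f < c})`, `ψ c = sup {f ∈ F | φ f ≤ c}` (a maximum of a nonempty finite set if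
`F ≠ ∅`; `ψ = id` if `F = ∅`), and `φ n = ψ n = n` for natural numbers `n`. Both are `CMap`s and
`ψ (φ (N x)) = N x`, `φ (N x) = cv (lam x) (Nf x)` for `x ∈ nv`.
-/

set_option autoImplicit false

namespace Pool.Agent.H24U

open Cardinal

/-- monotone maps of cardinals which fix the natural numbers and keep infinite cardinals infinite -/
structure CMap (φ : Cardinal.{0} → Cardinal.{0}) : Prop where
  nat : ∀ n : ℕ, φ n = n
  inf : ∀ c, ℵ₀ ≤ c → ℵ₀ ≤ φ c
  mono : Monotone φ

theorem CMap.add {φ : Cardinal.{0} → Cardinal.{0}} (h : CMap φ) (a b : Cardinal.{0}) :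
    φ (a + b) = φ a + φ b := by
  rcases lt_or_ge a ℵ₀ with ha | ha
  · rcases lt_or_ge b ℵ₀ with hb | hb
    · obtain ⟨m, rfl⟩ := Cardinal.lt_aleph0.mp ha
      obtain ⟨n, rfl⟩ := Cardinal.lt_aleph0.mp hb
      rw [← Nat.cast_add, h.nat, h.nat, h.nat, Nat.cast_add]
    · rw [Cardinal.add_eq_max' hb, h.mono.map_max, Cardinal.add_eq_max' (h.inf b hb)]
  · rw [Cardinal.add_eq_max ha, h.mono.map_max, Cardinal.add_eq_max (h.inf a ha)]

private theorem CM_sum {V : Type} {φ : Cardinal.{0} → Cardinal.{0}} (h : CMap φ)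
    (v : V → Cardinal.{0}) (l : List V) (n : ℕ) :
    φ ((l.map v).sum + (n : Cardinal)) = (l.map fun x => φ (v x)).sum + (n : Cardinal) := by
  induction l with
  | nil =>
    rw [List.map_nil, List.map_nil, List.sum_nil, zero_add]
    exact h.nat n
  | cons x l ih =>
    rw [List.map_cons, List.map_cons, List.sum_cons, List.sum_cons, add_assoc, add_assoc, h.add, ih]

theorem CMap.sol {V : Type} {φ : Cardinal.{0} → Cardinal.{0}} (h : CMap φ) {nv : List V}
    {E : Sys V} {N : V → Cardinal.{0}} (hs : Sol nv E N) : Sol nv E (fun x => φ (N x)) := by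
  obtain ⟨v, h1, h2⟩ := hs
  refine ⟨fun x => φ (v x), fun x hx => congrArg φ (h1 x hx), fun e he => ?_⟩
  have h3 := congrArg φ (h2 e he)
  rw [CM_sum h, CM_sum h] at h3
  exact h3

/-- the cardinal with level `l` (`0` for finite) and finite value `n` -/
noncomputable def cv (l n : ℕ) : Cardinal.{0} := if l = 0 then (n : Cardinal) else ℵ_ ((l - 1 : ℕ))

/-- the number of elements of `F` below `c` -/
private noncomputable def COL_rank (F : Finset Cardinal.{0}) (c : Cardinal.{0}) : ℕ :=
  (F.filter fun f => f < c).card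

private theorem COL_rank_mono (F : Finset Cardinal.{0}) : Monotone (COL_rank F) := by
  intro c d h
  exact Finset.card_le_card (Finset.monotone_filter_right F fun f _ hf => lt_of_lt_of_le hf h)

private theorem COL_rank_lt {F : Finset Cardinal.{0}} {c d : Cardinal.{0}} (hc : c ∈ F)
    (h : c < d) : COL_rank F c < COL_rank F d := by
  apply Finset.card_lt_card
  rw [Finset.ssubset_iff_of_subset
    (Finset.monotone_filter_right F fun f _ hf => lt_trans hf h)]
  exact ⟨c, Finset.mem_filter.mpr ⟨hc, h⟩, fun h' => lt_irrefl _ (Finset.mem_filter.mp h').2⟩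

private theorem COL_rank_lt_card {F : Finset Cardinal.{0}} {c : Cardinal.{0}} (hc : c ∈ F) :
    COL_rank F c < F.card := by
  apply Finset.card_lt_card
  rw [Finset.ssubset_iff_of_subset (Finset.filter_subset _ _)]
  exact ⟨c, hc, fun h' => lt_irrefl _ (Finset.mem_filter.mp h').2⟩

/-- the collapsing map -/
private noncomputable def COL_phi (F : Finset Cardinal.{0}) (c : Cardinal.{0}) : Cardinal.{0} :=
  open Classical in if c < ℵ₀ then c else ℵ_ ((COL_rank F c : ℕ))

/-- the map back -/
private noncomputable def COL_psi (F : Finset Cardinal.{0}) (c : Cardinal.{0}) : Cardinal.{0} :=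
  open Classical in if c < ℵ₀ then c else max ℵ₀ ((F.filter fun f => COL_phi F f ≤ c).sup id)

private theorem COL_phi_map (F : Finset Cardinal.{0}) : CMap (COL_phi F) := by
  refine ⟨fun n => ?_, fun c hc => ?_, fun c d h => ?_⟩
  · rw [COL_phi, if_pos (Cardinal.natCast_lt_aleph0)]
  · rw [COL_phi, if_neg (not_lt.mpr hc)]
    exact Cardinal.aleph0_le_aleph _
  · rcases lt_or_ge d ℵ₀ with hd | hd
    · rw [COL_phi, COL_phi, if_pos hd, if_pos (lt_of_le_of_lt h hd)]
      exact h
    · rcases lt_or_ge c ℵ₀ with hc | hc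
      · rw [COL_phi, COL_phi, if_pos hc, if_neg (not_lt.mpr hd)]
        exact hc.le.trans (Cardinal.aleph0_le_aleph _)
      · rw [COL_phi, COL_phi, if_neg (not_lt.mpr hc), if_neg (not_lt.mpr hd), Cardinal.aleph_le_aleph]
        exact_mod_cast COL_rank_mono F h

private theorem COL_psi_map (F : Finset Cardinal.{0}) : CMap (COL_psi F) := by
  refine ⟨fun n => ?_, fun c hc => ?_, fun c d h => ?_⟩
  · rw [COL_psi, if_pos (Cardinal.natCast_lt_aleph0)]
  · rw [COL_psi, if_neg (not_lt.mpr hc)]
    exact le_max_left _ _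
  · rcases lt_or_ge d ℵ₀ with hd | hd
    · rw [COL_psi, COL_psi, if_pos hd, if_pos (lt_of_le_of_lt h hd)]
      exact h
    · rcases lt_or_ge c ℵ₀ with hc | hc
      · rw [COL_psi, COL_psi, if_pos hc, if_neg (not_lt.mpr hd)]
        exact hc.le.trans (le_max_left _ _)
      · rw [COL_psi, COL_psi, if_neg (not_lt.mpr hc), if_neg (not_lt.mpr hd)]
        exact max_le_max_left _ (Finset.sup_mono
          (Finset.monotone_filter_right F fun f _ hf => le_trans hf h))

private theorem COL_psi_phi {F : Finset Cardinal.{0}} {c : Cardinal.{0}}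
    (hF : ∀ f ∈ F, ℵ₀ ≤ f) (hc : ℵ₀ ≤ c → c ∈ F) : COL_psi F (COL_phi F c) = c := by
  rcases lt_or_ge c ℵ₀ with h | h
  · rw [COL_phi, if_pos h, COL_psi, if_pos h]
  · have hc' := hc h
    rw [COL_psi, if_neg (not_lt.mpr ((COL_phi_map F).inf c h))]
    have h1 : (F.filter fun f => COL_phi F f ≤ COL_phi F c).sup id = c := by
      apply le_antisymm
      · rw [Finset.sup_le_iff]
        intro f hf
        rw [Finset.mem_filter] at hf
        obtain ⟨hf1, hf2⟩ := hf
        by_contra hcon
        rw [id, not_le] at hcon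
        rw [COL_phi, COL_phi, if_neg (not_lt.mpr (hF f hf1)), if_neg (not_lt.mpr h),
          Cardinal.aleph_le_aleph] at hf2
        have h3 : COL_rank F f ≤ COL_rank F c := by exact_mod_cast hf2
        exact absurd (COL_rank_lt hc' hcon) (not_lt.mpr h3)
      · exact Finset.le_sup (f := id) (Finset.mem_filter.mpr ⟨hc', le_rfl⟩)
    rw [h1]
    exact max_eq_right h

theorem collapse {V : Type} (nv : List V) (N : V → Cardinal.{0}) :
    ∃ lam Nf : V → ℕ, (∀ x, lam x ≤ nv.length) ∧
      ∀ E : Sys V, Sol nv E N ↔ Sol nv E (fun x => cv (lam x) (Nf x)) := by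
  classical
  let F : Finset Cardinal.{0} := (nv.map N).toFinset.filter fun f => ℵ₀ ≤ f
  have hF : ∀ f ∈ F, ℵ₀ ≤ f := fun f hf => (Finset.mem_filter.mp hf).2
  have hFn : ∀ x ∈ nv, ℵ₀ ≤ N x → N x ∈ F := fun x hx h =>
    Finset.mem_filter.mpr ⟨List.mem_toFinset.mpr (List.mem_map_of_mem hx), h⟩
  have hFc : F.card ≤ nv.length := by
    calc F.card ≤ (nv.map N).toFinset.card := Finset.card_filter_le _ _
      _ ≤ (nv.map N).length := List.toFinset_card_le _
      _ = nv.length := List.length_map _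
  refine ⟨fun x => if x ∈ nv ∧ ℵ₀ ≤ N x then COL_rank F (N x) + 1 else 0,
    fun x => Cardinal.toNat (N x), fun x => ?_, fun E => ?_⟩
  · by_cases hx : x ∈ nv ∧ ℵ₀ ≤ N x
    · simp only [if_pos hx]
      exact (COL_rank_lt_card (hFn x hx.1 hx.2)).trans_le hFc
    · simp only [if_neg hx]
      exact Nat.zero_le _
  · have hcv : ∀ x ∈ nv, COL_phi F (N x) =
        cv (if x ∈ nv ∧ ℵ₀ ≤ N x then COL_rank F (N x) + 1 else 0) (Cardinal.toNat (N x)) := by
      intro x hx
      rcases lt_or_ge (N x) ℵ₀ with h | h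
      · have h' : ¬ (x ∈ nv ∧ ℵ₀ ≤ N x) := fun h' => absurd h (not_lt.mpr h'.2)
        rw [if_neg h', COL_phi, if_pos h, cv, if_pos rfl, Cardinal.cast_toNat_of_lt_aleph0 h]
      · rw [if_pos ⟨hx, h⟩, COL_phi, if_neg (not_lt.mpr h), cv, if_neg (Nat.succ_ne_zero _),
          Nat.add_sub_cancel]
    constructor
    · intro hs
      exact (Sol.congr hcv).mp ((COL_phi_map F).sol hs)
    · intro hs
      have h1 := (COL_psi_map F).sol ((Sol.congr hcv).mpr hs)
      refine (Sol.congr fun x hx => ?_).mp h1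
      exact COL_psi_phi hF (hFn x hx)

end Pool.Agent.H24U
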