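import Pool.Agent.Lib.H24U.Check

/-!
# Chunk CER: existence of certificates

`y = (List.range Len).map fun j => if j < n * n then decide (j % n < lam (nv[j / n])) else
(N (nv[(j - n * n) % n])).testBit ((j - n * n) / n)` (with `getD`), `n = nv.length`.
-/

set_option autoImplicit false

namespace Pool.Agent.H24U

open Pool.Agent.PolyTime

/-- counting the numbers below `L` in `range n` -/
theorem cer_countP (L : ℕ) : ∀ n : ℕ,
    ((List.range n).map fun t => decide (t < L)).countP (fun b => b) = min L n
  | 0 => by simp
  | n + 1 => by
    rw [List.range_succ, List.map_append, List.countP_append, cer_countP L n]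
    by_cases h : n < L
    · simp [h]; omega
    · simp [h]; omega

/-- a number from its binary digits -/
theorem cer_valR {V : Type} (x : V) : ∀ (k M : ℕ) (R : ℕ → V → Bool),
    (∀ r, R r x = M.testBit r) → valR ((List.range k).map R) x = M % 2 ^ k
  | 0, M, R, _ => by simp [valR, Nat.mod_one]
  | k + 1, M, R, h => by
    rw [List.range_succ_eq_map, List.map_cons, List.map_map]
    have ih := cer_valR x k (M / 2) (R ∘ Nat.succ) (fun r => by
      rw [Function.comp_apply, h, Nat.succ_eq_add_one, Nat.testBit_succ])
    simp only [valR]
    rw [ih, h 0, pow_succ', Nat.mod_mul, Nat.testBit_zero]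
    congr 1
    rcases Nat.mod_two_eq_zero_or_one M with h2 | h2 <;> simp [h2]

theorem exists_cert {V : Type} [DecidableEq V] (nv : List V) (lam N : V → ℕ) (B Len : ℕ)
    (h1 : ∀ x, lam x ≤ nv.length) (h2 : ∀ x, N x < 2 ^ B)
    (hL : nv.length * nv.length + nv.length * B ≤ Len) :
    ∃ y : List Bool, y.length = Len ∧ ∀ x ∈ nv, lamV y nv x = lam x ∧ valV y nv x = N x := by
  rcases nv.eq_nil_or_concat with h0 | ⟨l0, v0, h0⟩
  · refine ⟨List.replicate Len false, by simp, ?_⟩
    subst h0
    intro x hx
    simp at hx
  have hn : 0 < nv.length := by rw [h0]; simp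
  generalize hnn : nv.length = n at *
  let f : ℕ → Bool := fun j => if j < n * n then decide (j % n < lam (nv.getD (j / n) v0)) else
    (N (nv.getD ((j - n * n) % n) v0)).testBit ((j - n * n) / n)
  refine ⟨(List.range Len).map f, by simp, fun x hx => ?_⟩
  have hi : nv.idxOf x < n := by rw [← hnn]; exact List.idxOf_lt_length_iff.2 hx
  have hgi : nv.getD (nv.idxOf x) v0 = x := by
    rw [List.getD_eq_getElem _ _ (by rw [hnn]; exact hi)]
    exact List.getElem_idxOf _
  obtain ⟨i, hix⟩ : ∃ i, nv.idxOf x = i := ⟨_, rfl⟩
  rw [hix] at hi hgi
  have hii : i * n + n ≤ n * n := by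
    calc i * n + n = (i + 1) * n := by ring
      _ ≤ n * n := Nat.mul_le_mul_right n hi
  constructor
  · unfold lamV lamOf
    rw [hnn, hix]
    have he : (((List.range Len).map f).drop (i * n)).take n =
        (List.range n).map fun t => decide (t < lam x) := by
      apply List.ext_getElem
      · simp only [List.length_take, List.length_drop, List.length_map, List.length_range]
        omega
      · intro t ht1 ht2
        have ht : t < n := by simpa using ht2
        rw [List.getElem_take, List.getElem_drop, List.getElem_map, List.getElem_range,
          List.getElem_map, List.getElem_range]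
        have hlt : i * n + t < n * n := by omega
        have hmod : (i * n + t) % n = t := by
          rw [Nat.add_comm, Nat.add_mul_mod_self_right, Nat.mod_eq_of_lt ht]
        have hdiv : (i * n + t) / n = i := by
          rw [Nat.add_comm, Nat.add_mul_div_right _ _ hn, Nat.div_eq_of_lt ht, Nat.zero_add]
        simp only [f]
        rw [if_pos hlt, hmod, hdiv, hgi]
    rw [he, cer_countP, Nat.min_eq_left (h1 x)]
  · unfold valV
    rw [List.length_map, List.length_range, cer_valR x Len (N x)]
    · apply Nat.mod_eq_of_lt
      refine (h2 x).trans_le (Nat.pow_le_pow_right (by norm_num) ?_)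
      have : B ≤ n * B := Nat.le_mul_of_pos_left B hn
      omega
    · intro r
      unfold rowV bitOf
      rw [hnn, hix]
      by_cases hlen : n * n + r * n + i < Len
      · rw [List.getD_eq_getElem _ _ (by simpa using hlen), List.getElem_map, List.getElem_range]
        have hnlt : ¬ n * n + r * n + i < n * n := by omega
        have hsub : n * n + r * n + i - n * n = i + r * n := by omega
        simp only [f]
        rw [if_neg hnlt, hsub, Nat.add_mul_mod_self_right, Nat.mod_eq_of_lt hi,
          Nat.add_mul_div_right _ _ hn, Nat.div_eq_of_lt hi, Nat.zero_add, hgi]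
      · rw [List.getD_eq_default _ _ (by simpa using hlen)]
        symm
        apply Nat.testBit_lt_two_pow
        refine (h2 x).trans_le (Nat.pow_le_pow_right (by norm_num) ?_)
        by_contra hc
        have h3 : (r + 1) * n ≤ B * n := Nat.mul_le_mul_right n (by omega)
        have h4 : (r + 1) * n = r * n + n := by ring
        have h5 : B * n = n * B := Nat.mul_comm _ _
        omega

end Pool.Agent.H24U
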