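import Pool.Agent.Lib.H24U.Card

/-!
# Chunk LEV: solutions in the cardinals and levels

An equation between values `cv (lv x) (v x)` holds iff the maximal levels on the two sides agree
(`consL`; level `0` = finite) and, if they are `0`, the equation holds for the natural numbers
`v x`. (Show `(l.map fun x => cv (lv x) (v x)).sum + a = cv (maximal level) (..)` by induction.)
Given a cardinal solution `v`, `c ↦ if c < ℵ₀ then c else min c (ℵ_ (K - 1))` is a `CMap` which
fixes the values of `nv`, so one may assume that all values are `cv (lv x) n` with `lv x ≤ K`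
(an infinite cardinal `≤ ℵ_ n` is some `ℵ_ m`, `m ≤ n`).
-/

set_option autoImplicit false

namespace Pool.Agent.H24U

open Cardinal

/-- the maximal level of `l` is at most the maximal level of `l'` -/
def leL {V : Type} (lv : V → ℕ) (l l' : List V) : Bool :=
  l.all fun x => lv x == 0 || l'.any fun y => decide (lv x ≤ lv y)

/-- the levels are consistent with all equations -/
def consL {V : Type} (lv : V → ℕ) (E : Sys V) : Bool :=
  E.all fun e => leL lv e.1.1 e.2.1 && leL lv e.2.1 e.1.1

/-- the equations of level `0` -/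
def redL {V : Type} (lv : V → ℕ) (E : Sys V) : Sys V :=
  E.filter fun e => (e.1.1 ++ e.2.1).all fun x => lv x == 0

/-- solvability with given levels and values of the variables in `nv` -/
def SolL {V : Type} (nv : List V) (E : Sys V) (K : ℕ) (lam N : V → ℕ) : Prop :=
  ∃ lv : V → ℕ, (∀ x ∈ nv, lv x = lam x) ∧ (∀ x, lv x ≤ K) ∧ consL lv E = true ∧
    Sol nv (redL lv E) N

/-- maximal level -/
def LEV_mx {V : Type} (lv : V → ℕ) : List V → ℕ
  | [] => 0
  | x :: l => max (lv x) (LEV_mx lv l)

theorem LEV_mx_le {V : Type} (lv : V → ℕ) (l : List V) (c : ℕ) :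
    LEV_mx lv l ≤ c ↔ ∀ x ∈ l, lv x ≤ c := by
  induction l with
  | nil => simp [LEV_mx]
  | cons x l ih => simp [LEV_mx, ih]

theorem LEV_le_mx {V : Type} (lv : V → ℕ) (l : List V) (c : ℕ) :
    c ≤ LEV_mx lv l ↔ c = 0 ∨ ∃ y ∈ l, c ≤ lv y := by
  induction l with
  | nil => simp [LEV_mx]
  | cons x l ih =>
    rw [LEV_mx, le_max_iff, ih]
    simp only [List.mem_cons, exists_eq_or_imp]
    tauto

theorem LEV_leL {V : Type} (lv : V → ℕ) (l l' : List V) :
    leL lv l l' = true ↔ LEV_mx lv l ≤ LEV_mx lv l' := by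
  rw [LEV_mx_le]
  simp only [LEV_le_mx, leL, List.all_eq_true, Bool.or_eq_true, beq_iff_eq, List.any_eq_true,
    decide_eq_true_eq]

theorem LEV_cv_add (i j m n : ℕ) : cv i m + cv j n = cv (max i j) (m + n) := by
  rcases Nat.eq_zero_or_pos i with hi | hi
  · subst hi
    rcases Nat.eq_zero_or_pos j with hj | hj
    · subst hj
      simp [cv]
    · simp only [cv, if_true, if_neg hj.ne', Nat.zero_max]
      exact Cardinal.nat_add_eq m (Cardinal.aleph0_le_aleph _)
  · rcases Nat.eq_zero_or_pos j with hj | hj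
    · subst hj
      simp only [cv, if_true, if_neg hi.ne', Nat.max_zero]
      exact Cardinal.add_nat_eq n (Cardinal.aleph0_le_aleph _)
    · have hmax : max i j ≠ 0 := by omega
      simp only [cv, if_neg hi.ne', if_neg hj.ne', if_neg hmax]
      rw [Cardinal.aleph_add_aleph]
      congr 1
      have h1 : max i j - 1 = max (i - 1) (j - 1) := by omega
      rw [h1]
      rcases le_total (i - 1) (j - 1) with h2 | h2
      · rw [max_eq_right h2, max_eq_right (Nat.cast_le.2 h2)]
      · rw [max_eq_left h2, max_eq_left (Nat.cast_le.2 h2)]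

theorem LEV_cv_inj (i j m n : ℕ) : cv i m = cv j n ↔ i = j ∧ (i = 0 → m = n) := by
  rcases Nat.eq_zero_or_pos i with hi | hi
  · subst hi
    rcases Nat.eq_zero_or_pos j with hj | hj
    · subst hj
      simp [cv]
    · simp only [cv, if_true, if_neg hj.ne']
      refine ⟨fun h => ?_, fun h => absurd h.1.symm hj.ne'⟩
      have h1 := Cardinal.aleph0_le_aleph ((j - 1 : ℕ) : Ordinal.{0})
      rw [← h] at h1
      exact absurd h1 (not_le.2 (Cardinal.natCast_lt_aleph0))
  · rcases Nat.eq_zero_or_pos j with hj | hj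
    · subst hj
      simp only [cv, if_true, if_neg hi.ne']
      refine ⟨fun h => ?_, fun h => absurd h.1 hi.ne'⟩
      have h1 := Cardinal.aleph0_le_aleph ((i - 1 : ℕ) : Ordinal.{0})
      rw [h] at h1
      exact absurd h1 (not_le.2 (Cardinal.natCast_lt_aleph0))
    · simp only [cv, if_neg hi.ne', if_neg hj.ne']
      rw [Cardinal.aleph.injective.eq_iff]
      constructor
      · intro h
        have h1 : i - 1 = j - 1 := by exact_mod_cast h
        exact ⟨by omega, fun h0 => absurd h0 hi.ne'⟩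
      · rintro ⟨h, -⟩
        rw [h]

theorem LEV_sum {V : Type} (lv v : V → ℕ) (l : List V) (a : ℕ) :
    (l.map fun x => cv (lv x) (v x)).sum + (a : Cardinal.{0}) =
      cv (LEV_mx lv l) ((l.map v).sum + a) := by
  have h0 : ∀ n : ℕ, (n : Cardinal.{0}) = cv 0 n := fun n => by simp [cv]
  induction l with
  | nil => simp [LEV_mx, cv]
  | cons x l ih =>
    rw [List.map_cons, List.sum_cons, List.map_cons, List.sum_cons, add_assoc, ih, LEV_cv_add,
      LEV_mx, add_assoc]

theorem LEV_holds {V : Type} (lv v : V → ℕ) (e : Eqn V) :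
    Holds (fun x => cv (lv x) (v x)) e ↔ (leL lv e.1.1 e.2.1 && leL lv e.2.1 e.1.1) = true ∧
      (((e.1.1 ++ e.2.1).all fun x => lv x == 0) = true → Holds v e) := by
  have hz : ((e.1.1 ++ e.2.1).all fun x => lv x == 0) = true ↔
      LEV_mx lv e.1.1 = 0 ∧ LEV_mx lv e.2.1 = 0 := by
    rw [← Nat.le_zero, ← Nat.le_zero, LEV_mx_le, LEV_mx_le]
    simp only [List.all_append, Bool.and_eq_true, List.all_eq_true, beq_iff_eq, Nat.le_zero]
  rw [Bool.and_eq_true, LEV_leL, LEV_leL, hz, Holds, LEV_sum, LEV_sum, LEV_cv_inj]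
  constructor
  · rintro ⟨h1, h2⟩
    refine ⟨⟨h1.le, h1.ge⟩, fun h => ?_⟩
    have := h2 h.1
    simpa [Holds] using this
  · rintro ⟨⟨h1, h2⟩, h3⟩
    have h4 := le_antisymm h1 h2
    refine ⟨h4, fun h => ?_⟩
    have := h3 ⟨h, h4 ▸ h⟩
    simpa [Holds] using this

theorem LEV_map {V : Type} {φ : Cardinal.{0} → Cardinal.{0}} (h : CMap φ) (w : V → Cardinal.{0})
    (l : List V) (a : ℕ) :
    (l.map fun x => φ (w x)).sum + (a : Cardinal.{0}) = φ ((l.map w).sum + a) := by
  induction l with
  | nil => simp [h.nat]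
  | cons x l ih =>
    rw [List.map_cons, List.sum_cons, List.map_cons, List.sum_cons, add_assoc, ih, add_assoc]
    exact (h.add _ _).symm

theorem LEV_cut (K : ℕ) : CMap (fun c : Cardinal.{0} => if c < ℵ₀ then c else
    min c (ℵ_ ((K - 1 : ℕ) : Ordinal.{0}))) where
  nat n := if_pos Cardinal.natCast_lt_aleph0
  inf c hc := by
    rw [if_neg (not_lt.2 hc)]
    exact le_min hc (Cardinal.aleph0_le_aleph _)
  mono := by
    intro c d hcd
    dsimp only
    split_ifs with h1 h2 h2
    · exact hcd
    · exact le_min hcd (h1.le.trans (Cardinal.aleph0_le_aleph _))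
    · exact absurd (hcd.trans_lt h2) h1
    · exact min_le_min hcd le_rfl

theorem LEV_form (K : ℕ) (hK : 1 ≤ K) (c : Cardinal.{0}) :
    ∃ l n : ℕ, l ≤ K ∧
      (if c < ℵ₀ then c else min c (ℵ_ ((K - 1 : ℕ) : Ordinal.{0}))) = cv l n := by
  by_cases hc : c < ℵ₀
  · obtain ⟨n, rfl⟩ := Cardinal.lt_aleph0.1 hc
    exact ⟨0, n, Nat.zero_le _, by rw [if_pos hc]; simp [cv]⟩
  · rw [if_neg hc]
    have h1 : ℵ₀ ≤ min c (ℵ_ ((K - 1 : ℕ) : Ordinal.{0})) :=
      le_min (not_lt.1 hc) (Cardinal.aleph0_le_aleph _)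
    obtain ⟨o, ho'⟩ := Cardinal.mem_range_aleph_iff.2 h1
    have ho := ho'.symm
    have h2 : ℵ_ o ≤ ℵ_ ((K - 1 : ℕ) : Ordinal.{0}) := by
      rw [← ho]
      exact min_le_right _ _
    rw [Cardinal.aleph_le_aleph] at h2
    obtain ⟨m, rfl⟩ := Ordinal.lt_omega0.1 (h2.trans_lt (Ordinal.natCast_lt_omega0 _))
    have h3 : m ≤ K - 1 := by exact_mod_cast h2
    refine ⟨m + 1, 0, by omega, ?_⟩
    rw [ho, cv, if_neg (Nat.succ_ne_zero m)]
    rfl

theorem sol_cv {V : Type} (nv : List V) (E : Sys V) (K : ℕ) (hK : 1 ≤ K) (lam N : V → ℕ)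
    (h : ∀ x ∈ nv, lam x ≤ K) :
    Sol nv E (fun x => cv (lam x) (N x)) ↔ SolL nv E K lam N := by
  classical
  constructor
  · rintro ⟨w, hw, hE⟩
    choose lv vv hlv hvv using fun x => LEV_form K hK (w x)
    have hfix : ∀ x ∈ nv, cv (lv x) (vv x) = cv (lam x) (N x) := by
      intro x hx
      rw [← hvv x, hw x hx]
      dsimp only
      by_cases h0 : lam x = 0
      · have h1 : cv (lam x) (N x) < ℵ₀ := by
          simp only [cv, if_pos h0]
          exact Cardinal.natCast_lt_aleph0
        rw [if_pos h1]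
      · have h1 : ¬ cv (lam x) (N x) < ℵ₀ := by
          simp only [cv, if_neg h0]
          exact not_lt.2 (Cardinal.aleph0_le_aleph _)
        rw [if_neg h1]
        refine min_eq_left ?_
        simp only [cv, if_neg h0]
        rw [Cardinal.aleph_le_aleph]
        have h2 : lam x - 1 ≤ K - 1 := by have := h x hx; omega
        exact_mod_cast h2
    set v : V → ℕ := fun x => if x ∈ nv then N x else vv x with hv
    have hcv : ∀ x, cv (lv x) (v x) =
        (if w x < ℵ₀ then w x else min (w x) (ℵ_ ((K - 1 : ℕ) : Ordinal.{0}))) := by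
      intro x
      rw [hvv x]
      by_cases hx : x ∈ nv
      · have h1 := (LEV_cv_inj _ _ _ _).1 (hfix x hx)
        rw [LEV_cv_inj]
        refine ⟨rfl, fun h0 => ?_⟩
        simp only [hv, if_pos hx]
        exact (h1.2 h0).symm
      · simp only [hv, if_neg hx]
    have hh : ∀ e ∈ E, Holds (fun x => cv (lv x) (v x)) e := by
      intro e he
      have h1 := hE e he
      have h2 := LEV_map (LEV_cut K) w
      simp only [Holds, hcv]
      rw [h2, h2]
      rw [Holds] at h1
      rw [h1]
    refine ⟨lv, fun x hx => ((LEV_cv_inj _ _ _ _).1 (hfix x hx)).1, hlv, ?_, v, ?_, ?_⟩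
    · simp only [consL, List.all_eq_true]
      intro e he
      exact ((LEV_holds lv v e).1 (hh e he)).1
    · intro x hx
      simp only [hv, if_pos hx]
    · intro e he
      simp only [redL, List.mem_filter] at he
      exact ((LEV_holds lv v e).1 (hh e he.1)).2 he.2
  · rintro ⟨lv, h1, h2, h3, v, h4, h5⟩
    refine ⟨fun x => cv (lv x) (v x), fun x hx => by dsimp only; rw [h1 x hx, h4 x hx],
      fun e he => ?_⟩
    simp only [consL, List.all_eq_true] at h3
    refine (LEV_holds lv v e).2 ⟨h3 e he, fun h => h5 e ?_⟩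
    simp only [redL, List.mem_filter]
    exact ⟨he, h⟩

end Pool.Agent.H24U
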