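import Pool.Agent.Lib.H24U.SysW
import Pool.Agent.Lib.H24U.Level

/-!
# The verification program

The word `y` is used as certificate and as a bound for all enumerations. With `n = |nv|`: the first
`n * n` letters code the levels of the variables in `nv` (in unary), the following letters the binary
digits of their values: digit `r` of the variable with index `i` is the letter `n * n + r * n + i`.
-/

set_option autoImplicit false

namespace Pool.Agent.H24U

open Pool.Agent.PolyTime

instance : DecidableEq Va :=
  @instDecidableEqProd _ _ _ (@instDecidableEqProd _ _ _ (inferInstance : DecidableEq (Th × St)))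

/-- the level of the variable with index `i` -/
def lamOf (n : ℕ) (y : List Bool) (i : ℕ) : ℕ := ((y.drop (i * n)).take n).countP fun b => b

/-- digit `r` of the variable with index `i` -/
def bitOf (n : ℕ) (y : List Bool) (r i : ℕ) : Bool := y.getD (n * n + r * n + i) false

section

variable {V : Type} [DecidableEq V]

/-- levels of the given variables -/
def lamV (y : List Bool) (nv : List V) (x : V) : ℕ := lamOf nv.length y (nv.idxOf x)

/-- digits of the given variables -/
def rowV (y : List Bool) (nv : List V) (r : ℕ) (x : V) : Bool := bitOf nv.length y r (nv.idxOf x)

/-- values of the given variables -/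
def valV (y : List Bool) (nv : List V) : V → ℕ := valR ((List.range y.length).map (rowV y nv))

/-- the digit by digit decision procedure -/
def dpP (y : List Bool) (nv : List V) (E : Sys V) : Bool :=
  dp (capLists y [false, true] (occ E)) (capLists y (carries (occ E)) E) nv E
    (List.range y.length) (rowV y nv)

/-- the levels `l` agree with the given levels -/
def levOk (y : List Bool) (nv o : List V) (l : List ℕ) : Bool :=
  o.all fun x => !decide (x ∈ nv) || decide (look o l 0 x = lamV y nv x)

/-- solvability with levels -/
def solP (y : List Bool) (nv : List V) (E : Sys V) : Bool :=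
  (capLists y (List.range (nv.length + 2)) (occ E)).any fun l =>
    levOk y nv (occ E) l && consL (look (occ E) l 0) E && dpP y nv (redL (look (occ E) l 0) E)

end

/-- the locally correct types -/
def tysP (y : List Bool) (F : NF) : List Ty := (capLists y [false, true] F.len).filter F.okT

/-- the patterns -/
def patsP (y : List Bool) (Θ : List Th) (m : List (ℕ × ℕ)) : List (List Th) :=
  (List.range (m.length + 1)).flatMap fun k => capLists y Θ (m.take k)

/-- the family of the satisfiable systems -/
def famI (y : List Bool) (F : NF) (tys : List Ty) (Θ : List Th) : List (Sys Va) :=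
  fam F tys Θ (patsP y Θ (kl F)) (capLists y [0, 1, 2] Θ)
    (fun sup => sgOk F Θ sup && goalOk F Θ sup)

/-- the family of the systems for better models -/
def famJ (y : List Bool) (F : NF) (tys : List Ty) (Θ : List Th) : List (Sys Va) :=
  fam F tys Θ (patsP y Θ (kl F)) (capLists y [0, 1, 2] Θ)
    (fun sup => sgOk F Θ sup && betOk F Θ sup)

/-- the check for given types -/
def checkT (y : List Bool) (F : NF) (tys : List Ty) : Bool :=
  (famI y F tys (thI tys)).any (solP y (tys.map vN)) &&
    !(famJ y F tys (thJ F tys)).any (solP y (tys.map vN))

/-- the check -/
def check (F : NF) (y : List Bool) : Bool := checkT y F (tysP y F)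

/-- the size bound -/
def mu (F : NF) : ℕ :=
  16 * (F.roles.length + 1) * (4 ^ F.len.length) ^ 2 *
    (2 * 4 ^ F.len.length + 1 + (4 ^ F.len.length + 1) ^ (kl F).length) * (kl F).length

end Pool.Agent.H24U
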