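import Pool.Agent.Lib.H24U.Check

/-!
# Chunks SZ1 (sizes_mu, small_fam) and SZ2 (mu_le): sizes

SZ1: with `a = 4 ^ F.len.length`: `|tys|, |thI|, |thJ| ≤ a` (`length_lists`), `|pats| ≤ (a + 1) ^ K` for
`K = (kl F).length` (`Σ_{k ≤ K} a ^ k ≤ (a + 1) ^ K`), `|allSt| ≤ S = 2 a + 1 + (a + 1) ^ K`,
`|need| ≤ S * K` (all lists in statuses have length at most `K`, note `2 ≤ K`), and then the number of
equations is at most `2 a + R (2 a + 3 a ^ 2)`, the number of occurrences is at most
`2 a + a (a + 1) + R (2 a (1 + S) + a ^ 2 (6 + 2 S K))`, where `R = F.roles.length`.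
SZ2: `a ≤ 2 ^ (2 s)` for `s = sz F` (`F.len.length ≤ sz F`, `(kl F).length ≤ sz F + 2` etc.).
-/

set_option autoImplicit false

namespace Pool.Agent.H24U

open Pool.Agent.PolyTime

theorem SZ1_flatMap {α β : Type} (l : List α) (f : α → List β) (B : ℕ)
    (h : ∀ x ∈ l, (f x).length ≤ B) : (l.flatMap f).length ≤ l.length * B := by
  induction l with
  | nil => simp
  | cons x l ih =>
    rw [List.flatMap_cons, List.length_append, List.length_cons]
    have h1 := h x List.mem_cons_self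
    have h2 := ih fun y hy => h y (List.mem_cons_of_mem _ hy)
    rw [Nat.add_mul, Nat.one_mul]
    omega

theorem SZ1_tys (F : NF) : F.tys.length ≤ 2 ^ F.len.length := by
  unfold NF.tys
  refine (List.length_filter_le _ _).trans ?_
  rw [length_lists]
  rfl

theorem SZ1_pow (n : ℕ) : 2 ^ n * 2 ^ n = 4 ^ n := by
  rw [← mul_pow]
  norm_num

theorem SZ1_pow_le (n : ℕ) : 2 ^ n ≤ 4 ^ n := Nat.pow_le_pow_left (by norm_num) n

theorem SZ1_kl (F : NF) : 2 ≤ (kl F).length := by
  unfold kl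
  rw [List.length_cons, List.length_cons]
  omega

theorem length_th_le (F : NF) : (thI F.tys).length ≤ 4 ^ F.len.length ∧
    (thJ F F.tys).length ≤ 4 ^ F.len.length := by
  have h := SZ1_tys F
  refine ⟨?_, ?_⟩
  · unfold thI
    rw [List.length_map]
    exact h.trans (SZ1_pow_le _)
  · unfold thJ
    refine (SZ1_flatMap _ _ (2 ^ F.len.length) fun s _ => ?_).trans ?_
    · rw [List.length_map]
      exact (List.length_filter_le _ _).trans h
    · rw [← SZ1_pow]
      exact Nat.mul_le_mul_right _ h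

theorem SZ1_big (R a K S : ℕ) (ha : 1 ≤ a) (hK : 2 ≤ K) (hS : a ≤ S) :
    32 * a ≤ 16 * (R + 1) * a ^ 2 * S * K ∧ K ≤ 16 * (R + 1) * a ^ 2 * S * K := by
  have hS1 : 1 ≤ S := ha.trans hS
  have h1 : 1 ≤ (R + 1) * a ^ 2 * S := by
    have : 0 < (R + 1) * a ^ 2 * S := by positivity
    omega
  constructor
  · have h2 : a ≤ (R + 1) * a ^ 2 * S := by
      calc a ≤ a * (a * S) := Nat.le_mul_of_pos_right _ (by positivity)
        _ = 1 * (a ^ 2 * S) := by ring
        _ ≤ (R + 1) * (a ^ 2 * S) := Nat.mul_le_mul_right _ (by omega)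
        _ = _ := by ring
    calc 32 * a = 16 * a * 2 := by ring
      _ ≤ 16 * ((R + 1) * a ^ 2 * S) * K := by gcongr
      _ = _ := by ring
  · calc K ≤ (16 * ((R + 1) * a ^ 2 * S)) * K := Nat.le_mul_of_pos_left _ (by omega)
      _ = _ := by ring

theorem sizes_mu (F : NF) : 2 ≤ mu F ∧ F.len.length ≤ mu F ∧ (kl F).length ≤ mu F ∧
    F.tys.length ≤ mu F ∧ (thI F.tys).length ≤ mu F ∧ (thJ F F.tys).length ≤ mu F := by
  have hK := SZ1_kl F
  have ha : 1 ≤ 4 ^ F.len.length := Nat.one_le_pow _ _ (by norm_num)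
  obtain ⟨h1, h2⟩ := SZ1_big F.roles.length (4 ^ F.len.length) (kl F).length
    (2 * 4 ^ F.len.length + 1 + (4 ^ F.len.length + 1) ^ (kl F).length) ha hK (by omega)
  have h3 : mu F = 16 * (F.roles.length + 1) * (4 ^ F.len.length) ^ 2 *
    (2 * 4 ^ F.len.length + 1 + (4 ^ F.len.length + 1) ^ (kl F).length) * (kl F).length := rfl
  rw [← h3] at h1 h2
  have h4 : F.len.length < 4 ^ F.len.length := Nat.lt_pow_self (by norm_num)
  have h5 := SZ1_tys F
  have h6 := SZ1_pow_le F.len.length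
  obtain ⟨h7, h8⟩ := length_th_le F
  refine ⟨by omega, by omega, h2, by omega, by omega, by omega⟩

theorem SZ1_getD {l : List ℕ} (h2 : ∀ a ∈ l, a ∈ [0, 1, 2]) (i : ℕ) : l.getD i 0 ≤ 2 := by
  rcases lt_or_ge i l.length with h | h
  · rw [List.getD_eq_getElem _ _ h]
    have := h2 _ (List.getElem_mem h)
    simp only [List.mem_cons, List.not_mem_nil, or_false] at this
    omega
  · rw [List.getD_eq_default _ _ h]
    omega

theorem SZ1_look {Θ : List Th} {l : List ℕ} (hl : l ∈ lists [0, 1, 2] Θ.length) (θ : Th) :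
    look Θ l 0 θ ≤ 2 := by
  obtain ⟨-, h2⟩ := mem_lists.mp hl
  exact SZ1_getD h2 _

theorem SZ1_pats (Θ : List Th) (a : ℕ) (h : Θ.length ≤ a) (K : ℕ) :
    (patsOf Θ K).length ≤ (a + 1) ^ K := by
  unfold patsOf
  induction K with
  | zero => simp [lists]
  | succ K ih =>
    rw [List.range_succ, List.flatMap_append, List.length_append]
    have h1 : ([K + 1].flatMap (lists Θ)).length ≤ a * (a + 1) ^ K := by
      rw [List.flatMap_singleton, length_lists, pow_succ, mul_comm]
      exact Nat.mul_le_mul h (Nat.pow_le_pow_left (by omega) K)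
    have h2 : (a + 1) ^ (K + 1) = (a + 1) ^ K + a * (a + 1) ^ K := by ring
    omega

theorem SZ1_mem_pats {Θ : List Th} {K : ℕ} {π : List Th} (h : π ∈ patsOf Θ K) :
    π.length ≤ K := by
  unfold patsOf at h
  rw [List.mem_flatMap] at h
  obtain ⟨k, hk, h⟩ := h
  rw [List.mem_range] at hk
  have := (mem_lists.mp h).1
  omega

theorem SZ1_allSt {Θ : List Th} {a K : ℕ} (h : Θ.length ≤ a) :
    (allSt Θ (patsOf Θ K)).length ≤ 2 * a + 1 + (a + 1) ^ K := by
  unfold allSt
  simp only [List.length_append, List.length_map, List.length_cons, List.length_nil]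
  have := SZ1_pats Θ a h K
  omega

theorem SZ1_mem_allSt {Θ : List Th} {K : ℕ} (hK : 1 ≤ K) {s : St}
    (h : s ∈ allSt Θ (patsOf Θ K)) : s.2.length ≤ K := by
  unfold allSt at h
  simp only [List.mem_append, List.mem_map, List.mem_singleton] at h
  rcases h with ((⟨θ, -, rfl⟩ | ⟨θ, -, rfl⟩) | rfl) | ⟨π, hπ, rfl⟩
  · simpa using hK
  · simpa using hK
  · simp
  · exact SZ1_mem_pats hπ

theorem SZ1_need {ρ : Rd} {Θ : List Th} {sup : Th → ℕ} {a K S : ℕ} (hK : 1 ≤ K)
    (h : Θ.length ≤ a) (hS : 2 * a + 1 + (a + 1) ^ K ≤ S) (θ θ' : Th) :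
    (need ρ Θ (patsOf Θ K) sup θ θ').length ≤ S * K := by
  unfold need
  refine (SZ1_flatMap _ _ K fun s hs => ?_).trans (Nat.mul_le_mul_right _ ?_)
  · rw [List.length_map]
    refine (List.length_filter_le _ _).trans ?_
    have h1 := List.mem_of_mem_filter hs
    unfold outSt at h1
    exact SZ1_mem_allSt hK (List.mem_of_mem_filter h1)
  · refine (List.length_filter_le _ _).trans ?_
    unfold outSt
    exact (List.length_filter_le _ _).trans ((SZ1_allSt h).trans hS)

theorem SZ1_occ_append (E E' : Sys Va) : (occ (E ++ E')).length = (occ E).length + (occ E').length := by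
  unfold occ
  rw [List.flatMap_append, List.length_append]

theorem SZ1_occ_map {α : Type} (l : List α) (f : α → Eqn Va) (B : ℕ)
    (h : ∀ x ∈ l, (f x).1.1.length + (f x).2.1.length ≤ B) :
    (occ (l.map f)).length ≤ l.length * B := by
  unfold occ
  rw [List.flatMap_map]
  exact SZ1_flatMap _ _ _ fun x hx => by
    rw [List.length_append]
    exact h x hx

theorem SZ1_occ_flatMap {α : Type} (l : List α) (f : α → Sys Va) (B : ℕ)
    (h : ∀ x ∈ l, (occ (f x)).length ≤ B) : (occ (l.flatMap f)).length ≤ l.length * B := by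
  unfold occ
  rw [List.flatMap_assoc]
  exact SZ1_flatMap _ _ _ h

theorem SZ1_pair {ρ : Rd} {Θ : List Th} {sup : Th → ℕ} {a K S : ℕ} (hK : 1 ≤ K)
    (h : Θ.length ≤ a) (hS : 2 * a + 1 + (a + 1) ^ K ≤ S) (j : ℕ) (θ θ' : Th) :
    (occ (pairEqs ρ Θ (patsOf Θ K) sup j θ θ')).length ≤ 6 + 2 * (S * K) := by
  have h1 := SZ1_need (ρ := rflip ρ) (sup := sup) hK h hS θ' θ
  have h2 := SZ1_need (ρ := ρ) (sup := sup) hK h hS θ θ'
  unfold pairEqs occ
  simp only [List.flatMap_cons, List.flatMap_nil, List.length_append, List.length_map,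
    List.length_cons, List.length_nil]
  omega

theorem SZ1_role {ρ : Rd} {Θ : List Th} {sup : Th → ℕ} {a K S : ℕ} (hK : 1 ≤ K)
    (h : Θ.length ≤ a) (hS : 2 * a + 1 + (a + 1) ^ K ≤ S) (j : ℕ) :
    (occ (roleEqs ρ Θ (patsOf Θ K) sup j)).length ≤
      2 * (a * (1 + S)) + a * (a * (6 + 2 * (S * K))) := by
  unfold roleEqs sumEqs
  rw [SZ1_occ_append, SZ1_occ_append]
  have h1 : (occ (Θ.map fun θ => (([vn θ], 0),
      ((outSt ρ Θ (patsOf Θ K) sup θ).map (vo j θ), 0)))).length ≤ a * (1 + S) := by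
    refine (SZ1_occ_map _ _ (1 + S) fun θ _ => ?_).trans (Nat.mul_le_mul_right _ h)
    simp only [List.length_cons, List.length_nil, List.length_map]
    have : (outSt ρ Θ (patsOf Θ K) sup θ).length ≤ S := by
      unfold outSt
      exact (List.length_filter_le _ _).trans ((SZ1_allSt h).trans hS)
    omega
  have h2 : (occ (Θ.map fun θ => (([vn θ], 0),
      ((outSt (rflip ρ) Θ (patsOf Θ K) sup θ).map (vi j θ), 0)))).length ≤ a * (1 + S) := by
    refine (SZ1_occ_map _ _ (1 + S) fun θ _ => ?_).trans (Nat.mul_le_mul_right _ h)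
    simp only [List.length_cons, List.length_nil, List.length_map]
    have : (outSt (rflip ρ) Θ (patsOf Θ K) sup θ).length ≤ S := by
      unfold outSt
      exact (List.length_filter_le _ _).trans ((SZ1_allSt h).trans hS)
    omega
  have h3 : (occ (Θ.flatMap fun θ => Θ.flatMap fun θ' =>
      pairEqs ρ Θ (patsOf Θ K) sup j θ θ')).length ≤ a * (a * (6 + 2 * (S * K))) := by
    refine (SZ1_occ_flatMap _ _ (a * (6 + 2 * (S * K))) fun θ _ => ?_).trans
      (Nat.mul_le_mul_right _ h)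
    refine (SZ1_occ_flatMap _ _ (6 + 2 * (S * K)) fun θ' _ => ?_).trans
      (Nat.mul_le_mul_right _ h)
    exact SZ1_pair hK h hS j θ θ'
  omega

theorem SZ1_role_len {ρ : Rd} {Θ : List Th} {pats : List (List Th)} {sup : Th → ℕ} {a : ℕ}
    (h : Θ.length ≤ a) (j : ℕ) : (roleEqs ρ Θ pats sup j).length ≤ 2 * a + a * (a * 3) := by
  unfold roleEqs sumEqs
  rw [List.length_append, List.length_append, List.length_map, List.length_map]
  have h3 : (Θ.flatMap fun θ => Θ.flatMap fun θ' => pairEqs ρ Θ pats sup j θ θ').length ≤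
      a * (a * 3) := by
    refine (SZ1_flatMap _ _ (a * 3) fun θ _ => ?_).trans (Nat.mul_le_mul_right _ h)
    refine (SZ1_flatMap _ _ 3 fun θ' _ => ?_).trans (Nat.mul_le_mul_right _ h)
    exact le_rfl
  omega

theorem SZ1_const {F : NF} {Θ : List Th} {pats : List (List Th)} {sup : Th → ℕ}
    (hsup : ∀ θ, sup θ ≤ 2) {e : Eqn Va} (he : e ∈ sysW F F.tys Θ pats sup) :
    e.1.2 ≤ 2 ∧ e.2.2 ≤ 2 := by
  unfold sysW at he
  rw [List.mem_append, List.mem_append] at he
  rcases he with (he | he) | he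
  · rw [List.mem_map] at he
    obtain ⟨θ, -, rfl⟩ := he
    exact ⟨Nat.zero_le _, hsup θ⟩
  · rw [List.mem_map] at he
    obtain ⟨θ, -, rfl⟩ := he
    exact ⟨Nat.zero_le _, Nat.zero_le _⟩
  · rw [List.mem_flatMap] at he
    obtain ⟨p, -, he⟩ := he
    unfold roleEqs sumEqs at he
    rw [List.mem_append, List.mem_append] at he
    rcases he with (he | he) | he
    · rw [List.mem_map] at he
      obtain ⟨θ, -, rfl⟩ := he
      exact ⟨Nat.zero_le _, Nat.zero_le _⟩
    · rw [List.mem_map] at he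
      obtain ⟨θ, -, rfl⟩ := he
      exact ⟨Nat.zero_le _, Nat.zero_le _⟩
    · rw [List.mem_flatMap] at he
      obtain ⟨θ, -, he⟩ := he
      rw [List.mem_flatMap] at he
      obtain ⟨θ', -, he⟩ := he
      unfold pairEqs at he
      simp only [List.mem_cons, List.not_mem_nil, or_false] at he
      rcases he with rfl | rfl | rfl <;> exact ⟨Nat.zero_le _, Nat.zero_le _⟩

theorem SZ1_arith (R a K S : ℕ) (ha : 1 ≤ a) (hK : 2 ≤ K) (hS : 1 ≤ S) :
    a + a + R * (2 * a + a * (a * 3)) ≤ 16 * (R + 1) * a ^ 2 * S * K ∧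
      2 * a + a * (1 + a) + R * (2 * (a * (1 + S)) + a * (a * (6 + 2 * (S * K)))) ≤
        16 * (R + 1) * a ^ 2 * S * K := by
  set t := a ^ 2 * S * K with ht
  have e0 : 16 * (R + 1) * a ^ 2 * S * K = 16 * t + 16 * (R * t) := by rw [ht]; ring
  have hSK : 1 ≤ S * K := by
    have : 0 < S * K := by positivity
    omega
  have e1 : a ^ 2 ≤ t := by
    rw [ht, mul_assoc]
    exact Nat.le_mul_of_pos_right _ (by omega)
  have e2 : a ≤ a ^ 2 := by
    rw [pow_two]
    exact Nat.le_mul_of_pos_right _ (by omega)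
  have e3 : a * S ≤ t := by
    calc a * S ≤ a ^ 2 * S := Nat.mul_le_mul_right _ e2
      _ ≤ a ^ 2 * S * K := Nat.le_mul_of_pos_right _ (by omega)
  have e4 : a * (a * (S * K)) = t := by rw [ht]; ring
  rw [e0]
  constructor
  · have h1 : 2 * a + a * (a * 3) ≤ 5 * t := by
      have : a * (a * 3) = 3 * a ^ 2 := by ring
      omega
    have h2 : R * (2 * a + a * (a * 3)) ≤ R * (5 * t) := Nat.mul_le_mul_left _ h1
    have h3 : R * (5 * t) = 5 * (R * t) := by ring
    omega
  · have h1 : 2 * (a * (1 + S)) + a * (a * (6 + 2 * (S * K))) ≤ 12 * t := by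
      have h4 : 2 * (a * (1 + S)) = 2 * a + 2 * (a * S) := by ring
      have h5 : a * (a * (6 + 2 * (S * K))) = 6 * a ^ 2 + 2 * (a * (a * (S * K))) := by ring
      rw [h4, h5, e4]
      omega
    have h2 : R * (2 * (a * (1 + S)) + a * (a * (6 + 2 * (S * K)))) ≤ R * (12 * t) :=
      Nat.mul_le_mul_left _ h1
    have h3 : R * (12 * t) = 12 * (R * t) := by ring
    have h6 : a * (1 + a) = a + a ^ 2 := by ring
    omega

theorem small_fam (F : NF) (Θ : List Th) (hΘ : Θ.length ≤ 4 ^ F.len.length)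
    (ok : (Th → ℕ) → Bool) (E : Sys Va)
    (hE : E ∈ fam F F.tys Θ (patsOf Θ (kl F).length) (lists [0, 1, 2] Θ.length) ok) :
    SmallSys (mu F) E ∧ ∀ e ∈ E, e.1.2 ≤ 2 ∧ e.2.2 ≤ 2 := by
  unfold fam at hE
  rw [List.mem_map] at hE
  obtain ⟨l, hl, rfl⟩ := hE
  have hl' := List.mem_of_mem_filter hl
  have hsup : ∀ θ, look Θ l 0 θ ≤ 2 := SZ1_look hl'
  have hK := SZ1_kl F
  have ha : 1 ≤ 4 ^ F.len.length := Nat.one_le_pow _ _ (by norm_num)
  have hty : F.tys.length ≤ 4 ^ F.len.length := (SZ1_tys F).trans (SZ1_pow_le _)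
  obtain ⟨h1, h2⟩ := SZ1_arith F.roles.length (4 ^ F.len.length) (kl F).length
    (2 * 4 ^ F.len.length + 1 + (4 ^ F.len.length + 1) ^ (kl F).length) ha hK (by omega)
  have h3 : mu F = 16 * (F.roles.length + 1) * (4 ^ F.len.length) ^ 2 *
    (2 * 4 ^ F.len.length + 1 + (4 ^ F.len.length + 1) ^ (kl F).length) * (kl F).length := rfl
  rw [← h3] at h1 h2
  have hmu := (sizes_mu F).1
  refine ⟨⟨?_, ?_, fun e he => ?_⟩, fun e he => SZ1_const hsup he⟩
  · refine le_trans ?_ h1
    unfold sysW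
    rw [List.length_append, List.length_append, List.length_map, List.length_map]
    refine Nat.add_le_add (Nat.add_le_add hΘ hty) ?_
    refine (SZ1_flatMap _ _ _ fun p _ => SZ1_role_len hΘ p.2).trans ?_
    rw [List.length_zipIdx]
  · refine le_trans ?_ h2
    unfold sysW
    rw [SZ1_occ_append, SZ1_occ_append]
    refine Nat.add_le_add (Nat.add_le_add ?_ ?_) ?_
    · refine (SZ1_occ_map _ _ 2 fun θ _ => ?_).trans ?_
      · unfold supEq
        split_ifs <;> simp
      · omega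
    · refine (SZ1_occ_map _ _ (1 + 4 ^ F.len.length) fun s _ => ?_).trans
        (Nat.mul_le_mul_right _ hty)
      unfold nEq
      simp only [List.length_cons, List.length_nil, List.length_map]
      have := List.length_filter_le (fun θ : Th => decide (θ.1 = s)) Θ
      omega
    · refine (SZ1_occ_flatMap _ _ _ fun p _ => SZ1_role (by omega) hΘ le_rfl p.2).trans ?_
      rw [List.length_zipIdx]
  · obtain ⟨h4, h5⟩ := SZ1_const hsup he
    exact ⟨h4.trans hmu, h5.trans hmu⟩

end Pool.Agent.H24U
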