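import Pool.Agent.Lib.H24U.SolP
import Pool.Agent.Lib.H24U.Sizes

/-!
# Correctness of the verification program
-/

set_option autoImplicit false

namespace Pool.Agent.H24U

open Pool.Agent.PolyTime

theorem pow_cap {M a k : ℕ} (ha : a ≤ M + 3) (hk : k ≤ 2 * M) : a ^ k ≤ (M + 3) ^ (2 * M) :=
  (Nat.pow_le_pow_left ha k).trans (Nat.pow_le_pow_right (by omega) hk)

theorem tysP_eq (F : NF) (y : List Bool) (hy : (mu F + 3) ^ (2 * mu F) ≤ y.length) :
    tysP y F = F.tys := by
  have h := sizes_mu F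
  unfold tysP NF.tys
  rw [capLists_eq]
  exact (pow_cap (by simp only [List.length_cons, List.length_nil]; omega)
    (by omega)).trans hy

theorem patsP_eq (F : NF) (y : List Bool) (Θ : List Th) (hΘ : Θ.length ≤ mu F)
    (hy : (mu F + 3) ^ (2 * mu F) ≤ y.length) :
    patsP y Θ (kl F) = patsOf Θ (kl F).length := by
  have h := sizes_mu F
  unfold patsP patsOf
  refine List.flatMap_congr fun k hk => ?_
  have hk' : k ≤ (kl F).length := by
    have := List.mem_range.1 hk
    omega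
  have hlen : ((kl F).take k).length = k := by
    rw [List.length_take]; omega
  rw [capLists_eq, hlen]
  rw [hlen]
  exact (pow_cap (by omega) (by omega)).trans hy

theorem supsP_eq (F : NF) (y : List Bool) (Θ : List Th) (hΘ : Θ.length ≤ mu F)
    (hy : (mu F + 3) ^ (2 * mu F) ≤ y.length) :
    capLists y [0, 1, 2] Θ = lists [0, 1, 2] Θ.length := by
  refine capLists_eq y _ Θ ?_
  exact (pow_cap (by simp only [List.length_cons, List.length_nil]; omega) (by omega)).trans hy

theorem check_iff (F : NF) (y : List Bool) (hy : (mu F + 3) ^ (2 * mu F) ≤ y.length) :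
    check F y = true ↔
      (∃ E ∈ sysI F, SolL (nvs F) E ((nvs F).length + 1) (lamV y (nvs F)) (valV y (nvs F))) ∧
      ∀ E ∈ sysJ F, ¬ SolL (nvs F) E ((nvs F).length + 1) (lamV y (nvs F)) (valV y (nvs F)) := by
  have h := sizes_mu F
  obtain ⟨hI, hJ⟩ := length_th_le F
  have eI : famI y F F.tys (thI F.tys) = sysI F := by
    unfold famI sysI
    rw [patsP_eq F y _ h.2.2.2.2.1 hy, supsP_eq F y _ h.2.2.2.2.1 hy]
  have eJ : famJ y F F.tys (thJ F F.tys) = sysJ F := by
    unfold famJ sysJ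
    rw [patsP_eq F y _ h.2.2.2.2.2 hy, supsP_eq F y _ h.2.2.2.2.2 hy]
  have hnv : (nvs F).length ≤ mu F := by
    unfold nvs
    rw [List.length_map]
    exact h.2.2.2.1
  have sI : ∀ E ∈ sysI F, solP y (nvs F) E = true ↔
      SolL (nvs F) E ((nvs F).length + 1) (lamV y (nvs F)) (valV y (nvs F)) := fun E hE =>
    have := small_fam F _ hI _ E hE
    solP_iff (mu F) y (nvs F) E hnv this.1 this.2 hy
  have sJ : ∀ E ∈ sysJ F, solP y (nvs F) E = true ↔
      SolL (nvs F) E ((nvs F).length + 1) (lamV y (nvs F)) (valV y (nvs F)) := fun E hE =>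
    have := small_fam F _ hJ _ E hE
    solP_iff (mu F) y (nvs F) E hnv this.1 this.2 hy
  unfold check
  rw [tysP_eq F y hy]
  unfold checkT
  rw [eI, eJ, Bool.and_eq_true, Bool.not_eq_true', List.any_eq_true, List.any_eq_false]
  constructor
  · rintro ⟨⟨E, hE, h1⟩, h2⟩
    exact ⟨⟨E, hE, (sI E hE).1 h1⟩, fun E hE h3 => h2 E hE ((sJ E hE).2 h3)⟩
  · rintro ⟨⟨E, hE, h1⟩, h2⟩
    exact ⟨⟨E, hE, (sI E hE).2 h1⟩, fun E hE h3 => h2 E hE ((sJ E hE).1 h3)⟩

end Pool.Agent.H24U
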