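import Pool.Agent.Lib.H24U.RData

/-!
# Chunk RE: existential restrictions for the constructed relation

All edges are compatible: `rel x y → comp ρ (τ x) (τ y)` (for `M`: `matOk`; for `a x = y`: `attOk`
and `a_tau`; for `b y = x`: `attOk (rflip ρ)` and `comp_rflip`). So a successor satisfying `p.1` gives
`p.2`. Conversely let `p.2` hold at `x`. Status `(0, [θ'])` / `(1, [θ'])`: `full`, the successor is
given by `m_x` / `a x`. Status `(2, _)`: impossible by `noneed`. Status `(3, π)`: by `patOk` some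
`θ' ∈ π` has `p.1`, then the element of `w` (`b_own`) with this type is a successor, or some free
`θ' ∈ Θ` has `p.1`, and an element of this type exists since `1 ≤ sup θ'`.
-/

set_option autoImplicit false

namespace Pool.Agent.H24U

open Cardinal

theorem re_cases {ρ : Rd} {Θ : List Th} {pats : List (List Th)} {sup : Th → ℕ} {θ : Th} {s : St}
    (h : s ∈ outSt ρ Θ pats sup θ) :
    (∃ θ' ∈ Θ, s = (0, [θ']) ∧ matOk ρ θ θ' = true) ∨
    (∃ θ' ∈ Θ, s = (1, [θ']) ∧ attOk ρ θ θ' = true ∧ 1 ≤ sup θ') ∨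
    (s = (2, []) ∧ bit θ.2 (rf ρ) = true ∧ noneed ρ θ = true) ∨
    (∃ π, s = (3, π) ∧ patOk ρ Θ sup θ π = true) := by
  rw [outSt, List.mem_filter, allSt] at h
  obtain ⟨h1, h2⟩ := h
  simp only [List.mem_append, List.mem_map, List.mem_singleton] at h1
  rcases h1 with ((⟨θ', h1, rfl⟩ | ⟨θ', h1, rfl⟩) | rfl) | ⟨π, h1, rfl⟩
  · left
    refine ⟨θ', h1, rfl, ?_⟩
    simpa [okSt] using h2
  · right; left
    refine ⟨θ', h1, rfl, ?_⟩
    simpa [okSt] using h2
  · right; right; left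
    refine ⟨rfl, ?_⟩
    simpa [okSt] using h2
  · right; right; right
    refine ⟨π, rfl, ?_⟩
    simpa [okSt] using h2

theorem re_comp {Δ : Type} {ρ : Rd} {Θ : List Th} {pats : List (List Th)} {sup : Th → ℕ}
    {τ : Δ → Th} {s u : Δ → St} {M : Δ → Δ → Prop} {a b : Δ → Δ}
    (h : RData ρ Θ pats sup τ s u M a b) {x y : Δ} (hxy : rel ρ τ s u M a b x y) :
    comp ρ (τ x) (τ y) = true := by
  rcases hxy with hxy | ⟨⟨θ', h1⟩, rfl⟩ | ⟨⟨θ, h1⟩, rfl⟩ | ⟨_, _, h1⟩
  · have h1 := (h.m_st x y hxy).1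
    have h2 := re_cases (h.s_mem x)
    rw [h1] at h2
    rcases h2 with ⟨θ', _, h3, h4⟩ | ⟨θ', _, h3, _⟩ | ⟨h3, _⟩ | ⟨π, h3, _⟩
    · simp only [Prod.mk.injEq, List.cons.injEq, and_true, true_and] at h3
      subst h3
      simp only [matOk, Bool.and_eq_true] at h4
      exact h4.1.1.2
    · simp at h3
    · simp at h3
    · simp at h3
  · have h2 := re_cases (h.s_mem x)
    have h5 := h.a_tau x θ' h1
    rw [h1] at h2
    rcases h2 with ⟨θ', _, h3, h4⟩ | ⟨θ', _, h3, h4, _⟩ | ⟨h3, _⟩ | ⟨π, h3, _⟩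
    · simp at h3
    · simp only [Prod.mk.injEq, List.cons.injEq, and_true, true_and] at h3
      subst h3
      simp only [attOk, Bool.and_eq_true] at h4
      rw [h5]
      exact h4.1.2
    · simp at h3
    · simp at h3
  · have h2 := re_cases (h.u_mem y)
    have h5 := h.b_tau y θ h1
    rw [h1] at h2
    rcases h2 with ⟨θ', _, h3, h4⟩ | ⟨θ', _, h3, h4, _⟩ | ⟨h3, _⟩ | ⟨π, h3, _⟩
    · simp at h3
    · simp only [Prod.mk.injEq, List.cons.injEq, and_true, true_and] at h3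
      subst h3
      simp only [attOk, Bool.and_eq_true] at h4
      rw [h5, ← comp_rflip]
      exact h4.1.2
    · simp at h3
    · simp at h3
  · exact h1

theorem re_exists {Δ : Type} {τ : Δ → Th} {n : ℕ} {θ : Th} (h : SupOk n (cnt τ θ)) (hn : 1 ≤ n) :
    ∃ y, τ y = θ := by
  have h1 : cnt τ θ ≠ 0 := by
    rcases h with ⟨_, h2⟩ | ⟨_, h2⟩
    · rw [h2]
      exact Nat.cast_ne_zero.2 (by omega)
    · intro h3
      rw [h3] at h2
      simp at h2
  obtain ⟨y⟩ := Cardinal.mk_ne_zero_iff.1 h1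
  exact ⟨y.1, y.2⟩

theorem RData.ex {Δ : Type} {ρ : Rd} {Θ : List Th} {pats : List (List Th)} {sup : Th → ℕ}
    {τ : Δ → Th} {s u : Δ → St} {M : Δ → Δ → Prop} {a b : Δ → Δ}
    (h : RData ρ Θ pats sup τ s u M a b) (p : ℕ × ℕ) (hp : p ∈ rex ρ) (x : Δ) :
    bit (τ x).2 p.2 = true ↔ ∃ y, rel ρ τ s u M a b x y ∧ bit (τ y).2 p.1 = true := by
  constructor
  · intro hb
    rcases re_cases (h.s_mem x) with ⟨θ', _, h3, h4⟩ | ⟨θ', _, h3, h4, _⟩ | ⟨h3, _, h4⟩ |
      ⟨π, h3, h4⟩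
    · simp only [matOk, Bool.and_eq_true] at h4
      have h5 := h4.1.2
      rw [full, List.all_eq_true] at h5
      have h6 := h5 p hp
      rw [hb, Bool.not_true, Bool.false_or] at h6
      obtain ⟨y, hy⟩ := h.m_x x θ' h3
      have h7 := (h.m_st x y hy).1
      rw [h3] at h7
      simp only [Prod.mk.injEq, List.cons.injEq, and_true, true_and] at h7
      exact ⟨y, Or.inl hy, h7 ▸ h6⟩
    · simp only [attOk, Bool.and_eq_true] at h4
      have h5 := h4.2
      rw [full, List.all_eq_true] at h5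
      have h6 := h5 p hp
      rw [hb, Bool.not_true, Bool.false_or] at h6
      refine ⟨a x, Or.inr (Or.inl ⟨⟨θ', h3⟩, rfl⟩), ?_⟩
      rw [h.a_tau x θ' h3]
      exact h6
    · rw [noneed, List.all_eq_true] at h4
      have h6 := h4 p hp
      rw [hb] at h6
      simp at h6
    · simp only [patOk, Bool.and_eq_true, List.all_eq_true] at h4
      have h5 := h4.1.2 p hp
      rw [hb, Bool.not_true, Bool.false_or, Bool.or_eq_true, List.any_eq_true,
        List.any_eq_true] at h5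
      rcases h5 with ⟨θ', h5, h6⟩ | ⟨θ', h5, h6⟩
      · obtain ⟨w, _, hw2, hw3⟩ := h.b_own x (by rw [h3])
        rw [h3] at hw2
        dsimp only at hw2
        rw [← hw2, List.mem_map] at h5
        obtain ⟨y, hy, rfl⟩ := h5
        obtain ⟨h7, h8⟩ := hw3 y hy
        exact ⟨y, Or.inr (Or.inr (Or.inl ⟨⟨_, h7⟩, h8⟩)), h6⟩
      · rw [Bool.and_eq_true] at h6
        obtain ⟨h6, h7⟩ := h6
        simp only [free, Bool.and_eq_true, Bool.not_eq_true', decide_eq_true_eq] at h6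
        obtain ⟨y, rfl⟩ := re_exists (h.hsup θ' h5) h6.2
        refine ⟨y, Or.inr (Or.inr (Or.inr ⟨?_, h6.1.1, h6.1.2⟩)), h7⟩
        simpa using h4.1.1.1
  · rintro ⟨y, h1, h2⟩
    have h3 := re_comp h h1
    simp only [comp, Bool.and_eq_true, List.all_eq_true] at h3
    have h4 := h3.1 p hp
    rw [h2, Bool.not_true, Bool.false_or] at h4
    exact h4

end Pool.Agent.H24U
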