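import Pool.Agent.Lib.H24U.RelE

/-!
# Chunk RF: functionality of the constructed relation

`f` (i.e. `bit (τ x).2 (rf ρ) = true`): the status of `x` is `(0, [θ'])`, `(1, [θ'])` or `(2, _)`
(`okSt`; a status `(3, π)` needs `¬ f`). An edge `M x y` needs status `(0, ..)`, an edge `a x = y`
status `(1, ..)`; an edge `b y = x` with `u y = (1, [θ])` has `θ = τ x` (`b_tau`) with `¬ f`
(`okSt (rflip ρ)`), impossible; so there is at most one successor. `¬ f`: the status is `(3, π)` with
`patOk`; the elements of the list `w` of `b_own` are successors, and so are all elements of types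
`θ'` with `free ρ sup (τ x) θ'`; `2 ≤ π.length + Σ sup θ'` gives two different ones (two elements of
`w`; or one of `w` (type with `g`) and a free one (type with `¬ g`); or two free ones: of one type
with `sup = 2`, i.e. `2 ≤ cnt τ θ'`, or of two types).
-/

set_option autoImplicit false

namespace Pool.Agent.H24U

open Cardinal

theorem rff_two {sup : Th → ℕ} (L : List Th) (hL : L.Nodup) (h : 2 ≤ (L.map sup).sum) :
    (∃ θ ∈ L, 2 ≤ sup θ) ∨ ∃ θ ∈ L, ∃ θ' ∈ L, θ ≠ θ' ∧ 1 ≤ sup θ ∧ 1 ≤ sup θ' := by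
  induction L with
  | nil => simp at h
  | cons c L ih =>
    rw [List.map_cons, List.sum_cons] at h
    rw [List.nodup_cons] at hL
    rcases Nat.lt_or_ge (sup c) 1 with h1 | h1
    · rcases ih hL.2 (by omega) with ⟨θ, h2, h3⟩ | ⟨θ, h2, θ', h3, h4⟩
      · exact Or.inl ⟨θ, List.mem_cons_of_mem _ h2, h3⟩
      · exact Or.inr ⟨θ, List.mem_cons_of_mem _ h2, θ', List.mem_cons_of_mem _ h3, h4⟩
    · rcases Nat.lt_or_ge (sup c) 2 with h2 | h2
      · have h3 : ∃ θ ∈ L, 1 ≤ sup θ := by
          by_contra h4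
          push Not at h4
          have h5 : (L.map sup).sum = 0 := by
            rw [List.sum_eq_zero_iff]
            intro n hn
            obtain ⟨θ, h6, rfl⟩ := List.mem_map.1 hn
            have := h4 θ h6
            omega
          omega
        obtain ⟨θ, h3, h4⟩ := h3
        refine Or.inr ⟨c, List.mem_cons_self .., θ, List.mem_cons_of_mem _ h3, ?_, h1, h4⟩
        rintro rfl
        exact hL.1 h3
      · exact Or.inl ⟨c, List.mem_cons_self .., h2⟩

theorem rff_one {sup : Th → ℕ} (L : List Th) (h : 1 ≤ (L.map sup).sum) :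
    ∃ θ ∈ L, 1 ≤ sup θ := by
  by_contra h4
  push Not at h4
  have h5 : (L.map sup).sum = 0 := by
    rw [List.sum_eq_zero_iff]
    intro n hn
    obtain ⟨θ, h6, rfl⟩ := List.mem_map.1 hn
    have := h4 θ h6
    omega
  omega

theorem rff_exists_two {Δ : Type} {τ : Δ → Th} {n : ℕ} {θ : Th} (h : SupOk n (cnt τ θ))
    (hn : 2 ≤ n) : ∃ y z, y ≠ z ∧ τ y = θ ∧ τ z = θ := by
  have h1 : (2 : Cardinal.{0}) ≤ cnt τ θ := by
    rcases h with ⟨h2, _⟩ | ⟨_, h2⟩
    · omega
    · exact h2
  rw [cnt, Cardinal.two_le_iff] at h1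
  obtain ⟨y, z, hyz⟩ := h1
  exact ⟨y.1, z.1, fun h3 => hyz (Subtype.ext h3), y.2, z.2⟩

theorem rff_edge {Δ : Type} {ρ : Rd} {Θ : List Th} {pats : List (List Th)} {sup : Th → ℕ}
    {τ : Δ → Th} {s u : Δ → St} {M : Δ → Δ → Prop} {a b : Δ → Δ}
    (h : RData ρ Θ pats sup τ s u M a b) {x y : Δ} (hf : bit (τ x).2 (rf ρ) = true)
    (hxy : rel ρ τ s u M a b x y) : ((s x).1 = 0 ∧ M x y) ∨ ((s x).1 = 1 ∧ a x = y) := by
  rcases hxy with hxy | ⟨⟨θ', h1⟩, rfl⟩ | ⟨⟨θ, h1⟩, rfl⟩ | ⟨h1, _⟩
  · left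
    rw [(h.m_st x y hxy).1]
    exact ⟨rfl, hxy⟩
  · right
    rw [h1]
    exact ⟨rfl, rfl⟩
  · exfalso
    have h2 := re_cases (h.u_mem y)
    have h5 := h.b_tau y θ h1
    rw [h1] at h2
    rcases h2 with ⟨θ', _, h3, h4⟩ | ⟨θ', _, h3, h4, _⟩ | ⟨h3, _⟩ | ⟨π, h3, _⟩
    · simp at h3
    · simp only [Prod.mk.injEq, List.cons.injEq, and_true, true_and] at h3
      subst h3
      simp only [attOk, Bool.and_eq_true, rg_rflip, Bool.not_eq_true'] at h4
      rw [h5, h4.1.1.2] at hf
      simp at hf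
    · simp at h3
    · simp at h3
  · rw [h1] at hf
    simp at hf

theorem RData.f {Δ : Type} {ρ : Rd} {Θ : List Th} {pats : List (List Th)} {sup : Th → ℕ}
    {τ : Δ → Th} {s u : Δ → St} {M : Δ → Δ → Prop} {a b : Δ → Δ} (hΘ : Θ.Nodup)
    (h : RData ρ Θ pats sup τ s u M a b) (x : Δ) :
    bit (τ x).2 (rf ρ) = true ↔
      ∀ y z, rel ρ τ s u M a b x y → rel ρ τ s u M a b x z → y = z := by
  constructor
  · intro hf y z hy hz
    rcases rff_edge h hf hy with ⟨h1, h2⟩ | ⟨h1, h2⟩ <;>
      rcases rff_edge h hf hz with ⟨h3, h4⟩ | ⟨h3, h4⟩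
    · exact h.m_fx x y z h2 h4
    · omega
    · omega
    · rw [← h2, ← h4]
  · intro hall
    by_contra hf
    rw [Bool.not_eq_true] at hf
    rcases re_cases (h.s_mem x) with ⟨θ', _, h3, h4⟩ | ⟨θ', _, h3, h4, _⟩ | ⟨h3, h4, _⟩ |
      ⟨π, h3, h4⟩
    · simp only [matOk, Bool.and_eq_true] at h4
      rw [hf] at h4
      simp at h4
    · simp only [attOk, Bool.and_eq_true] at h4
      rw [hf] at h4
      simp at h4
    · rw [hf] at h4
      simp at h4
    · simp only [patOk, Bool.and_eq_true, List.all_eq_true, decide_eq_true_eq] at h4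
      obtain ⟨⟨⟨_, hπ⟩, _⟩, hlen⟩ := h4
      obtain ⟨w, hw1, hw2, hw3⟩ := h.b_own x (by rw [h3])
      rw [h3] at hw2
      dsimp only at hw2
      have hown : ∀ y ∈ w, rel ρ τ s u M a b x y := fun y hy =>
        Or.inr (Or.inr (Or.inl ⟨⟨_, (hw3 y hy).1⟩, (hw3 y hy).2⟩))
      have hfree : ∀ y, free ρ sup (τ x) (τ y) = true → rel ρ τ s u M a b x y := by
        intro y hy
        simp only [free, Bool.and_eq_true, Bool.not_eq_true', decide_eq_true_eq] at hy
        exact Or.inr (Or.inr (Or.inr ⟨hf, hy.1.1, hy.1.2⟩))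
      have hwl : w.length = π.length := by
        rw [← hw2, List.length_map]
      rcases w with _ | ⟨y, _ | ⟨z, w⟩⟩
      · simp only [List.length_nil] at hwl
        rcases rff_two (sup := sup) (Θ.filter (free ρ sup (τ x))) (hΘ.filter _) (by omega) with
          ⟨θ, h5, h6⟩ | ⟨θ, h5, θ', h6, h7, h8, h9⟩
        · rw [List.mem_filter] at h5
          obtain ⟨y, z, h7, h8, h9⟩ := rff_exists_two (h.hsup θ h5.1) h6
          exact h7 (hall y z (hfree y (by rw [h8]; exact h5.2)) (hfree z (by rw [h9]; exact h5.2)))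
        · rw [List.mem_filter] at h5 h6
          obtain ⟨y, hy⟩ := re_exists (h.hsup θ h5.1) h8
          obtain ⟨z, hz⟩ := re_exists (h.hsup θ' h6.1) h9
          have := hall y z (hfree y (by rw [hy]; exact h5.2)) (hfree z (by rw [hz]; exact h6.2))
          subst this
          exact h7 (hy.symm.trans hz)
      · simp only [List.length_cons, List.length_nil] at hwl
        obtain ⟨θ, h5, h6⟩ := rff_one (sup := sup) (Θ.filter (free ρ sup (τ x))) (by omega)
        rw [List.mem_filter] at h5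
        obtain ⟨z, hz⟩ := re_exists (h.hsup θ h5.1) h6
        have h7 := hall y z (hown y (List.mem_cons_self ..)) (hfree z (by rw [hz]; exact h5.2))
        subst h7
        have h8 : attOk (rflip ρ) (τ y) (τ x) = true := by
          apply hπ
          rw [← hw2]
          exact List.mem_map.2 ⟨y, List.mem_cons_self .., rfl⟩
        simp only [attOk, Bool.and_eq_true, rf_rflip] at h8
        have h9 := h5.2
        rw [← hz] at h9
        simp only [free, Bool.and_eq_true, Bool.not_eq_true', decide_eq_true_eq] at h9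
        rw [h9.1.1] at h8
        simp at h8
      · have h5 := hall y z (hown y (List.mem_cons_self ..))
          (hown z (List.mem_cons_of_mem _ (List.mem_cons_self ..)))
        subst h5
        rw [List.nodup_cons] at hw1
        exact hw1.1 (List.mem_cons_self ..)

end Pool.Agent.H24U
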