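import Pool.Agent.Lib.H24U.RealAr
import Pool.Agent.Lib.H24U.RelF
import Pool.Agent.Lib.H24U.RelE
import Pool.Agent.Lib.H24U.Attach

/-!
# A fitting relation exists iff the linear conditions are solvable
-/

set_option autoImplicit false

namespace Pool.Agent.H24U

open Cardinal

theorem mem_outSt {ρ : Rd} {Θ : List Th} {pats : List (List Th)} {sup : Th → ℕ} {θ : Th} {s : St} :
    s ∈ outSt ρ Θ pats sup θ ↔ s ∈ allSt Θ pats ∧ okSt ρ Θ sup θ s = true := by
  simp [outSt]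

theorem mem_out0 {ρ : Rd} {Θ : List Th} {pats : List (List Th)} {sup : Th → ℕ} {θ θ' : Th} :
    ((0, [θ']) : St) ∈ outSt ρ Θ pats sup θ ↔ θ' ∈ Θ ∧ matOk ρ θ θ' = true := by
  rw [mem_outSt]
  simp [allSt, okSt]

theorem mem_out1 {ρ : Rd} {Θ : List Th} {pats : List (List Th)} {sup : Th → ℕ} {θ θ' : Th} :
    ((1, [θ']) : St) ∈ outSt ρ Θ pats sup θ ↔ θ' ∈ Θ ∧ attOk ρ θ θ' = true ∧ 1 ≤ sup θ' := by
  rw [mem_outSt]
  simp [allSt, okSt]

theorem comp_rflip' (ρ : Rd) (θ θ' : Th) : comp (rflip ρ) θ' θ = comp ρ θ θ' := by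
  simp only [comp, rex_rflip, rey_rflip, Bool.and_comm]

theorem matOk_rflip (ρ : Rd) (θ θ' : Th) : matOk (rflip ρ) θ' θ = matOk ρ θ θ' := by
  simp only [matOk, rf_rflip, rg_rflip, comp_rflip', rflip_rflip]
  rw [Bool.and_comm (bit θ'.2 (rg ρ)) (bit θ.2 (rf ρ))]
  rw [Bool.and_assoc _ (full _ _ _) (full _ _ _), Bool.and_comm (full _ _ _) (full _ _ _),
    ← Bool.and_assoc]

theorem need_pos {ρ : Rd} {Θ : List Th} {pats : List (List Th)} {sup : Th → ℕ} {θ θ' : Th} {t : St}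
    (h : t ∈ need ρ Θ pats sup θ θ') :
    t ∈ outSt ρ Θ pats sup θ ∧ attOk (rflip ρ) θ' θ = true := by
  simp only [need, List.mem_flatMap, List.mem_filter, List.mem_map, decide_eq_true_eq,
    beq_iff_eq] at h
  obtain ⟨s, ⟨h1, h2⟩, a, ⟨h3, rfl⟩, rfl⟩ := h
  refine ⟨h1, ?_⟩
  have h4 := (mem_outSt.1 h1).2
  simp only [okSt, h2, patOk, Bool.or_eq_true, Bool.and_eq_true, beq_iff_eq, List.all_eq_true] at h4
  rcases h4 with ((h4 | h4) | h4) | h4
  · exact absurd h4.1 (by decide)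
  · exact absurd h4.1 (by decide)
  · exact absurd h4.1.1 (by decide)
  · exact h4.2.1.1.2 _ h3

theorem real_iff {Δ : Type} (ρ : Rd) (Θ : List Th) (hΘ : Θ.Nodup) (pats : List (List Th))
    (K : ℕ) (hK : (rex ρ).length + 2 ≤ K) (hK' : (rey ρ).length + 2 ≤ K) (hp : PatsOk Θ pats K)
    (sup : Th → ℕ) (τ : Δ → Th) (hτ : ∀ x, τ x ∈ Θ)
    (hsup : ∀ θ ∈ Θ, SupOk (sup θ) (cnt τ θ)) :
    (∃ P : Δ → Δ → Prop, Real ρ (fun x => (τ x).2) P) ↔
      ∃ o i : Th → St → Cardinal.{0}, RoleAr ρ Θ pats sup (cnt τ) o i := by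
  constructor
  · rintro ⟨P, hP⟩
    exact ar_of_real ρ Θ hΘ pats K hK hK' hp sup τ hτ hsup P hP
  · rintro ⟨o, i, h⟩
    obtain ⟨s, hs1, hs2⟩ := split_fib τ Θ hτ (outSt ρ Θ pats sup)
      (fun θ _ => nodup_outSt hΘ hp.nodup ρ sup θ) o h.o_sum
    obtain ⟨u, hu1, hu2⟩ := split_fib τ Θ hτ (outSt (rflip ρ) Θ pats sup)
      (fun θ _ => nodup_outSt hΘ hp.nodup (rflip ρ) sup θ) i h.i_sum
    have hneed : ∀ (ρ : Rd) (s : Δ → St) (o : Th → St → Cardinal.{0})
        (_ : ∀ θ ∈ Θ, ∀ t ∈ outSt ρ Θ pats sup θ, #{x // τ x = θ ∧ s x = t} = o θ t)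
        (θ θ' : Th), θ ∈ Θ → ((need ρ Θ pats sup θ θ').map fun t =>
          #{y // τ y = θ ∧ s y = t}).sum = ((need ρ Θ pats sup θ θ').map (o θ)).sum := by
      intro ρ s o hs2 θ θ' hθ
      congr 1
      exact List.map_congr_left fun t ht => hs2 θ hθ t (need_pos ht).1
    have hatt : ∀ (ρ : Rd) (s u : Δ → St) (o i : Th → St → Cardinal.{0})
        (_ : ∀ θ ∈ Θ, ∀ t ∈ outSt ρ Θ pats sup θ, #{x // τ x = θ ∧ s x = t} = o θ t)
        (_ : ∀ θ ∈ Θ, ∀ t ∈ outSt (rflip ρ) Θ pats sup θ, #{x // τ x = θ ∧ u x = t} = i θ t)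
        (_ : ∀ θ ∈ Θ, ∀ θ' ∈ Θ,
          ((need (rflip ρ) Θ pats sup θ' θ).map (i θ')).sum ≤ o θ (1, [θ'])),
        ∀ θ ∈ Θ, ∀ θ' ∈ Θ,
          ((need (rflip ρ) Θ pats sup θ' θ).map fun t => #{y // τ y = θ' ∧ u y = t}).sum ≤
            #{x // τ x = θ ∧ s x = (1, [θ'])} := by
      intro ρ s u o i hs2 hu2 hh θ hθ θ' hθ'
      by_cases hm : ((1, [θ']) : St) ∈ outSt ρ Θ pats sup θ
      · rw [hs2 θ hθ _ hm, hneed (rflip ρ) u i hu2 θ' θ hθ']
        exact hh θ hθ θ' hθ'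
      · have h0 : ((need (rflip ρ) Θ pats sup θ' θ).map fun t =>
            #{y // τ y = θ' ∧ u y = t}).sum = 0 := by
          refine List.sum_eq_zero fun c hc => ?_
          obtain ⟨t, ht, rfl⟩ := List.mem_map.1 hc
          have h1 := (need_pos ht).2
          rw [rflip_rflip] at h1
          have h2 : ¬ 1 ≤ sup θ' := fun h2 => hm (mem_out1.2 ⟨hθ', h1, h2⟩)
          have h3 : cnt τ θ' = 0 := by
            rcases hsup θ' hθ' with ⟨_, h4⟩ | ⟨h4, _⟩
            · rw [h4]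
              have : sup θ' = 0 := by omega
              rw [this]
              simp
            · omega
          refine le_antisymm ?_ zero_le
          rw [← h3]
          exact mk_le_of_injective (f := fun y : {y // τ y = θ' ∧ u y = t} =>
            (⟨y.1, y.2.1⟩ : {x // τ x = θ'})) (fun y z hyz => by
              apply Subtype.ext
              exact congrArg (fun z : {x // τ x = θ'} => z.1) hyz)
        rw [h0]
        exact zero_le
    obtain ⟨a, ha1, ha2⟩ := attach ρ Θ hΘ pats K hp sup τ hτ hsup s u hs1 hu1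
      (hatt ρ s u o i hs2 hu2 h.att)
    obtain ⟨b, hb1, hb2⟩ := attach (rflip ρ) Θ hΘ pats K hp sup τ hτ hsup u s hu1
      (by rw [rflip_rflip]; exact hs1)
      (hatt (rflip ρ) u s i o hu2 (by rw [rflip_rflip]; exact hs2)
        (fun θ hθ θ' hθ' => h.att' θ' hθ' θ hθ))
    obtain ⟨M, m1, m2, m3, m4, m5⟩ := matching Θ τ hτ s u
      (fun x θ' hx => (mem_out0.1 (hx ▸ hs1 x)).1) (fun y θ hy => (mem_out0.1 (hy ▸ hu1 y)).1)
      (by
        intro θ hθ θ' hθ'
        by_cases hm : matOk ρ θ θ' = true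
        · rw [hs2 θ hθ _ (mem_out0.2 ⟨hθ', hm⟩),
            hu2 θ' hθ' _ (mem_out0.2 ⟨hθ, by rw [matOk_rflip]; exact hm⟩)]
          exact h.mat θ hθ θ' hθ'
        · have e1 : IsEmpty {x // τ x = θ ∧ s x = (0, [θ'])} := ⟨fun x => hm (by
            have := hs1 x.1
            rw [x.2.2, x.2.1] at this
            exact (mem_out0.1 this).2)⟩
          have e2 : IsEmpty {y // τ y = θ' ∧ u y = (0, [θ])} := ⟨fun y => hm (by
            have := hu1 y.1
            rw [y.2.2, y.2.1] at this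
            rw [← matOk_rflip]
            exact (mem_out0.1 this).2)⟩
          rw [mk_eq_zero, mk_eq_zero])
    have hd : RData ρ Θ pats sup τ s u M a b :=
      ⟨hτ, hsup, hs1, hu1, m1, m2, m3, m4, m5, ha1, ha2, hb1, hb2⟩
    refine ⟨rel ρ τ s u M a b, hd.f hΘ, ?_, fun p hp x => hd.ex p hp x, ?_⟩
    · intro y
      have := hd.flip.f hΘ y
      simp only [rf_rflip, rel_flip] at this
      exact this
    · intro p hp y
      have := hd.flip.ex p hp y
      simp only [rel_flip] at this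
      exact this

end Pool.Agent.H24U
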