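import Pool.Agent.Lib.H24U.SolW
import Pool.Agent.Lib.H24U.RoleIff

/-!
# Chunks PAT (patsOk_patsOf) and CNT (count_iff): solutions and maps to types

CNT: use `sol_sysW` and `real_iff` (with `K = (kl F).length`, `patsOk_patsOf`). (⇒) `split_fib` for
`τ`, `Sl = F.tys`, `l s = Θ.filter (θ.1 = s)`, `n s θ = n θ` gives `τ'`. (⇐) `n = cnt τ'`; the sum over
the `θ` with `θ.1 = s` is `cnt τ s` by `sum_fib`.
-/

set_option autoImplicit false

namespace Pool.Agent.H24U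

open Cardinal

theorem patsOk_patsOf {Θ : List Th} (hΘ : Θ.Nodup) (K : ℕ) : PatsOk Θ (patsOf Θ K) K := by
  constructor
  · unfold patsOf
    rw [List.nodup_flatMap]
    refine ⟨fun n _ => nodup_lists hΘ n, ?_⟩
    refine List.nodup_range.imp fun {a b} hab => ?_
    intro l hl hl'
    exact hab ((mem_lists.mp hl).1.symm.trans (mem_lists.mp hl').1)
  · intro π
    unfold patsOf
    rw [List.mem_flatMap]
    constructor
    · rintro ⟨n, hn, hπ⟩
      rw [List.mem_range] at hn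
      obtain ⟨h1, h2⟩ := mem_lists.mp hπ
      exact ⟨by omega, h2⟩
    · rintro ⟨h1, h2⟩
      exact ⟨π.length, List.mem_range.mpr (by omega), mem_lists.mpr ⟨rfl, h2⟩⟩

theorem CNT_kl (F : NF) {ρ : Rd} (hρ : ρ ∈ F.roles) :
    (rex ρ).length + 2 ≤ (kl F).length ∧ (rey ρ).length + 2 ≤ (kl F).length := by
  unfold kl
  rw [List.length_cons, List.length_cons]
  have h1 : (rex ρ ++ rey ρ).length ≤ (F.roles.flatMap fun ρ => rex ρ ++ rey ρ).length := by
    rw [List.length_flatMap]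
    exact List.le_sum_of_mem (List.mem_map_of_mem (f := fun ρ => (rex ρ ++ rey ρ).length) hρ)
  rw [List.length_append] at h1
  omega

theorem CNT_congr {ρ : Rd} {Θ : List Th} {pats : List (List Th)} {sup : Th → ℕ}
    {n n' : Th → Cardinal.{0}} {o i : Th → St → Cardinal.{0}} (h : ∀ θ ∈ Θ, n θ = n' θ)
    (hA : RoleAr ρ Θ pats sup n o i) : RoleAr ρ Θ pats sup n' o i :=
  ⟨fun θ hθ => (hA.o_sum θ hθ).trans (h θ hθ), fun θ hθ => (hA.i_sum θ hθ).trans (h θ hθ),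
    hA.mat, hA.att, hA.att'⟩

theorem count_iff {Δ : Type} (F : NF) (Θ : List Th) (hΘ : Θ.Nodup) (hΘ1 : ∀ θ ∈ Θ, θ.1 ∈ F.tys)
    (sup : Th → ℕ) (hs : ∀ θ ∈ Θ, sup θ ≤ 2) (τ : Δ → Ty) (hτ : ∀ x, τ x ∈ F.tys)
    (N : Va → Cardinal.{0}) (hN : ∀ s ∈ F.tys, N (vN s) = cnt τ s) :
    Sol (nvs F) (sysW F F.tys Θ (patsOf Θ (kl F).length) sup) N ↔
      ∃ τ' : Δ → Th, (∀ x, τ' x ∈ Θ ∧ (τ' x).1 = τ x) ∧
        (∀ θ ∈ Θ, SupOk (sup θ) (cnt τ' θ)) ∧
        ∀ ρ ∈ F.roles, ∃ P : Δ → Δ → Prop, Real ρ (fun x => (τ' x).2) P := by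
  unfold nvs
  rw [sol_sysW F F.tys Θ _ sup hs N]
  have hp := patsOk_patsOf hΘ (kl F).length
  constructor
  · rintro ⟨n, h1, h2, h3⟩
    obtain ⟨σ, h4, h5⟩ := split_fib (T := Th) τ F.tys hτ
      (fun s => Θ.filter fun θ : Th => decide (θ.1 = s))
      (fun s _ => hΘ.filter _) (fun _ θ => n θ) (fun s hs' => (h2 s hs').trans (hN s hs'))
    have h6 : ∀ x, σ x ∈ Θ ∧ (σ x).1 = τ x := fun x => by
      have := List.mem_filter.mp (h4 x)
      exact ⟨this.1, by simpa using this.2⟩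
    have h7 : ∀ θ ∈ Θ, cnt σ θ = n θ := by
      intro θ hθ
      rw [← h5 θ.1 (hΘ1 θ hθ) θ (List.mem_filter.mpr ⟨hθ, by simp⟩)]
      exact mk_congr
        { toFun := fun x => ⟨x.1, by rw [← (h6 x.1).2, x.2], x.2⟩
          invFun := fun x => ⟨x.1, x.2.2⟩
          left_inv := fun _ => rfl
          right_inv := fun _ => rfl }
    have h8 : ∀ θ ∈ Θ, SupOk (sup θ) (cnt σ θ) := fun θ hθ => by
      rw [h7 θ hθ]
      exact h1 θ hθ
    refine ⟨σ, h6, h8, fun ρ hρ => ?_⟩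
    obtain ⟨o, i, hA⟩ := h3 ρ hρ
    exact (real_iff ρ Θ hΘ _ _ (CNT_kl F hρ).1 (CNT_kl F hρ).2 hp sup σ (fun x => (h6 x).1)
      h8).mpr ⟨o, i, CNT_congr (fun θ hθ => (h7 θ hθ).symm) hA⟩
  · rintro ⟨σ, h6, h8, h9⟩
    refine ⟨cnt σ, h8, fun s hs' => ?_, fun ρ hρ => ?_⟩
    · rw [hN s hs', ← sum_fib τ σ s (Θ.filter fun θ => decide (θ.1 = s)) (hΘ.filter _)
        (fun x hx => List.mem_filter.mpr ⟨(h6 x).1, by
          rw [(h6 x).2, hx]
          simp⟩)]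
      congr 1
      refine List.map_congr_left fun θ hθ => ?_
      have hθ1 : θ.1 = s := by simpa using (List.mem_filter.mp hθ).2
      exact mk_congr
        { toFun := fun x => ⟨x.1, by rw [← (h6 x.1).2, x.2, hθ1], x.2⟩
          invFun := fun x => ⟨x.1, x.2.2⟩
          left_inv := fun _ => rfl
          right_inv := fun _ => rfl }
    · exact (real_iff ρ Θ hΘ _ _ (CNT_kl F hρ).1 (CNT_kl F hρ).2 hp sup σ (fun x => (h6 x).1)
        h8).mp (h9 ρ hρ)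

end Pool.Agent.H24U
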