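import Pool.Agent.Lib.PolyTime.PL

/-!
# Chunks LI (lists) and CAP (capLists): all lists of a given length

CAP: `capLists pad S m` is computed by iteration with truncation; the truncation keeps all
intermediate results small, and it does nothing if `|S| ^ |m| ≤ |pad|`. For `PT_capLists` use
`PT.iterate_length` with the state `(S, acc)` (and `pad`); the lists in `acc` have length at most
`|m|` and entries in `S`, there are at most `|pad| + 1` of them.
-/

set_option autoImplicit false

namespace Pool.Agent.H24U

open Pool.Agent.PolyTime

/-- all lists of length `n` with entries in `S` -/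
def lists {α : Type} (S : List α) : ℕ → List (List α)
  | 0 => [[]]
  | n + 1 => (lists S n).flatMap fun l => S.map fun a => a :: l

theorem mem_lists {α : Type} {S : List α} {n : ℕ} {l : List α} :
    l ∈ lists S n ↔ l.length = n ∧ ∀ a ∈ l, a ∈ S := by
  induction n generalizing l with
  | zero =>
    unfold lists
    rw [List.mem_singleton]
    constructor
    · rintro rfl
      exact ⟨rfl, fun a ha => by simp at ha⟩
    · rintro ⟨h, -⟩
      exact List.eq_nil_of_length_eq_zero h
  | succ n ih =>
    unfold lists
    rw [List.mem_flatMap]
    constructor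
    · rintro ⟨l', hl', hl⟩
      rw [List.mem_map] at hl
      obtain ⟨a, ha, rfl⟩ := hl
      obtain ⟨h1, h2⟩ := ih.mp hl'
      refine ⟨by rw [List.length_cons, h1], fun b hb => ?_⟩
      rcases List.mem_cons.mp hb with rfl | hb
      · exact ha
      · exact h2 b hb
    · rintro ⟨h1, h2⟩
      rcases l with _ | ⟨a, l'⟩
      · simp at h1
      · refine ⟨l', ih.mpr ⟨by simpa using h1, fun b hb => h2 b (List.mem_cons_of_mem a hb)⟩, ?_⟩
        exact List.mem_map.mpr ⟨a, h2 a List.mem_cons_self, rfl⟩

theorem LI_length_flatMap {α : Type} (S : List α) (acc : List (List α)) :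
    (acc.flatMap fun l => S.map fun a => a :: l).length = acc.length * S.length := by
  induction acc with
  | nil => simp
  | cons b acc ih =>
    rw [List.flatMap_cons, List.length_append, ih, List.length_map, List.length_cons]
    ring

theorem length_lists {α : Type} (S : List α) (n : ℕ) : (lists S n).length = S.length ^ n := by
  induction n with
  | zero => rfl
  | succ n ih =>
    unfold lists
    rw [LI_length_flatMap, ih, pow_succ]

theorem nodup_lists {α : Type} {S : List α} (h : S.Nodup) (n : ℕ) : (lists S n).Nodup := by
  induction n with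
  | zero => exact List.nodup_singleton _
  | succ n ih =>
    unfold lists
    rw [List.nodup_flatMap]
    refine ⟨fun l _ => h.map fun a b hab => (List.cons.inj hab).1, ?_⟩
    refine ih.imp fun {l l'} hne => ?_
    intro x hx hx'
    rw [List.mem_map] at hx hx'
    obtain ⟨a, -, rfl⟩ := hx
    obtain ⟨b, -, hb⟩ := hx'
    exact hne (List.cons.inj hb).2.symm

/-- one round -/
def capStep {α γ : Type} (pad : List γ) (S : List α) (acc : List (List α)) : List (List α) :=
  if (acc.flatMap fun l => S.map fun a => a :: l).length ≤ pad.length then
    acc.flatMap fun l => S.map fun a => a :: l else []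

/-- all lists of length `m.length` with entries in `S`, if there are at most `pad.length` -/
def capLists {α β γ : Type} (pad : List γ) (S : List α) (m : List β) : List (List α) :=
  (capStep pad S)^[m.length] [[]]

theorem capLists_eq {α β γ : Type} (pad : List γ) (S : List α) (m : List β)
    (h : S.length ^ m.length ≤ pad.length) : capLists pad S m = lists S m.length := by
  have key : ∀ k ≤ m.length, (capStep pad S)^[k] [[]] = lists S k := by
    intro k
    induction k with
    | zero => intro _; rfl
    | succ k ih =>
      intro hk
      rw [Function.iterate_succ_apply', ih (by omega)]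
      unfold capStep
      have h1 : ((lists S k).flatMap fun l => S.map fun a => a :: l) = lists S (k + 1) := rfl
      rw [h1, length_lists]
      have h2 : S.length ^ (k + 1) ≤ pad.length := by
        rcases Nat.eq_zero_or_pos S.length with h0 | h0
        · rw [h0, zero_pow (by omega)]
          exact Nat.zero_le _
        · exact (Nat.pow_le_pow_right h0 hk).trans h
      rw [if_pos h2]
  exact key _ le_rfl

theorem CAP_inv {α γ : Type} (pad : List γ) (S : List α) (k : ℕ) :
    ((capStep pad S)^[k] [[]]).length ≤ pad.length + 1 ∧
      ∀ l ∈ (capStep pad S)^[k] [[]], l.length ≤ k ∧ ∀ a ∈ l, a ∈ S := by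
  induction k with
  | zero =>
    refine ⟨by simp, fun l hl => ?_⟩
    rw [Function.iterate_zero_apply, List.mem_singleton] at hl
    subst hl
    exact ⟨le_rfl, fun a ha => by simp at ha⟩
  | succ k ih =>
    rw [Function.iterate_succ_apply']
    set acc := (capStep pad S)^[k] [[]] with hacc
    unfold capStep
    split_ifs with h
    · refine ⟨by omega, fun l hl => ?_⟩
      rw [List.mem_flatMap] at hl
      obtain ⟨l', hl', hl⟩ := hl
      rw [List.mem_map] at hl
      obtain ⟨a, ha, rfl⟩ := hl
      obtain ⟨h1, h2⟩ := ih.2 l' hl'
      refine ⟨by rw [List.length_cons]; omega, fun b hb => ?_⟩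
      rcases List.mem_cons.mp hb with rfl | hb
      · exact ha
      · exact h2 b hb
    · exact ⟨by simp, fun l hl => by simp at hl⟩

theorem CAP_step {α γ : Type} [Enc α] [Enc γ] :
    PT fun p : List γ × List α × List (List α) => capStep p.1 p.2.1 p.2.2 := by
  have h1 : PT fun p : List γ × List α × List (List α) =>
      p.2.2.flatMap fun l => p.2.1.map fun a => a :: l := by
    refine PT.flatMap (f := fun (p : List γ × List α × List (List α)) (l : List α) =>
      p.2.1.map fun a => a :: l) ?_ (by fun_prop)
    exact PT.map (f := fun (q : (List γ × List α × List (List α)) × List α) (a : α) => a :: q.2)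
      (by fun_prop) (by fun_prop)
  unfold capStep
  exact PT.ite (PT.decide_le (PT.length h1) (PT.length (by fun_prop))) h1 (PT.const [])

@[fun_prop] theorem PT_capLists {α β γ δ : Type} [Enc α] [Enc β] [Enc γ] [Enc δ]
    {pad : δ → List γ} {S : δ → List α} {m : δ → List β} (h1 : PT pad) (h2 : PT S) (h3 : PT m) :
    PT fun d => capLists (pad d) (S d) (m d) := by
  let f : List γ × List α × List (List α) → List γ × List α × List (List α) :=
    fun p => (p.1, p.2.1, capStep p.1 p.2.1 p.2.2)
  have hf : PT f := PT.pair (by fun_prop) (PT.pair (by fun_prop) CAP_step)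
  have key : ∀ n (P : List γ) (S : List α) (R : List (List α)),
      f^[n] (P, S, R) = (P, S, (capStep P S)^[n] R) := by
    intro n
    induction n with
    | zero => intro P S R; rfl
    | succ n ih =>
      intro P S R
      rw [Function.iterate_succ_apply, Function.iterate_succ_apply]
      exact ih _ _ _
  have hp := PT.bdd h1
  have hS := PT.bdd h2
  have hm := PT.bdd h3
  have h4 := PT.iterate_length (f := f) (s := fun d => (pad d, S d, [[]])) (l := m)
    (B := fun d => sz (pad d) + (sz (S d) +
      ((sz (pad d) + 1) * ((sz (m d) * (sz (S d) + 1) + 1) + 1) + 1) + 1) + 1)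
    hf (by fun_prop) h3
    ((hp.add ((hS.add ((((hp.add (PBd.const 1)).mul
      (((hm.mul (hS.add (PBd.const 1))).add (PBd.const 1)).add (PBd.const 1))).add
        (PBd.const 1)))).add (PBd.const 1))).add (PBd.const 1)) (by
      intro d i hi
      rw [key, sz_pair, sz_pair]
      obtain ⟨h5, h6⟩ := CAP_inv (pad d) (S d) i
      have h7 : ∀ l ∈ (capStep (pad d) (S d))^[i] [[]], sz l ≤ sz (m d) * (sz (S d) + 1) + 1 := by
        intro l hl
        obtain ⟨h8, h9⟩ := h6 l hl
        have h10 := sz_list_le (l := l) (B := sz (S d)) fun a ha => sz_le_of_mem (h9 a ha)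
        have h11 := length_lt_sz (m d)
        have h12 : l.length * (sz (S d) + 1) ≤ sz (m d) * (sz (S d) + 1) :=
          Nat.mul_le_mul_right _ (by omega)
        omega
      have h13 := sz_list_le h7
      have h14 := length_lt_sz (pad d)
      have h15 : ((capStep (pad d) (S d))^[i] [[]]).length *
          ((sz (m d) * (sz (S d) + 1) + 1) + 1) ≤
          (sz (pad d) + 1) * ((sz (m d) * (sz (S d) + 1) + 1) + 1) :=
        Nat.mul_le_mul_right _ (by omega)
      omega)
  refine (PT.snd (PT.snd h4)).congr fun d => ?_
  rw [key]
  rfl

end Pool.Agent.H24U
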