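import Pool.Agent.Lib.H24U.Sys
import Pool.Agent.Lib.H24U.Lists
import Pool.Agent.Lib.PolyTime.Reach

/-!
# Deciding solvability digit by digit: definitions

For an equation `((l, a), (l', b))` and a solution `v` the pair of carries at digit `i` is
`((Σ_{x ∈ l} (v x % 2 ^ i) + a) / 2 ^ i, (Σ_{x ∈ l'} (v x % 2 ^ i) + b) / 2 ^ i)`. A state is the list
of the pairs of carries of all equations. `Run nv E rows c c'`: there are digits of the variables,
with the digits `rows` for the variables in `nv` (lowest digit first), which lead from the state `c`
to the state `c'`.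
-/

set_option autoImplicit false

namespace Pool.Agent.H24U

open Pool.Agent.PolyTime

section

variable {V : Type}

/-- carries of one equation: digits `β`, old carries `c`, new carries `c'`; the digits of the two
sums agree -/
def stepE (β : V → Bool) (e : Eqn V) (c c' : ℕ × ℕ) : Bool :=
  decide ((c.1 + e.1.1.countP β) / 2 = c'.1) && decide ((c.2 + e.2.1.countP β) / 2 = c'.2) &&
    decide ((c.1 + e.1.1.countP β) % 2 = (c.2 + e.2.1.countP β) % 2)

/-- carries of all equations -/
def stepS (β : V → Bool) (E : Sys V) (c c' : List (ℕ × ℕ)) : Bool :=
  (E.zip (c.zip c')).all fun p => stepE β p.1 p.2.1 p.2.2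

/-- the initial state -/
def initS (E : Sys V) : List (ℕ × ℕ) := E.map fun e => (e.1.2, e.2.2)

/-- final states: both sides are equal -/
def finS (c : List (ℕ × ℕ)) : Bool := c.all fun p => decide (p.1 = p.2)

/-- runs with given digits of the variables in `nv` -/
def Run (nv : List V) (E : Sys V) : List (V → Bool) → List (ℕ × ℕ) → List (ℕ × ℕ) → Prop
  | [], c, c' => c = c'
  | row :: rows, c, c' => ∃ (c₁ : List (ℕ × ℕ)) (β : V → Bool), (∀ x ∈ nv, β x = row x) ∧
      c₁.length = E.length ∧ stepS β E c c₁ = true ∧ Run nv E rows c₁ c'

/-- the number with the binary digits `rows` (lowest digit first) -/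
def valR : List (V → Bool) → V → ℕ
  | [], _ => 0
  | row :: rows, x => (row x).toNat + 2 * valR rows x

variable [DecidableEq V]

/-- the entry of the variable `x` in a list indexed by the list `o` of variables -/
def look {β : Type} (o : List V) (l : List β) (d : β) (x : V) : β := l.getD (o.idxOf x) d

/-- the digits `b` of the variables in `o` agree with `row` on `nv` -/
def agreeB (nv : List V) (row : V → Bool) (o : List V) (b : List Bool) : Bool :=
  o.all fun x => !decide (x ∈ nv) || (look o b false x == row x)

/-- a transition exists; `bs` is the list of all lists of digits -/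
def transB (bs : List (List Bool)) (nv : List V) (row : V → Bool) (E : Sys V)
    (c c' : List (ℕ × ℕ)) : Bool :=
  bs.any fun b => agreeB nv row (occ E) b && stepS (look (occ E) b false) E c c'

/-- the decision procedure; `bs` is the list of all lists of digits and `sts` the list of all
states -/
def dp (bs : List (List Bool)) (sts : List (List (ℕ × ℕ))) (nv : List V) (E : Sys V)
    (rows : List ℕ) (row : ℕ → V → Bool) : Bool :=
  (rows.foldl (fun S r => sts.filter fun c' => S.any fun c => transB bs nv (row r) E c c')
    [initS E]).any fun c => sts.any fun c' => finS c' &&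
      decide (c' ∈ reach ((sts ×ˢ sts).filter fun p => transB bs nv (fun _ => false) E p.1 p.2) c)

/-- pairs of carries -/
def carries (o : List V) : List (ℕ × ℕ) :=
  List.range (o.length + 3) ×ˢ List.range (o.length + 3)

end

end Pool.Agent.H24U
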