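import Pool.Agent.Lib.H24U.DP

/-!
# Chunk DPR: the decision procedure finds all runs

All carries stay below `(occ E).length + 3` (the constants are at most `2`, and
`(κ + |l|) / 2 ≤ max κ |l|`), so all states of a run are in `lists (carries (occ E)) E.length`.
`mem_reach`: reachability along the transitions with digits `0`; a path of `n` transitions is a run
with `n` rows `fun _ => false`.
-/

set_option autoImplicit false

namespace Pool.Agent.H24U

open Pool.Agent.PolyTime

theorem dpr_mem_occ {V : Type} {E : Sys V} {e : Eqn V} (he : e ∈ E) {x : V}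
    (hx : x ∈ e.1.1 ∨ x ∈ e.2.1) : x ∈ occ E := by
  rw [occ, List.mem_flatMap]
  exact ⟨e, he, List.mem_append.2 hx⟩

theorem dpr_len_occ {V : Type} {E : Sys V} {e : Eqn V} (he : e ∈ E) :
    e.1.1.length ≤ (occ E).length ∧ e.2.1.length ≤ (occ E).length := by
  have h1 : (e.1.1 ++ e.2.1).length ≤ (occ E).length := by
    rw [occ, List.length_flatMap]
    exact List.single_le_sum (fun _ _ => Nat.zero_le _) _ (List.mem_map.2 ⟨e, he, rfl⟩)
  rw [List.length_append] at h1
  omega

theorem dpr_stepE_congr {V : Type} {β β' : V → Bool} {E : Sys V} (h : ∀ x ∈ occ E, β x = β' x)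
    {e : Eqn V} (he : e ∈ E) (c c' : ℕ × ℕ) : stepE β e c c' = stepE β' e c c' := by
  have h1 : e.1.1.countP β = e.1.1.countP β' :=
    List.countP_congr fun x hx => by rw [h x (dpr_mem_occ he (Or.inl hx))]
  have h2 : e.2.1.countP β = e.2.1.countP β' :=
    List.countP_congr fun x hx => by rw [h x (dpr_mem_occ he (Or.inr hx))]
  rw [stepE, stepE, h1, h2]

theorem dpr_stepS_congr {V : Type} {β β' : V → Bool} {E : Sys V} (h : ∀ x ∈ occ E, β x = β' x)
    {c c' : List (ℕ × ℕ)} (hs : stepS β E c c' = true) : stepS β' E c c' = true := by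
  rw [stepS, List.all_eq_true] at hs ⊢
  intro p hp
  have h1 : p.1 ∈ E := (List.of_mem_zip (show (p.1, p.2) ∈ _ from hp)).1
  rw [← dpr_stepE_congr h h1]
  exact hs p hp

theorem dpr_transB_iff {V : Type} [DecidableEq V] (nv : List V) (E : Sys V) (row : V → Bool)
    (c c' : List (ℕ × ℕ)) :
    transB (lists [false, true] (occ E).length) nv row E c c' = true ↔
      ∃ β : V → Bool, (∀ x ∈ nv, β x = row x) ∧ stepS β E c c' = true := by
  rw [transB, List.any_eq_true]
  constructor
  · rintro ⟨b, _, hb⟩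
    rw [Bool.and_eq_true, agreeB, List.all_eq_true] at hb
    refine ⟨fun x => if x ∈ nv then row x else look (occ E) b false x, fun x hx => if_pos hx, ?_⟩
    refine dpr_stepS_congr (fun x hx => ?_) hb.2
    by_cases h : x ∈ nv
    · have := hb.1 x hx
      simp only [h, decide_true, Bool.not_true, Bool.false_or, beq_iff_eq] at this
      simp only [h, if_true]
      exact this
    · simp only [h, if_false]
  · rintro ⟨β, h1, h2⟩
    have hl : ∀ x ∈ occ E, look (occ E) ((occ E).map β) false x = β x := by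
      intro x hx
      have hlt : (occ E).idxOf x < (occ E).length := List.idxOf_lt_length_iff.2 hx
      rw [look, List.getD_eq_getElem _ _ (by rwa [List.length_map]), List.getElem_map,
        List.getElem_idxOf]
    refine ⟨(occ E).map β, mem_lists.2 ⟨List.length_map _, fun a _ => ?_⟩, ?_⟩
    · cases a <;> simp
    · rw [Bool.and_eq_true, agreeB, List.all_eq_true]
      constructor
      · intro x hx
        by_cases h : x ∈ nv
        · simp only [hl x hx, h1 x h, beq_self_eq_true, Bool.or_true]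
        · simp only [h, decide_false, Bool.not_false, Bool.true_or]
      · exact dpr_stepS_congr (fun x hx => (hl x hx).symm) h2

theorem dpr_mem_carries {α : Type} {o : List α} {p : ℕ × ℕ} :
    p ∈ carries o ↔ p.1 < o.length + 3 ∧ p.2 < o.length + 3 := by
  rw [carries, show p = (p.1, p.2) from rfl, List.mem_product, List.mem_range, List.mem_range]

theorem dpr_init {V : Type} {E : Sys V} (hc : ∀ e ∈ E, e.1.2 ≤ 2 ∧ e.2.2 ≤ 2) :
    initS E ∈ lists (carries (occ E)) E.length := by
  rw [mem_lists, initS, List.length_map]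
  refine ⟨rfl, fun a ha => ?_⟩
  rw [List.mem_map] at ha
  obtain ⟨e, he, rfl⟩ := ha
  have := hc e he
  rw [dpr_mem_carries]
  dsimp only
  omega

theorem dpr_step {V : Type} {E : Sys V} {β : V → Bool} {s₀ s₁ : List (ℕ × ℕ)}
    (hc : s₀ ∈ lists (carries (occ E)) E.length) (hl : s₁.length = E.length)
    (hs : stepS β E s₀ s₁ = true) : s₁ ∈ lists (carries (occ E)) E.length := by
  rw [mem_lists] at hc ⊢
  refine ⟨hl, fun a ha => ?_⟩
  obtain ⟨i, hi, rfl⟩ := List.mem_iff_getElem.1 ha
  have hiE : i < E.length := hl ▸ hi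
  have hic : i < s₀.length := hc.1.symm ▸ hiE
  rw [stepS, List.all_eq_true] at hs
  have hmem : (E[i], (s₀[i], s₁[i])) ∈ E.zip (s₀.zip s₁) := by
    rw [List.mem_iff_getElem]
    refine ⟨i, by rw [List.length_zip, List.length_zip]; omega, ?_⟩
    rw [List.getElem_zip, List.getElem_zip]
  have h1 := hs _ hmem
  simp only [stepE, Bool.and_eq_true, decide_eq_true_eq] at h1
  obtain ⟨⟨h2, h3⟩, _⟩ := h1
  have h4 := dpr_mem_carries.1 (hc.2 s₀[i] (List.getElem_mem hic))
  have h5 := dpr_len_occ (E := E) (e := E[i]) (List.getElem_mem hiE)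
  have h6 : E[i].1.1.countP β ≤ E[i].1.1.length := List.countP_le_length
  have h7 : E[i].2.1.countP β ≤ E[i].2.1.length := List.countP_le_length
  rw [dpr_mem_carries]
  omega

theorem dpr_run_append {V : Type} (nv : List V) (E : Sys V) (r1 r2 : List (V → Bool))
    (c c' : List (ℕ × ℕ)) :
    Run nv E (r1 ++ r2) c c' ↔ ∃ c₁, Run nv E r1 c c₁ ∧ Run nv E r2 c₁ c' := by
  induction r1 generalizing c with
  | nil => simp [Run]
  | cons r r1 ih =>
    simp only [List.cons_append, Run, ih]
    constructor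
    · rintro ⟨c₁, β, h1, h2, h3, c₂, h4, h5⟩
      exact ⟨c₂, ⟨c₁, β, h1, h2, h3, h4⟩, h5⟩
    · rintro ⟨c₂, ⟨c₁, β, h1, h2, h3, h4⟩, h5⟩
      exact ⟨c₁, β, h1, h2, h3, c₂, h4, h5⟩

theorem dpr_run_mem {V : Type} (nv : List V) (E : Sys V) (r : List (V → Bool))
    {c c' : List (ℕ × ℕ)} (hc : c ∈ lists (carries (occ E)) E.length) (h : Run nv E r c c') :
    c' ∈ lists (carries (occ E)) E.length := by
  induction r generalizing c with
  | nil => rw [Run] at h; rwa [← h]
  | cons r rs ih =>
    obtain ⟨c₁, β, _, h2, h3, h4⟩ := h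
    exact ih (dpr_step hc h2 h3) h4

theorem dpr_fold {V : Type} [DecidableEq V] (nv : List V) (E : Sys V) (rows : List ℕ)
    (row : ℕ → V → Bool) (S : List (List (ℕ × ℕ))) (c' : List (ℕ × ℕ))
    (hS : ∀ c ∈ S, c ∈ lists (carries (occ E)) E.length) :
    c' ∈ rows.foldl (fun S r => (lists (carries (occ E)) E.length).filter fun c' =>
      S.any fun c => transB (lists [false, true] (occ E).length) nv (row r) E c c') S ↔
    ∃ c ∈ S, Run nv E (rows.map row) c c' := by
  induction rows generalizing S with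
  | nil =>
    simp only [List.foldl_nil, List.map_nil, Run]
    constructor
    · intro h
      exact ⟨c', h, rfl⟩
    · rintro ⟨c, h, rfl⟩
      exact h
  | cons r rows ih =>
    rw [List.foldl_cons, ih _ (fun c hc => (List.mem_filter.1 hc).1)]
    simp only [List.mem_filter, List.any_eq_true, dpr_transB_iff, List.map_cons, Run]
    constructor
    · rintro ⟨c₁, ⟨h1, c, h2, β, h3, h4⟩, h5⟩
      exact ⟨c, h2, c₁, β, h3, (mem_lists.1 h1).1, h4, h5⟩
    · rintro ⟨c, h2, c₁, β, h3, h1, h4, h5⟩
      exact ⟨c₁, ⟨dpr_step (hS c h2) h1 h4, c, h2, β, h3, h4⟩, h5⟩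

theorem dpr_reach {V : Type} [DecidableEq V] (nv : List V) (E : Sys V) (c c' : List (ℕ × ℕ))
    (hc : c ∈ lists (carries (occ E)) E.length) :
    c' ∈ reach (((lists (carries (occ E)) E.length) ×ˢ (lists (carries (occ E)) E.length)).filter
      fun p => transB (lists [false, true] (occ E).length) nv (fun _ => false) E p.1 p.2) c ↔
    ∃ n : ℕ, Run nv E (List.replicate n (fun _ => false)) c c' := by
  rw [mem_reach]
  constructor
  · intro h
    induction h using Relation.ReflTransGen.head_induction_on with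
    | refl => exact ⟨0, rfl⟩
    | @head a b hab _ ih =>
      obtain ⟨h1, h2⟩ := List.mem_filter.1 hab
      obtain ⟨h3, h4⟩ := List.mem_product.1 h1
      obtain ⟨n, hn⟩ := ih h4
      obtain ⟨β, h5, h6⟩ := (dpr_transB_iff nv E _ a b).1 h2
      refine ⟨n + 1, ?_⟩
      rw [List.replicate_succ]
      exact ⟨b, β, h5, (mem_lists.1 h4).1, h6, hn⟩
  · rintro ⟨n, hn⟩
    induction n generalizing c with
    | zero =>
      rw [List.replicate_zero, Run] at hn
      rw [hn]
    | succ n ih =>
      rw [List.replicate_succ] at hn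
      obtain ⟨c₁, β, h1, h2, h3, h4⟩ := hn
      have h5 := dpr_step hc h2 h3
      refine Relation.ReflTransGen.head ?_ (ih c₁ h5 h4)
      exact List.mem_filter.2 ⟨List.mem_product.2 ⟨hc, h5⟩, (dpr_transB_iff nv E _ c c₁).2 ⟨β, h1, h3⟩⟩

theorem dp_iff {V : Type} [DecidableEq V] (nv : List V) (E : Sys V)
    (hc : ∀ e ∈ E, e.1.2 ≤ 2 ∧ e.2.2 ≤ 2) (rows : List ℕ) (row : ℕ → V → Bool) :
    dp (lists [false, true] (occ E).length) (lists (carries (occ E)) E.length) nv E rows row = true ↔
    ∃ (n : ℕ) (c' : List (ℕ × ℕ)),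
      Run nv E (rows.map row ++ List.replicate n (fun _ => false)) (initS E) c' ∧
        finS c' = true := by
  rw [dp, List.any_eq_true]
  have hS : ∀ c ∈ [initS E], c ∈ lists (carries (occ E)) E.length := by
    intro c hc'
    rw [List.mem_singleton] at hc'
    rw [hc']
    exact dpr_init hc
  constructor
  · rintro ⟨c, h1, h2⟩
    rw [dpr_fold nv E rows row _ c hS] at h1
    obtain ⟨c₀, h3, h4⟩ := h1
    rw [List.mem_singleton] at h3
    subst h3
    rw [List.any_eq_true] at h2
    obtain ⟨c', h5, h6⟩ := h2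
    rw [Bool.and_eq_true, decide_eq_true_eq] at h6
    obtain ⟨h6, h7⟩ := h6
    rw [dpr_reach nv E c c' (dpr_run_mem nv E _ (dpr_init hc) h4)] at h7
    obtain ⟨n, h8⟩ := h7
    exact ⟨n, c', (dpr_run_append nv E _ _ _ _).2 ⟨c, h4, h8⟩, h6⟩
  · rintro ⟨n, c', h1, h2⟩
    obtain ⟨c, h3, h4⟩ := (dpr_run_append nv E _ _ _ _).1 h1
    have hcm := dpr_run_mem nv E _ (dpr_init hc) h3
    refine ⟨c, (dpr_fold nv E rows row _ c hS).2 ⟨_, List.mem_singleton_self _, h3⟩, ?_⟩
    rw [List.any_eq_true]
    refine ⟨c', dpr_run_mem nv E _ hcm h4, ?_⟩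
    rw [Bool.and_eq_true, decide_eq_true_eq]
    exact ⟨h2, (dpr_reach nv E c c' hcm).2 ⟨n, h4⟩⟩

end Pool.Agent.H24U
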