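import Mathlib

/-!
# Chunk DEN: denominators of cones

If a multiple of an integral vector `u` is a combination of the columns of `A` with natural
coefficients, then so is the multiple `dn M * u`, where `dn M` depends only on the bound `M` for the
number of rows and columns and for the entries.

Proof. Choose `k₀ ≥ 1`, `v` with support `B` of `v` of minimal size. If the columns in `B` are
linearly dependent, `A μ = 0` with `μ ≠ 0` supported in `B` and some `μ j > 0`: take `j` with
`μ j > 0` and `v j / μ j` minimal and replace `v` by `μ j • v - v j • μ` (smaller support). So they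
are independent; the Gram matrix `G` (`B × B`, entries `Σ_i A i j * A i j'`, at most `M ^ 3`) has
nonzero determinant (`Matrix.exists_mulVec_eq_zero_iff`; `x ⬝ G x = |A x|²`), of absolute value at
most `M ! * (M ^ 3) ^ M` (`Matrix.det_le`), so it divides `dn M`. From `G v = k₀ • A_Bᵀ u` and the
adjugate: `det G • v = k₀ • y` with `y` integral. So `dn M * v j = k₀ * (e * y j)` and
`v' j = e * y j` works.
-/

set_option autoImplicit false

namespace Pool.Agent.H24U

open Nat

/-- the common denominator -/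
def dn (M : ℕ) : ℕ := (M ! * (M ^ 3) ^ M)!

theorem dn_pos (M : ℕ) : 0 < dn M := Nat.factorial_pos _

open Matrix in
theorem DEN_indep {μ κ : Type} [Fintype μ] [Fintype κ] (M : ℕ) (A : μ → κ → ℤ) (u : μ → ℤ)
    (hm : Fintype.card μ ≤ M) (hn : Fintype.card κ ≤ M) (hA : ∀ i j, |A i j| ≤ M)
    (k₀ : ℕ) (hk : 1 ≤ k₀) (v : κ → ℕ) (hv : ∀ i, ∑ j, A i j * (v j : ℤ) = k₀ * u i)
    (hind : ∀ x : κ → ℤ, (∀ j, v j = 0 → x j = 0) → (∀ i, ∑ j, A i j * x j = 0) → x = 0) :
    ∃ v' : κ → ℕ, ∀ i, ∑ j, A i j * (v' j : ℤ) = dn M * u i := by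
  classical
  have hsum : ∀ (f : κ → ℤ), (∀ j, v j = 0 → f j = 0) →
      ∑ j, f j = ∑ j : {j // v j ≠ 0}, f j := by
    intro f hf
    rw [← Finset.sum_subtype (Finset.univ.filter fun j => v j ≠ 0) (by simp) f]
    rw [Finset.sum_filter]
    refine Finset.sum_congr rfl fun j _ => ?_
    by_cases h : v j = 0
    · rw [if_neg (not_not.2 h), hf j h]
    · rw [if_pos h]
  set B : Matrix μ {j // v j ≠ 0} ℤ := fun i j => A i j with hB
  set w : {j // v j ≠ 0} → ℤ := fun j => (v j : ℤ) with hw
  have hBw : B *ᵥ w = fun i => (k₀ : ℤ) * u i := by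
    ext i
    rw [← hv i, hsum (fun j => A i j * (v j : ℤ)) (fun j hj => by simp [hj])]
    rfl
  set G : Matrix {j // v j ≠ 0} {j // v j ≠ 0} ℤ := Bᴴ * B with hG
  have hdet : G.det ≠ 0 := by
    intro h0
    obtain ⟨x, hx0, hx⟩ := Matrix.exists_mulVec_eq_zero_iff.2 h0
    have hx1 : B *ᵥ x = 0 := (Matrix.conjTranspose_mul_self_mulVec_eq_zero B x).1 hx
    apply hx0
    have h1 := hind (fun j => if h : v j ≠ 0 then x ⟨j, h⟩ else 0)
      (fun j hj => by simp [hj]) (fun i => by
        rw [hsum (fun j => A i j * (if h : v j ≠ 0 then x ⟨j, h⟩ else 0))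
          (fun j hj => by simp [hj])]
        have h2 := congrFun hx1 i
        rw [Matrix.mulVec, Pi.zero_apply] at h2
        rw [← h2]
        refine Finset.sum_congr rfl fun j _ => ?_
        rw [dif_pos j.2])
    ext j
    have h2 := congrFun h1 j.1
    simp only [Pi.zero_apply] at h2
    rw [dif_pos j.2] at h2
    exact h2
  have hcB : Fintype.card {j // v j ≠ 0} ≤ M := (Fintype.card_subtype_le _).trans hn
  have hle : |G.det| ≤ ((M ! * (M ^ 3) ^ M : ℕ) : ℤ) := by
    have h1 : ∀ i j, |G i j| ≤ ((M ^ 3 : ℕ) : ℤ) := by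
      intro i j
      show |∑ k, Bᴴ i k * B k j| ≤ _
      refine (Finset.abs_sum_le_sum_abs _ _).trans ?_
      have h2 : ∀ k ∈ Finset.univ, |Bᴴ i k * B k j| ≤ (M : ℤ) * M := by
        intro k _
        rw [abs_mul]
        refine mul_le_mul ?_ (hA _ _) (abs_nonneg _) (by positivity)
        rw [Matrix.conjTranspose_apply]
        exact hA _ _
      refine (Finset.sum_le_card_nsmul _ _ _ h2).trans ?_
      rw [nsmul_eq_mul, Finset.card_univ]
      have h3 : (Fintype.card μ : ℤ) ≤ M := by exact_mod_cast hm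
      push_cast
      nlinarith [mul_nonneg (by positivity : (0:ℤ) ≤ M) (by positivity : (0:ℤ) ≤ M)]
    have h4 := Matrix.det_le (A := G) (abv := AbsoluteValue.abs) (x := ((M ^ 3 : ℕ) : ℤ)) h1
    rw [AbsoluteValue.abs_apply, nsmul_eq_mul] at h4
    refine h4.trans ?_
    rcases Nat.eq_zero_or_pos M with h0 | hpos
    · subst h0
      have h5 : Fintype.card {j // v j ≠ 0} = 0 := Nat.le_zero.1 hcB
      rw [h5]
      simp
    · have h5 : (Fintype.card {j // v j ≠ 0})! ≤ M ! := Nat.factorial_le hcB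
      have h6 : (M ^ 3) ^ Fintype.card {j // v j ≠ 0} ≤ (M ^ 3) ^ M :=
        Nat.pow_le_pow_right (Nat.pow_pos hpos) hcB
      have h7 := Nat.mul_le_mul h5 h6
      exact_mod_cast h7
  have hdvd : G.det ∣ (dn M : ℤ) := by
    rw [← Int.natAbs_dvd_natAbs, Int.natAbs_natCast]
    refine Nat.dvd_factorial (Int.natAbs_pos.2 hdet) ?_
    have h1 : ((G.det.natAbs : ℕ) : ℤ) ≤ ((M ! * (M ^ 3) ^ M : ℕ) : ℤ) := by
      rw [Int.natCast_natAbs]
      exact hle
    exact_mod_cast h1
  have hk0 : ∀ j : {j // v j ≠ 0}, (k₀ : ℤ) ∣ G.det * w j := by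
    intro j
    have h1 : G *ᵥ w = (k₀ : ℤ) • (Bᴴ *ᵥ u) := by
      rw [hG, ← Matrix.mulVec_mulVec, hBw, ← Matrix.mulVec_smul]
      rfl
    have h2 : G.adjugate *ᵥ (G *ᵥ w) = G.det • w := by
      rw [Matrix.mulVec_mulVec, Matrix.adjugate_mul, Matrix.smul_mulVec, Matrix.one_mulVec]
    rw [h1, Matrix.mulVec_smul] at h2
    have h3 := congrFun h2 j
    rw [Pi.smul_apply, Pi.smul_apply, smul_eq_mul, smul_eq_mul] at h3
    exact ⟨_, h3.symm⟩
  have hk1 : ∀ j, k₀ ∣ dn M * v j := by
    intro j
    by_cases h : v j = 0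
    · rw [h]
      simp
    · have h1 := hk0 ⟨j, h⟩
      obtain ⟨e, he⟩ := hdvd
      have h2 : (k₀ : ℤ) ∣ ((dn M * v j : ℕ) : ℤ) := by
        push_cast
        rw [he]
        have h3 : G.det * e * (v j : ℤ) = e * (G.det * w ⟨j, h⟩) := by
          show G.det * e * (v j : ℤ) = e * (G.det * (v j : ℤ))
          ring
        rw [h3]
        exact h1.mul_left e
      exact_mod_cast h2
  refine ⟨fun j => dn M * v j / k₀, fun i => ?_⟩
  have h1 : ∀ j, (k₀ : ℤ) * ((dn M * v j / k₀ : ℕ) : ℤ) = dn M * v j := by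
    intro j
    have := Nat.mul_div_cancel' (hk1 j)
    exact_mod_cast this
  have h2 : (k₀ : ℤ) * ∑ j, A i j * ((dn M * v j / k₀ : ℕ) : ℤ) = k₀ * (dn M * u i) := by
    rw [Finset.mul_sum]
    calc ∑ j, (k₀ : ℤ) * (A i j * ((dn M * v j / k₀ : ℕ) : ℤ))
        = ∑ j, (dn M : ℤ) * (A i j * v j) := by
          refine Finset.sum_congr rfl fun j _ => ?_
          rw [mul_left_comm, h1 j]
          ring
      _ = dn M * (k₀ * u i) := by rw [← Finset.mul_sum, hv i]
      _ = k₀ * (dn M * u i) := by ring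
  exact mul_left_cancel₀ (by positivity) h2

theorem denom {μ κ : Type} [Fintype μ] [Fintype κ] (M : ℕ) (A : μ → κ → ℤ) (u : μ → ℤ)
    (hm : Fintype.card μ ≤ M) (hn : Fintype.card κ ≤ M) (hA : ∀ i j, |A i j| ≤ M)
    (k₀ : ℕ) (hk : 1 ≤ k₀) (v : κ → ℕ) (hv : ∀ i, ∑ j, A i j * (v j : ℤ) = k₀ * u i) :
    ∃ v' : κ → ℕ, ∀ i, ∑ j, A i j * (v' j : ℤ) = dn M * u i := by
  classical
  have key : ∀ n : ℕ, ∀ (k₀ : ℕ) (v : κ → ℕ), 1 ≤ k₀ →
      (∀ i, ∑ j, A i j * (v j : ℤ) = k₀ * u i) →
      (Finset.univ.filter fun j => v j ≠ 0).card ≤ n →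
      ∃ v' : κ → ℕ, ∀ i, ∑ j, A i j * (v' j : ℤ) = dn M * u i := by
    intro n
    induction n using Nat.strong_induction_on with
    | _ n ih =>
      intro k₀ v hk hv hcard
      by_cases hind : ∀ x : κ → ℤ, (∀ j, v j = 0 → x j = 0) → (∀ i, ∑ j, A i j * x j = 0) → x = 0
      · exact DEN_indep M A u hm hn hA k₀ hk v hv hind
      · push Not at hind
        obtain ⟨x, hx0, hxA, hxne⟩ := hind
        have hpos : ∃ y : κ → ℤ, (∀ j, v j = 0 → y j = 0) ∧ (∀ i, ∑ j, A i j * y j = 0) ∧
            ∃ j, 0 < y j := by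
          obtain ⟨j, hj⟩ := Function.ne_iff.1 hxne
          rcases lt_trichotomy (x j) 0 with h | h | h
          · refine ⟨fun j => -x j, fun j hj => by simp [hx0 j hj], fun i => ?_, j, by linarith⟩
            simp only [mul_neg, Finset.sum_neg_distrib, hxA i, neg_zero]
          · exact absurd h hj
          · exact ⟨x, hx0, hxA, j, h⟩
        obtain ⟨y, hy0, hyA, hyp⟩ := hpos
        obtain ⟨j, hj, hmin⟩ := Finset.exists_min_image (Finset.univ.filter fun j => 0 < y j)
          (fun j => ((v j : ℤ) : ℚ) / ((y j : ℤ) : ℚ)) (by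
            obtain ⟨j, hj⟩ := hyp
            exact ⟨j, by simp [hj]⟩)
        have hyj : 0 < y j := (Finset.mem_filter.1 hj).2
        have hvj : v j ≠ 0 := fun h => by
          have := hy0 j h
          omega
        have hw : ∀ i, 0 ≤ y j * (v i : ℤ) - (v j : ℤ) * y i := by
          intro i
          rcases le_or_gt (y i) 0 with h | h
          · have h1 : (v j : ℤ) * y i ≤ 0 := mul_nonpos_of_nonneg_of_nonpos (by positivity) h
            have h2 : 0 ≤ y j * (v i : ℤ) := by positivity
            linarith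
          · have h1 := hmin i (by simp [h])
            have h2 : (0:ℚ) < ((y j : ℤ) : ℚ) := by exact_mod_cast hyj
            have h3 : (0:ℚ) < ((y i : ℤ) : ℚ) := by exact_mod_cast h
            rw [div_le_div_iff₀ h2 h3] at h1
            have h4 : (v j : ℤ) * y i ≤ (v i : ℤ) * y j := by exact_mod_cast h1
            linarith
        have hcast : ∀ i, (((y j * (v i : ℤ) - (v j : ℤ) * y i).toNat : ℕ) : ℤ) =
            y j * (v i : ℤ) - (v j : ℤ) * y i := fun i => Int.toNat_of_nonneg (hw i)
        have hlt : (Finset.univ.filter fun i =>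
            (y j * (v i : ℤ) - (v j : ℤ) * y i).toNat ≠ 0).card <
            (Finset.univ.filter fun i => v i ≠ 0).card := by
          refine Finset.card_lt_card ?_
          rw [Finset.ssubset_iff_of_subset]
          · refine ⟨j, by simp [hvj], ?_⟩
            simp only [Finset.mem_filter, Finset.mem_univ, true_and, ne_eq, not_not]
            have : y j * (v j : ℤ) - (v j : ℤ) * y j = 0 := by ring
            rw [this]
            rfl
          · intro i hi
            simp only [Finset.mem_filter, Finset.mem_univ, true_and] at hi ⊢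
            intro h0
            apply hi
            rw [h0, hy0 i h0]
            simp
        refine ih _ (hlt.trans_le hcard) (k₀ * (y j).toNat)
          (fun i => (y j * (v i : ℤ) - (v j : ℤ) * y i).toNat) ?_ ?_ le_rfl
        · exact Nat.mul_pos hk (by omega)
        · intro i
          have h1 : (((y j).toNat : ℕ) : ℤ) = y j := Int.toNat_of_nonneg hyj.le
          simp only [hcast, Nat.cast_mul, h1]
          have h2 : ∑ i', A i i' * (y j * (v i' : ℤ) - (v j : ℤ) * y i') =
              y j * ∑ i', A i i' * (v i' : ℤ) - (v j : ℤ) * ∑ i', A i i' * y i' := by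
            rw [Finset.mul_sum, Finset.mul_sum, ← Finset.sum_sub_distrib]
            exact Finset.sum_congr rfl fun i' _ => by ring
          rw [h2, hv i, hyA i]
          ring
  exact key _ k₀ v hk hv le_rfl

end Pool.Agent.H24U
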