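import Pool.Agent.Lib.H24U.Role

/-!
# Chunk SPL: partitions and cardinals

`split`: induction on `l` (`X` is the disjoint union of a set with `n a` elements and a set with
`(l.map n).sum` elements: `Cardinal.mk_sum`, `Cardinal.eq`). The fibred versions apply the first two
lemmas to the subtypes `{x // τ x = s}`.
-/

set_option autoImplicit false

namespace Pool.Agent.H24U

open Cardinal

theorem SPL_sum {X T : Type} (Y : X → Prop) (l : List T) (hl : l.Nodup) (σ : X → T) :
    (l.map fun t => #{x // Y x ∧ σ x = t}).sum = #{x // Y x ∧ σ x ∈ l} := by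
  induction l with
  | nil =>
    have : IsEmpty {x // Y x ∧ σ x ∈ ([] : List T)} := ⟨fun x => by simpa using x.2.2⟩
    rw [List.map_nil, List.sum_nil, mk_eq_zero]
  | cons t l ih =>
    rw [List.map_cons, List.sum_cons, ih hl.of_cons]
    have h1 : {x | Y x ∧ σ x ∈ t :: l} = {x | Y x ∧ σ x = t} ∪ {x | Y x ∧ σ x ∈ l} := by
      ext x
      simp only [Set.mem_ofPred_eq, List.mem_cons, Set.mem_union]
      tauto
    have h2 : Disjoint {x | Y x ∧ σ x = t} {x | Y x ∧ σ x ∈ l} := by
      rw [Set.disjoint_left]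
      rintro x ⟨-, h3⟩ ⟨-, h4⟩
      exact (List.nodup_cons.mp hl).1 (h3 ▸ h4)
    have h3 := mk_union_of_disjoint h2
    rw [← h1] at h3
    exact h3.symm

theorem sum_cnt {X T : Type} (l : List T) (hl : l.Nodup) (σ : X → T) (h : ∀ x, σ x ∈ l) :
    (l.map fun t => cnt σ t).sum = #X := by
  have h1 := SPL_sum (fun _ => True) l hl σ
  have h2 : #{x // True ∧ σ x ∈ l} = #X := mk_congr
    { toFun := fun x => x.1
      invFun := fun x => ⟨x, trivial, h x⟩
      left_inv := fun _ => rfl
      right_inv := fun _ => rfl }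
  rw [h2] at h1
  rw [← h1]
  congr 1
  refine List.map_congr_left fun t _ => ?_
  exact mk_congr
    { toFun := fun x => ⟨x.1, trivial, x.2⟩
      invFun := fun x => ⟨x.1, x.2.2⟩
      left_inv := fun _ => rfl
      right_inv := fun _ => rfl }

theorem SPL_cnt_equiv {X Y T : Type} (e : X ≃ Y) (σ : Y → T) (t : T) :
    cnt (fun x => σ (e x)) t = cnt σ t :=
  mk_congr (e.subtypeEquiv fun _ => Iff.rfl)

theorem split {X T : Type} (l : List T) (hl : l.Nodup) (n : T → Cardinal.{0})
    (h : (l.map n).sum = #X) : ∃ σ : X → T, (∀ x, σ x ∈ l) ∧ ∀ t ∈ l, cnt σ t = n t := by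
  induction l generalizing X with
  | nil =>
    rw [List.map_nil, List.sum_nil] at h
    have : IsEmpty X := mk_eq_zero_iff.mp h.symm
    exact ⟨fun x => isEmptyElim x, fun x => isEmptyElim x, fun t ht => by simp at ht⟩
  | cons t l ih =>
    rw [List.map_cons, List.sum_cons] at h
    obtain ⟨hta, hl'⟩ := List.nodup_cons.mp hl
    have hB : (l.map n).sum = #((l.map n).sum.out) := (mk_out _).symm
    obtain ⟨σ', h1, h2⟩ := ih hl' (X := ((l.map n).sum).out) hB
    have h3 : #X = #((n t).out ⊕ ((l.map n).sum).out) := by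
      rw [mk_sum, lift_id, lift_id, mk_out, mk_out, h]
    obtain ⟨e⟩ := Cardinal.eq.mp h3
    let σ₀ : (n t).out ⊕ ((l.map n).sum).out → T := Sum.elim (fun _ => t) σ'
    have h4 : cnt σ₀ t = n t := by
      have h5 : cnt σ₀ t = #((n t).out) := mk_congr
        { toFun := fun x => match x with
            | ⟨Sum.inl a, _⟩ => a
            | ⟨Sum.inr b, hb⟩ => absurd (show σ' b = t from hb ▸ rfl) (fun hb' => hta (hb' ▸ h1 b))
          invFun := fun a => ⟨Sum.inl a, rfl⟩
          left_inv := by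
            rintro ⟨a | b, hab⟩
            · rfl
            · exact absurd (show σ' b = t from hab) (fun hb' => hta (hb' ▸ h1 b))
          right_inv := fun a => rfl }
      rw [h5, mk_out]
    have h6 : ∀ t' ∈ l, cnt σ₀ t' = n t' := by
      intro t' ht'
      have hne : t ≠ t' := fun hh => hta (hh ▸ ht')
      have h5 : cnt σ₀ t' = cnt σ' t' := mk_congr
        { toFun := fun x => match x with
            | ⟨Sum.inl _, ha⟩ => absurd (show t = t' from ha) hne
            | ⟨Sum.inr b, hb⟩ => ⟨b, hb⟩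
          invFun := fun b => ⟨Sum.inr b.1, b.2⟩
          left_inv := by
            rintro ⟨a | b, hab⟩
            · exact absurd (show t = t' from hab) hne
            · rfl
          right_inv := fun b => rfl }
      rw [h5, h2 t' ht']
    have hmem : ∀ y, σ₀ y ∈ t :: l := by
      rintro (a | b)
      · exact List.mem_cons_self
      · exact List.mem_cons_of_mem _ (h1 b)
    refine ⟨fun x => σ₀ (e x), fun x => hmem _, fun t' ht' => ?_⟩
    · rw [SPL_cnt_equiv]
      rcases List.mem_cons.mp ht' with rfl | ht'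
      · exact h4
      · exact h6 t' ht'

theorem sum_fib {Δ S T : Type} (τ : Δ → S) (σ : Δ → T) (s : S) (l : List T) (hl : l.Nodup)
    (h : ∀ x, τ x = s → σ x ∈ l) :
    (l.map fun t => #{x // τ x = s ∧ σ x = t}).sum = cnt τ s := by
  rw [SPL_sum (fun x => τ x = s) l hl σ]
  exact mk_congr
    { toFun := fun x => ⟨x.1, x.2.1⟩
      invFun := fun x => ⟨x.1, x.2, h x.1 x.2⟩
      left_inv := fun _ => rfl
      right_inv := fun _ => rfl }

theorem split_fib {Δ S T : Type} (τ : Δ → S) (Sl : List S) (hτ : ∀ x, τ x ∈ Sl) (l : S → List T)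
    (hl : ∀ s ∈ Sl, (l s).Nodup) (n : S → T → Cardinal.{0})
    (h : ∀ s ∈ Sl, ((l s).map (n s)).sum = cnt τ s) :
    ∃ σ : Δ → T, (∀ x, σ x ∈ l (τ x)) ∧
      ∀ s ∈ Sl, ∀ t ∈ l s, #{x // τ x = s ∧ σ x = t} = n s t := by
  choose σ h1 h2 using fun s (hs : s ∈ Sl) =>
    split (X := {x // τ x = s}) (l s) (hl s hs) (n s) (h s hs)
  refine ⟨fun x => σ (τ x) (hτ x) ⟨x, rfl⟩, fun x => h1 _ _ _, fun s hs t ht => ?_⟩
  rw [← h2 s hs t ht]
  exact mk_congr
    { toFun := fun x => ⟨⟨x.1, x.2.1⟩, by
        obtain ⟨x, hx, hx'⟩ := x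
        subst hx
        exact hx'⟩
      invFun := fun x => ⟨x.1.1, x.1.2, by
        obtain ⟨⟨x, hx⟩, hx'⟩ := x
        subst hx
        exact hx'⟩
      left_inv := fun _ => rfl
      right_inv := fun _ => rfl }

end Pool.Agent.H24U
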