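import Pool.Agent.Lib.H24U.SysW
import Pool.Agent.Lib.H24U.Split

/-!
# Chunks SUPX (exists_sup), SGO (sgOk_iff), BETO (goalOk_iff, betOk_iff): the discrete conditions

SUPX: `l = Θ.map fun θ => min 2 (number of elements)`; `look Θ l 0 θ` is the entry of `θ`
(`List.idxOf`). SGO: the sum of the `min 2 (cnt τ' θ)` over all `θ ∈ Θ` with `bit θ.2 a` is `1` iff exactly
one `x` has `bit (τ' x).2 a`. BETO: `W` is the list of the values of `τ'`; for `σ = snd ∘ τ'`,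
`τ = fst ∘ τ'`: `subB W X ↔ Sub σ τ X` and `supB W X ↔ Sub τ σ X`.
-/

set_option autoImplicit false

namespace Pool.Agent.H24U

open Cardinal

theorem SUPX_ex (c : Cardinal.{0}) : ∃ s : ℕ, s ∈ [0, 1, 2] ∧ SupOk s c := by
  rcases lt_or_ge c 2 with h | h
  · obtain ⟨n, rfl⟩ := Cardinal.lt_aleph0.mp (h.trans (by exact_mod_cast Cardinal.natCast_lt_aleph0 (n := 2)))
    have hn : n < 2 := by exact_mod_cast h
    refine ⟨n, by interval_cases n <;> simp, Or.inl ⟨by omega, rfl⟩⟩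
  · exact ⟨2, by simp, Or.inr ⟨rfl, h⟩⟩

theorem SUPX_look {V : Type} [DecidableEq V] (Θ : List V) (f : V → ℕ) (θ : V) (hθ : θ ∈ Θ) :
    look Θ (Θ.map f) 0 θ = f θ := by
  have h1 : Θ.idxOf θ < Θ.length := List.idxOf_lt_length_iff.mpr hθ
  rw [look, List.getD_eq_getElem _ _ (by rwa [List.length_map]), List.getElem_map,
    List.getElem_idxOf]

theorem SUPX_mem {V : Type} [DecidableEq V] (Θ : List V) (l : List ℕ) (θ : V) :
    look Θ l 0 θ ∈ l ∨ look Θ l 0 θ = 0 := by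
  rw [look]
  rcases lt_or_ge (Θ.idxOf θ) l.length with h | h
  · rw [List.getD_eq_getElem _ _ h]
    exact Or.inl (List.getElem_mem h)
  · exact Or.inr (List.getD_eq_default _ _ h)

theorem exists_sup {Δ : Type} (Θ : List Th) (hΘ : Θ.Nodup) (τ' : Δ → Th) :
    ∃ l ∈ lists [0, 1, 2] Θ.length, ∀ θ ∈ Θ, SupOk (look Θ l 0 θ) (cnt τ' θ) := by
  choose f hf1 hf2 using fun θ : Th => SUPX_ex (cnt τ' θ)
  refine ⟨Θ.map f, mem_lists.mpr ⟨List.length_map _, fun a ha => ?_⟩, fun θ hθ => ?_⟩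
  · obtain ⟨θ, -, rfl⟩ := List.mem_map.mp ha
    exact hf1 θ
  · rw [SUPX_look Θ f θ hθ]
    exact hf2 θ

theorem look_le (Θ : List Th) (l : List ℕ) (hl : l ∈ lists [0, 1, 2] Θ.length) (θ : Th) :
    look Θ l 0 θ ≤ 2 := by
  rcases SUPX_mem Θ l θ with h | h
  · have h1 := (mem_lists.mp hl).2 _ h
    simp only [List.mem_cons, List.not_mem_nil, or_false] at h1
    omega
  · omega

/-- the same value, `2` for everything larger -/
def SGO_R (s : ℕ) (c : Cardinal.{0}) : Prop := (s = 0 ∧ c = 0) ∨ (s = 1 ∧ c = 1) ∨ (2 ≤ s ∧ 2 ≤ c)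

theorem SGO_R_of {s : ℕ} {c : Cardinal.{0}} (h : SupOk s c) : SGO_R s c := by
  rcases h with ⟨h1, h2⟩ | ⟨h1, h2⟩
  · interval_cases s
    · exact Or.inl ⟨rfl, by simpa using h2⟩
    · exact Or.inr (Or.inl ⟨rfl, by simpa using h2⟩)
  · exact Or.inr (Or.inr ⟨h1.ge, h2⟩)

theorem SGO_R_add {s t : ℕ} {c d : Cardinal.{0}} (h : SGO_R s c) (h' : SGO_R t d) :
    SGO_R (s + t) (c + d) := by
  rcases h with ⟨rfl, rfl⟩ | ⟨rfl, rfl⟩ | ⟨h1, h2⟩
  · rwa [zero_add, zero_add]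
  · rcases h' with ⟨rfl, rfl⟩ | ⟨rfl, rfl⟩ | ⟨h1, h2⟩
    · exact Or.inr (Or.inl ⟨rfl, by rw [add_zero]⟩)
    · exact Or.inr (Or.inr ⟨le_rfl, by rw [one_add_one_eq_two]⟩)
    · exact Or.inr (Or.inr ⟨by omega, h2.trans (by exact le_add_self)⟩)
  · exact Or.inr (Or.inr ⟨by omega, h2.trans (by exact le_self_add)⟩)

theorem SGO_R_one {s : ℕ} {c : Cardinal.{0}} (h : SGO_R s c) : s = 1 ↔ c = 1 := by
  have h21 : ¬ (2 : Cardinal.{0}) ≤ 1 := by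
    exact not_le.mpr Cardinal.one_lt_two
  rcases h with ⟨rfl, rfl⟩ | ⟨rfl, rfl⟩ | ⟨h1, h2⟩
  · simp
  · simp
  · constructor
    · intro h; omega
    · intro h
      rw [h] at h2
      exact absurd h2 h21

theorem SGO_sum {l : List Th} {sup : Th → ℕ} {c : Th → Cardinal.{0}}
    (h : ∀ θ ∈ l, SupOk (sup θ) (c θ)) : SGO_R (l.map sup).sum (l.map c).sum := by
  induction l with
  | nil => exact Or.inl ⟨rfl, rfl⟩
  | cons a l ih =>
    rw [List.map_cons, List.map_cons, List.sum_cons, List.sum_cons]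
    exact SGO_R_add (SGO_R_of (h a List.mem_cons_self))
      (ih fun θ hθ => h θ (List.mem_cons_of_mem _ hθ))

theorem sgOk_iff {Δ : Type} (F : NF) (Θ : List Th) (hΘ : Θ.Nodup) (sup : Th → ℕ) (τ' : Δ → Th)
    (hτ : ∀ x, τ' x ∈ Θ) (hs : ∀ θ ∈ Θ, SupOk (sup θ) (cnt τ' θ)) :
    sgOk F Θ sup = true ↔ ∀ a ∈ F.sgs, ∃! x, bit (τ' x).2 a = true := by
  unfold sgOk
  rw [List.all_eq_true]
  refine forall₂_congr fun a ha => ?_
  rw [decide_eq_true_iff]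
  have h1 := SGO_sum (l := Θ.filter fun θ => bit θ.2 a) (sup := sup) (c := cnt τ')
    (fun θ hθ => hs θ (List.mem_filter.mp hθ).1)
  rw [SGO_R_one h1]
  have h2 := SPL_sum (fun _ => True) (Θ.filter fun θ => bit θ.2 a) (hΘ.filter _) τ'
  have h3 : ((Θ.filter fun θ => bit θ.2 a).map fun t => #{x // True ∧ τ' x = t}).sum =
      ((Θ.filter fun θ => bit θ.2 a).map (cnt τ')).sum := by
    congr 1
    refine List.map_congr_left fun t _ => ?_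
    exact mk_congr
      { toFun := fun x => ⟨x.1, x.2.2⟩
        invFun := fun x => ⟨x.1, trivial, x.2⟩
        left_inv := fun _ => rfl
        right_inv := fun _ => rfl }
  rw [← h3, h2, Cardinal.eq_one_iff_unique]
  constructor
  · rintro ⟨h4, ⟨x⟩⟩
    refine ⟨x.1, (List.mem_filter.mp x.2.2).2, fun y hy => ?_⟩
    have h5 := h4.elim ⟨y, trivial, List.mem_filter.mpr ⟨hτ y, hy⟩⟩ x
    exact congrArg Subtype.val h5
  · rintro ⟨x, hx, hu⟩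
    refine ⟨⟨fun y z => Subtype.ext ?_⟩, ⟨x, trivial, List.mem_filter.mpr ⟨hτ x, hx⟩⟩⟩
    rw [hu y.1 (List.mem_filter.mp y.2.2).2, hu z.1 (List.mem_filter.mp z.2.2).2]

theorem BETO_pos {Δ : Type} {s : ℕ} {τ' : Δ → Th} {θ : Th} (h : SupOk s (cnt τ' θ)) :
    1 ≤ s ↔ ∃ x, τ' x = θ := by
  have h0 : cnt τ' θ ≠ 0 ↔ ∃ x, τ' x = θ := by
    rw [cnt, Cardinal.mk_ne_zero_iff]
    exact ⟨fun ⟨x⟩ => ⟨x.1, x.2⟩, fun ⟨x, hx⟩ => ⟨⟨x, hx⟩⟩⟩
  rw [← h0]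
  rcases h with ⟨h1, h2⟩ | ⟨h1, h2⟩
  · rw [h2]
    rw [Nat.cast_ne_zero]
    omega
  · constructor
    · intro _ h3
      rw [h3] at h2
      exact absurd h2 (not_le.mpr (by exact zero_lt_two))
    · intro _
      omega

theorem goalOk_iff {Δ : Type} (F : NF) (Θ : List Th) (sup : Th → ℕ) (τ' : Δ → Th)
    (hτ : ∀ x, τ' x ∈ Θ) (hs : ∀ θ ∈ Θ, SupOk (sup θ) (cnt τ' θ)) :
    goalOk F Θ sup = true ↔ ∃ x, bit (τ' x).2 F.goal = true := by
  unfold goalOk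
  rw [List.any_eq_true]
  constructor
  · rintro ⟨θ, hθ, h⟩
    rw [Bool.and_eq_true, decide_eq_true_iff, BETO_pos (hs θ hθ)] at h
    obtain ⟨⟨x, rfl⟩, h⟩ := h
    exact ⟨x, h⟩
  · rintro ⟨x, hx⟩
    refine ⟨τ' x, hτ x, ?_⟩
    rw [Bool.and_eq_true, decide_eq_true_iff, BETO_pos (hs _ (hτ x))]
    exact ⟨⟨x, rfl⟩, hx⟩

theorem BETO_all {Δ : Type} {Θ : List Th} {sup : Th → ℕ} {τ' : Δ → Th}
    (hτ : ∀ x, τ' x ∈ Θ) (hs : ∀ θ ∈ Θ, SupOk (sup θ) (cnt τ' θ)) (p : Th → Bool) :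
    (Θ.filter fun θ => decide (1 ≤ sup θ)).all p = true ↔ ∀ x, p (τ' x) = true := by
  rw [List.all_eq_true]
  constructor
  · intro h x
    refine h _ (List.mem_filter.mpr ⟨hτ x, ?_⟩)
    rw [decide_eq_true_iff, BETO_pos (hs _ (hτ x))]
    exact ⟨x, rfl⟩
  · intro h θ hθ
    obtain ⟨h1, h2⟩ := List.mem_filter.mp hθ
    rw [decide_eq_true_iff, BETO_pos (hs θ h1)] at h2
    obtain ⟨x, rfl⟩ := h2
    exact h x

theorem BETO_sub {Δ : Type} {Θ : List Th} {sup : Th → ℕ} {τ' : Δ → Th}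
    (hτ : ∀ x, τ' x ∈ Θ) (hs : ∀ θ ∈ Θ, SupOk (sup θ) (cnt τ' θ)) (X : ℕ) :
    subB (Θ.filter fun θ => decide (1 ≤ sup θ)) X = true ↔
      Sub (fun x => (τ' x).2) (fun x => (τ' x).1) X := by
  unfold subB Sub
  rw [BETO_all hτ hs]
  refine forall_congr' fun x => ?_
  cases bit (τ' x).2 X <;> simp

theorem BETO_sup {Δ : Type} {Θ : List Th} {sup : Th → ℕ} {τ' : Δ → Th}
    (hτ : ∀ x, τ' x ∈ Θ) (hs : ∀ θ ∈ Θ, SupOk (sup θ) (cnt τ' θ)) (X : ℕ) :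
    supB (Θ.filter fun θ => decide (1 ≤ sup θ)) X = true ↔
      Sub (fun x => (τ' x).1) (fun x => (τ' x).2) X := by
  unfold supB Sub
  rw [BETO_all hτ hs]
  refine forall_congr' fun x => ?_
  cases bit (τ' x).1 X <;> simp

theorem betOk_iff {Δ : Type} (F : NF) (Θ : List Th) (sup : Th → ℕ) (τ' : Δ → Th)
    (hτ : ∀ x, τ' x ∈ Θ) (hs : ∀ θ ∈ Θ, SupOk (sup θ) (cnt τ' θ)) :
    betOk F Θ sup = true ↔
      (∀ X ∈ F.mini, ¬ Sub (fun x => (τ' x).2) (fun x => (τ' x).1) X → ∃ Y ∈ F.mini,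
        (Y, X) ∈ F.prec ∧ Sub (fun x => (τ' x).2) (fun x => (τ' x).1) Y ∧
          ¬ Sub (fun x => (τ' x).1) (fun x => (τ' x).2) Y) ∧
      ∃ X ∈ F.mini, (Sub (fun x => (τ' x).2) (fun x => (τ' x).1) X ∧
        ¬ Sub (fun x => (τ' x).1) (fun x => (τ' x).2) X) ∧
        ∀ Y ∈ F.mini, (Y, X) ∈ F.prec → Sub (fun x => (τ' x).2) (fun x => (τ' x).1) Y ∧
          Sub (fun x => (τ' x).1) (fun x => (τ' x).2) Y := by
  unfold betOk betW
  simp only [Bool.and_eq_true, List.all_eq_true, List.any_eq_true, Bool.or_eq_true,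
    Bool.not_eq_true', decide_eq_true_iff, BETO_sub hτ hs,
    ← Bool.not_eq_true, BETO_sup hτ hs, ← imp_iff_not_or, and_assoc]
  simp only [or_iff_not_imp_left]

end Pool.Agent.H24U
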