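import Pool.Agent.Lib.H24U.Denom
import Pool.Agent.Lib.H24U.Farkas

/-!
# Chunk ELI: elimination of the quantified variables of a linear system

Write `D = dn M`, `F = fk M`. For `q : κ → ℕ` with all `q j < D` and
`Σ_j A i j * q j ≡ Σ_x C i x * ρ x + c i (mod D)` for all `i` put
`u_q i = (Σ_x C i x * ρ x + c i - Σ_j A i j * q j) / D` (exact division, `|u_q i| ≤ 2 M ^ 2 + M`).
For all such `q` the vector `u = u_q + C ω` is integral and `A v = D u` is impossible (otherwise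
`A (q + v) = C (ρ + D ω) + c`), so by `denom` no positive multiple of `u` is a combination of the
columns of `A`, and `farkas` gives `h_q` bounded by `F` with `h_q · A_j ≥ 0` and `h_q · u < 0`, i.e.
`Σ_x (Σ_i h_q i * C i x) * ω x ≤ - h_q · u_q - 1`. Let `R` be the set of these inequalities (one for
each `q`). Conversely if `ω'` satisfies `R` and `A v = C (ρ + D ω') + c`, then for `q = v % D`,
`v' = v / D`: `q` is one of the vectors above and `u_q + C ω' = A v'`, so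
`h_q · (u_q + C ω') = Σ_j v' j * (h_q · A_j) ≥ 0`, a contradiction.
-/

set_option autoImplicit false

namespace Pool.Agent.H24U

/-- solvability of the system `A v = C w + c` for given `w` -/
def JSol {μ κ ι : Type} [Fintype κ] [Fintype ι] (A : μ → κ → ℤ) (C : μ → ι → ℤ) (c : μ → ℤ)
    (w : ι → ℕ) : Prop :=
  ∃ v : κ → ℕ, ∀ i, ∑ j, A i j * (v j : ℤ) = ∑ x, C i x * (w x : ℤ) + c i

/-- the bound for the inequalities -/
def hb (M : ℕ) : ℕ := 4 * (M + 1) ^ 3 * fk M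

theorem eli_bd {α : Type} [Fintype α] {M B C : ℕ} (hM : Fintype.card α ≤ M) (f g : α → ℤ)
    (hf : ∀ i, |f i| ≤ B) (hg : ∀ i, |g i| ≤ C) : |∑ i, f i * g i| ≤ M * (B * C) := by
  calc |∑ i, f i * g i| ≤ ∑ i, |f i * g i| := Finset.abs_sum_le_sum_abs _ _
    _ ≤ ∑ _i : α, ((B : ℤ) * C) := by
        apply Finset.sum_le_sum
        intro i _
        rw [abs_mul]
        have h1 := hf i
        have h2 := hg i
        gcongr
    _ = (Fintype.card α : ℤ) * (B * C) := by simp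
    _ ≤ M * (B * C) := by
        have : (Fintype.card α : ℤ) ≤ M := by exact_mod_cast hM
        gcongr

theorem eli_cut {μ κ ι : Type} [Fintype μ] [Fintype κ] [Fintype ι] (M : ℕ)
    (hm : Fintype.card μ ≤ M) (hn : Fintype.card κ ≤ M)
    (A : μ → κ → ℤ) (C : μ → ι → ℤ) (c : μ → ℤ)
    (hA : ∀ i j, |A i j| ≤ M)
    (ρ : ι → ℕ) (ω : ι → ℕ)
    (h : ¬ JSol A C c (fun x => ρ x + dn M * ω x)) (q : κ → ℕ) (u : μ → ℤ)
    (hu : ∀ i, ∑ x, C i x * (ρ x : ℤ) + c i - ∑ j, A i j * (q j : ℤ) = dn M * u i) :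
    ∃ h : μ → ℤ, (∀ i, |h i| ≤ fk M) ∧ (∀ j, 0 ≤ ∑ i, h i * A i j) ∧
      ∑ i, h i * (u i + ∑ x, C i x * (ω x : ℤ)) < 0 := by
  rcases farkas M A (fun i => u i + ∑ x, C i x * (ω x : ℤ)) hm hn hA with ⟨k₀, hk, v, hv⟩ | hh
  · exfalso
    obtain ⟨v', hv'⟩ := denom M A (fun i => u i + ∑ x, C i x * (ω x : ℤ)) hm hn hA k₀ hk v hv
    apply h
    refine ⟨fun j => q j + v' j, fun i => ?_⟩
    have h1 := hu i
    have h2 := hv' i
    have h3 : ∑ j, A i j * ((q j + v' j : ℕ) : ℤ) =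
        ∑ j, A i j * (q j : ℤ) + ∑ j, A i j * (v' j : ℤ) := by
      rw [← Finset.sum_add_distrib]
      exact Finset.sum_congr rfl fun j _ => by push_cast; ring
    have h4 : ∑ x, C i x * ((ρ x + dn M * ω x : ℕ) : ℤ) =
        ∑ x, C i x * (ρ x : ℤ) + dn M * ∑ x, C i x * (ω x : ℤ) := by
      rw [Finset.mul_sum, ← Finset.sum_add_distrib]
      exact Finset.sum_congr rfl fun j _ => by push_cast; ring
    rw [h3, h4, h2]
    linarith [mul_add (dn M : ℤ) (u i) (∑ x, C i x * (ω x : ℤ))]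
  · exact hh

theorem elim {μ κ ι : Type} [Fintype μ] [Fintype κ] [Fintype ι] (M : ℕ)
    (hm : Fintype.card μ ≤ M) (hn : Fintype.card κ ≤ M) (hi : Fintype.card ι ≤ M)
    (A : μ → κ → ℤ) (C : μ → ι → ℤ) (c : μ → ℤ)
    (hA : ∀ i j, |A i j| ≤ M) (hC : ∀ i x, |C i x| ≤ M) (hc : ∀ i, |c i| ≤ M)
    (ρ : ι → ℕ) (hρ : ∀ x, ρ x < dn M) (ω : ι → ℕ)
    (h : ¬ JSol A C c (fun x => ρ x + dn M * ω x)) :
    ∃ R : Set ((ι → ℤ) × ℤ), (∀ r ∈ R, (∀ x, |r.1 x| ≤ hb M) ∧ |r.2| ≤ hb M) ∧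
      (∀ r ∈ R, ∑ x, r.1 x * (ω x : ℤ) ≤ r.2) ∧
      ∀ ω' : ι → ℕ, (∀ r ∈ R, ∑ x, r.1 x * (ω' x : ℤ) ≤ r.2) →
        ¬ JSol A C c (fun x => ρ x + dn M * ω' x) := by
  classical
  have hD : 0 < dn M := dn_pos M
  have hDZ : (0 : ℤ) < dn M := by exact_mod_cast hD
  have hDZ1 : (1 : ℤ) ≤ dn M := by exact_mod_cast hD
  have hfk : 1 ≤ fk M := Nat.one_le_pow _ _ (by positivity)
  refine ⟨{r | ∃ (q : κ → ℕ) (u : μ → ℤ) (h : μ → ℤ), (∀ j, q j < dn M) ∧
    (∀ i, ∑ x, C i x * (ρ x : ℤ) + c i - ∑ j, A i j * (q j : ℤ) = dn M * u i) ∧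
    (∀ i, |h i| ≤ fk M) ∧ (∀ j, 0 ≤ ∑ i, h i * A i j) ∧
      ∑ i, h i * (u i + ∑ x, C i x * (ω x : ℤ)) < 0 ∧
      r = (fun x => ∑ i, h i * C i x, - ∑ i, h i * u i - 1)}, ?_, ?_, ?_⟩
  · rintro r ⟨q, u, h, hq, hu, hh, -, -, rfl⟩
    have hb0 : ((hb M : ℕ) : ℤ) = 4 * (M + 1) ^ 3 * fk M := by
      rw [hb]; push_cast; ring
    have hfkZ : (1 : ℤ) ≤ fk M := by exact_mod_cast hfk
    have hMZ : (0 : ℤ) ≤ M := by positivity
    constructor
    · intro x
      refine (eli_bd hm h (fun i => C i x) hh (fun i => hC i x)).trans ?_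
      rw [hb0]
      have h1 : (M : ℤ) * (fk M * M) = M ^ 2 * fk M := by ring
      rw [h1]
      have h2 : (M : ℤ) ^ 2 ≤ 4 * (M + 1) ^ 3 := by nlinarith [pow_nonneg hMZ 2, pow_nonneg hMZ 3]
      gcongr
    · have hui : ∀ i, |u i| ≤ ((2 * M ^ 2 + M : ℕ) : ℤ) := by
        intro i
        have h1 : |∑ x, C i x * (ρ x : ℤ)| ≤ M * (M * (dn M : ℕ)) :=
          eli_bd hi (fun x => C i x) (fun x => (ρ x : ℤ)) (fun x => hC i x) (fun x => by
            rw [abs_of_nonneg (by positivity)]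
            exact_mod_cast (hρ x).le)
        have h2 : |∑ j, A i j * (q j : ℤ)| ≤ M * (M * (dn M : ℕ)) :=
          eli_bd hn (fun x => A i x) (fun x => (q x : ℤ)) (fun x => hA i x) (fun x => by
            rw [abs_of_nonneg (by positivity)]
            exact_mod_cast (hq x).le)
        have h3 := hc i
        have h4 : |(dn M : ℤ) * u i| ≤ dn M * ((2 * M ^ 2 + M : ℕ) : ℤ) := by
          rw [← hu i]
          have h1 := abs_le.1 h1
          have h2 := abs_le.1 h2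
          have h3 := abs_le.1 h3
          have h5 : (M : ℤ) ≤ dn M * M := by nlinarith
          push_cast
          rw [abs_le]
          constructor
          · nlinarith
          · nlinarith
        rw [abs_mul, abs_of_pos hDZ] at h4
        exact le_of_mul_le_mul_left h4 hDZ
      have h1 := abs_le.1 (eli_bd hm h u hh hui)
      simp only
      rw [hb0]
      have h2 : (M : ℤ) * (fk M * ((2 * M ^ 2 + M : ℕ) : ℤ)) = (2 * M ^ 3 + M ^ 2) * fk M := by
        push_cast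
        ring
      rw [h2] at h1
      have h3 : ((2 * M ^ 3 + M ^ 2 : ℤ)) * fk M + 1 ≤ 4 * (M + 1) ^ 3 * fk M := by
        have : ((2 * M ^ 3 + M ^ 2 : ℤ)) + 1 ≤ 4 * (M + 1) ^ 3 := by
          nlinarith [pow_nonneg hMZ 2, pow_nonneg hMZ 3]
        nlinarith
      rw [abs_le]
      constructor <;> linarith
  · rintro r ⟨q, u, h, hq, hu, hh, -, hneg, rfl⟩
    simp only
    have h1 : ∑ i, h i * (u i + ∑ x, C i x * (ω x : ℤ)) =
        ∑ i, h i * u i + ∑ x, (∑ i, h i * C i x) * (ω x : ℤ) := by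
      have : ∑ x, (∑ i, h i * C i x) * (ω x : ℤ) = ∑ i, h i * ∑ x, C i x * (ω x : ℤ) := by
        simp only [Finset.sum_mul, Finset.mul_sum]
        rw [Finset.sum_comm]
        exact Finset.sum_congr rfl fun _ _ => Finset.sum_congr rfl fun _ _ => by ring
      rw [this, ← Finset.sum_add_distrib]
      exact Finset.sum_congr rfl fun _ _ => by ring
    rw [h1] at hneg
    linarith
  · rintro ω' hω' ⟨v, hv⟩
    set q : κ → ℕ := fun j => v j % dn M with hqdef
    set v' : κ → ℕ := fun j => v j / dn M with hvdef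
    have hvq : ∀ j, (v j : ℤ) = q j + dn M * v' j := by
      intro j
      have h2 : ((v j % dn M + dn M * (v j / dn M) : ℕ) : ℤ) = v j := by rw [Nat.mod_add_div]
      rw [← h2]
      push_cast
      rfl
    have hu : ∀ i, ∑ x, C i x * (ρ x : ℤ) + c i - ∑ j, A i j * (q j : ℤ) =
        dn M * (∑ j, A i j * (v' j : ℤ) - ∑ x, C i x * (ω' x : ℤ)) := by
      intro i
      have h1 := hv i
      have h2 : ∑ j, A i j * (v j : ℤ) =
          ∑ j, A i j * (q j : ℤ) + dn M * ∑ j, A i j * (v' j : ℤ) := by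
        rw [Finset.mul_sum, ← Finset.sum_add_distrib]
        exact Finset.sum_congr rfl fun j _ => by rw [hvq j]; ring
      have h4 : ∑ x, C i x * ((ρ x + dn M * ω' x : ℕ) : ℤ) =
          ∑ x, C i x * (ρ x : ℤ) + dn M * ∑ x, C i x * (ω' x : ℤ) := by
        rw [Finset.mul_sum, ← Finset.sum_add_distrib]
        exact Finset.sum_congr rfl fun j _ => by push_cast; ring
      rw [h2, h4] at h1
      linarith [mul_sub (dn M : ℤ) (∑ j, A i j * (v' j : ℤ)) (∑ x, C i x * (ω' x : ℤ))]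
    obtain ⟨k, hk1, hk2, hk3⟩ := eli_cut M hm hn A C c hA ρ ω h q _ hu
    have hr := hω' _ ⟨q, _, k, fun j => Nat.mod_lt _ hD, hu, hk1, hk2, hk3, rfl⟩
    simp only at hr
    have h1 : ∑ x, (∑ i, k i * C i x) * (ω' x : ℤ) = ∑ i, k i * ∑ x, C i x * (ω' x : ℤ) := by
      simp only [Finset.sum_mul, Finset.mul_sum]
      rw [Finset.sum_comm]
      exact Finset.sum_congr rfl fun _ _ => Finset.sum_congr rfl fun _ _ => by ring
    have h2 : ∑ i, k i * (∑ j, A i j * (v' j : ℤ) - ∑ x, C i x * (ω' x : ℤ)) =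
        ∑ j, (∑ i, k i * A i j) * (v' j : ℤ) - ∑ i, k i * ∑ x, C i x * (ω' x : ℤ) := by
      have : ∑ j, (∑ i, k i * A i j) * (v' j : ℤ) = ∑ i, k i * ∑ j, A i j * (v' j : ℤ) := by
        simp only [Finset.sum_mul, Finset.mul_sum]
        rw [Finset.sum_comm]
        exact Finset.sum_congr rfl fun _ _ => Finset.sum_congr rfl fun _ _ => by ring
      rw [this, ← Finset.sum_sub_distrib]
      exact Finset.sum_congr rfl fun _ _ => by ring
    rw [h1, h2] at hr
    have h3 : 0 ≤ ∑ j, (∑ i, k i * A i j) * (v' j : ℤ) :=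
      Finset.sum_nonneg fun j _ => mul_nonneg (hk2 j) (by positivity)
    linarith

end Pool.Agent.H24U
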