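import Pool.Agent.Lib.H24U.Count
import Pool.Agent.Lib.H24U.Discrete

/-!
# Satisfiability of normal forms and systems of equations over the cardinals
-/

set_option autoImplicit false

namespace Pool.Agent.H24U

open Cardinal

theorem nodup_tys (F : NF) : F.tys.Nodup := (nodup_lists (by decide) _).filter _

theorem mem_thI {tys : List Ty} {θ : Th} : θ ∈ thI tys ↔ θ.1 ∈ tys ∧ θ.2 = θ.1 := by
  simp only [thI, List.mem_map]
  constructor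
  · rintro ⟨t, ht, rfl⟩; exact ⟨ht, rfl⟩
  · rintro ⟨h1, h2⟩; exact ⟨θ.1, h1, Prod.ext rfl h2.symm⟩

theorem mem_thJ {F : NF} {tys : List Ty} {θ : Th} :
    θ ∈ thJ F tys ↔ θ.1 ∈ tys ∧ θ.2 ∈ tys ∧ ∀ i ∈ F.fixd, bit θ.2 i = bit θ.1 i := by
  simp only [thJ, List.mem_flatMap, List.mem_map, List.mem_filter, List.all_eq_true, beq_iff_eq]
  constructor
  · rintro ⟨s, hs, t, ⟨ht, h⟩, rfl⟩; exact ⟨hs, ht, h⟩
  · rintro ⟨h1, h2, h3⟩; exact ⟨θ.1, h1, θ.2, ⟨h2, h3⟩, rfl⟩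

theorem nodup_thI {tys : List Ty} (h : tys.Nodup) : (thI tys).Nodup :=
  h.map fun a b hab => (Prod.mk.inj hab).1

theorem nodup_thJ {F : NF} {tys : List Ty} (h : tys.Nodup) : (thJ F tys).Nodup := by
  refine List.nodup_flatMap.2 ⟨fun s _ => (h.filter _).map fun a b hab => (Prod.mk.inj hab).2, ?_⟩
  refine h.imp_of_mem (R := fun a b => a ≠ b) ?_
  intro a b _ _ hab
  rw [Function.onFun, List.disjoint_left]
  intro θ h1 h2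
  obtain ⟨t, _, rfl⟩ := List.mem_map.1 h1
  obtain ⟨t', _, h3⟩ := List.mem_map.1 h2
  exact hab (Prod.mk.inj h3).1.symm

theorem fam_iff {Δ : Type} (F : NF) (Θ : List Th) (hΘ : Θ.Nodup) (hΘ1 : ∀ θ ∈ Θ, θ.1 ∈ F.tys)
    (ok : (Th → ℕ) → Bool) (τ : Δ → Ty) (hτ : ∀ x, τ x ∈ F.tys)
    (N : Va → Cardinal.{0}) (hN : ∀ s ∈ F.tys, N (vN s) = cnt τ s) :
    (∃ E ∈ fam F F.tys Θ (patsOf Θ (kl F).length) (lists [0, 1, 2] Θ.length) ok,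
      Sol (nvs F) E N) ↔
    ∃ τ' : Δ → Th, (∀ x, τ' x ∈ Θ ∧ (τ' x).1 = τ x) ∧
      (∀ ρ ∈ F.roles, ∃ P : Δ → Δ → Prop, Real ρ (fun x => (τ' x).2) P) ∧
      ∃ l ∈ lists [0, 1, 2] Θ.length, (∀ θ ∈ Θ, SupOk (look Θ l 0 θ) (cnt τ' θ)) ∧
        ok (look Θ l 0) = true := by
  simp only [fam, List.mem_map, List.mem_filter]
  constructor
  · rintro ⟨E, ⟨l, ⟨hl, hok⟩, rfl⟩, hE⟩
    rw [count_iff F Θ hΘ hΘ1 _ (fun θ _ => look_le Θ l hl θ) τ hτ N hN] at hE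
    obtain ⟨τ', h1, h2, h3⟩ := hE
    exact ⟨τ', h1, h3, l, hl, h2, hok⟩
  · rintro ⟨τ', h1, h3, l, hl, h2, hok⟩
    refine ⟨_, ⟨l, ⟨hl, hok⟩, rfl⟩, ?_⟩
    rw [count_iff F Θ hΘ hΘ1 _ (fun θ _ => look_le Θ l hl θ) τ hτ N hN]
    exact ⟨τ', h1, h2, h3⟩

theorem sysI_iff {Δ : Type} (F : NF) (τ : Δ → Ty) (hτ : ∀ x, τ x ∈ F.tys)
    (N : Va → Cardinal.{0}) (hN : ∀ s ∈ F.tys, N (vN s) = cnt τ s) :
    (∃ E ∈ sysI F, Sol (nvs F) E N) ↔ F.Good τ ∧ ∃ x, bit (τ x) F.goal = true := by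
  have hn := nodup_thI (nodup_tys F)
  rw [sysI, fam_iff F _ hn (fun θ h => (mem_thI.1 h).1) _ τ hτ N hN]
  constructor
  · rintro ⟨τ', h1, h2, l, hl, h3, h4⟩
    have e : (fun x => (τ' x).2) = τ := funext fun x => by
      rw [(mem_thI.1 (h1 x).1).2, (h1 x).2]
    rw [Bool.and_eq_true, sgOk_iff F _ hn _ τ' (fun x => (h1 x).1) h3,
      goalOk_iff F _ _ τ' (fun x => (h1 x).1) h3] at h4
    rw [e] at h2
    refine ⟨⟨hτ, fun a ha => ?_, h2⟩, ?_⟩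
    · have := h4.1 a ha
      rw [← e]; exact this
    · have := h4.2
      rw [← e]; exact this
  · rintro ⟨hg, hx⟩
    have h1 : ∀ x, (τ x, τ x) ∈ thI F.tys := fun x => mem_thI.2 ⟨hτ x, rfl⟩
    obtain ⟨l, hl, h3⟩ := exists_sup (thI F.tys) hn (fun x => (τ x, τ x))
    refine ⟨fun x => (τ x, τ x), fun x => ⟨h1 x, rfl⟩, hg.roles, l, hl, h3, ?_⟩
    rw [Bool.and_eq_true, sgOk_iff F _ hn _ _ h1 h3, goalOk_iff F _ _ _ h1 h3]
    exact ⟨hg.sgs, hx⟩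

theorem sysJ_iff {Δ : Type} (F : NF) (τ : Δ → Ty) (hτ : ∀ x, τ x ∈ F.tys)
    (N : Va → Cardinal.{0}) (hN : ∀ s ∈ F.tys, N (vN s) = cnt τ s) :
    (∃ E ∈ sysJ F, Sol (nvs F) E N) ↔ ∃ σ : Δ → Ty, F.Good σ ∧ F.Better σ τ := by
  have hn := nodup_thJ (F := F) (nodup_tys F)
  rw [sysJ, fam_iff F _ hn (fun θ h => (mem_thJ.1 h).1) _ τ hτ N hN]
  constructor
  · rintro ⟨τ', h1, h2, l, hl, h3, h4⟩
    have e : (fun x => (τ' x).1) = τ := funext fun x => (h1 x).2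
    rw [Bool.and_eq_true, sgOk_iff F _ hn _ τ' (fun x => (h1 x).1) h3,
      betOk_iff F _ _ τ' (fun x => (h1 x).1) h3, e] at h4
    refine ⟨fun x => (τ' x).2, ⟨fun x => (mem_thJ.1 (h1 x).1).2.1, h4.1, h2⟩,
      fun i hi x => ?_, h4.2.1, h4.2.2⟩
    rw [← (h1 x).2]
    exact (mem_thJ.1 (h1 x).1).2.2 i hi
  · rintro ⟨σ, hg, hb⟩
    have h1 : ∀ x, (τ x, σ x) ∈ thJ F F.tys := fun x =>
      mem_thJ.2 ⟨hτ x, hg.tys x, fun i hi => hb.fixd i hi x⟩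
    obtain ⟨l, hl, h3⟩ := exists_sup (thJ F F.tys) hn (fun x => (τ x, σ x))
    refine ⟨fun x => (τ x, σ x), fun x => ⟨h1 x, rfl⟩, hg.roles, l, hl, h3, ?_⟩
    rw [Bool.and_eq_true, sgOk_iff F _ hn _ _ h1 h3, betOk_iff F _ _ _ h1 h3]
    exact ⟨hg.sgs, hb.mini, hb.strict⟩

theorem vN_injective : Function.Injective vN := fun a b h => by
  simpa [vN] using h

theorem nfsat_iff (F : NF) : F.Sat ↔ ∃ N : Va → Cardinal.{0},
    (∃ E ∈ sysI F, Sol (nvs F) E N) ∧ ∀ E ∈ sysJ F, ¬ Sol (nvs F) E N := by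
  constructor
  · rintro ⟨Δ, τ, hg, hx, hb⟩
    let N : Va → Cardinal.{0} := fun v => cnt τ v.2.2.1.1
    have hN : ∀ s ∈ F.tys, N (vN s) = cnt τ s := fun s _ => rfl
    refine ⟨N, (sysI_iff F τ hg.tys N hN).2 ⟨hg, hx⟩, ?_⟩
    intro E hE h
    obtain ⟨σ, h1, h2⟩ := (sysJ_iff F τ hg.tys N hN).1 ⟨E, hE, h⟩
    exact hb σ h1 h2
  · rintro ⟨N, hI, hJ⟩
    let Δ : Type := Σ s : {s // s ∈ F.tys}, (N (vN s.1)).out
    let τ : Δ → Ty := fun x => x.1.1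
    have hτ : ∀ x, τ x ∈ F.tys := fun x => x.1.2
    have hN : ∀ s ∈ F.tys, N (vN s) = cnt τ s := by
      intro s hs
      rw [cnt, ← mk_out (N (vN s)), Cardinal.eq]
      exact ⟨{
        toFun := fun y => ⟨⟨⟨s, hs⟩, y⟩, rfl⟩
        invFun := fun x => cast (by rw [show x.1.1.1 = s from x.2]) x.1.2
        left_inv := fun y => by simp
        right_inv := fun x => by
          obtain ⟨⟨⟨s', hs'⟩, y⟩, hx⟩ := x
          have : s' = s := hx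
          subst this
          rfl }⟩
    obtain ⟨hg, hx⟩ := (sysI_iff F τ hτ N hN).1 hI
    refine ⟨Δ, τ, hg, hx, fun σ h1 h2 => ?_⟩
    obtain ⟨E, hE, h⟩ := (sysJ_iff F τ hτ N hN).2 ⟨σ, h1, h2⟩
    exact hJ E hE h

end Pool.Agent.H24U
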