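import Pool.Agent.Lib.H24U.NfClo

/-!
# Chunk BTN: the preference relations agree

For `X ∈ T.P.mini` (so `X ∈ nats T`): `J.con X ⊆ I.con X ↔ Sub σ τ (posC T (.nm X))`. Positions of
formulas in `fms T` are injective (`List.idxOf`), so `(posC T (.nm Y), posC T (.nm X)) ∈ (nf T).prec`
iff `(Y, X) ∈ T.P.prec` for `X, Y ∈ nats T`. The fixed formulas `{a}` agree since `J.ind = I.ind`.
-/

set_option autoImplicit false

namespace Pool.Agent.H24U

open Pool.Agent.PolyTime Pool.Agent.H24N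

theorem BTN_lawful_sum (α β : Type) [BEq α] [BEq β] [LawfulBEq α] [LawfulBEq β] :
    LawfulBEq (α ⊕ β) where
  eq_of_beq := by
    rintro (a | a) (b | b) h
    · have h1 : (a == b) = true := h
      rw [eq_of_beq h1]
    · exact absurd h (by intro h2; cases h2)
    · exact absurd h (by intro h2; cases h2)
    · have h1 : (a == b) = true := h
      rw [eq_of_beq h1]
  rfl := by
    rintro (a | a)
    · show (a == a) = true
      exact BEq.rfl
    · show (a == a) = true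
      exact BEq.rfl

theorem BTN_pos_inj {T : Inst} {φ ψ : Fm} (hφ : φ ∈ fms T) (h : pos T ψ = pos T φ) : ψ = φ := by
  unfold pos at h
  have h1 : LawfulBEq (ℕ ⊕ (ℕ × ℕ)) := BTN_lawful_sum _ _
  have h2 : LawfulBEq (Con ⊕ ℕ ⊕ (ℕ × ℕ)) := BTN_lawful_sum _ _
  exact ((List.idxOf_inj hφ).1 h.symm).symm

theorem BTN_posnm_inj {T : Inst} {X Y : ℕ} (hX : X ∈ nats T)
    (h : posC T (.nm Y) = posC T (.nm X)) : Y = X := by
  have h1 : (Sum.inl (Con.nm Y) : Fm) = Sum.inl (Con.nm X) :=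
    BTN_pos_inj (inl_mem_fms.2 (nm_mem_cs hX)) h
  simpa using h1

theorem BTN_sub {Δ : Type} (T : Inst) (I J : Interp Δ) (τ σ : Δ → Ty) (hI : TypOf T I τ)
    (hJ : TypOf T J σ) {X : ℕ} (hX : X ∈ nats T) :
    Sub σ τ (posC T (.nm X)) ↔ J.con X ⊆ I.con X := by
  have hm := inl_mem_fms.2 (nm_mem_cs hX)
  constructor
  · intro h x hx
    have h1 : bit (σ x) (posC T (.nm X)) = true := (hJ x _ hm).2 hx
    exact (hI x _ hm).1 (h x h1)
  · intro h x hx
    have h1 : x ∈ J.con X := (hJ x _ hm).1 hx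
    exact (hI x _ hm).2 (h h1)

theorem BTN_prec {T : Inst} {X Y : ℕ} (hX : X ∈ nats T) (hY : Y ∈ nats T) :
    (posC T (.nm Y), posC T (.nm X)) ∈ (nf T).prec ↔ (Y, X) ∈ T.P.prec := by
  show (posC T (.nm Y), posC T (.nm X)) ∈
    T.P.prec.map (fun p => (posC T (.nm p.1), posC T (.nm p.2))) ↔ _
  rw [List.mem_map]
  constructor
  · rintro ⟨⟨y, x⟩, hp, h⟩
    simp only [Prod.mk.injEq] at h
    rw [BTN_posnm_inj hY h.1, BTN_posnm_inj hX h.2] at hp
    exact hp
  · intro h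
    exact ⟨_, h, rfl⟩

theorem better_iff_nf {Δ : Type} (T : Inst) (I J : Interp Δ) (τ σ : Δ → Ty) (hI : TypOf T I τ)
    (hJ : TypOf T J σ) (hind : J.ind = I.ind) : (nf T).Better σ τ ↔ T.P.Better J I := by
  have hsub := fun {X : ℕ} (hX : X ∈ nats T) => BTN_sub T I J τ σ hI hJ hX
  have hsub' := fun {X : ℕ} (hX : X ∈ nats T) => BTN_sub T J I σ τ hJ hI hX
  have hc := clo T
  constructor
  · intro h
    refine ⟨hind, ?_, ?_, ?_⟩
    · intro X hX
      have hXn := hc.fixd X hX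
      have hm := inl_mem_fms.2 (nm_mem_cs hXn)
      ext x
      have h1 : bit (σ x) (posC T (.nm X)) = bit (τ x) (posC T (.nm X)) := by
        refine h.fixd _ ?_ x
        show posC T (.nm X) ∈ T.P.fixd.map (fun X => posC T (.nm X)) ++ (nats T).map (posI T)
        rw [List.mem_append, List.mem_map]
        exact Or.inl ⟨X, hX, rfl⟩
      have h2 := hJ x _ hm
      have h3 := hI x _ hm
      have h4 : bit (σ x) (pos T (.inl (.nm X))) = bit (τ x) (pos T (.inl (.nm X))) := h1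
      rw [h4] at h2
      exact h2.symm.trans h3
    · intro X hX hns
      have hXn := hc.mini X hX
      obtain ⟨Y', hY', hp, h1, h2⟩ := h.mini (posC T (.nm X))
        (List.mem_map.2 ⟨X, hX, rfl⟩) (fun hs => hns ((hsub hXn).1 hs))
      obtain ⟨Y, hY, rfl⟩ := List.mem_map.1 hY'
      have hYn := hc.mini Y hY
      refine ⟨Y, hY, (BTN_prec hXn hYn).1 hp, (hsub hYn).1 h1, fun hs => h2 ((hsub' hYn).2 hs)⟩
    · obtain ⟨X', hX', ⟨h1, h2⟩, h3⟩ := h.strict
      obtain ⟨X, hX, rfl⟩ := List.mem_map.1 hX'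
      have hXn := hc.mini X hX
      refine ⟨X, hX, ⟨(hsub hXn).1 h1, fun hs => h2 ((hsub' hXn).2 hs)⟩, ?_⟩
      intro Y hY hp
      have hYn := hc.mini Y hY
      obtain ⟨h4, h5⟩ := h3 _ (List.mem_map.2 ⟨Y, hY, rfl⟩) ((BTN_prec hXn hYn).2 hp)
      exact Set.Subset.antisymm ((hsub hYn).1 h4) ((hsub' hYn).1 h5)
  · intro h
    refine ⟨?_, ?_, ?_⟩
    · intro i hi x
      have hi' : i ∈ T.P.fixd.map (fun X => posC T (.nm X)) ++ (nats T).map (posI T) := hi
      rw [List.mem_append, List.mem_map, List.mem_map] at hi'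
      rcases hi' with ⟨X, hX, rfl⟩ | ⟨a, ha, rfl⟩
      · have hXn := hc.fixd X hX
        have hm := inl_mem_fms.2 (nm_mem_cs hXn)
        have h1 := hJ x _ hm
        have h2 := hI x _ hm
        have h3 : fsat J x (.inl (.nm X)) ↔ fsat I x (.inl (.nm X)) := by
          show x ∈ J.con X ↔ x ∈ I.con X
          rw [h.fixd X hX]
        rw [Bool.eq_iff_iff]
        exact h1.trans (h3.trans h2.symm)
      · have hm := inr_inl_mem_fms.2 ha
        have h1 := hJ x _ hm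
        have h2 := hI x _ hm
        have h3 : fsat J x (.inr (.inl a)) ↔ fsat I x (.inr (.inl a)) := by
          show x = J.ind a ↔ x = I.ind a
          rw [hind]
        rw [Bool.eq_iff_iff]
        exact h1.trans (h3.trans h2.symm)
    · intro X' hX' hns
      obtain ⟨X, hX, rfl⟩ := List.mem_map.1 hX'
      have hXn := hc.mini X hX
      obtain ⟨Y, hY, hp, h1, h2⟩ := h.mini X hX (fun hs => hns ((hsub hXn).2 hs))
      have hYn := hc.mini Y hY
      exact ⟨_, List.mem_map.2 ⟨Y, hY, rfl⟩, (BTN_prec hXn hYn).2 hp, (hsub hYn).2 h1,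
        fun hs => h2 ((hsub' hYn).1 hs)⟩
    · obtain ⟨X, hX, ⟨h1, h2⟩, h3⟩ := h.strict
      have hXn := hc.mini X hX
      refine ⟨_, List.mem_map.2 ⟨X, hX, rfl⟩, ⟨(hsub hXn).2 h1, fun hs => h2 ((hsub' hXn).1 hs)⟩, ?_⟩
      intro Y' hY' hp
      obtain ⟨Y, hY, rfl⟩ := List.mem_map.1 hY'
      have hYn := hc.mini Y hY
      have h4 := h3 Y hY ((BTN_prec hXn hYn).1 hp)
      exact ⟨(hsub hYn).2 h4.le, (hsub' hYn).2 h4.ge⟩

end Pool.Agent.H24U
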