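import Pool.Agent.Lib.H24U.NfClo

/-!
# Chunk IOG: an interpretation from good types

`con A = {x | bit (σ x) (posC T (.nm A))}`, `rol P` the relation given by `hσ.roles` for
`roleOf T P` if `P ∈ nats T` (and `False` otherwise), `ind = ι`. `bit (σ x) (posI T a) ↔ x = ι a` for
`a ∈ nats T` by `hσ.sgs` and `hι`. `TypOf` by induction on the concept (with `clo T`; `okT` gives the
cases `neg`, `and`; `Real` gives `ex`, `le1` and the formulas `∃ P. {b}`). `Models`: `imps`, `excl`
of `okT`.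
-/

set_option autoImplicit false

namespace Pool.Agent.H24U

open Pool.Agent.PolyTime Pool.Agent.H24N

theorem IOG_ok {Δ : Type} {T : Inst} {σ : Δ → Ty} (hσ : (nf T).Good σ) (x : Δ) :
    (∀ C, Con.neg C ∈ cs T → bit (σ x) (posC T (.neg C)) = !bit (σ x) (posC T C)) ∧
    (∀ C E, Con.and C E ∈ cs T → bit (σ x) (posC T (.and C E)) =
      (bit (σ x) (posC T C) && bit (σ x) (posC T E))) ∧
    (∀ p ∈ T.K.tbox, bit (σ x) (posC T p.1) = true → bit (σ x) (posC T p.2) = true) ∧
    (∀ φ ∈ T.K.abox, bit (σ x) (posI T (aind φ)) = true → bit (σ x) (pos T (afm φ)) = true) ∧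
    (∀ a ∈ ainds T, ∀ b ∈ ainds T, a ≠ b → ¬ (bit (σ x) (posI T a) = true ∧
      bit (σ x) (posI T b) = true)) := by
  have h := (List.mem_filter.1 (hσ.tys x)).2
  unfold NF.okT at h
  simp only [Bool.and_eq_true, List.all_eq_true] at h
  obtain ⟨⟨⟨h1, h2⟩, h3⟩, h4⟩ := h
  refine ⟨?_, ?_, ?_, ?_, ?_⟩
  · intro C hC
    have h5 := h1 (posC T (.neg C), posC T C) (by
      show _ ∈ ((cs T).filter fun C => decide (ctag C = 1)).map
        fun C => (posC T C, posC T (carg1 C))
      exact List.mem_map.2 ⟨.neg C, List.mem_filter.2 ⟨hC, by simp [ctag]⟩, rfl⟩)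
    simpa using h5
  · intro C E hC
    have h5 := h2 (posC T (.and C E), posC T C, posC T E) (by
      show _ ∈ ((cs T).filter fun C => decide (ctag C = 2)).map
        fun C => (posC T C, posC T (carg1 C), posC T (carg2 C))
      exact List.mem_map.2 ⟨.and C E, List.mem_filter.2 ⟨hC, by simp [ctag]⟩, rfl⟩)
    simpa using h5
  · intro p hp hb
    have h5 := h3 (posC T p.1, posC T p.2) (by
      show _ ∈ T.K.tbox.map (fun p => (posC T p.1, posC T p.2)) ++
        T.K.abox.map (fun φ => (posI T (aind φ), pos T (afm φ)))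
      exact List.mem_append.2 (Or.inl (List.mem_map.2 ⟨p, hp, rfl⟩)))
    simp only [hb] at h5
    simpa using h5
  · intro φ hφ hb
    have h5 := h3 (posI T (aind φ), pos T (afm φ)) (by
      show _ ∈ T.K.tbox.map (fun p => (posC T p.1, posC T p.2)) ++
        T.K.abox.map (fun φ => (posI T (aind φ), pos T (afm φ)))
      exact List.mem_append.2 (Or.inr (List.mem_map.2 ⟨φ, hφ, rfl⟩)))
    simp only [hb] at h5
    simpa using h5
  · rintro a ha b hb hab ⟨h5, h6⟩
    have h7 := h4 (posI T a, posI T b) (by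
      show _ ∈ (((ainds T) ×ˢ (ainds T)).filter fun p => decide (p.1 ≠ p.2)).map
        fun p => (posI T p.1, posI T p.2)
      refine List.mem_map.2 ⟨(a, b), List.mem_filter.2 ⟨?_, by simpa using hab⟩, rfl⟩
      exact List.pair_mem_product.2 ⟨ha, hb⟩)
    simp only [h5, h6] at h7
    simp at h7

theorem exists_interp {Δ : Type} (T : Inst) (σ : Δ → Ty) (hσ : (nf T).Good σ) (ι : ℕ → Δ)
    (hι : ∀ a ∈ nats T, bit (σ (ι a)) (posI T a) = true) :
    ∃ I : Interp Δ, I.ind = ι ∧ TypOf T I σ ∧ T.K.Models I := by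
  have hc := clo T
  have hsg : ∀ a ∈ nats T, ∀ x, bit (σ x) (posI T a) = true ↔ x = ι a := by
    intro a ha x
    obtain ⟨y, -, hy2⟩ := hσ.sgs (posI T a) (List.mem_map.2 ⟨a, ha, rfl⟩)
    constructor
    · intro h
      rw [hy2 x h, hy2 (ι a) (hι a ha)]
    · rintro rfl
      exact hι a ha
  have hr : ∀ P : ℕ, ∃ Q : Δ → Δ → Prop, P ∈ nats T → Real (roleOf T P) σ Q := by
    intro P
    by_cases hP : P ∈ nats T
    · obtain ⟨Q, hQ⟩ := hσ.roles (roleOf T P) (List.mem_map.2 ⟨P, hP, rfl⟩)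
      exact ⟨Q, fun _ => hQ⟩
    · exact ⟨fun _ _ => False, fun h => absurd h hP⟩
  choose rol hrol using hr
  have hnm : ∀ P ∈ nats T, ∀ C, Con.ex (.nm P) C ∈ cs T → ∀ x,
      bit (σ x) (posC T (.ex (.nm P) C)) = true ↔ ∃ y, rol P x y ∧ bit (σ y) (posC T C) = true := by
    intro P hP C hC x
    refine (hrol P hP).ex (posC T C, posC T (.ex (.nm P) C)) ?_ x
    show _ ∈ ((cs T).filter fun C => decide (ctag C = 3) && decide (crole C = .nm P)).map
      (fun C => (posC T (carg1 C), posC T C)) ++ _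
    refine List.mem_append.2 (Or.inl (List.mem_map.2 ⟨.ex (.nm P) C, List.mem_filter.2 ⟨hC, ?_⟩,
      rfl⟩))
    simp [ctag, crole]
  have hinv : ∀ P ∈ nats T, ∀ C, Con.ex (.inv P) C ∈ cs T → ∀ x,
      bit (σ x) (posC T (.ex (.inv P) C)) = true ↔
        ∃ y, rol P y x ∧ bit (σ y) (posC T C) = true := by
    intro P hP C hC x
    refine (hrol P hP).ey (posC T C, posC T (.ex (.inv P) C)) ?_ x
    show _ ∈ ((cs T).filter fun C => decide (ctag C = 3) && decide (crole C = .inv P)).map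
      (fun C => (posC T (carg1 C), posC T C))
    refine List.mem_map.2 ⟨.ex (.inv P) C, List.mem_filter.2 ⟨hC, ?_⟩, rfl⟩
    simp [ctag, crole]
  have hE : ∀ P ∈ nats T, ∀ b ∈ nats T, ∀ x,
      bit (σ x) (posE T (P, b)) = true ↔ ∃ y, rol P x y ∧ bit (σ y) (posI T b) = true := by
    intro P hP b hb x
    refine (hrol P hP).ex (posI T b, posE T (P, b)) ?_ x
    show _ ∈ _ ++ (((nats T) ×ˢ (nats T)).filter fun p => decide (p.1 = P)).map
      (fun p => (posI T p.2, posE T p))
    refine List.mem_append.2 (Or.inr (List.mem_map.2 ⟨(P, b), List.mem_filter.2 ⟨?_, by simp⟩,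
      rfl⟩))
    exact List.pair_mem_product.2 ⟨hP, hb⟩
  set I : Interp Δ := ⟨fun A => {x | bit (σ x) (posC T (.nm A)) = true}, rol, ι⟩ with hI
  have hcon : ∀ C, C ∈ cs T → ∀ x, bit (σ x) (posC T C) = true ↔ x ∈ I.ext C := by
    intro C
    induction C with
    | nm A => intro _ x; exact Iff.rfl
    | neg C ih =>
      intro h x
      rw [(IOG_ok hσ x).1 C h]
      have h1 := ih (hc.neg C h) x
      show _ ↔ ¬ x ∈ I.ext C
      rw [← h1]
      simp
    | and C E ih1 ih2 =>
      intro h x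
      rw [(IOG_ok hσ x).2.1 C E h]
      have h1 := ih1 (hc.and C E h).1 x
      have h2 := ih2 (hc.and C E h).2 x
      show _ ↔ x ∈ I.ext C ∧ x ∈ I.ext E
      rw [← h1, ← h2]
      simp
    | ex R C ih =>
      intro h x
      have h1 := ih (hc.ex R C h)
      cases R with
      | nm P =>
        rw [hnm P (hc.exn P C h) C h x]
        show _ ↔ ∃ y, rol P x y ∧ y ∈ I.ext C
        exact exists_congr fun y => and_congr_right fun _ => h1 y
      | inv P =>
        rw [hinv P (hc.exi P C h) C h x]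
        show _ ↔ ∃ y, rol P y x ∧ y ∈ I.ext C
        exact exists_congr fun y => and_congr_right fun _ => h1 y
    | le1 R =>
      intro h x
      cases R with
      | nm P => exact (hrol P (hc.len P h)).f x
      | inv P => exact (hrol P (hc.lei P h)).g x
  have htyp : TypOf T I σ := by
    intro x φ hφ
    rcases φ with C | a | ⟨P, b⟩
    · exact hcon C (inl_mem_fms.1 hφ) x
    · exact hsg a (inr_inl_mem_fms.1 hφ) x
    · obtain ⟨hP, hb⟩ := inr_inr_mem_fms.1 hφ
      have h1 := hE P hP b hb x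
      show bit (σ x) (posE T (P, b)) = true ↔ rol P x (ι b)
      rw [h1]
      constructor
      · rintro ⟨y, hy, hy2⟩
        rw [← (hsg b hb y).1 hy2]
        exact hy
      · intro h
        exact ⟨ι b, h, (hsg b hb _).2 rfl⟩
  refine ⟨I, rfl, htyp, ?_, ?_, ?_⟩
  · intro p hp x hx
    obtain ⟨h1, h2⟩ := hc.tbox p hp
    exact (hcon _ h2 x).1 ((IOG_ok hσ x).2.2.1 p hp ((hcon _ h1 x).2 hx))
  · intro φ hφ
    cases φ with
    | con A a =>
      obtain ⟨hA, ha⟩ := hc.acon A a hφ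
      exact (IOG_ok hσ (ι a)).2.2.2.1 _ hφ ((hsg a ha _).2 rfl)
    | rol P a b =>
      obtain ⟨hP, ha, hb⟩ := hc.arol P a b hφ
      have h1 := (IOG_ok hσ (ι a)).2.2.2.1 _ hφ ((hsg a ha _).2 rfl)
      exact (htyp (ι a) _ (inr_inr_mem_fms.2 ⟨hP, hb⟩)).1 h1
  · intro φ hφ ψ hψ a ha b hb hab
    by_contra hne
    have hn : ∀ φ ∈ T.K.abox, ∀ a ∈ φ.inds, a ∈ nats T := by
      intro φ hφ a ha
      cases φ with
      | con A c =>
        have h1 := (hc.acon A c hφ).2
        have h2 : a = c := by simpa [Assertion.inds] using ha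
        rw [h2]; exact h1
      | rol P c d =>
        have h1 := hc.arol P c d hφ
        have h2 : a = c ∨ a = d := by simpa [Assertion.inds] using ha
        rcases h2 with rfl | rfl
        · exact h1.2.1
        · exact h1.2.2
    have hab' : ι a = ι b := hab
    have ha1 : a ∈ ainds T := List.mem_flatMap.2 ⟨φ, hφ, ha⟩
    have hb1 : b ∈ ainds T := List.mem_flatMap.2 ⟨ψ, hψ, hb⟩
    refine (IOG_ok hσ (ι a)).2.2.2.2 a ha1 b hb1 hne ⟨(hsg a (hn φ hφ a ha) _).2 rfl, ?_⟩
    rw [hab']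
    exact (hsg b (hn ψ hψ b hb) _).2 rfl

end Pool.Agent.H24U
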