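import Pool.Agent.Lib.H24U.NfTyp
import Pool.Agent.Lib.H24U.NfInt
import Pool.Agent.Lib.H24U.NfBet

/-!
# An instance is satisfiable iff its normal form is
-/

set_option autoImplicit false

namespace Pool.Agent.H24U

open Pool.Agent.PolyTime Pool.Agent.H24N

theorem sat_nf (T : Inst) : (nf T).Sat ↔ T.Sat := by
  have hgoal : (Sum.inl T.C : Fm) ∈ fms T := inl_mem_fms.2 (clo T).goal
  constructor
  · rintro ⟨Δ, τ, hg, ⟨x₀, hx₀⟩, hb⟩
    have hι : ∀ a, ∃ x : Δ, a ∈ nats T → bit (τ x) (posI T a) = true := by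
      intro a
      by_cases ha : a ∈ nats T
      · obtain ⟨x, hx, _⟩ := hg.sgs (posI T a) (List.mem_map.2 ⟨a, ha, rfl⟩)
        exact ⟨x, fun _ => hx⟩
      · exact ⟨x₀, fun h => absurd h ha⟩
    choose ι hι using hι
    obtain ⟨I, hI1, hI2, hI3⟩ := exists_interp T τ hg ι hι
    refine ⟨Δ, I, ⟨hI3, fun J hJ hbet => ?_⟩, x₀, (hI2 x₀ _ hgoal).1 hx₀⟩
    exact hb (tp T J) (good_tp T J hJ)
      ((better_iff_nf T I J τ (tp T J) hI2 (typOf_tp T J) hbet.ind).2 hbet)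
  · rintro ⟨Δ, I, ⟨hI, hb⟩, x₀, hx₀⟩
    refine ⟨Δ, tp T I, good_tp T I hI, ⟨x₀, (typOf_tp T I x₀ _ hgoal).2 hx₀⟩, ?_⟩
    intro σ hσ hbet
    have hι : ∀ a ∈ nats T, bit (σ (I.ind a)) (posI T a) = true := by
      intro a ha
      rw [hbet.fixd (posI T a) (List.mem_append_right _ (List.mem_map.2 ⟨a, ha, rfl⟩))]
      exact (typOf_tp T I _ _ (inr_inl_mem_fms.2 ha)).2 rfl
    obtain ⟨J, hJ1, hJ2, hJ3⟩ := exists_interp T σ hσ I.ind hι
    exact hb J hJ3 ((better_iff_nf T I J (tp T I) σ (typOf_tp T I) hJ2 hJ1).1 hbet)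

end Pool.Agent.H24U
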