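import Pool.Agent.Lib.PolyTime.PL
import Pool.Agent.Lib.H24U.DP

/-!
# Chunk TI: positions, sums

`List.idxOf a l` is the length of `l.takeWhile (· ≠ a)` (`PT.takeWhile`, `PT.length`,
`PT.decide_eq`). The sum of a list of numbers by `PT.foldl` (the sum has at most as many digits as
all entries together plus the length).
-/

set_option autoImplicit false

namespace Pool.Agent.H24U

open Pool.Agent.PolyTime

variable {α β γ : Type} [Enc α] [Enc β] [Enc γ]

@[fun_prop] theorem PT_idxOf [EncInj β] [DecidableEq β] {l : α → List β} {x : α → β} (hl : PT l)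
    (hx : PT x) : PT fun a => (l a).idxOf (x a) := by
  have h1 := PT.length (PT.takeWhile (f := fun (a : α) (b : β) => !decide (b = x a))
    (PT.not (PT.decide_eq (f := fun p : α × β => p.2) (g := fun p : α × β => x p.1) (by fun_prop)
      (by fun_prop))) hl)
  refine h1.congr fun a => ?_
  generalize l a = m
  induction m with
  | nil => rfl
  | cons b m ih =>
    by_cases hb : b = x a
    · subst hb
      simp
    · rw [List.idxOf_cons_ne _ hb, List.takeWhile_cons]
      simp only [hb, decide_false, Bool.not_false, if_true, List.length_cons]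
      rw [ih]

theorem size_sum_le_sz (l : List ℕ) : l.sum.size ≤ sz l := by
  induction l with
  | nil => simp
  | cons m l ih =>
    rw [List.sum_cons, sz_cons]
    have h1 := size_add_le m l.sum
    have h2 := size_lt_sz m
    omega

@[fun_prop] theorem PT_sum {l : α → List ℕ} (hl : PT l) : PT fun a => (l a).sum := by
  have h1 := PT.foldl (g := fun (_ : α) (s : ℕ) (b : ℕ) => s + b) (s := fun _ => 0) (l := l)
    (by fun_prop) (by fun_prop) hl (B := fun a => 4 * sz (l a) + 1)
    (((PBd.const 4).mul (PT.bdd hl)).add (PBd.const 1)) (by
      intro a l1 l2 h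
      rw [← List.sum_eq_foldl]
      have h2 := sz_nat_le l1.sum
      have h3 := size_sum_le_sz l1
      have h4 := sz_append l1 l2
      have h5 := one_le_sz l2
      rw [← h] at h4
      omega)
  refine h1.congr fun a => ?_
  rw [← List.sum_eq_foldl]

@[fun_prop] theorem PT_look [EncInj β] [DecidableEq β] {o : α → List β} {l : α → List γ}
    {d : α → γ} {x : α → β} (ho : PT o) (hl : PT l) (hd : PT d) (hx : PT x) :
    PT fun a => look (o a) (l a) (d a) (x a) := by
  unfold look
  fun_prop

end Pool.Agent.H24U
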