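import Pool.Agent.Lib.H24U.Check
import Pool.Agent.Lib.H24U.PTTools

/-!
# Chunks PD1 (PT_occ .. PT_dpP) and PD2 (PT_lamV .. PT_solP): the decision procedure in polynomial
time

PD1: `transB` with `row = rowV y nv r` and with `row = fun _ => false` (state two lemmas, with the
word, the index and the lists as arguments); `PT.foldl` over `List.range y.length` (`PT.rangeLength`):
all intermediate lists are sublists of `sts` (or `[initS E]`); `PT.reach`, `PT.mem`, `PT.product`.
PD2: `PT.drop`, `PT.take`, `PT.countP`; `leL`, `consL`, `redL` for `lv = look o l 0`.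
-/

set_option autoImplicit false

namespace Pool.Agent.H24U

open Pool.Agent.PolyTime

variable {α V : Type} [Enc α] [Enc V] [EncInj V] [DecidableEq V] {y : α → List Bool}
  {nv o : α → List V} {E : α → Sys V} {l : α → List ℕ}

omit [EncInj V] [DecidableEq V] in
@[fun_prop] theorem PT_occ (hE : PT E) : PT fun a => occ (E a) := by
  unfold occ
  exact PT.flatMap (f := fun (_ : α) (e : Eqn V) => e.1.1 ++ e.2.1) (by fun_prop) hE

@[fun_prop] theorem PT_rowV {r : α → ℕ} {x : α → V} (hy : PT y) (hn : PT nv) (hr : PT r)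
    (hx : PT x) : PT fun a => rowV (y a) (nv a) (r a) (x a) := by
  unfold rowV bitOf
  fun_prop

theorem PD1_beq {b c : α → Bool} (hb : PT b) (hc : PT c) : PT fun a => (b a == c a) :=
  PT_bool2 (fun u v => u == v) hb hc

theorem PD1_agreeB {ro : α → V → Bool} {b : α → List Bool}
    (hro : PT fun p : α × V => ro p.1 p.2) (hn : PT nv) (ho : PT o) (hb : PT b) :
    PT fun a => agreeB (nv a) (ro a) (o a) (b a) := by
  unfold agreeB
  refine PT.all (f := fun (a : α) (x : V) => !decide (x ∈ nv a) ||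
    (look (o a) (b a) false x == ro a x)) ?_ ho
  have h1 : PT fun p : α × V => nv p.1 := by fun_prop
  have h2 : PT fun p : α × V => o p.1 := by fun_prop
  have h3 : PT fun p : α × V => b p.1 := by fun_prop
  exact PT.or (PT.not (PT.mem (by fun_prop) h1)) (PD1_beq (by fun_prop) hro)

omit [EncInj V] [DecidableEq V] in
theorem PD1_stepE {β : α → V → Bool} {e : α → Eqn V} {c c' : α → ℕ × ℕ}
    (hβ : PT fun p : α × V => β p.1 p.2) (he : PT e) (hc : PT c) (hc' : PT c') :
    PT fun a => stepE (β a) (e a) (c a) (c' a) := by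
  unfold stepE
  have h1 : PT fun a => (e a).1.1.countP (β a) := PT.countP hβ (by fun_prop)
  have h2 : PT fun a => (e a).2.1.countP (β a) := PT.countP hβ (by fun_prop)
  exact PT.and (PT.and (PT.decide_eq (by fun_prop) (by fun_prop))
    (PT.decide_eq (by fun_prop) (by fun_prop))) (PT.decide_eq (by fun_prop) (by fun_prop))

theorem PD1_stepS {β : α → V → Bool} {c c' : α → List (ℕ × ℕ)}
    (hβ : PT fun p : α × V => β p.1 p.2) (hE : PT E) (hc : PT c) (hc' : PT c') :
    PT fun a => stepS (β a) (E a) (c a) (c' a) := by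
  unfold stepS
  refine PT.all (f := fun (a : α) (p : Eqn V × ((ℕ × ℕ) × (ℕ × ℕ))) =>
    stepE (β a) p.1 p.2.1 p.2.2) ?_ (by fun_prop)
  refine PD1_stepE (β := fun (q : α × (Eqn V × ((ℕ × ℕ) × (ℕ × ℕ)))) => β q.1) ?_
    (by fun_prop) (by fun_prop) (by fun_prop)
  exact hβ.comp (f := fun p : (α × (Eqn V × ((ℕ × ℕ) × (ℕ × ℕ)))) × V => (p.1.1, p.2))
    (by fun_prop)

theorem PD1_transB {ro : α → V → Bool} {bs : α → List (List Bool)} {c c' : α → List (ℕ × ℕ)}
    (hro : PT fun p : α × V => ro p.1 p.2) (hbs : PT bs) (hn : PT nv) (hE : PT E) (hc : PT c)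
    (hc' : PT c') : PT fun a => transB (bs a) (nv a) (ro a) (E a) (c a) (c' a) := by
  unfold transB
  refine PT.any (f := fun (a : α) (b : List Bool) => agreeB (nv a) (ro a) (occ (E a)) b &&
    stepS (look (occ (E a)) b false) (E a) (c a) (c' a)) ?_ hbs
  refine PT.and ?_ ?_
  · refine PD1_agreeB (nv := fun p : α × List Bool => nv p.1)
      (o := fun p : α × List Bool => occ (E p.1)) (ro := fun p : α × List Bool => ro p.1)
      ?_ (by fun_prop) (by fun_prop) (by fun_prop)
    exact hro.comp (f := fun p : (α × List Bool) × V => (p.1.1, p.2)) (by fun_prop)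
  · exact PD1_stepS (β := fun p : α × List Bool => look (occ (E p.1)) p.2 false)
      (E := fun p : α × List Bool => E p.1) (c := fun p : α × List Bool => c p.1)
      (c' := fun p : α × List Bool => c' p.1) (by fun_prop) (by fun_prop) (by fun_prop)
      (by fun_prop)

omit [EncInj V] [DecidableEq V] in
theorem PD1_initS (hE : PT E) : PT fun a => initS (E a) := by
  unfold initS
  exact PT.map (f := fun (_ : α) (e : Eqn V) => (e.1.2, e.2.2)) (by fun_prop) hE

omit [Enc V] [EncInj V] [DecidableEq V] in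
theorem PD1_finS {c : α → List (ℕ × ℕ)} (hc : PT c) : PT fun a => finS (c a) := by
  unfold finS
  exact PT.all (f := fun (_ : α) (p : ℕ × ℕ) => decide (p.1 = p.2))
    (PT.decide_eq (by fun_prop) (by fun_prop)) hc

omit [EncInj V] [DecidableEq V] in
theorem PD1_carries (ho : PT o) : PT fun a => carries (o a) := by
  unfold carries
  have h : PT fun a => List.range ((o a).length + 3) :=
    PL.range (PL.add (PL.length ho) (PL.const 3))
  exact PT.product h h

omit [Enc V] [EncInj V] [DecidableEq V] in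
theorem PD1_fin {S sts : α → List (List (ℕ × ℕ))}
    {ed : α → List (List (ℕ × ℕ) × List (ℕ × ℕ))} (hS : PT S) (hsts : PT sts) (hed : PT ed) :
    PT fun a => (S a).any fun c => (sts a).any fun c' => finS c' &&
      decide (c' ∈ reach (ed a) c) := by
  refine PT.any (f := fun (a : α) (c : List (ℕ × ℕ)) => (sts a).any fun c' => finS c' &&
    decide (c' ∈ reach (ed a) c)) ?_ hS
  refine PT.any (f := fun (p : α × List (ℕ × ℕ)) (c' : List (ℕ × ℕ)) => finS c' &&
    decide (c' ∈ reach (ed p.1) p.2)) ?_ (by fun_prop)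
  have h3 : PT fun p : (α × List (ℕ × ℕ)) × List (ℕ × ℕ) => finS p.2 := PD1_finS (by fun_prop)
  have h4 : PT fun p : (α × List (ℕ × ℕ)) × List (ℕ × ℕ) => reach (ed p.1.1) p.1.2 :=
    PT.reach (by fun_prop) (by fun_prop)
  have h5 : PT fun p : (α × List (ℕ × ℕ)) × List (ℕ × ℕ) => p.2 := by fun_prop
  refine (PT.and h3 (PT.mem h5 h4)).congr fun p => ?_
  congr 1
  exact decide_eq_decide.2 Iff.rfl

theorem PD1_dp {ro : α → ℕ → V → Bool} {bs : α → List (List Bool)}
    {sts : α → List (List (ℕ × ℕ))} {rows : α → List ℕ}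
    (hro : PT fun p : α × ℕ × V => ro p.1 p.2.1 p.2.2) (hbs : PT bs) (hsts : PT sts) (hn : PT nv)
    (hE : PT E) (hr : PT rows) :
    PT fun a => dp (bs a) (sts a) (nv a) (E a) (rows a) (ro a) := by
  unfold dp
  -- the fold
  have h1 : PT fun a => (rows a).foldl (fun S r => (sts a).filter fun c' => S.any fun c =>
      transB (bs a) (nv a) (ro a r) (E a) c c') [initS (E a)] := by
    have hinit : PT fun a => [initS (E a)] := by
      have := PD1_initS hE
      fun_prop
    refine PT.foldl (g := fun (a : α) (S : List (List (ℕ × ℕ))) (r : ℕ) =>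
      (sts a).filter fun c' => S.any fun c => transB (bs a) (nv a) (ro a r) (E a) c c')
      (s := fun a => [initS (E a)]) (l := rows) ?_ hinit hr
      (B := fun a => sz (sts a) + sz [initS (E a)]) ((PT.bdd hsts).add (PT.bdd hinit)) ?_
    · refine PT.filter (f := fun (p : α × List (List (ℕ × ℕ)) × ℕ) (c' : List (ℕ × ℕ)) =>
        p.2.1.any fun c => transB (bs p.1) (nv p.1) (ro p.1 p.2.2) (E p.1) c c') ?_ (by fun_prop)
      refine PT.any (f := fun (p : (α × List (List (ℕ × ℕ)) × ℕ) × List (ℕ × ℕ))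
        (c : List (ℕ × ℕ)) => transB (bs p.1.1) (nv p.1.1) (ro p.1.1 p.1.2.2) (E p.1.1) c p.2)
        ?_ (by fun_prop)
      refine PD1_transB
        (ro := fun p : ((α × List (List (ℕ × ℕ)) × ℕ) × List (ℕ × ℕ)) × List (ℕ × ℕ) =>
          ro p.1.1.1 p.1.1.2.2)
        (bs := fun p : ((α × List (List (ℕ × ℕ)) × ℕ) × List (ℕ × ℕ)) × List (ℕ × ℕ) =>
          bs p.1.1.1)
        (nv := fun p : ((α × List (List (ℕ × ℕ)) × ℕ) × List (ℕ × ℕ)) × List (ℕ × ℕ) =>
          nv p.1.1.1)
        (E := fun p : ((α × List (List (ℕ × ℕ)) × ℕ) × List (ℕ × ℕ)) × List (ℕ × ℕ) =>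
          E p.1.1.1)
        (c := fun p : ((α × List (List (ℕ × ℕ)) × ℕ) × List (ℕ × ℕ)) × List (ℕ × ℕ) => p.2)
        (c' := fun p : ((α × List (List (ℕ × ℕ)) × ℕ) × List (ℕ × ℕ)) × List (ℕ × ℕ) => p.1.2)
        ?_ (by fun_prop) (by fun_prop) (by fun_prop) (by fun_prop) (by fun_prop)
      exact hro.comp (f := fun p : (((α × List (List (ℕ × ℕ)) × ℕ) × List (ℕ × ℕ)) ×
        List (ℕ × ℕ)) × V => (p.1.1.1.1, p.1.1.1.2.2, p.2)) (by fun_prop)
    · intro a l1 l2 _
      rcases List.eq_nil_or_concat l1 with h | ⟨l3, r, h⟩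
      · subst h
        simp only [List.foldl_nil]
        omega
      · subst h
        rw [List.concat_eq_append, List.foldl_append, List.foldl_cons, List.foldl_nil]
        have h4 := sz_sublist_le (List.filter_sublist (p := fun c' =>
          (l3.foldl (fun S r => (sts a).filter fun c' => S.any fun c =>
            transB (bs a) (nv a) (ro a r) (E a) c c') [initS (E a)]).any fun c =>
              transB (bs a) (nv a) (ro a r) (E a) c c') (l := sts a))
        omega
  -- the edges
  have h2 : PT fun a => ((sts a) ×ˢ (sts a)).filter fun p =>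
      transB (bs a) (nv a) (fun _ => false) (E a) p.1 p.2 := by
    refine PT.filter (f := fun (a : α) (p : List (ℕ × ℕ) × List (ℕ × ℕ)) =>
      transB (bs a) (nv a) (fun _ => false) (E a) p.1 p.2) ?_ (PT.product hsts hsts)
    exact PD1_transB (ro := fun (_ : α × List (ℕ × ℕ) × List (ℕ × ℕ)) (_ : V) => false)
      (bs := fun p : α × List (ℕ × ℕ) × List (ℕ × ℕ) => bs p.1)
      (nv := fun p : α × List (ℕ × ℕ) × List (ℕ × ℕ) => nv p.1)
      (E := fun p : α × List (ℕ × ℕ) × List (ℕ × ℕ) => E p.1)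
      (c := fun p : α × List (ℕ × ℕ) × List (ℕ × ℕ) => p.2.1)
      (c' := fun p : α × List (ℕ × ℕ) × List (ℕ × ℕ) => p.2.2)
      (by fun_prop) (by fun_prop) (by fun_prop) (by fun_prop) (by fun_prop) (by fun_prop)
  exact PD1_fin h1 hsts h2

@[fun_prop] theorem PT_dpP (hy : PT y) (hn : PT nv) (hE : PT E) :
    PT fun a => dpP (y a) (nv a) (E a) := by
  unfold dpP
  have ho : PT fun a => occ (E a) := PT_occ hE
  have hc : PT fun a => carries (occ (E a)) := PD1_carries ho
  exact PD1_dp (ro := fun a r x => rowV (y a) (nv a) r x) (by fun_prop) (by fun_prop)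
    (by fun_prop) hn hE (by fun_prop)

@[fun_prop] theorem PT_lamV {x : α → V} (hy : PT y) (hn : PT nv) (hx : PT x) :
    PT fun a => lamV (y a) (nv a) (x a) := by
  unfold lamV lamOf
  exact PT.countP (f := fun (_ : α) (b : Bool) => b) (by fun_prop) (by fun_prop)

@[fun_prop] theorem PT_levOk (hy : PT y) (hn : PT nv) (ho : PT o) (hl : PT l) :
    PT fun a => levOk (y a) (nv a) (o a) (l a) := by
  unfold levOk
  refine PT.all (f := fun (a : α) (x : V) => !decide (x ∈ nv a) ||
    decide (look (o a) (l a) 0 x = lamV (y a) (nv a) x)) ?_ ho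
  have h1 : PT fun p : α × V => nv p.1 := by fun_prop
  have h2 : PT fun p : α × V => o p.1 := by fun_prop
  have h3 : PT fun p : α × V => l p.1 := by fun_prop
  have h4 : PT fun p : α × V => y p.1 := by fun_prop
  exact PT.or (PT.not (PT.mem (by fun_prop) h1)) (PT.decide_eq (by fun_prop) (by fun_prop))

omit [Enc V] [EncInj V] [DecidableEq V] in
theorem PD2_beq0 {n : α → ℕ} (hn : PT n) : PT fun a => (n a == 0) := by
  refine (PT.decide_eq hn (PT.const 0)).congr fun a => ?_
  rw [Bool.eq_iff_iff]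
  simp

theorem PD2_leL {l1 l2 : α → List V} (ho : PT o) (hl : PT l) (h1 : PT l1) (h2 : PT l2) :
    PT fun a => leL (look (o a) (l a) 0) (l1 a) (l2 a) := by
  unfold leL
  refine PT.all (f := fun (a : α) (x : V) => look (o a) (l a) 0 x == 0 ||
    (l2 a).any fun y => decide (look (o a) (l a) 0 x ≤ look (o a) (l a) 0 y)) ?_ h1
  refine PT.or (PD2_beq0 (by fun_prop)) ?_
  refine PT.any (f := fun (p : α × V) (y : V) =>
    decide (look (o p.1) (l p.1) 0 p.2 ≤ look (o p.1) (l p.1) 0 y)) ?_ (by fun_prop)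
  exact PT.decide_le (by fun_prop) (by fun_prop)

@[fun_prop] theorem PT_consL (ho : PT o) (hl : PT l) (hE : PT E) :
    PT fun a => consL (look (o a) (l a) 0) (E a) := by
  unfold consL
  refine PT.all (f := fun (a : α) (e : Eqn V) => leL (look (o a) (l a) 0) e.1.1 e.2.1 &&
    leL (look (o a) (l a) 0) e.2.1 e.1.1) ?_ hE
  exact PT.and
    (PD2_leL (o := fun p : α × Eqn V => o p.1) (l := fun p : α × Eqn V => l p.1)
      (l1 := fun p : α × Eqn V => p.2.1.1) (l2 := fun p : α × Eqn V => p.2.2.1)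
      (by fun_prop) (by fun_prop) (by fun_prop) (by fun_prop))
    (PD2_leL (o := fun p : α × Eqn V => o p.1) (l := fun p : α × Eqn V => l p.1)
      (l1 := fun p : α × Eqn V => p.2.2.1) (l2 := fun p : α × Eqn V => p.2.1.1)
      (by fun_prop) (by fun_prop) (by fun_prop) (by fun_prop))

@[fun_prop] theorem PT_redL (ho : PT o) (hl : PT l) (hE : PT E) :
    PT fun a => redL (look (o a) (l a) 0) (E a) := by
  unfold redL
  refine PT.filter (f := fun (a : α) (e : Eqn V) =>
    (e.1.1 ++ e.2.1).all fun x => look (o a) (l a) 0 x == 0) ?_ hE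
  refine PT.all (f := fun (p : α × Eqn V) (x : V) => look (o p.1) (l p.1) 0 x == 0) ?_
    (by fun_prop)
  exact PD2_beq0 (by fun_prop)

@[fun_prop] theorem PT_solP (hy : PT y) (hn : PT nv) (hE : PT E) :
    PT fun a => solP (y a) (nv a) (E a) := by
  unfold solP
  have h1 : PT fun a => List.range ((nv a).length + 2) :=
    PL.range (PL.add (PL.length hn) (PL.const 2))
  have h2 : PT fun a => occ (E a) := PT_occ hE
  refine PT.any (f := fun (a : α) (l : List ℕ) =>
    levOk (y a) (nv a) (occ (E a)) l && consL (look (occ (E a)) l 0) (E a) &&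
      dpP (y a) (nv a) (redL (look (occ (E a)) l 0) (E a))) ?_ (by fun_prop)
  have h3 : PT fun p : α × List ℕ => y p.1 := by fun_prop
  have h4 : PT fun p : α × List ℕ => nv p.1 := by fun_prop
  have h5 : PT fun p : α × List ℕ => occ (E p.1) := by fun_prop
  have h6 : PT fun p : α × List ℕ => E p.1 := by fun_prop
  have h7 : PT fun p : α × List ℕ => p.2 := by fun_prop
  exact PT.and (PT.and (PT_levOk h3 h4 h5 h7) (PT_consL h5 h7 h6))
    (PT_dpP h3 h4 (PT_redL h5 h7 h6))

end Pool.Agent.H24U
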