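import Pool.Agent.Lib.H24U.PTFam
import Pool.Agent.Lib.H24U.PTDP

/-!
# The verification program runs in polynomial time
-/

set_option autoImplicit false

namespace Pool.Agent.H24U

open Pool.Agent.PolyTime

variable {α : Type} [Enc α] {y : α → List Bool} {F : α → NF} {tys : α → List Ty}

@[fun_prop] theorem PT_mapvN (ht : PT tys) : PT fun a => (tys a).map vN :=
  PT.map (f := fun (_ : α) s => vN s) (by fun_prop) ht

theorem PT_checkT (hy : PT y) (hF : PT F) (ht : PT tys) :
    PT fun a => checkT (y a) (F a) (tys a) := by
  unfold checkT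
  refine PT.and (PT.any (f := fun a E => solP (y a) ((tys a).map vN) E) ?_ ?_)
    (PT.not (PT.any (f := fun a E => solP (y a) ((tys a).map vN) E) ?_ ?_))
  · have h1 : PT fun p : α × Sys Va => y p.1 := by fun_prop
    have h2 : PT fun p : α × Sys Va => (tys p.1).map vN := by fun_prop
    exact PT_solP h1 h2 PT.snd'
  · fun_prop
  · have h1 : PT fun p : α × Sys Va => y p.1 := by fun_prop
    have h2 : PT fun p : α × Sys Va => (tys p.1).map vN := by fun_prop
    exact PT_solP h1 h2 PT.snd'
  · fun_prop

theorem PT_check (hF : PT F) (hy : PT y) : PT fun a => check (F a) (y a) :=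
  PT_checkT hy hF (PT_tysP hy hF)

end Pool.Agent.H24U
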