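import Pool.Agent.Lib.H24U.PTRec
import Pool.Agent.Lib.H24N.PTInst

/-!
# Chunks TD (ofD for numbers and concepts) and TD2 (ofD for instances): decoding

Method: a total decoder `dec : D → α` in `PT` with `dec (enc a) = a`; then
`ofD α d = if enc (dec d) = d then some (dec d) else none` (`PT.encD`, `PT.eqD`).

* `toListD : D → List D` with `enc (toListD d) = d` (so `PT` is trivial: the identity on codes).
* numbers: `val ((toListD d).map fun b => !isNil b)` (`PT.ofBits`, `enc_nat`, `val_bits`).
* roles: `nm` or `inv` of the number `tl d`, depending on `isNil (hd d)`.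
* concepts: `PT_drec` with values `(C, (C₁, C₂), (R, C₃))`: the concept of `d`, the concepts of `hd d`
  and `tl d`, the role of `hd d` and the concept of `tl d`; in `F a b x y` the concept is determined by
  comparing `a` with `FP.num 0 .. FP.num 4`, from `y.1`, `y.2.1`, `y.2.2` and the number / role of `b`.
  The sizes are linear.
* assertions, pairs, lists (`(toListD d).map dec`), instances: by composition.
-/

set_option autoImplicit false

namespace Pool.Agent.H24U

open Pool.Agent.PolyTime Pool.Agent.H24N

theorem td_ofD {α : Type} [Enc α] [EncInj α] (dec : D → α) (hdec : PT dec)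
    (h : ∀ a, dec (enc a) = a) : PT (ofD α) := by
  have h1 : PT fun d : D => if enc (dec d) = d then some (dec d) else none :=
    PT.ite (p := fun d : D => enc (dec d) = d) (PT.eqD (PT.encD hdec) PT.id) (PT.optSome hdec)
      (PT.const none)
  refine h1.congr fun d => ?_
  by_cases h2 : enc (dec d) = d
  · rw [if_pos h2]
    exact (ofD_eq_some.2 h2).symm
  · rw [if_neg h2]
    cases h3 : ofD α d with
    | none => rfl
    | some a =>
      exfalso
      rw [ofD_eq_some] at h3
      subst h3
      exact h2 (by rw [h])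

/-- the list of the components -/
def td_toListD : D → List D
  | D.nil => []
  | D.cons a b => a :: td_toListD b

theorem td_enc_toListD (d : D) : enc (td_toListD d) = d := by
  induction d with
  | nil => rfl
  | cons a b _ ih =>
    show D.cons a (enc (td_toListD b)) = _
    rw [ih]

@[fun_prop] theorem td_PT_toListD {α : Type} [Enc α] {f : α → D} (hf : PT f) :
    PT fun a => td_toListD (f a) :=
  FP.congr hf fun a => (td_enc_toListD (f a)).symm

theorem td_toListD_enc {α : Type} [Enc α] (l : List α) :
    td_toListD (enc l) = l.map fun a => (enc a : D) := by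
  induction l with
  | nil => rfl
  | cons a l ih =>
    rw [enc_cons, List.map_cons, ← ih]
    rfl

/-- decoding of lists -/
def td_list {β : Type} (dec : D → β) (d : D) : List β := (td_toListD d).map dec

theorem td_PT_list {β : Type} [Enc β] {dec : D → β} (h : PT dec) : PT (td_list dec) :=
  PT.map (f := fun (_ : D) (x : D) => dec x) (PT.comp h (by fun_prop)) (by fun_prop)

theorem td_list_enc {β : Type} [Enc β] {dec : D → β} (h : ∀ a, dec (enc a) = a) (l : List β) :
    td_list dec (enc l) = l := by
  rw [td_list, td_toListD_enc, List.map_map]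
  conv_rhs => rw [← List.map_id l]
  exact List.map_congr_left fun a _ => h a

/-- decoding of numbers -/
def td_nat (d : D) : ℕ := val ((td_toListD d).map fun b => !isNil b)

theorem td_PT_nat : PT td_nat :=
  PT.ofBits (PT.map (f := fun (_ : D) (b : D) => !isNil b) (by fun_prop) (by fun_prop))

@[fun_prop] theorem td_PT_nat' {α : Type} [Enc α] {f : α → D} (hf : PT f) :
    PT fun a => td_nat (f a) := PT.comp td_PT_nat hf

theorem td_nat_enc (n : ℕ) : td_nat (enc n) = n := by
  rw [td_nat, enc_nat, td_toListD_enc, List.map_map]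
  have h : n.bits.map ((fun b : D => !isNil b) ∘ fun b : Bool => (enc b : D)) = n.bits := by
    conv_rhs => rw [← List.map_id n.bits]
    refine List.map_congr_left fun b _ => ?_
    cases b <;> rfl
  rw [h, val_bits]

theorem td_sz_nat (d : D) : sz (td_nat d) ≤ 4 * d.size + 1 := by
  have h1 := sz_nat_le (td_nat d)
  have h2 : (td_nat d).size ≤ (td_toListD d).length := by
    apply Nat.size_le.2
    have := val_lt ((td_toListD d).map fun b => !isNil b)
    rwa [List.length_map] at this
  have h3 := length_lt_sz (td_toListD d)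
  have h4 : sz (td_toListD d) = d.size := by
    show (enc (td_toListD d)).size = d.size
    rw [td_enc_toListD]
  omega

/-- decoding of roles -/
def td_rol (d : D) : Rol :=
  bif isNil (D.hd d) then Rol.nm (td_nat (D.tl d)) else Rol.inv (td_nat (D.tl d))

theorem td_PT_rol : PT td_rol := by
  unfold td_rol
  exact PT.bif (by fun_prop) (by fun_prop) (by fun_prop)

@[fun_prop] theorem td_PT_rol' {α : Type} [Enc α] {f : α → D} (hf : PT f) :
    PT fun a => td_rol (f a) := PT.comp td_PT_rol hf

theorem td_rol_enc (R : Rol) : td_rol (enc R) = R := by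
  cases R with
  | nm P =>
    show Rol.nm (td_nat (enc P)) = _
    rw [td_nat_enc]
  | inv P =>
    show Rol.inv (td_nat (enc P)) = _
    rw [td_nat_enc]

theorem td_sz_rnm (n : ℕ) : sz (Rol.nm n) = sz n + 2 := by
  show (D.cons D.nil (enc n)).size = (enc n).size + 2
  rw [D.size_cons, D.size_nil]
  omega

theorem td_sz_rinv (n : ℕ) : sz (Rol.inv n) = sz n + 4 := by
  show (D.cons (D.cons D.nil D.nil) (enc n)).size = (enc n).size + 4
  rw [D.size_cons, D.size_cons, D.size_nil]
  omega

theorem td_sz_rol (d : D) : sz (td_rol d) ≤ 4 * d.size + 5 := by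
  have h1 := td_sz_nat (D.tl d)
  have h2 := D.size_tl_le d
  unfold td_rol
  cases isNil (D.hd d) with
  | true =>
    rw [cond_true, td_sz_rnm]
    omega
  | false =>
    rw [cond_false, td_sz_rinv]
    omega

theorem td_sz_nm (n : ℕ) : sz (Con.nm n) = sz n + 2 := by
  show (D.cons (FP.num 0) (enc n)).size = (enc n).size + 2
  rw [D.size_cons, FP.size_num]
  omega

theorem td_sz_ex (R : Rol) (C : Con) : sz (Con.ex R C) = sz R + sz C + 9 := by
  show (D.cons (FP.num 3) (D.cons (enc R) (enc C))).size = (enc R).size + (enc C).size + 9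
  rw [D.size_cons, D.size_cons, FP.size_num]
  omega

theorem td_sz_le1 (R : Rol) : sz (Con.le1 R) = sz R + 10 := by
  show (D.cons (FP.num 4) (enc R)).size = (enc R).size + 10
  rw [D.size_cons, FP.size_num]
  omega

/-- values of the recursion for concepts -/
abbrev td_V : Type := Con × (Con × Con) × (Rol × Con)

/-- the step of the recursion -/
def td_F (a b : D) (x y : td_V) : td_V :=
  (if a = FP.num 0 then Con.nm (td_nat b) else if a = FP.num 1 then Con.neg y.1 else
    if a = FP.num 2 then Con.and y.2.1.1 y.2.1.2 else if a = FP.num 3 then Con.ex y.2.2.1 y.2.2.2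
    else Con.le1 (td_rol b), (x.1, y.1), (td_rol a, y.1))

/-- the recursion -/
def td_g : D → td_V
  | D.nil => (Con.nm 0, (Con.nm 0, Con.nm 0), (Rol.nm 0, Con.nm 0))
  | D.cons a b => td_F a b (td_g a) (td_g b)

theorem td_PT_F : PT fun p : D × D × td_V × td_V => td_F p.1 p.2.1 p.2.2.1 p.2.2.2 := by
  have e : ∀ n, PT fun p : D × D × td_V × td_V => decide (p.1 = FP.num n) := fun n =>
    PT.eqD (by fun_prop) (PT.const _)
  unfold td_F
  refine PT.pair ?_ (by fun_prop)
  exact PT.ite (e 0) (by fun_prop) (PT.ite (e 1) (by fun_prop) (PT.ite (e 2) (by fun_prop)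
    (PT.ite (e 3) (by fun_prop) (by fun_prop))))

theorem td_bound (d : D) : sz (td_g d).1 ≤ 4 * d.size ∧
    sz (td_g d).2.1.1 + sz (td_g d).2.1.2 ≤ 4 * d.size + 2 ∧
    sz (td_g d).2.2.1 + sz (td_g d).2.2.2 ≤ 4 * d.size + 2 := by
  induction d with
  | nil =>
    have h0 : sz (0 : ℕ) = 1 := by simp [sz_nat]
    have h1 : sz (Con.nm 0) = 3 := by rw [td_sz_nm, h0]
    have h2 : sz (Rol.nm 0) = 3 := by rw [td_sz_rnm, h0]
    simp only [td_g, h1, h2, D.size_nil]
    omega
  | cons a b iha ihb =>
    have hr := td_sz_rol a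
    have e : td_g (D.cons a b) = td_F a b (td_g a) (td_g b) := rfl
    rw [e]
    refine ⟨?_, ?_, ?_⟩
    · unfold td_F
      dsimp only
      rw [D.size_cons]
      split_ifs with h0 h1 h2 h3
      · rw [td_sz_nm, h0, FP.size_num]
        have := td_sz_nat b
        omega
      · rw [sz_neg, h1, FP.size_num]
        omega
      · rw [sz_and, h2, FP.size_num]
        omega
      · rw [td_sz_ex, h3, FP.size_num]
        omega
      · rw [td_sz_le1]
        have h4 := td_sz_rol b
        have h5 : 3 ≤ a.size := by
          cases a with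
          | nil => exact absurd rfl h0
          | cons a1 a2 =>
            rw [D.size_cons]
            have := D.size_pos a1
            have := D.size_pos a2
            omega
        omega
    · unfold td_F
      dsimp only
      rw [D.size_cons]
      omega
    · unfold td_F
      dsimp only
      rw [D.size_cons]
      omega

theorem td_PT_g : PT td_g := by
  refine PT_drec td_F td_g (fun _ _ => rfl) td_PT_F ⟨20, 1, fun d => ?_⟩
  have h := td_bound d
  have h1 : sz d = d.size := rfl
  have h2 := D.size_pos d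
  show sz (td_g d) ≤ 20 * sz d ^ 1
  rw [pow_one, h1, sz_prod, sz_prod (td_g d).2, sz_prod (td_g d).2.1, sz_prod (td_g d).2.2]
  omega

theorem td_g_enc (C : Con) : (td_g (enc C)).1 = C := by
  have hn : ∀ m n : ℕ, FP.num m = FP.num n ↔ m = n := fun m n =>
    ⟨fun h => WI_num_inj m n h, fun h => by rw [h]⟩
  induction C with
  | nm A =>
    show (td_F (FP.num 0) (enc A) _ _).1 = _
    simp only [td_F, if_true, td_nat_enc]
  | neg C ih =>
    show (td_F (FP.num 1) (enc C) _ (td_g (enc C))).1 = _
    simp only [td_F, hn, ih]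
    norm_num
  | and C E ihC ihE =>
    show (td_F (FP.num 2) (D.cons (enc C) (enc E)) _ (td_F (enc C) (enc E) (td_g (enc C))
      (td_g (enc E)))).1 = _
    simp only [td_F, hn, ihC, ihE]
    norm_num
  | ex R C ih =>
    show (td_F (FP.num 3) (D.cons (enc R) (enc C)) _ (td_F (enc R) (enc C) (td_g (enc R))
      (td_g (enc C)))).1 = _
    simp only [td_F, hn, ih, td_rol_enc]
    norm_num
  | le1 R =>
    show (td_F (FP.num 4) (enc R) _ (td_g (enc R))).1 = _
    simp only [td_F, hn, td_rol_enc]
    norm_num

/-- decoding of concepts -/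
def td_con (d : D) : Con := (td_g d).1

theorem td_PT_con : PT td_con := PT.fst td_PT_g

@[fun_prop] theorem td_PT_con' {α : Type} [Enc α] {f : α → D} (hf : PT f) :
    PT fun a => td_con (f a) := PT.comp td_PT_con hf

theorem td_con_enc (C : Con) : td_con (enc C) = C := td_g_enc C

@[fun_prop] theorem td_PT_acon {α : Type} [Enc α] {f g : α → ℕ} (hf : PT f) (hg : PT g) :
    PT fun a => Assertion.con (f a) (g a) :=
  FP.cons (FP.const _ D.nil) (PT.pair hf hg)

@[fun_prop] theorem td_PT_arol {α : Type} [Enc α] {f g h : α → ℕ} (hf : PT f) (hg : PT g)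
    (hh : PT h) : PT fun a => Assertion.rol (f a) (g a) (h a) :=
  FP.cons (FP.const _ (D.cons D.nil D.nil)) (PT.pair hf (PT.pair hg hh))

/-- decoding of assertions -/
def td_ass (d : D) : Assertion :=
  bif isNil (D.hd d) then Assertion.con (td_nat (D.hd (D.tl d))) (td_nat (D.tl (D.tl d))) else
    Assertion.rol (td_nat (D.hd (D.tl d))) (td_nat (D.hd (D.tl (D.tl d))))
      (td_nat (D.tl (D.tl (D.tl d))))

theorem td_PT_ass : PT td_ass := by
  unfold td_ass
  exact PT.bif (by fun_prop) (by fun_prop) (by fun_prop)

theorem td_ass_enc (φ : Assertion) : td_ass (enc φ) = φ := by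
  cases φ with
  | con A a =>
    show Assertion.con (td_nat (enc A)) (td_nat (enc a)) = _
    rw [td_nat_enc, td_nat_enc]
  | rol P a b =>
    show Assertion.rol (td_nat (enc P)) (td_nat (enc a)) (td_nat (enc b)) = _
    rw [td_nat_enc, td_nat_enc, td_nat_enc]

/-- decoding of pairs -/
def td_pair {β γ : Type} (f : D → β) (g : D → γ) (d : D) : β × γ := (f (D.hd d), g (D.tl d))

theorem td_PT_pair {β γ : Type} [Enc β] [Enc γ] {f : D → β} {g : D → γ} (hf : PT f) (hg : PT g) :
    PT (td_pair f g) :=
  PT.pair (PT.comp hf (by fun_prop)) (PT.comp hg (by fun_prop))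

theorem td_pair_enc {β γ : Type} [Enc β] [Enc γ] {f : D → β} {g : D → γ}
    (hf : ∀ b, f (enc b) = b) (hg : ∀ c, g (enc c) = c) (p : β × γ) :
    td_pair f g (enc p) = p := by
  show (f (enc p.1), g (enc p.2)) = p
  rw [hf, hg]

/-- decoding of instances, as tuples -/
def td_tup : D → Con × (List (Con × Con) × List Assertion) × (List ℕ × List ℕ × List (ℕ × ℕ)) :=
  td_pair td_con (td_pair
    (td_pair (td_list (td_pair td_con td_con)) (td_list td_ass))
    (td_pair (td_list td_nat) (td_pair (td_list td_nat) (td_list (td_pair td_nat td_nat)))))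

theorem td_PT_tup : PT td_tup :=
  td_PT_pair td_PT_con (td_PT_pair
    (td_PT_pair (td_PT_list (td_PT_pair td_PT_con td_PT_con)) (td_PT_list td_PT_ass))
    (td_PT_pair (td_PT_list td_PT_nat) (td_PT_pair (td_PT_list td_PT_nat)
      (td_PT_list (td_PT_pair td_PT_nat td_PT_nat)))))

theorem td_tup_enc (p : Con × (List (Con × Con) × List Assertion) ×
    (List ℕ × List ℕ × List (ℕ × ℕ))) : td_tup (enc p) = p :=
  td_pair_enc td_con_enc (td_pair_enc
    (td_pair_enc (td_list_enc (td_pair_enc td_con_enc td_con_enc)) (td_list_enc td_ass_enc))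
    (td_pair_enc (td_list_enc td_nat_enc) (td_pair_enc (td_list_enc td_nat_enc)
      (td_list_enc (td_pair_enc td_nat_enc td_nat_enc))))) p

/-- decoding of instances -/
def td_inst (d : D) : Inst :=
  ⟨(td_tup d).1, ⟨(td_tup d).2.1.1, (td_tup d).2.1.2⟩,
    ⟨(td_tup d).2.2.1, (td_tup d).2.2.2.1, (td_tup d).2.2.2.2⟩⟩

theorem td_PT_inst : PT td_inst := td_PT_tup

theorem td_inst_enc (T : Inst) : td_inst (enc T) = T := by
  have h := td_tup_enc (T.C, (T.K.tbox, T.K.abox), (T.P.mini, T.P.fixd, T.P.prec))
  have h2 : td_tup (enc T) = (T.C, (T.K.tbox, T.K.abox), (T.P.mini, T.P.fixd, T.P.prec)) := h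
  unfold td_inst
  rw [h2]

theorem PT_ofD_nat : PT (ofD ℕ) := by
  exact td_ofD td_nat td_PT_nat td_nat_enc

theorem PT_ofD_con : PT (ofD Con) := by
  exact td_ofD td_con td_PT_con td_con_enc

theorem PT_ofD_inst : PT (ofD Inst) := by
  exact td_ofD td_inst td_PT_inst td_inst_enc

end Pool.Agent.H24U
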