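import Pool.Agent.Lib.H24U.SysW
import Pool.Agent.Lib.H24U.PTTools

/-!
# Chunk PN: normal forms as data

The projections are `PT` since `enc F = enc (F.tup)` by `rfl` (`FP.id`, then `PT.fst`, `PT.snd`; see `PT_tup`
in `H24N/PTInst.lean`). `PT_mkNF`: the converse.
-/

set_option autoImplicit false

namespace Pool.Agent.H24U

open Pool.Agent.PolyTime

/-- the tuple of the components -/
def NF.tup (F : NF) : List Unit × List (ℕ × ℕ) × List (ℕ × ℕ × ℕ) × List (ℕ × ℕ) ×
    List (ℕ × ℕ) × List ℕ × List Rd × ℕ × List ℕ × List ℕ × List (ℕ × ℕ) :=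
  (F.len, F.negs, F.ands, F.imps, F.excl, F.sgs, F.roles, F.goal, F.mini, F.fixd, F.prec)

instance : Enc NF := ⟨fun F => enc F.tup⟩

variable {α : Type} [Enc α]

theorem PT_ntup : PT NF.tup := FP.id _

@[fun_prop] theorem PT_len {f : α → NF} (hf : PT f) : PT fun a => (f a).len :=
  PT.fst (PT.comp PT_ntup hf)

@[fun_prop] theorem PT_negs {f : α → NF} (hf : PT f) : PT fun a => (f a).negs := by
  exact PT.fst (PT.snd (PT.comp PT_ntup hf))

@[fun_prop] theorem PT_ands {f : α → NF} (hf : PT f) : PT fun a => (f a).ands := by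
  exact PT.fst (PT.snd (PT.snd (PT.comp PT_ntup hf)))

@[fun_prop] theorem PT_imps {f : α → NF} (hf : PT f) : PT fun a => (f a).imps := by
  exact PT.fst (PT.snd (PT.snd (PT.snd (PT.comp PT_ntup hf))))

@[fun_prop] theorem PT_excl {f : α → NF} (hf : PT f) : PT fun a => (f a).excl := by
  exact PT.fst (PT.snd (PT.snd (PT.snd (PT.snd (PT.comp PT_ntup hf)))))

@[fun_prop] theorem PT_sgs {f : α → NF} (hf : PT f) : PT fun a => (f a).sgs := by
  exact PT.fst (PT.snd (PT.snd (PT.snd (PT.snd (PT.snd (PT.comp PT_ntup hf))))))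

@[fun_prop] theorem PT_roles {f : α → NF} (hf : PT f) : PT fun a => (f a).roles := by
  exact PT.fst (PT.snd (PT.snd (PT.snd (PT.snd (PT.snd (PT.snd (PT.comp PT_ntup hf)))))))

@[fun_prop] theorem PT_goal {f : α → NF} (hf : PT f) : PT fun a => (f a).goal := by
  exact PT.fst (PT.snd (PT.snd (PT.snd (PT.snd (PT.snd (PT.snd (PT.snd (PT.comp PT_ntup hf))))))))

@[fun_prop] theorem PT_mini {f : α → NF} (hf : PT f) : PT fun a => (f a).mini := by
  exact PT.fst (PT.snd (PT.snd (PT.snd (PT.snd (PT.snd (PT.snd (PT.snd (PT.snd (PT.comp PT_ntup hf)))))))))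

@[fun_prop] theorem PT_fixd {f : α → NF} (hf : PT f) : PT fun a => (f a).fixd := by
  exact PT.fst (PT.snd (PT.snd (PT.snd (PT.snd (PT.snd (PT.snd (PT.snd (PT.snd (PT.snd (PT.comp PT_ntup hf))))))))))

@[fun_prop] theorem PT_prec {f : α → NF} (hf : PT f) : PT fun a => (f a).prec := by
  exact PT.snd (PT.snd (PT.snd (PT.snd (PT.snd (PT.snd (PT.snd (PT.snd (PT.snd (PT.snd (PT.comp PT_ntup hf))))))))))

theorem PT_mkNF {f : α → NF} (hf : PT fun a => (f a).tup) : PT f := hf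

@[fun_prop] theorem PT_bit {t : α → Ty} {i : α → ℕ} (ht : PT t) (hi : PT i) :
    PT fun a => bit (t a) (i a) := by
  unfold bit
  fun_prop

@[fun_prop] theorem PT_rf {ρ : α → Rd} (h : PT ρ) : PT fun a => rf (ρ a) := PT.fst h
@[fun_prop] theorem PT_rg {ρ : α → Rd} (h : PT ρ) : PT fun a => rg (ρ a) := PT.fst (PT.snd h)
@[fun_prop] theorem PT_rex {ρ : α → Rd} (h : PT ρ) : PT fun a => rex (ρ a) :=
  PT.fst (PT.snd (PT.snd h))
@[fun_prop] theorem PT_rey {ρ : α → Rd} (h : PT ρ) : PT fun a => rey (ρ a) :=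
  PT.snd (PT.snd (PT.snd h))
@[fun_prop] theorem PT_rflip {ρ : α → Rd} (h : PT ρ) : PT fun a => rflip (ρ a) := by
  unfold rflip
  fun_prop

@[fun_prop] theorem PT_okT {F : α → NF} {t : α → Ty} (hF : PT F) (ht : PT t) :
    PT fun a => (F a).okT (t a) := by
  unfold NF.okT
  refine PT.and (PT.and (PT.and ?_ ?_) ?_) ?_
  · refine PT.all (f := fun (a : α) (p : ℕ × ℕ) => bit (t a) p.1 == !bit (t a) p.2) ?_ (PT_negs hF)
    exact PT_bool2 (fun b c => b == !c) (b := fun q : α × ℕ × ℕ => bit (t q.1) q.2.1)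
      (c := fun q : α × ℕ × ℕ => bit (t q.1) q.2.2) (by fun_prop) (by fun_prop)
  · refine PT.all (f := fun (a : α) (p : ℕ × ℕ × ℕ) =>
      bit (t a) p.1 == (bit (t a) p.2.1 && bit (t a) p.2.2)) ?_ (PT_ands hF)
    exact PT_bool2 (fun b c => b == c) (b := fun q : α × ℕ × ℕ × ℕ => bit (t q.1) q.2.1)
      (c := fun q : α × ℕ × ℕ × ℕ => (bit (t q.1) q.2.2.1 && bit (t q.1) q.2.2.2)) (by fun_prop)
      (by fun_prop)
  · exact PT.all (f := fun (a : α) (p : ℕ × ℕ) => !bit (t a) p.1 || bit (t a) p.2)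
      (by fun_prop) (PT_imps hF)
  · exact PT.all (f := fun (a : α) (p : ℕ × ℕ) => !(bit (t a) p.1 && bit (t a) p.2))
      (by fun_prop) (PT_excl hF)

@[fun_prop] theorem PT_kl {F : α → NF} (hF : PT F) : PT fun a => kl (F a) := by
  unfold kl
  exact PT.cons (PT.const _) (PT.cons (PT.const _)
    (PT.flatMap (f := fun (_ : α) (ρ : Rd) => rex ρ ++ rey ρ) (by fun_prop) (PT_roles hF)))

@[fun_prop] theorem PT_thI {l : α → List Ty} (hl : PT l) : PT fun a => thI (l a) := by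
  unfold thI
  exact PT.map (f := fun (_ : α) (t : Ty) => (t, t)) (by fun_prop) hl

@[fun_prop] theorem PT_thJ {F : α → NF} {l : α → List Ty} (hF : PT F) (hl : PT l) :
    PT fun a => thJ (F a) (l a) := by
  unfold thJ
  refine PT.flatMap (f := fun (a : α) (s : Ty) =>
    ((l a).filter fun t => (F a).fixd.all fun i => bit t i == bit s i).map fun t => (s, t)) ?_ hl
  refine PT.map (f := fun (q : α × Ty) (t : Ty) => (q.2, t)) (by fun_prop) ?_
  refine PT.filter (f := fun (q : α × Ty) (t : Ty) =>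
    (F q.1).fixd.all fun i => bit t i == bit q.2 i) ?_ (by fun_prop)
  refine PT.all (f := fun (q : (α × Ty) × Ty) (i : ℕ) => bit q.2 i == bit q.1.2 i) ?_
    (by fun_prop)
  exact PT_bool2 (fun b c => b == c) (b := fun q : ((α × Ty) × Ty) × ℕ => bit q.1.2 q.2)
    (c := fun q : ((α × Ty) × Ty) × ℕ => bit q.1.1.2 q.2) (by fun_prop) (by fun_prop)

end Pool.Agent.H24U
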