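import Pool.Agent.Lib.H24U.PTCon
import Pool.Agent.Lib.H24U.PTNF
import Pool.Agent.Lib.H24U.PTDec

/-!
# Chunk PNF: the normal form is computed in polynomial time

All parts by `PT.map`, `PT.filter`, `PT.flatMap`, `PT.product`, `PT_idxOf` (`EncInj Con` is in
`H24N/WordInj.lean`), `PT_subtrees`, `PT_ofD_con`, `PT_ofD_nat`
(`filterMap f l = l.flatMap fun a => (f a).toList`; a lemma `PT.filterMap` is easily obtained from
`PT.flatMap` and `PT.optionElim`).
-/

set_option autoImplicit false

namespace Pool.Agent.H24U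

open Pool.Agent.PolyTime Pool.Agent.H24N

section

variable {α β γ : Type} [Enc α] [Enc β] [Enc γ]

theorem pnf_filterMap {f : β → Option γ} {l : α → List β} (hf : PT f) (hl : PT l) :
    PT fun a => (l a).filterMap f := by
  have h1 : PT fun p : α × β => (f p.2).elim ([] : List γ) (fun c => [c]) :=
    PT.optionElim (o := fun p : α × β => f p.2) (f := fun _ => []) (g := fun q => [q.2])
      (PT.comp hf (by fun_prop)) (PT.const _) (by fun_prop)
  have h2 := PT.flatMap (f := fun (_ : α) (b : β) => (f b).elim ([] : List γ) (fun c => [c]))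
    (l := l) h1 hl
  refine h2.congr fun a => ?_
  induction l a with
  | nil => rfl
  | cons b m ih =>
    rw [List.flatMap_cons, List.filterMap_cons, ih]
    cases f b <;> rfl

@[fun_prop] theorem pnf_nats {T : α → Inst} (hT : PT T) : PT fun a => nats (T a) := by
  unfold nats
  exact pnf_filterMap PT_ofD_nat (PT_subtrees (PT.encD hT))

@[fun_prop] theorem pnf_cs {T : α → Inst} (hT : PT T) : PT fun a => cs (T a) := by
  unfold cs
  refine PT.append (PT.append (PT.append ?_ ?_) ?_) ?_
  · exact pnf_filterMap PT_ofD_con (PT_subtrees (PT.encD hT))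
  · exact PT.map (f := fun (_ : α) (A : ℕ) => Con.nm A) (by fun_prop) (by fun_prop)
  · exact PT.map (f := fun (_ : α) (P : ℕ) => Con.le1 (.nm P)) (by fun_prop) (by fun_prop)
  · exact PT.map (f := fun (_ : α) (P : ℕ) => Con.le1 (.inv P)) (by fun_prop) (by fun_prop)

@[fun_prop] theorem pnf_fms {T : α → Inst} (hT : PT T) : PT fun a => fms (T a) := by
  unfold fms
  refine PT.append (PT.append ?_ ?_) ?_
  · exact PT.map (f := fun (_ : α) (C : Con) => (Sum.inl C : Fm)) (by fun_prop) (by fun_prop)
  · exact PT.map (f := fun (_ : α) (a : ℕ) => (Sum.inr (Sum.inl a) : Fm)) (by fun_prop)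
      (by fun_prop)
  · exact PT.map (f := fun (_ : α) (p : ℕ × ℕ) => (Sum.inr (Sum.inr p) : Fm)) (by fun_prop)
      (PT.product (by fun_prop) (by fun_prop))

theorem pnf_sumBEq {β γ : Type} [BEq β] [BEq γ] [LawfulBEq β] [LawfulBEq γ] :
    @LawfulBEq (β ⊕ γ) Sum.instBEq := by
  refine @LawfulBEq.mk _ _ ?_ ?_
  · refine @ReflBEq.mk _ _ ?_
    intro a
    rcases a with a | a
    · exact beq_self_eq_true a
    · exact beq_self_eq_true a
  · intro a b h
    rcases a with a | a <;> rcases b with b | b
    · have h' : (a == b) = true := h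
      rw [eq_of_beq h']
    · exact absurd (show false = true from h) (by decide)
    · exact absurd (show false = true from h) (by decide)
    · have h' : (a == b) = true := h
      rw [eq_of_beq h']

theorem pnf_beq : @instBEqOfDecidableEq Fm _ = Sum.instBEq := by
  have h1 : @LawfulBEq (ℕ ⊕ (ℕ × ℕ)) Sum.instBEq := pnf_sumBEq
  have h2 : @LawfulBEq Fm Sum.instBEq := pnf_sumBEq
  exact @lawful_beq_subsingleton Fm _ _ inferInstance h2

@[fun_prop] theorem pnf_pos {T : α → Inst} {φ : α → Fm} (hT : PT T) (hφ : PT φ) :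
    PT fun a => pos (T a) (φ a) := by
  have h : PT fun a => @List.idxOf Fm instBEqOfDecidableEq (φ a) (fms (T a)) :=
    PT_idxOf (pnf_fms hT) hφ
  refine h.congr fun a => ?_
  unfold pos
  rw [pnf_beq]

@[fun_prop] theorem pnf_posC {T : α → Inst} {C : α → Con} (hT : PT T) (hC : PT C) :
    PT fun a => posC (T a) (C a) := by
  unfold posC
  fun_prop

@[fun_prop] theorem pnf_posI {T : α → Inst} {n : α → ℕ} (hT : PT T) (hn : PT n) :
    PT fun a => posI (T a) (n a) := by
  unfold posI
  fun_prop

@[fun_prop] theorem pnf_posE {T : α → Inst} {p : α → ℕ × ℕ} (hT : PT T) (hp : PT p) :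
    PT fun a => posE (T a) (p a) := by
  unfold posE
  fun_prop

@[fun_prop] theorem pnf_ainds {T : α → Inst} (hT : PT T) : PT fun a => ainds (T a) := by
  unfold ainds
  exact PT.flatMap (f := fun (_ : α) (φ : Assertion) => Assertion.inds φ) (by fun_prop)
    (PT_instAbox hT)

theorem pnf_roleOf : PT fun q : Inst × ℕ => roleOf q.1 q.2 := by
  unfold roleOf
  refine PT.pair (by fun_prop) (PT.pair (by fun_prop) (PT.pair (PT.append ?_ ?_) ?_))
  · refine PT.map (f := fun (q : Inst × ℕ) (C : Con) => (posC q.1 (carg1 C), posC q.1 C))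
      (by fun_prop) ?_
    refine PT.filter (f := fun (q : Inst × ℕ) (C : Con) =>
      decide (ctag C = 3) && decide (crole C = .nm q.2)) ?_ (by fun_prop)
    exact PT.and (PT.decide_eq (by fun_prop) (PT.const _)) (PT.decide_eq (by fun_prop)
      (by fun_prop))
  · refine PT.map (f := fun (q : Inst × ℕ) (p : ℕ × ℕ) => (posI q.1 p.2, posE q.1 p))
      (by fun_prop) ?_
    refine PT.filter (f := fun (q : Inst × ℕ) (p : ℕ × ℕ) => decide (p.1 = q.2)) ?_
      (PT.product (by fun_prop) (by fun_prop))
    exact PT.decide_eq (by fun_prop) (by fun_prop)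
  · refine PT.map (f := fun (q : Inst × ℕ) (C : Con) => (posC q.1 (carg1 C), posC q.1 C))
      (by fun_prop) ?_
    refine PT.filter (f := fun (q : Inst × ℕ) (C : Con) =>
      decide (ctag C = 3) && decide (crole C = .inv q.2)) ?_ (by fun_prop)
    exact PT.and (PT.decide_eq (by fun_prop) (PT.const _)) (PT.decide_eq (by fun_prop)
      (by fun_prop))

end

theorem PT_nf : PT nf := by
  refine PT_mkNF ?_
  unfold NF.tup nf
  dsimp only
  refine PT.pair ?_ (PT.pair ?_ (PT.pair ?_ (PT.pair ?_ (PT.pair ?_ (PT.pair ?_ (PT.pair ?_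
    (PT.pair ?_ (PT.pair ?_ (PT.pair ?_ ?_)))))))))
  · exact PT.map (f := fun (_ : Inst) (_ : Fm) => ()) (PT.const _) (by fun_prop)
  · refine PT.map (f := fun (T : Inst) (C : Con) => (posC T C, posC T (carg1 C)))
      (by fun_prop) ?_
    exact PT.filter (f := fun (_ : Inst) (C : Con) => decide (ctag C = 1))
      (PT.decide_eq (by fun_prop) (PT.const _)) (by fun_prop)
  · refine PT.map (f := fun (T : Inst) (C : Con) => (posC T C, posC T (carg1 C),
      posC T (carg2 C))) (by fun_prop) ?_
    exact PT.filter (f := fun (_ : Inst) (C : Con) => decide (ctag C = 2))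
      (PT.decide_eq (by fun_prop) (PT.const _)) (by fun_prop)
  · refine PT.append ?_ ?_
    · exact PT.map (f := fun (T : Inst) (p : Con × Con) => (posC T p.1, posC T p.2))
        (by fun_prop) (PT_instTbox PT.id)
    · exact PT.map (f := fun (T : Inst) (φ : Assertion) => (posI T (aind φ), pos T (afm φ)))
        (by fun_prop) (PT_instAbox PT.id)
  · refine PT.map (f := fun (T : Inst) (p : ℕ × ℕ) => (posI T p.1, posI T p.2))
      (by fun_prop) ?_
    exact PT.filter (f := fun (_ : Inst) (p : ℕ × ℕ) => decide (p.1 ≠ p.2))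
      (PT.decide_not (PT.decide_eq (by fun_prop) (by fun_prop)))
      (PT.product (by fun_prop) (by fun_prop))
  · exact PT.map (f := fun (T : Inst) (n : ℕ) => posI T n) (by fun_prop) (by fun_prop)
  · exact PT.map (f := fun (T : Inst) (n : ℕ) => roleOf T n) pnf_roleOf (by fun_prop)
  · exact pnf_posC PT.id (PT_instC PT.id)
  · exact PT.map (f := fun (T : Inst) (X : ℕ) => posC T (.nm X)) (by fun_prop)
      (PT_instMini PT.id)
  · refine PT.append ?_ ?_
    · exact PT.map (f := fun (T : Inst) (X : ℕ) => posC T (.nm X)) (by fun_prop)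
        (PT_instFixd PT.id)
    · exact PT.map (f := fun (T : Inst) (n : ℕ) => posI T n) (by fun_prop) (by fun_prop)
  · exact PT.map (f := fun (T : Inst) (p : ℕ × ℕ) => (posC T (.nm p.1), posC T (.nm p.2)))
      (by fun_prop) (PT_instPrec PT.id)

end Pool.Agent.H24U
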