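import Pool.Agent.Lib.H24U.PTDec

/-!
# Chunk TP (parseW): reading a word

`parseW w`: fold over the word from right to left with a stack of trees (`none` after an error):
`false` pushes `nil`; `true` pops two trees `a`, `b` (top first) and pushes `cons a b`; at the end there
must be exactly one tree. Invariant: the part of the word read so far is the concatenation of the
codes of the trees in the stack (`(st.map code).flatten`). `PT.foldl` for `w.reverse`; the total size of the
stack is bounded by the length of the word.
-/

set_option autoImplicit false

namespace Pool.Agent.H24U

open Pool.Agent.PolyTime Pool.Agent.H24N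

/-- one step -/
def parseStep (s : Option (List D)) (b : Bool) : Option (List D) :=
  match s with
  | none => none
  | some st => if b then
      match st with
      | x :: y :: st' => some (D.cons x y :: st')
      | _ => none
    else some (D.nil :: st)

/-- the tree with the given code -/
def parseW (w : List Bool) : Option D :=
  match w.reverse.foldl parseStep (some []) with
  | some [d] => some d
  | _ => none

theorem tp_code (d : D) : ∀ st : List D,
    (code d).reverse.foldl parseStep (some st) = some (d :: st) := by
  induction d with
  | nil => intro st; rfl
  | cons a b iha ihb =>
    intro st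
    rw [code_cons, List.reverse_cons, List.reverse_append, List.foldl_append, List.foldl_append,
      ihb, iha]
    rfl

theorem tp_inv (w : List Bool) : ∀ st : List D,
    w.reverse.foldl parseStep (some []) = some st → w = (st.map code).flatten := by
  induction w with
  | nil =>
    intro st h
    simp only [List.reverse_nil, List.foldl_nil, Option.some.injEq] at h
    subst h
    rfl
  | cons b w ih =>
    intro st h
    rw [List.reverse_cons, List.foldl_append] at h
    simp only [List.foldl_cons, List.foldl_nil] at h
    cases h1 : w.reverse.foldl parseStep (some []) with
    | none =>
      rw [h1] at h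
      simp [parseStep] at h
    | some st' =>
      rw [h1] at h
      have h2 := ih st' h1
      cases b with
      | false =>
        simp only [parseStep, Bool.false_eq_true, if_false, Option.some.injEq] at h
        subst h
        rw [h2]
        rfl
      | true =>
        rcases st' with _ | ⟨x, _ | ⟨y, st''⟩⟩
        · simp [parseStep] at h
        · simp [parseStep] at h
        · simp only [parseStep, if_true, Option.some.injEq] at h
          subst h
          rw [h2]
          simp

theorem tp_sz (st : List D) : sz st ≤ 2 * ((st.map code).flatten).length + 1 := by
  induction st with
  | nil => simp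
  | cons d st ih =>
    rw [sz_cons, List.map_cons, List.flatten_cons, List.length_append, length_code]
    have h1 : sz d = d.size := rfl
    have h2 := D.size_pos d
    omega

theorem tp_PT_step : PT fun p : Option (List D) × Bool => parseStep p.1 p.2 := by
  have h : PT fun p : Option (List D) × Bool => p.1.bind fun st =>
      bif p.2 then (st.head?).bind fun x => (st.tail.head?).bind fun y =>
        some (D.cons x y :: st.tail.tail) else some (D.nil :: st) := by
    refine PT.optBind (f := fun (p : Option (List D) × Bool) (st : List D) =>
      bif p.2 then (st.head?).bind fun x => (st.tail.head?).bind fun y =>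
        some (D.cons x y :: st.tail.tail) else some (D.nil :: st)) ?_ (by fun_prop)
    refine PT.bif (by fun_prop) ?_ (by fun_prop)
    refine PT.optBind (f := fun (q : (Option (List D) × Bool) × List D) (x : D) =>
      (q.2.tail.head?).bind fun y => some (D.cons x y :: q.2.tail.tail)) ?_
      (PT.head? (by fun_prop))
    exact PT.optBind (f := fun (q : ((Option (List D) × Bool) × List D) × D) (y : D) =>
      some (D.cons q.2 y :: q.1.2.tail.tail)) (by fun_prop) (PT.head? (by fun_prop))
  refine h.congr ?_
  rintro ⟨_ | st, b⟩
  · rfl
  · cases b
    · rfl
    · rcases st with _ | ⟨x, _ | ⟨y, st'⟩⟩ <;> rfl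

theorem parseW_eq_some {w : List Bool} {d : D} : parseW w = some d ↔ w = code d := by
  unfold parseW
  constructor
  · intro h
    split at h
    · rename_i d' h1
      rw [Option.some.injEq] at h
      subst h
      have := tp_inv w [d'] h1
      simpa using this
    · exact absurd h (by simp)
  · rintro rfl
    rw [tp_code]

theorem PT_parseW : PT parseW := by
  have h1 : PT fun w : List Bool => w.reverse.foldl parseStep (some []) := by
    refine PT.foldl (g := fun (_ : List Bool) (s : Option (List D)) (b : Bool) => parseStep s b)
      (s := fun _ => some []) (l := fun w => w.reverse)
      (PT.comp tp_PT_step (f := fun p : List Bool × Option (List D) × Bool => (p.2.1, p.2.2))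
        (by fun_prop)) (PT.const _) (by fun_prop) (B := fun w => 2 * sz w + 3)
      (((PBd.const 2).mul PBd.sz).add (PBd.const 3)) ?_
    intro w l1 l2 h
    have hl : l1.length < sz w := by
      have h2 := congrArg List.length h
      rw [List.length_reverse, List.length_append] at h2
      have := length_lt_sz w
      omega
    cases h3 : l1.foldl parseStep (some []) with
    | none =>
      rw [sz_none]
      omega
    | some st =>
      rw [sz_some]
      have h4 := tp_inv l1.reverse st (by rw [List.reverse_reverse]; exact h3)
      have h5 := tp_sz st
      rw [← h4, List.length_reverse] at h5
      omega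
  have h2 : PT fun w : List Bool => (w.reverse.foldl parseStep (some [])).bind fun st =>
      (st.head?).bind fun d => bif st.tail.isEmpty then some d else none := by
    refine PT.optBind (f := fun (_ : List Bool) (st : List D) =>
      (st.head?).bind fun d => bif st.tail.isEmpty then some d else none) ?_ h1
    refine PT.optBind (f := fun (q : List Bool × List D) (d : D) =>
      bif q.2.tail.isEmpty then some d else none) ?_ (PT.head? (by fun_prop))
    exact PT.bif (by fun_prop) (by fun_prop) (PT.const _)
  refine h2.congr fun w => ?_
  unfold parseW
  rcases w.reverse.foldl parseStep (some []) with _ | _ | ⟨d, _ | ⟨e, l⟩⟩ <;> rfl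

/-- the instance with the given word -/
noncomputable def instOfW (w : List Bool) : Option Inst := (parseW w).bind (ofD Inst)

theorem instOfW_eq_some {w : List Bool} {T : Inst} : instOfW w = some T ↔ w = T.word := by
  unfold instOfW
  rw [Option.bind_eq_some_iff]
  constructor
  · rintro ⟨d, h1, h2⟩
    rw [parseW_eq_some] at h1
    rw [ofD_eq_some] at h2
    rw [h1, ← h2]
    rfl
  · rintro rfl
    exact ⟨enc T, parseW_eq_some.2 rfl, ofD_eq_some.2 rfl⟩

theorem PT_instOfW : PT instOfW :=
  PT.optBind (f := fun (_ : List Bool) d => ofD Inst d)
    (PT.comp PT_ofD_inst (by fun_prop)) PT_parseW

end Pool.Agent.H24U
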