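import Pool.Agent.Lib.H24U.Check
import Pool.Agent.Lib.H24U.PTNF
import Pool.Agent.Lib.H24U.Bound

/-!
# Chunks SZ2 (mu_le) and SZ3 (big_le): numeric bounds

SZ2: with `s = sz F`: `F.len.length, F.roles.length ≤ s`, `(kl F).length ≤ s + 2`, so
`4 ^ len ≤ 2 ^ (2 s)`, `(4 ^ len + 1) ^ K ≤ 2 ^ ((2 s + 1) (s + 2))` etc.
SZ3: `(M + 3) ^ (2 * M) ≤ 2 ^ 2 ^ (2 * e + 4)` and
`M * M + M * 2 ^ bb (2 * M) ≤ 2 ^ 2 ^ (2 * e + 8)` for `M ≤ 2 ^ e`, `1 ≤ e`
(`bb (2 * M) = 32 * M ^ 2 + 10 * M + 7 ≤ 49 * M ^ 2`).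
-/

set_option autoImplicit false

namespace Pool.Agent.H24U

open Pool.Agent.PolyTime

theorem SZ2_roles (l : List Rd) :
    (l.flatMap fun ρ => rex ρ ++ rey ρ).length + l.length ≤ sz l := by
  induction l with
  | nil => simp
  | cons ρ l ih =>
    obtain ⟨f, g, ex, ey⟩ := ρ
    rw [List.flatMap_cons, List.length_append, List.length_cons, sz_cons, sz_pair, sz_pair, sz_pair,
      List.length_append]
    have h1 := length_lt_sz ex
    have h2 := length_lt_sz ey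
    have h3 : (rex (f, g, ex, ey)).length = ex.length := rfl
    have h4 : (rey (f, g, ex, ey)).length = ey.length := rfl
    omega

theorem SZ2_sz (F : NF) : sz F.len + sz F.roles + 2 ≤ sz F := by
  have h : sz F = sz F.len + (sz F.negs + (sz F.ands + (sz F.imps + (sz F.excl + (sz F.sgs +
    (sz F.roles + (sz F.goal + (sz F.mini + (sz F.fixd + sz F.prec + 1) + 1) + 1) + 1) + 1) + 1) +
      1) + 1) + 1) + 1 := rfl
  omega

theorem mu_le (F : NF) : mu F ≤ 2 ^ (30 * sz F ^ 2) := by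
  have h0 := SZ2_sz F
  have h1 := length_lt_sz F.len
  have h2 := SZ2_roles F.roles
  have h3 : (kl F).length = (F.roles.flatMap fun ρ => rex ρ ++ rey ρ).length + 2 := rfl
  set s := sz F with hs
  have hL : F.len.length ≤ s := by omega
  have hR : F.roles.length + 1 ≤ s := by omega
  have hK : (kl F).length ≤ s := by omega
  have hK1 : 1 ≤ (kl F).length := by omega
  have hs1 : 1 ≤ s := by omega
  have e1 : 4 ^ F.len.length ≤ 2 ^ (2 * s) := by
    calc 4 ^ F.len.length ≤ 4 ^ s := Nat.pow_le_pow_right (by norm_num) hL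
      _ = 2 ^ (2 * s) := by rw [pow_mul]; norm_num
  have e2 : s ≤ 2 ^ s := Nat.lt_two_pow_self.le
  have ha0 : 1 ≤ 4 ^ F.len.length := Nat.one_le_pow _ _ (by norm_num)
  set a := 4 ^ F.len.length with ha
  have e3 : a + 1 ≤ 2 ^ (2 * s + 1) := by
    have : 1 ≤ 2 ^ (2 * s) := Nat.one_le_two_pow
    rw [pow_succ]; omega
  have e4 : (a + 1) ^ (kl F).length ≤ 2 ^ ((2 * s + 1) * s) := by
    calc (a + 1) ^ (kl F).length ≤ (a + 1) ^ s := Nat.pow_le_pow_right (by omega) hK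
      _ ≤ (2 ^ (2 * s + 1)) ^ s := Nat.pow_le_pow_left e3 s
      _ = _ := by rw [← pow_mul]
  have e5 : a + 1 ≤ (a + 1) ^ (kl F).length := by
    calc a + 1 = (a + 1) ^ 1 := (pow_one _).symm
      _ ≤ _ := Nat.pow_le_pow_right (by omega) hK1
  have e6 : 2 * a + 1 + (a + 1) ^ (kl F).length ≤ 2 ^ ((2 * s + 1) * s + 2) := by
    rw [pow_add]; omega
  have h4 : mu F = 16 * (F.roles.length + 1) * a ^ 2 *
    (2 * a + 1 + (a + 1) ^ (kl F).length) * (kl F).length := rfl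
  rw [h4]
  calc 16 * (F.roles.length + 1) * a ^ 2 * (2 * a + 1 + (a + 1) ^ (kl F).length) * (kl F).length
      ≤ 2 ^ 4 * 2 ^ s * (2 ^ (2 * s)) ^ 2 * 2 ^ ((2 * s + 1) * s + 2) * 2 ^ s := by
        apply Nat.mul_le_mul _ (hK.trans e2)
        apply Nat.mul_le_mul _ e6
        apply Nat.mul_le_mul _ (Nat.pow_le_pow_left e1 2)
        apply Nat.mul_le_mul (by norm_num) (hR.trans e2)
    _ = 2 ^ (4 + s + 2 * s * 2 + ((2 * s + 1) * s + 2) + s) := by
        rw [← pow_mul, ← pow_add, ← pow_add, ← pow_add, ← pow_add]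
    _ ≤ 2 ^ (30 * s ^ 2) := by
        apply Nat.pow_le_pow_right (by norm_num)
        nlinarith

theorem big_le (M e : ℕ) (he : 1 ≤ e) (hM : 1 ≤ M) (h : M ≤ 2 ^ e) :
    (M + 3) ^ (2 * M) ≤ 2 ^ 2 ^ (3 * e + 10) ∧
      M * M + M * 2 ^ bb (2 * M) ≤ 2 ^ 2 ^ (3 * e + 10) := by
  have h2 : (2:ℕ) ^ (3 * e + 10) = 2 ^ e * 2 ^ e * 2 ^ e * 1024 := by
    rw [pow_add, mul_comm 3 e, pow_mul]; ring
  have he2 : e < 2 ^ e := Nat.lt_two_pow_self
  constructor
  · have h1 : M + 3 ≤ 2 ^ (e + 2) := by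
      rw [pow_add]; omega
    calc (M + 3) ^ (2 * M) ≤ (2 ^ (e + 2)) ^ (2 * M) := Nat.pow_le_pow_left h1 _
      _ = 2 ^ ((e + 2) * (2 * M)) := by rw [← pow_mul]
      _ ≤ 2 ^ 2 ^ (3 * e + 10) := by
          apply Nat.pow_le_pow_right (by norm_num)
          rw [h2]
          have h3 : e + 2 ≤ 2 ^ e * 2 := by omega
          have h4 : 1 ≤ 2 ^ e := Nat.one_le_two_pow
          calc (e + 2) * (2 * M) ≤ (2 ^ e * 2) * (2 * 2 ^ e) :=
                Nat.mul_le_mul h3 (Nat.mul_le_mul_left _ h)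
            _ ≤ 2 ^ e * 2 ^ e * 2 ^ e * 1024 := by nlinarith [Nat.mul_le_mul_left (2 ^ e * 2 ^ e) h4]
  · have h3 : bb (2 * M) ≤ 49 * M ^ 2 := by
      unfold bb
      nlinarith
    have h4 : M ^ 2 ≤ 2 ^ e * 2 ^ e := by
      rw [sq]; exact Nat.mul_le_mul h h
    have h5 : M ≤ 2 ^ M := Nat.lt_two_pow_self.le
    have h6 : 1 ≤ 2 ^ e := Nat.one_le_two_pow
    have h7 : M * M ≤ 2 ^ (2 * M) := by
      rw [two_mul, pow_add]; exact Nat.mul_le_mul h5 h5
    calc M * M + M * 2 ^ bb (2 * M) ≤ 2 ^ (2 * M + bb (2 * M)) + 2 ^ (2 * M + bb (2 * M)) := by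
          apply Nat.add_le_add
          · exact h7.trans (Nat.pow_le_pow_right (by norm_num) (by omega))
          · rw [pow_add]
            apply Nat.mul_le_mul_right
            exact h5.trans (Nat.pow_le_pow_right (by norm_num) (by omega))
      _ = 2 ^ (2 * M + bb (2 * M) + 1) := by rw [pow_succ]; ring
      _ ≤ 2 ^ 2 ^ (3 * e + 10) := by
          apply Nat.pow_le_pow_right (by norm_num)
          rw [h2]
          have h8 : 2 * M + bb (2 * M) + 1 ≤ 52 * M ^ 2 := by nlinarith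
          have h9 : 52 * M ^ 2 ≤ 52 * (2 ^ e * 2 ^ e) := Nat.mul_le_mul_left _ h4
          have h10 : 2 ^ e * 2 ^ e ≤ 2 ^ e * 2 ^ e * 2 ^ e := Nat.le_mul_of_pos_right _ (by omega)
          omega

end Pool.Agent.H24U
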