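import Pool.Agent.Lib.H24U.CheckIff
import Pool.Agent.Lib.H24U.PTCheck
import Pool.Agent.Lib.H24U.PTNf
import Pool.Agent.Lib.H24U.PTParse
import Pool.Agent.Lib.H24U.Sizes2
import Pool.Agent.Lib.H24U.Cert
import Pool.Agent.Lib.H24U.AP
import Pool.Agent.Lib.H24U.NFSat
import Pool.Agent.Lib.H24U.NfSatIff
import Pool.Agent.Lib.H24N.LenCheck
import Pool.Agent.Lib.PolyTime.PairInput

/-!
# Circumscribed concept satisfiability is in N2EXP
-/

set_option autoImplicit false

namespace Pool.Agent.H24U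

open Pool.Agent.PolyTime Pool.Agent.H24N Pool.Agent.Lib.CookLevin

/-- the verifier -/
noncomputable def verif (q : Polynomial ℕ) (p : List Bool × List Bool) : Bool :=
  !decide ((p.1, true :: p.2).2.length ≤ 2 ^ 2 ^ q.eval (p.1, true :: p.2).1.length) &&
    (instOfW p.1).elim false fun T => okB T.P && check (nf T) p.2

theorem PT_verif (q : Polynomial ℕ) : PT (verif q) := by
  unfold verif
  refine PT.and (PT.not ?_) ?_
  · exact PT.comp (PT_lenCheck q) (f := fun p : List Bool × List Bool => (p.1, true :: p.2))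
      (by fun_prop)
  · refine PT.optionElim (g := fun r : (List Bool × List Bool) × Inst =>
      okB r.2.P && check (nf r.2) r.1.2) (PT.comp PT_instOfW PT.fst') (by fun_prop) ?_
    refine PT.and (PT.comp (g := fun T : Inst => okB T.P) PT_okB PT.snd') (PT_check (PT.comp PT_nf PT.snd') ?_)
    exact PT.snd PT.fst'

theorem mu_pos (F : NF) : 1 ≤ mu F := by
  have := (sizes_mu F).1
  omega

theorem circSat_in : InN2Exp CircSat := by
  obtain ⟨c, k, hck⟩ := PT_nf.bdd
  let q : Polynomial ℕ := Polynomial.C 3 *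
    (Polynomial.C 30 * (Polynomial.C c * Polynomial.X ^ k) ^ 2 + Polynomial.C 1) + Polynomial.C 10
  have hq : ∀ m, q.eval m = 3 * (30 * (c * m ^ k) ^ 2 + 1) + 10 := by
    intro m
    simp [q]
  have hword : ∀ T : Inst, T.word.length = sz T := fun T => by
    unfold Inst.word sz
    exact length_code _
  have hmu : ∀ T : Inst, mu (nf T) ≤ 2 ^ (30 * (c * T.word.length ^ k) ^ 2 + 1) := by
    intro T
    refine (mu_le (nf T)).trans (Nat.pow_le_pow_right (by norm_num) ?_)
    rw [hword]
    have h2 : sz (nf T) ^ 2 ≤ (c * sz T ^ k) ^ 2 := Nat.pow_le_pow_left (hck T) 2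
    omega
  have hbig : ∀ T : Inst, (mu (nf T) + 3) ^ (2 * mu (nf T)) ≤ 2 ^ 2 ^ q.eval T.word.length ∧
      mu (nf T) * mu (nf T) + mu (nf T) * 2 ^ bb (2 * mu (nf T)) ≤
        2 ^ 2 ^ q.eval T.word.length := by
    intro T
    rw [hq]
    exact big_le _ _ (by omega) (mu_pos _) (hmu T)
  refine ⟨q, verif q, PT.tmPair (PT_verif q), fun x => ?_⟩
  constructor
  · rintro ⟨T, hok, rfl, hsat⟩
    have hsmI : ∀ E ∈ sysI (nf T), SmallSys (mu (nf T)) E := fun E hE =>
      (small_fam _ _ (length_th_le _).1 _ E hE).1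
    have hsmJ : ∀ E ∈ sysJ (nf T), SmallSys (mu (nf T)) E := fun E hE =>
      (small_fam _ _ (length_th_le _).2 _ E hE).1
    have hnv : (nvs (nf T)).length ≤ mu (nf T) := by
      unfold nvs
      rw [List.length_map]
      exact (sizes_mu _).2.2.2.1
    obtain ⟨lam, N, h1, h2, h3⟩ := ap_complete (mu (nf T)) (nvs (nf T)) hnv _ _ hsmI hsmJ
      ((nfsat_iff _).1 ((sat_nf T).2 hsat))
    obtain ⟨y, hy1, hy2⟩ := exists_cert (nvs (nf T)) lam N (2 ^ bb (2 * mu (nf T)))
      (2 ^ 2 ^ q.eval T.word.length) (fun x => (h1 x).1) (fun x => (h1 x).2)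
      (le_trans (Nat.add_le_add (Nat.mul_le_mul hnv hnv) (Nat.mul_le_mul hnv le_rfl)) (hbig T).2)
    refine ⟨y, hy1.le, ?_⟩
    have hi : instOfW T.word = some T := instOfW_eq_some.2 rfl
    unfold verif
    rw [Bool.and_eq_true]
    constructor
    · simp [hy1]
    · simp only [hi, Option.elim_some, Bool.and_eq_true]
      refine ⟨(okB_iff _).2 hok, (check_iff (nf T) y (by rw [hy1]; exact (hbig T).1)).2 ?_⟩
      have hc : ∀ E, SolL (nvs (nf T)) E ((nvs (nf T)).length + 1) (lamV y (nvs (nf T)))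
          (valV y (nvs (nf T))) ↔ SolL (nvs (nf T)) E ((nvs (nf T)).length + 1) lam N :=
        fun E => SolL.congr hy2
      simp only [hc]
      exact ⟨h2, h3⟩
  · rintro ⟨y, -, hR⟩
    unfold verif at hR
    rw [Bool.and_eq_true] at hR
    obtain ⟨hlen, hR⟩ := hR
    rcases hi : instOfW x with _ | T
    · rw [hi] at hR
      simp at hR
    · rw [hi] at hR
      have hx : x = T.word := instOfW_eq_some.1 hi
      subst hx
      simp only [Option.elim_some, Bool.and_eq_true] at hR
      have hlen' : 2 ^ 2 ^ q.eval T.word.length ≤ y.length := by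
        simp only [List.length_cons, Bool.not_eq_true', decide_eq_false_iff_not, not_le] at hlen
        omega
      have hc := (check_iff (nf T) y ((hbig T).1.trans hlen')).1 hR.2
      refine ⟨T, (okB_iff _).1 hR.1, rfl, (sat_nf T).1 ((nfsat_iff _).2 ?_)⟩
      exact ap_sound (nvs (nf T)) _ _ (lamV y (nvs (nf T))) (valV y (nvs (nf T)))
        (fun x _ => (lamV_le y _ x).trans (by omega)) hc.1 hc.2

end Pool.Agent.H24U
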