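import Pool.Agent.Lib.H24N.Defs
import Pool.Agent.Lib.H24U.Sys
import Pool.Agent.Lib.H24U.Lists

/-!
# Normal forms: types over a list of formulas

A type is a list of Booleans, one for each formula of a fixed list; `NF` contains the data about the
formulas, given by their positions. `NF.Sat`: some map `τ : Δ → types` is realised and no realised
map is better.
-/

set_option autoImplicit false

namespace Pool.Agent.H24U

open Pool.Agent.PolyTime

/-- types -/
abbrev Ty : Type := List Bool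

/-- truth of the formula at position `i` -/
def bit (t : Ty) (i : ℕ) : Bool := t.getD i false

/-- role data: positions of `(≤ 1 P)` and `(≤ 1 P⁻)`, pairs (position of `C`, position of `∃ P. C`),
pairs (position of `C`, position of `∃ P⁻. C`) -/
abbrev Rd : Type := ℕ × ℕ × List (ℕ × ℕ) × List (ℕ × ℕ)

/-- position of `(≤ 1 P)` -/
def rf (ρ : Rd) : ℕ := ρ.1
/-- position of `(≤ 1 P⁻)` -/
def rg (ρ : Rd) : ℕ := ρ.2.1
/-- the pairs for `P` -/
def rex (ρ : Rd) : List (ℕ × ℕ) := ρ.2.2.1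
/-- the pairs for `P⁻` -/
def rey (ρ : Rd) : List (ℕ × ℕ) := ρ.2.2.2
/-- the data of the inverse role -/
def rflip (ρ : Rd) : Rd := (rg ρ, rf ρ, rey ρ, rex ρ)

@[simp] theorem rf_rflip (ρ : Rd) : rf (rflip ρ) = rg ρ := rfl
@[simp] theorem rg_rflip (ρ : Rd) : rg (rflip ρ) = rf ρ := rfl
@[simp] theorem rex_rflip (ρ : Rd) : rex (rflip ρ) = rey ρ := rfl
@[simp] theorem rey_rflip (ρ : Rd) : rey (rflip ρ) = rex ρ := rfl
@[simp] theorem rflip_rflip (ρ : Rd) : rflip (rflip ρ) = ρ := rfl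

/-- the relation `P` fits to the types `σ` -/
structure Real {Δ : Type} (ρ : Rd) (σ : Δ → Ty) (P : Δ → Δ → Prop) : Prop where
  f : ∀ x, bit (σ x) (rf ρ) = true ↔ ∀ y z, P x y → P x z → y = z
  g : ∀ y, bit (σ y) (rg ρ) = true ↔ ∀ x z, P x y → P z y → x = z
  ex : ∀ p ∈ rex ρ, ∀ x, bit (σ x) p.2 = true ↔ ∃ y, P x y ∧ bit (σ y) p.1 = true
  ey : ∀ p ∈ rey ρ, ∀ y, bit (σ y) p.2 = true ↔ ∃ x, P x y ∧ bit (σ x) p.1 = true

theorem Real.flip {Δ : Type} {ρ : Rd} {σ : Δ → Ty} {P : Δ → Δ → Prop} (h : Real ρ σ P) :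
    Real (rflip ρ) σ (fun x y => P y x) :=
  ⟨h.g, h.f, h.ey, h.ex⟩

/-- the data of an instance -/
structure NF where
  /-- the number of formulas -/
  len : List Unit
  /-- pairs `(¬ C, C)` -/
  negs : List (ℕ × ℕ)
  /-- triples `(C ⊓ E, C, E)` -/
  ands : List (ℕ × ℕ × ℕ)
  /-- inclusions -/
  imps : List (ℕ × ℕ)
  /-- disjoint formulas -/
  excl : List (ℕ × ℕ)
  /-- singletons -/
  sgs : List ℕ
  /-- roles -/
  roles : List Rd
  /-- the concept to be satisfied -/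
  goal : ℕ
  /-- minimized names -/
  mini : List ℕ
  /-- fixed formulas -/
  fixd : List ℕ
  /-- priorities -/
  prec : List (ℕ × ℕ)

namespace NF

/-- local correctness of a type -/
def okT (F : NF) (t : Ty) : Bool :=
  F.negs.all (fun p => bit t p.1 == !bit t p.2) &&
    F.ands.all (fun p => bit t p.1 == (bit t p.2.1 && bit t p.2.2)) &&
    F.imps.all (fun p => !bit t p.1 || bit t p.2) &&
    F.excl.all (fun p => !(bit t p.1 && bit t p.2))

/-- the locally correct types -/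
def tys (F : NF) : List Ty := (lists [false, true] F.len.length).filter F.okT

variable {Δ : Type}

/-- `σ` is realised by a model -/
structure Good (F : NF) (σ : Δ → Ty) : Prop where
  tys : ∀ x, σ x ∈ F.tys
  sgs : ∀ a ∈ F.sgs, ∃! x, bit (σ x) a = true
  roles : ∀ ρ ∈ F.roles, ∃ P : Δ → Δ → Prop, Real ρ σ P

end NF

/-- the extension of `X` in `σ` is contained in the one in `τ` -/
def Sub {Δ : Type} (σ τ : Δ → Ty) (X : ℕ) : Prop := ∀ x, bit (σ x) X = true → bit (τ x) X = true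

namespace NF

variable {Δ : Type}

/-- `σ` is preferred to `τ` -/
structure Better (F : NF) (σ τ : Δ → Ty) : Prop where
  fixd : ∀ i ∈ F.fixd, ∀ x, bit (σ x) i = bit (τ x) i
  mini : ∀ X ∈ F.mini, ¬ Sub σ τ X → ∃ Y ∈ F.mini, (Y, X) ∈ F.prec ∧ Sub σ τ Y ∧ ¬ Sub τ σ Y
  strict : ∃ X ∈ F.mini, (Sub σ τ X ∧ ¬ Sub τ σ X) ∧
    ∀ Y ∈ F.mini, (Y, X) ∈ F.prec → Sub σ τ Y ∧ Sub τ σ Y

/-- satisfiability -/
def Sat (F : NF) : Prop :=
  ∃ (Δ : Type) (τ : Δ → Ty), F.Good τ ∧ (∃ x, bit (τ x) F.goal = true) ∧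
    ∀ σ : Δ → Ty, F.Good σ → ¬ F.Better σ τ

end NF

end Pool.Agent.H24U
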