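import Pool.Agent.Lib.H24U.Split

/-!
# Chunk NC: the number of owned elements

`allSt Θ pats` has no duplicates. `need` is the list of the statuses `(3, π)` in `outSt`, repeated
`count θ' π` times, so the sum is `Σ_t mult t θ' * #{y | τ y = θ, u y = t}` over the statuses `t`,
the cardinality of the sigma type (`sum_fib`-like partition by the value of `u`).
-/

set_option autoImplicit false

namespace Pool.Agent.H24U

open Cardinal

theorem nodup_allSt {Θ : List Th} {pats : List (List Th)} (hΘ : Θ.Nodup) (hp : pats.Nodup) :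
    (allSt Θ pats).Nodup := by
  unfold allSt
  have h0 : (Θ.map (fun θ' => ((0, [θ']) : St))).Nodup :=
    hΘ.map fun a b hab => by simpa using hab
  have h1 : (Θ.map (fun θ' => ((1, [θ']) : St))).Nodup :=
    hΘ.map fun a b hab => by simpa using hab
  have h3 : (pats.map (fun π => ((3, π) : St))).Nodup :=
    hp.map fun a b hab => by simpa using hab
  rw [List.nodup_append', List.nodup_append', List.nodup_append']
  refine ⟨⟨⟨h0, h1, ?_⟩, List.nodup_singleton _, ?_⟩, h3, ?_⟩
  · intro x hx hx'
    obtain ⟨a, -, rfl⟩ := List.mem_map.mp hx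
    obtain ⟨b, -, hb⟩ := List.mem_map.mp hx'
    simp at hb
  · intro x hx hx'
    rw [List.mem_singleton] at hx'
    subst hx'
    rcases List.mem_append.mp hx with hx | hx
    · obtain ⟨a, -, ha⟩ := List.mem_map.mp hx
      simp at ha
    · obtain ⟨a, -, ha⟩ := List.mem_map.mp hx
      simp at ha
  · intro x hx hx'
    obtain ⟨b, -, rfl⟩ := List.mem_map.mp hx'
    rcases List.mem_append.mp hx with hx | hx
    · rcases List.mem_append.mp hx with hx | hx
      · obtain ⟨a, -, ha⟩ := List.mem_map.mp hx
        simp at ha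
      · obtain ⟨a, -, ha⟩ := List.mem_map.mp hx
        simp at ha
    · rw [List.mem_singleton] at hx
      simp at hx

theorem nodup_outSt {Θ : List Th} {pats : List (List Th)} (hΘ : Θ.Nodup) (hp : pats.Nodup)
    (ρ : Rd) (sup : Th → ℕ) (θ : Th) : (outSt ρ Θ pats sup θ).Nodup :=
  (nodup_allSt hΘ hp).filter _

/-- number of owned elements of type `θ'` -/
def mult (s : St) (θ' : Th) : ℕ := if s.1 = 3 then s.2.count θ' else 0

theorem NC_sum (θ' : Th) (c : St → Cardinal.{0}) (O : List St) :
    ((((O.filter fun s => s.1 == 3).flatMap fun s =>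
      (s.2.filter fun a => decide (a = θ')).map fun _ => s)).map c).sum =
      (O.map fun t => c t * (mult t θ' : ℕ)).sum := by
  induction O with
  | nil => simp
  | cons s O ih =>
    rw [List.map_cons, List.sum_cons, ← ih]
    by_cases hs : s.1 = 3
    · rw [List.filter_cons_of_pos (by simpa using hs), List.flatMap_cons, List.map_append,
        List.sum_append]
      congr 1
      have h1 : (s.2.filter fun a => decide (a = θ')).length = s.2.count θ' := by
        rw [List.count_eq_countP, List.countP_eq_length_filter]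
        congr 1
        refine List.filter_congr fun a _ => ?_
        by_cases h : a = θ' <;> simp [h]
      rw [List.map_map]
      have h2 : (c ∘ fun (_ : Th) => s) = fun _ => c s := rfl
      rw [h2, List.map_const', List.sum_replicate, nsmul_eq_mul, mult, if_pos hs, h1, mul_comm]
    · rw [List.filter_cons_of_neg (by simpa using hs), mult, if_neg hs, Nat.cast_zero, mul_zero,
        zero_add]

theorem need_card {Δ : Type} (ρ : Rd) (Θ : List Th) (hΘ : Θ.Nodup) (pats : List (List Th))
    (hp : pats.Nodup) (sup : Th → ℕ) (τ : Δ → Th) (u : Δ → St)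
    (hu : ∀ y, u y ∈ outSt ρ Θ pats sup (τ y)) (θ θ' : Th) :
    ((need ρ Θ pats sup θ θ').map fun t => #{y // τ y = θ ∧ u y = t}).sum =
      #(Σ y : {y // τ y = θ}, Fin (mult (u y.1) θ')) := by
  have h1 := sum_cnt (X := Σ y : {y // τ y = θ}, Fin (mult (u y.1) θ'))
    (outSt ρ Θ pats sup θ) (nodup_outSt hΘ hp ρ sup θ) (fun p => u p.1.1) (fun p => by
      have := hu p.1.1
      rwa [p.1.2] at this)
  rw [← h1]
  unfold need
  rw [NC_sum]
  congr 1
  refine List.map_congr_left fun t _ => ?_
  have h2 : (Cardinal.mk (Fin (mult t θ'))) = ((mult t θ' : ℕ) : Cardinal.{0}) := mk_fin _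
  rw [← h2, mul_def]
  exact mk_congr
    { toFun := fun x => ⟨⟨⟨x.1.1, x.1.2.1⟩, Fin.cast (by rw [x.1.2.2]) x.2⟩, x.1.2.2⟩
      invFun := fun x => (⟨x.1.1.1, x.1.1.2, x.2⟩, Fin.cast (by
        have h3 : u x.1.1.1 = t := x.2
        rw [h3]) x.1.2)
      left_inv := fun _ => rfl
      right_inv := fun _ => rfl }

end Pool.Agent.H24U
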