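import Pool.Agent.Lib.H24N.WordInj
import Pool.Agent.Lib.H24U.NF

/-!
# The normal form of an instance

The list `fms T` of formulas consists of concepts, individuals `{a}` and formulas `∃ P. {b}`. All
subtrees of the code of `T` which are codes of concepts or numbers are used (this contains all
subconcepts, names and individuals of `T`, and more, which is harmless).
-/

set_option autoImplicit false

namespace Pool.Agent.H24U

open Pool.Agent.PolyTime Pool.Agent.H24N

noncomputable instance : DecidableEq Con := Classical.decEq _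
noncomputable instance : DecidableEq Rol := Classical.decEq _

/-- formulas: concepts, individuals `{a}`, `∃ P. {b}` -/
abbrev Fm : Type := Con ⊕ ℕ ⊕ (ℕ × ℕ)

/-- truth of a formula -/
def fsat {Δ : Type} (I : Interp Δ) (x : Δ) : Fm → Prop
  | .inl C => x ∈ I.ext C
  | .inr (.inl a) => x = I.ind a
  | .inr (.inr p) => I.rol p.1 x (I.ind p.2)

/-- all subtrees -/
def subtrees : D → List D
  | .nil => [.nil]
  | .cons a b => .cons a b :: (subtrees a ++ subtrees b)

/-- the object with a given code -/
noncomputable def ofD (α : Type) [Enc α] (d : D) : Option α :=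
  open Classical in if h : ∃ a : α, enc a = d then some h.choose else none

theorem ofD_eq_some {α : Type} [Enc α] [EncInj α] {d : D} {a : α} :
    ofD α d = some a ↔ enc a = d := by
  unfold ofD
  split
  case isTrue h =>
    rw [Option.some.injEq]
    constructor
    · rintro rfl; exact h.choose_spec
    · intro h2; exact EncInj.inj (h.choose_spec.trans h2.symm)
  case isFalse h =>
    constructor
    · intro h2; exact absurd h2 (by simp)
    · intro h2; exact absurd ⟨a, h2⟩ h

/-- the constructor of a concept -/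
def ctag : Con → ℕ
  | .nm _ => 0
  | .neg _ => 1
  | .and _ _ => 2
  | .ex _ _ => 3
  | .le1 _ => 4

/-- the first argument -/
def carg1 : Con → Con
  | .neg C => C
  | .and C _ => C
  | .ex _ C => C
  | C => C

/-- the second argument -/
def carg2 : Con → Con
  | .and _ E => E
  | C => C

/-- the role -/
def crole : Con → Rol
  | .ex R _ => R
  | .le1 R => R
  | _ => .nm 0

/-- the numbers whose codes occur in the code of `T` -/
noncomputable def nats (T : Inst) : List ℕ := (subtrees (enc T)).filterMap (ofD ℕ)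

/-- concepts -/
noncomputable def cs (T : Inst) : List Con :=
  (subtrees (enc T)).filterMap (ofD Con) ++ (nats T).map (fun A => Con.nm A) ++
    (nats T).map (fun P => Con.le1 (.nm P)) ++ (nats T).map (fun P => Con.le1 (.inv P))

/-- the list of formulas -/
noncomputable def fms (T : Inst) : List Fm :=
  (cs T).map Sum.inl ++ (nats T).map (fun a => Sum.inr (Sum.inl a)) ++
    ((nats T) ×ˢ (nats T)).map (fun p => Sum.inr (Sum.inr p))

/-- position of a formula -/
noncomputable def pos (T : Inst) (φ : Fm) : ℕ := (fms T).idxOf φ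

/-- position of a concept -/
noncomputable def posC (T : Inst) (C : Con) : ℕ := pos T (.inl C)
/-- position of an individual -/
noncomputable def posI (T : Inst) (a : ℕ) : ℕ := pos T (.inr (.inl a))
/-- position of `∃ P. {b}` -/
noncomputable def posE (T : Inst) (p : ℕ × ℕ) : ℕ := pos T (.inr (.inr p))

/-- the individual of an assertion -/
def aind : Assertion → ℕ
  | .con _ a => a
  | .rol _ a _ => a

/-- the formula of an assertion -/
def afm : Assertion → Fm
  | .con A _ => .inl (.nm A)
  | .rol P _ b => .inr (.inr (P, b))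

/-- the role data of the role name `P` -/
noncomputable def roleOf (T : Inst) (P : ℕ) : Rd :=
  (posC T (.le1 (.nm P)), posC T (.le1 (.inv P)),
    ((cs T).filter fun C => decide (ctag C = 3) && decide (crole C = .nm P)).map
      (fun C => (posC T (carg1 C), posC T C)) ++
    (((nats T) ×ˢ (nats T)).filter fun p => decide (p.1 = P)).map
      (fun p => (posI T p.2, posE T p)),
    ((cs T).filter fun C => decide (ctag C = 3) && decide (crole C = .inv P)).map
      fun C => (posC T (carg1 C), posC T C))

/-- the individuals of the assertions -/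
def ainds (T : Inst) : List ℕ := T.K.abox.flatMap Assertion.inds

/-- the normal form -/
noncomputable def nf (T : Inst) : NF where
  len := (fms T).map fun _ => ()
  negs := ((cs T).filter fun C => decide (ctag C = 1)).map fun C => (posC T C, posC T (carg1 C))
  ands := ((cs T).filter fun C => decide (ctag C = 2)).map
    fun C => (posC T C, posC T (carg1 C), posC T (carg2 C))
  imps := T.K.tbox.map (fun p => (posC T p.1, posC T p.2)) ++
    T.K.abox.map (fun φ => (posI T (aind φ), pos T (afm φ)))
  excl := (((ainds T) ×ˢ (ainds T)).filter fun p => decide (p.1 ≠ p.2)).map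
    fun p => (posI T p.1, posI T p.2)
  sgs := (nats T).map (posI T)
  roles := (nats T).map (roleOf T)
  goal := posC T T.C
  mini := T.P.mini.map fun X => posC T (.nm X)
  fixd := T.P.fixd.map (fun X => posC T (.nm X)) ++ (nats T).map (posI T)
  prec := T.P.prec.map fun p => (posC T (.nm p.1), posC T (.nm p.2))

/-- the types `τ` describe the interpretation `I` -/
def TypOf {Δ : Type} (T : Inst) (I : Interp Δ) (τ : Δ → Ty) : Prop :=
  ∀ x, ∀ φ ∈ fms T, bit (τ x) (pos T φ) = true ↔ fsat I x φ

/-- closure properties of the lists -/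
structure Clo (T : Inst) : Prop where
  neg : ∀ C, Con.neg C ∈ cs T → C ∈ cs T
  and : ∀ C E, Con.and C E ∈ cs T → C ∈ cs T ∧ E ∈ cs T
  ex : ∀ R C, Con.ex R C ∈ cs T → C ∈ cs T
  exn : ∀ P C, Con.ex (.nm P) C ∈ cs T → P ∈ nats T
  exi : ∀ P C, Con.ex (.inv P) C ∈ cs T → P ∈ nats T
  len : ∀ P, Con.le1 (.nm P) ∈ cs T → P ∈ nats T
  lei : ∀ P, Con.le1 (.inv P) ∈ cs T → P ∈ nats T
  tbox : ∀ p ∈ T.K.tbox, p.1 ∈ cs T ∧ p.2 ∈ cs T
  acon : ∀ A a, Assertion.con A a ∈ T.K.abox → A ∈ nats T ∧ a ∈ nats T
  arol : ∀ P a b, Assertion.rol P a b ∈ T.K.abox → P ∈ nats T ∧ a ∈ nats T ∧ b ∈ nats T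
  goal : T.C ∈ cs T
  mini : ∀ X ∈ T.P.mini, X ∈ nats T
  fixd : ∀ X ∈ T.P.fixd, X ∈ nats T

theorem nm_mem_cs {T : Inst} {A : ℕ} (h : A ∈ nats T) : Con.nm A ∈ cs T := by
  simp [cs, h]

theorem len_mem_cs {T : Inst} {A : ℕ} (h : A ∈ nats T) : Con.le1 (.nm A) ∈ cs T := by
  simp [cs, h]

theorem lei_mem_cs {T : Inst} {A : ℕ} (h : A ∈ nats T) : Con.le1 (.inv A) ∈ cs T := by
  simp [cs, h]

theorem inl_mem_fms {T : Inst} {C : Con} : (Sum.inl C : Fm) ∈ fms T ↔ C ∈ cs T := by
  simp [fms]

theorem inr_inl_mem_fms {T : Inst} {a : ℕ} : (Sum.inr (Sum.inl a) : Fm) ∈ fms T ↔ a ∈ nats T := by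
  simp [fms]

theorem inr_inr_mem_fms {T : Inst} {p : ℕ × ℕ} :
    (Sum.inr (Sum.inr p) : Fm) ∈ fms T ↔ p.1 ∈ nats T ∧ p.2 ∈ nats T := by
  obtain ⟨a, b⟩ := p
  simp [fms, SProd.sprod, List.product]

end Pool.Agent.H24U
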