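import Pool.Agent.Lib.H24U.Nf

/-!
# Chunk CLO: closure properties of the lists of formulas

`d ∈ subtrees d`, `a ∈ subtrees d → b ∈ subtrees a → b ∈ subtrees d`; codes of parts are subtrees of
the codes (`encCon`, `encRol`, `enc` of pairs and lists: for `a ∈ l`, `enc a ∈ subtrees (enc l)`);
`enc T = enc (T.C, T.K, T.P)`, `enc T.K = enc (T.K.tbox, T.K.abox)` etc. by `rfl`.
`C ∈ filterMap (ofD Con) l ↔ enc C ∈ l` by `ofD_eq_some`.
-/

set_option autoImplicit false

namespace Pool.Agent.H24U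

open Pool.Agent.PolyTime Pool.Agent.H24N

theorem CLO_refl (d : D) : d ∈ subtrees d := by
  cases d <;> simp [subtrees]

theorem CLO_trans {a b : D} (d : D) (h1 : a ∈ subtrees b) (h2 : b ∈ subtrees d) :
    a ∈ subtrees d := by
  induction d with
  | nil =>
    simp only [subtrees, List.mem_singleton] at h2
    subst h2
    exact h1
  | cons x y ihx ihy =>
    simp only [subtrees, List.mem_cons, List.mem_append] at h2
    rcases h2 with h2 | h2 | h2
    · subst h2
      exact h1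
    · simp only [subtrees, List.mem_cons, List.mem_append]
      exact Or.inr (Or.inl (ihx h2))
    · simp only [subtrees, List.mem_cons, List.mem_append]
      exact Or.inr (Or.inr (ihy h2))

theorem CLO_cons {a b d : D} (h : D.cons a b ∈ subtrees d) : a ∈ subtrees d ∧ b ∈ subtrees d := by
  constructor
  · refine CLO_trans d ?_ h
    simp only [subtrees, List.mem_cons, List.mem_append]
    exact Or.inr (Or.inl (CLO_refl a))
  · refine CLO_trans d ?_ h
    simp only [subtrees, List.mem_cons, List.mem_append]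
    exact Or.inr (Or.inr (CLO_refl b))

theorem CLO_nats {T : Inst} {n : ℕ} : n ∈ nats T ↔ enc n ∈ subtrees (enc T) := by
  unfold nats
  rw [List.mem_filterMap]
  constructor
  · rintro ⟨d, hd, h⟩
    rw [ofD_eq_some] at h
    rw [h]; exact hd
  · intro h
    exact ⟨enc n, h, ofD_eq_some.2 rfl⟩

theorem CLO_cs {T : Inst} {C : Con} : C ∈ cs T ↔ (enc C ∈ subtrees (enc T) ∨
    (∃ A ∈ nats T, Con.nm A = C) ∨ (∃ P ∈ nats T, Con.le1 (.nm P) = C) ∨
      (∃ P ∈ nats T, Con.le1 (.inv P) = C)) := by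
  unfold cs
  simp only [List.mem_append, List.mem_map, List.mem_filterMap]
  have e : (∃ a ∈ subtrees (enc T), ofD Con a = some C) ↔ enc C ∈ subtrees (enc T) := by
    constructor
    · rintro ⟨d, hd, h⟩
      rw [ofD_eq_some] at h
      rw [h]; exact hd
    · intro h
      exact ⟨enc C, h, ofD_eq_some.2 rfl⟩
  rw [e, or_assoc, or_assoc]

theorem CLO_list {α : Type} [Enc α] {l : List α} {a : α} {d : D} (ha : a ∈ l)
    (h : enc l ∈ subtrees d) : enc a ∈ subtrees d := by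
  induction l with
  | nil => simp at ha
  | cons b l ih =>
    have h' : D.cons (enc b) (enc l) ∈ subtrees d := h
    obtain ⟨h1, h2⟩ := CLO_cons h'
    rcases List.mem_cons.1 ha with rfl | ha
    · exact h1
    · exact ih ha h2

theorem CLO_pair {α β : Type} [Enc α] [Enc β] {p : α × β} {d : D} (h : enc p ∈ subtrees d) :
    enc p.1 ∈ subtrees d ∧ enc p.2 ∈ subtrees d :=
  CLO_cons (a := enc p.1) (b := enc p.2) h

theorem CLO_parts (T : Inst) : enc T.C ∈ subtrees (enc T) ∧ enc T.K.tbox ∈ subtrees (enc T) ∧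
    enc T.K.abox ∈ subtrees (enc T) ∧ enc T.P.mini ∈ subtrees (enc T) ∧
    enc T.P.fixd ∈ subtrees (enc T) := by
  have h0 : enc (T.C, T.K, T.P) ∈ subtrees (enc T) := CLO_refl _
  obtain ⟨h1, h2⟩ := CLO_pair h0
  obtain ⟨h3, h4⟩ := CLO_pair h2
  have h3' : enc (T.K.tbox, T.K.abox) ∈ subtrees (enc T) := h3
  have h4' : enc (T.P.mini, T.P.fixd, T.P.prec) ∈ subtrees (enc T) := h4
  obtain ⟨h5, h6⟩ := CLO_pair h3'
  obtain ⟨h7, h8⟩ := CLO_pair h4'
  obtain ⟨h9, -⟩ := CLO_pair h8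
  exact ⟨h1, h5, h6, h7, h9⟩

theorem clo (T : Inst) : Clo T := by
  obtain ⟨hC, hT, hA, hM, hF⟩ := CLO_parts T
  refine ⟨?_, ?_, ?_, ?_, ?_, ?_, ?_, ?_, ?_, ?_, ?_, ?_, ?_⟩
  · intro C h
    rcases CLO_cs.1 h with h | ⟨A, _, h⟩ | ⟨A, _, h⟩ | ⟨A, _, h⟩
    · have h' : D.cons (FP.num 1) (enc C) ∈ subtrees (enc T) := h
      exact CLO_cs.2 (Or.inl (CLO_cons h').2)
    all_goals simp at h
  · intro C E h
    rcases CLO_cs.1 h with h | ⟨A, _, h⟩ | ⟨A, _, h⟩ | ⟨A, _, h⟩
    · have h' : D.cons (FP.num 2) (D.cons (enc C) (enc E)) ∈ subtrees (enc T) := h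
      have h2 := CLO_cons (CLO_cons h').2
      exact ⟨CLO_cs.2 (Or.inl h2.1), CLO_cs.2 (Or.inl h2.2)⟩
    all_goals simp at h
  · intro R C h
    rcases CLO_cs.1 h with h | ⟨A, _, h⟩ | ⟨A, _, h⟩ | ⟨A, _, h⟩
    · have h' : D.cons (FP.num 3) (D.cons (enc R) (enc C)) ∈ subtrees (enc T) := h
      exact CLO_cs.2 (Or.inl (CLO_cons (CLO_cons h').2).2)
    all_goals simp at h
  · intro P C h
    rcases CLO_cs.1 h with h | ⟨A, _, h⟩ | ⟨A, _, h⟩ | ⟨A, _, h⟩
    · have h' : D.cons (FP.num 3) (D.cons (D.cons D.nil (enc P)) (enc C)) ∈ subtrees (enc T) := h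
      exact CLO_nats.2 (CLO_cons (CLO_cons (CLO_cons h').2).1).2
    all_goals simp at h
  · intro P C h
    rcases CLO_cs.1 h with h | ⟨A, _, h⟩ | ⟨A, _, h⟩ | ⟨A, _, h⟩
    · have h' : D.cons (FP.num 3) (D.cons (D.cons (D.cons D.nil D.nil) (enc P)) (enc C)) ∈
        subtrees (enc T) := h
      exact CLO_nats.2 (CLO_cons (CLO_cons (CLO_cons h').2).1).2
    all_goals simp at h
  · intro P h
    rcases CLO_cs.1 h with h | ⟨A, _, h⟩ | ⟨A, hA, h⟩ | ⟨A, _, h⟩
    · have h' : D.cons (FP.num 4) (D.cons D.nil (enc P)) ∈ subtrees (enc T) := h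
      exact CLO_nats.2 (CLO_cons (CLO_cons h').2).2
    · simp at h
    · simp only [Con.le1.injEq, Rol.nm.injEq] at h
      rw [← h]; exact hA
    · simp at h
  · intro P h
    rcases CLO_cs.1 h with h | ⟨A, _, h⟩ | ⟨A, _, h⟩ | ⟨A, hA, h⟩
    · have h' : D.cons (FP.num 4) (D.cons (D.cons D.nil D.nil) (enc P)) ∈ subtrees (enc T) := h
      exact CLO_nats.2 (CLO_cons (CLO_cons h').2).2
    · simp at h
    · simp at h
    · simp only [Con.le1.injEq, Rol.inv.injEq] at h
      rw [← h]; exact hA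
  · intro p hp
    obtain ⟨h1, h2⟩ := CLO_pair (CLO_list hp hT)
    exact ⟨CLO_cs.2 (Or.inl h1), CLO_cs.2 (Or.inl h2)⟩
  · intro A a h
    have h1 := CLO_list h hA
    have h' : D.cons D.nil (D.cons (enc A) (enc a)) ∈ subtrees (enc T) := h1
    have h2 := CLO_cons (CLO_cons h').2
    exact ⟨CLO_nats.2 h2.1, CLO_nats.2 h2.2⟩
  · intro P a b h
    have h1 := CLO_list h hA
    have h' : D.cons (D.cons D.nil D.nil) (D.cons (enc P) (D.cons (enc a) (enc b))) ∈
      subtrees (enc T) := h1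
    have h2 := CLO_cons (CLO_cons h').2
    have h3 := CLO_cons h2.2
    exact ⟨CLO_nats.2 h2.1, CLO_nats.2 h3.1, CLO_nats.2 h3.2⟩
  · exact CLO_cs.2 (Or.inl hC)
  · intro X hX
    exact CLO_nats.2 (CLO_list hX hM)
  · intro X hX
    exact CLO_nats.2 (CLO_list hX hF)

end Pool.Agent.H24U
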