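import Pool.Agent.Lib.H24U.NfClo

/-!
# Chunk GTP: the types of a model are good

`typOf_tp`: `getD` of a `map` at `idxOf`. `good_tp`: `tys`: the list of Booleans is in
`lists [false, true] _`, `okT` by the semantics (`ofD`-codes are irrelevant here; use
`typOf_tp` and `clo T`); `una` for `excl`; `sgs`: only `I.ind a`; roles: the relation `I.rol P` for
`roleOf T P` (`Real`: note `(I.ext (.le1 (.inv P)))` quantifies over the predecessors).
-/

set_option autoImplicit false

namespace Pool.Agent.H24U

open Pool.Agent.PolyTime Pool.Agent.H24N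

/-- the type of an element -/
noncomputable def tp {Δ : Type} (T : Inst) (I : Interp Δ) (x : Δ) : Ty :=
  open Classical in (fms T).map fun φ => decide (fsat I x φ)

theorem GTP_lawful_sum (α β : Type) [BEq α] [BEq β] [LawfulBEq α] [LawfulBEq β] :
    LawfulBEq (α ⊕ β) where
  eq_of_beq {a b} h := by
    cases a <;> cases b
    · exact congrArg Sum.inl (eq_of_beq h)
    · exact absurd h (by intro h2; cases h2)
    · exact absurd h (by intro h2; cases h2)
    · exact congrArg Sum.inr (eq_of_beq h)
  rfl {a} := by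
    cases a
    · exact beq_self_eq_true (α := α) _
    · exact beq_self_eq_true (α := β) _

theorem typOf_tp {Δ : Type} (T : Inst) (I : Interp Δ) : TypOf T I (tp T I) := by
  classical
  intro x φ hφ
  have h1 : LawfulBEq (ℕ ⊕ (ℕ × ℕ)) := GTP_lawful_sum _ _
  have h2 : LawfulBEq (Con ⊕ ℕ ⊕ (ℕ × ℕ)) := GTP_lawful_sum _ _
  have hlt : (fms T).idxOf φ < (fms T).length := List.idxOf_lt_length_iff.2 hφ
  unfold bit tp pos
  rw [List.getD_eq_getElem _ _ (by rw [List.length_map]; exact hlt), List.getElem_map,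
    List.getElem_idxOf, decide_eq_true_iff]

theorem GTP_bitC {Δ : Type} (T : Inst) (I : Interp Δ) (x : Δ) {C : Con} (hC : C ∈ cs T) :
    bit (tp T I x) (posC T C) = true ↔ x ∈ I.ext C :=
  typOf_tp T I x _ (inl_mem_fms.2 hC)

theorem GTP_bitI {Δ : Type} (T : Inst) (I : Interp Δ) (x : Δ) {a : ℕ} (ha : a ∈ nats T) :
    bit (tp T I x) (posI T a) = true ↔ x = I.ind a :=
  typOf_tp T I x _ (inr_inl_mem_fms.2 ha)

theorem GTP_bitE {Δ : Type} (T : Inst) (I : Interp Δ) (x : Δ) {p : ℕ × ℕ} (h1 : p.1 ∈ nats T)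
    (h2 : p.2 ∈ nats T) : bit (tp T I x) (posE T p) = true ↔ I.rol p.1 x (I.ind p.2) :=
  typOf_tp T I x _ (inr_inr_mem_fms.2 ⟨h1, h2⟩)

theorem GTP_ainds {T : Inst} {a : ℕ} (ha : a ∈ ainds T) :
    a ∈ nats T ∧ ∃ φ ∈ T.K.abox, a ∈ φ.inds := by
  unfold ainds at ha
  rw [List.mem_flatMap] at ha
  obtain ⟨φ, hφ, haφ⟩ := ha
  refine ⟨?_, φ, hφ, haφ⟩
  cases φ with
  | con A b =>
    simp only [Assertion.inds, List.mem_singleton] at haφ
    subst haφ
    exact ((clo T).acon _ _ hφ).2
  | rol P b c =>
    simp only [Assertion.inds, List.mem_cons, List.not_mem_nil, or_false] at haφ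
    rcases haφ with rfl | rfl
    · exact ((clo T).arol _ _ _ hφ).2.1
    · exact ((clo T).arol _ _ _ hφ).2.2

theorem GTP_ok {Δ : Type} (T : Inst) (I : Interp Δ) (h : T.K.Models I) (x : Δ) :
    (nf T).okT (tp T I x) = true := by
  have hclo := clo T
  unfold NF.okT
  simp only [Bool.and_eq_true, List.all_eq_true]
  refine ⟨⟨⟨?_, ?_⟩, ?_⟩, ?_⟩
  · intro p hp
    simp only [nf, List.mem_map, List.mem_filter, decide_eq_true_iff] at hp
    obtain ⟨C, ⟨hC, ht⟩, rfl⟩ := hp
    cases C with
    | neg C =>
      have h1 := GTP_bitC T I x hC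
      have h2 := GTP_bitC T I x (hclo.neg C hC)
      simp only [carg1]
      have h3 : (x ∈ I.ext (Con.neg C)) ↔ ¬ x ∈ I.ext C := Iff.rfl
      rw [h3, ← h2] at h1
      cases hb : bit (tp T I x) (posC T C) <;> cases hb' : bit (tp T I x) (posC T (Con.neg C)) <;>
        simp [hb, hb'] at h1 ⊢
    | nm A => simp [ctag] at ht
    | and C E => simp [ctag] at ht
    | ex R C => simp [ctag] at ht
    | le1 R => simp [ctag] at ht
  · intro p hp
    simp only [nf, List.mem_map, List.mem_filter, decide_eq_true_iff] at hp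
    obtain ⟨C, ⟨hC, ht⟩, rfl⟩ := hp
    cases C with
    | and C E =>
      have h1 := GTP_bitC T I x hC
      have h2 := GTP_bitC T I x (hclo.and C E hC).1
      have h4 := GTP_bitC T I x (hclo.and C E hC).2
      simp only [carg1, carg2]
      have h3 : (x ∈ I.ext (Con.and C E)) ↔ (x ∈ I.ext C ∧ x ∈ I.ext E) := Iff.rfl
      rw [h3, ← h2, ← h4] at h1
      cases hb : bit (tp T I x) (posC T C) <;> cases hb2 : bit (tp T I x) (posC T E) <;>
        cases hb' : bit (tp T I x) (posC T (Con.and C E)) <;> simp [hb, hb', hb2] at h1 ⊢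
    | nm A => simp [ctag] at ht
    | neg C => simp [ctag] at ht
    | ex R C => simp [ctag] at ht
    | le1 R => simp [ctag] at ht
  · intro p hp
    simp only [nf, List.mem_append, List.mem_map] at hp
    have key : (bit (tp T I x) p.1 = true → bit (tp T I x) p.2 = true) →
        (!bit (tp T I x) p.1 || bit (tp T I x) p.2) = true := by
      intro h1
      cases hb : bit (tp T I x) p.1
      · rfl
      · rw [h1 hb]; rfl
    apply key
    rcases hp with ⟨q, hq, rfl⟩ | ⟨φ, hφ, rfl⟩
    · intro h1
      have h2 := hclo.tbox q hq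
      exact (GTP_bitC T I x h2.2).2 (h.tbox q hq x ((GTP_bitC T I x h2.1).1 h1))
    · have h0 := h.abox φ hφ
      cases φ with
      | con A a =>
        have h2 := hclo.acon A a hφ
        intro h1
        have h3 := (GTP_bitI T I x h2.2).1 h1
        refine (GTP_bitC T I x (nm_mem_cs h2.1)).2 ?_
        rw [h3]
        exact h0
      | rol P a b =>
        have h2 := hclo.arol P a b hφ
        intro h1
        have h3 := (GTP_bitI T I x h2.2.1).1 h1
        refine (GTP_bitE T I x (p := (P, b)) h2.1 h2.2.2).2 ?_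
        rw [h3]
        exact h0
  · intro p hp
    simp only [nf, List.mem_map, List.mem_filter, decide_eq_true_iff] at hp
    obtain ⟨q, ⟨hq, hne⟩, rfl⟩ := hp
    obtain ⟨hq1, hq2⟩ := List.mem_product.1 hq
    obtain ⟨hn1, φ, hφ, hφ1⟩ := GTP_ainds hq1
    obtain ⟨hn2, ψ, hψ, hψ1⟩ := GTP_ainds hq2
    have h1 := GTP_bitI T I x hn1
    have h2 := GTP_bitI T I x hn2
    cases hb : bit (tp T I x) (posI T q.1)
    · rfl
    cases hb' : bit (tp T I x) (posI T q.2)
    · rfl
    exact absurd (h.una φ hφ ψ hψ _ hφ1 _ hψ1 ((h1.1 hb).symm.trans (h2.1 hb'))) hne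

theorem good_tp {Δ : Type} (T : Inst) (I : Interp Δ) (h : T.K.Models I) :
    (nf T).Good (tp T I) := by
  have hclo := clo T
  refine ⟨?_, ?_, ?_⟩
  · intro x
    unfold NF.tys
    rw [List.mem_filter]
    refine ⟨mem_lists.2 ⟨?_, fun a _ => ?_⟩, GTP_ok T I h x⟩
    · simp [nf, tp]
    · cases a <;> simp
  · intro a ha
    simp only [nf, List.mem_map] at ha
    obtain ⟨n, hn, rfl⟩ := ha
    exact ⟨I.ind n, (GTP_bitI T I _ hn).2 rfl, fun y hy => (GTP_bitI T I y hn).1 hy⟩
  · intro ρ hρ
    simp only [nf, List.mem_map] at hρ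
    obtain ⟨P, hP, rfl⟩ := hρ
    refine ⟨I.rol P, ?_, ?_, ?_, ?_⟩
    · intro x
      exact GTP_bitC T I x (len_mem_cs hP)
    · intro y
      exact GTP_bitC T I y (lei_mem_cs hP)
    · intro p hp x
      simp only [rex, roleOf, List.mem_append, List.mem_map, List.mem_filter, Bool.and_eq_true,
        decide_eq_true_iff] at hp
      rcases hp with ⟨C, ⟨hC, ht, hr⟩, rfl⟩ | ⟨q, ⟨hq, hqP⟩, rfl⟩
      · cases C with
        | ex R C =>
          simp only [crole] at hr
          subst hr
          simp only [carg1]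
          rw [GTP_bitC T I x hC]
          have h2 := fun y => GTP_bitC T I y (hclo.ex _ C hC)
          simp only [h2]
          exact Iff.rfl
        | nm A => simp [ctag] at ht
        | neg C => simp [ctag] at ht
        | and C E => simp [ctag] at ht
        | le1 R => simp [ctag] at ht
      · obtain ⟨hq1, hq2⟩ := List.mem_product.1 hq
        rw [GTP_bitE T I x hq1 hq2]
        have h2 := fun y => GTP_bitI T I y hq2
        simp only [h2]
        subst hqP
        constructor
        · intro h3
          exact ⟨_, h3, rfl⟩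
        · rintro ⟨y, h3, rfl⟩
          exact h3
    · intro p hp x
      simp only [rey, roleOf, List.mem_map, List.mem_filter, Bool.and_eq_true,
        decide_eq_true_iff] at hp
      obtain ⟨C, ⟨hC, ht, hr⟩, rfl⟩ := hp
      cases C with
      | ex R C =>
        simp only [crole] at hr
        subst hr
        simp only [carg1]
        rw [GTP_bitC T I x hC]
        have h2 := fun y => GTP_bitC T I y (hclo.ex _ C hC)
        simp only [h2]
        exact Iff.rfl
      | nm A => simp [ctag] at ht
      | neg C => simp [ctag] at ht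
      | and C E => simp [ctag] at ht
      | le1 R => simp [ctag] at ht

end Pool.Agent.H24U
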