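import Pool.Agent.Lib.H24U.Nf
import Pool.Agent.Lib.H24U.PTTools
import Pool.Agent.Lib.H24N.PTInst

/-!
# Chunk PC: parts of concepts, assertions and instances

On codes: `ctag C` is determined by comparing `hd (encCon C)` with `FP.num 0 .. FP.num 4`
(`PT.eqD`/`PT.decide_eq` on `D`, `PT.ite`); `carg1`, `carg2`, `crole` are `hd`/`tl` of `tl (encCon C)` (or `C`
itself), again by cases on the constructor. A function with values in `Con` is `PT` if its code is
computed by an `FP` function: `PT f` unfolds to `FP (fun a => enc a) fun a => enc (f a)`. The projections of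
structures are projections of tuples (`enc T = enc (T.C, T.K, T.P)` by `rfl`, `FP.id`, `FP.reindex`; see
`PT_tup` in `H24N/PTInst.lean`).
-/

set_option autoImplicit false

namespace Pool.Agent.H24U

open Pool.Agent.PolyTime Pool.Agent.H24N

variable {α : Type} [Enc α]

/-- a function is `PT` if its code is -/
theorem pc_lift {α β : Type} [Enc α] [Enc β] {f : α → β} {g : α → D} (hg : PT g)
    (h : ∀ a, g a = enc (f a)) : PT f := FP.congr hg h

theorem pc_eqHd (n : ℕ) : PT fun C : Con => decide (D.hd (enc C) = FP.num n) :=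
  PT.eqD (f := fun C : Con => D.hd (enc C)) (g := fun _ => FP.num n) (by fun_prop) (PT.const _)

theorem pc_hd (C : Con) : D.hd (enc C) = FP.num (ctag C) := by cases C <;> rfl

theorem pc_hd_eq (C : Con) (n : ℕ) : D.hd (enc C) = FP.num n ↔ ctag C = n := by
  rw [pc_hd]
  exact ⟨fun h => WI_num_inj _ _ h, fun h => by rw [h]⟩

theorem pc_ctag : PT ctag := by
  have h : PT fun C : Con => if D.hd (enc C) = FP.num 0 then 0 else
      if D.hd (enc C) = FP.num 1 then 1 else if D.hd (enc C) = FP.num 2 then 2 else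
      if D.hd (enc C) = FP.num 3 then 3 else (4 : ℕ) :=
    PT.ite (pc_eqHd 0) (PT.const _) (PT.ite (pc_eqHd 1) (PT.const _)
      (PT.ite (pc_eqHd 2) (PT.const _) (PT.ite (pc_eqHd 3) (PT.const _) (PT.const _))))
  refine h.congr fun C => ?_
  simp only [pc_hd_eq]
  cases C <;> rfl

theorem pc_carg1 : PT carg1 := by
  have h : PT fun C : Con => if D.hd (enc C) = FP.num 1 then D.tl (enc C) else
      if D.hd (enc C) = FP.num 2 then D.hd (D.tl (enc C)) else
      if D.hd (enc C) = FP.num 3 then D.tl (D.tl (enc C)) else (enc C : D) :=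
    PT.ite (pc_eqHd 1) (by fun_prop) (PT.ite (pc_eqHd 2) (by fun_prop)
      (PT.ite (pc_eqHd 3) (by fun_prop) (by fun_prop)))
  refine pc_lift h fun C => ?_
  simp only [pc_hd_eq]
  cases C <;> rfl

theorem pc_carg2 : PT carg2 := by
  have h : PT fun C : Con => if D.hd (enc C) = FP.num 2 then D.tl (D.tl (enc C)) else
      (enc C : D) :=
    PT.ite (pc_eqHd 2) (by fun_prop) (by fun_prop)
  refine pc_lift h fun C => ?_
  simp only [pc_hd_eq]
  cases C <;> rfl

theorem pc_crole : PT crole := by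
  have h : PT fun C : Con => if D.hd (enc C) = FP.num 3 then D.hd (D.tl (enc C)) else
      if D.hd (enc C) = FP.num 4 then D.tl (enc C) else (enc (Rol.nm 0) : D) :=
    PT.ite (pc_eqHd 3) (by fun_prop) (PT.ite (pc_eqHd 4) (by fun_prop) (PT.const _))
  refine pc_lift h fun C => ?_
  simp only [pc_hd_eq]
  cases C <;> rfl

theorem pc_isNil : PT fun φ : Assertion => isNil (D.hd (enc φ)) := by fun_prop

theorem pc_aind : PT aind := by
  have h : PT fun φ : Assertion => bif isNil (D.hd (enc φ)) then D.tl (D.tl (enc φ)) else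
      D.hd (D.tl (D.tl (enc φ))) :=
    PT.bif pc_isNil (by fun_prop) (by fun_prop)
  refine pc_lift h fun φ => ?_
  cases φ <;> rfl

theorem pc_afm : PT afm := by
  have h : PT fun φ : Assertion => bif isNil (D.hd (enc φ)) then
        D.cons D.nil (D.cons (FP.num 0) (D.hd (D.tl (enc φ)))) else
        D.cons (D.cons D.nil D.nil) (D.cons (D.cons D.nil D.nil) (D.cons (D.hd (D.tl (enc φ)))
          (D.tl (D.tl (D.tl (enc φ)))))) :=
    PT.bif pc_isNil (by fun_prop) (by fun_prop)
  refine pc_lift h fun φ => ?_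
  cases φ <;> rfl

theorem pc_inds : PT Assertion.inds := by
  have h : PT fun φ : Assertion => bif isNil (D.hd (enc φ)) then
        D.cons (D.tl (D.tl (enc φ))) D.nil else
        D.cons (D.hd (D.tl (D.tl (enc φ)))) (D.cons (D.tl (D.tl (D.tl (enc φ)))) D.nil) :=
    PT.bif pc_isNil (by fun_prop) (by fun_prop)
  refine pc_lift h fun φ => ?_
  cases φ <;> rfl

theorem pc_tup : PT fun T : Inst =>
    (T.C, (T.K.tbox, T.K.abox), (T.P.mini, T.P.fixd, T.P.prec)) := FP.id _

@[fun_prop] theorem PT_ctag {f : α → Con} (hf : PT f) : PT fun a => ctag (f a) := by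
  exact PT.comp pc_ctag hf

@[fun_prop] theorem PT_carg1 {f : α → Con} (hf : PT f) : PT fun a => carg1 (f a) := by
  exact PT.comp pc_carg1 hf

@[fun_prop] theorem PT_carg2 {f : α → Con} (hf : PT f) : PT fun a => carg2 (f a) := by
  exact PT.comp pc_carg2 hf

@[fun_prop] theorem PT_crole {f : α → Con} (hf : PT f) : PT fun a => crole (f a) := by
  exact PT.comp pc_crole hf

@[fun_prop] theorem PT_aind {f : α → Assertion} (hf : PT f) : PT fun a => aind (f a) := by
  exact PT.comp pc_aind hf

@[fun_prop] theorem PT_afm {f : α → Assertion} (hf : PT f) : PT fun a => afm (f a) := by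
  exact PT.comp pc_afm hf

@[fun_prop] theorem PT_inds {f : α → Assertion} (hf : PT f) :
    PT fun a => Assertion.inds (f a) := by
  exact PT.comp pc_inds hf

@[fun_prop] theorem PT_instC {f : α → Inst} (hf : PT f) : PT fun a => (f a).C := by
  exact PT.fst (PT.comp pc_tup hf)

@[fun_prop] theorem PT_instTbox {f : α → Inst} (hf : PT f) : PT fun a => (f a).K.tbox := by
  exact PT.fst (PT.fst (PT.snd (PT.comp pc_tup hf)))

@[fun_prop] theorem PT_instAbox {f : α → Inst} (hf : PT f) : PT fun a => (f a).K.abox := by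
  exact PT.snd (PT.fst (PT.snd (PT.comp pc_tup hf)))

@[fun_prop] theorem PT_instMini {f : α → Inst} (hf : PT f) : PT fun a => (f a).P.mini := by
  exact PT.fst (PT.snd (PT.snd (PT.comp pc_tup hf)))

@[fun_prop] theorem PT_instFixd {f : α → Inst} (hf : PT f) : PT fun a => (f a).P.fixd := by
  exact PT.fst (PT.snd (PT.snd (PT.snd (PT.comp pc_tup hf))))

@[fun_prop] theorem PT_instPrec {f : α → Inst} (hf : PT f) : PT fun a => (f a).P.prec := by
  exact PT.snd (PT.snd (PT.snd (PT.snd (PT.comp pc_tup hf))))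

/-- test of well-formedness of the pattern -/
def okB (P : Pattern) : Bool :=
  P.mini.all (fun X => !decide (X ∈ P.fixd)) &&
    P.prec.all (fun p => decide (p.1 ∈ P.mini) && decide (p.2 ∈ P.mini)) &&
    P.prec.all (fun p => !decide (p.1 = p.2)) &&
    P.prec.all (fun p => P.prec.all fun r => !decide (p.2 = r.1) || decide ((p.1, r.2) ∈ P.prec))

theorem okB_iff (P : Pattern) : okB P = true ↔ P.Ok := by
  simp only [okB, Bool.and_eq_true, List.all_eq_true, Bool.not_eq_true', decide_eq_false_iff_not,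
    decide_eq_true_eq, Bool.or_eq_true]
  constructor
  · rintro ⟨⟨⟨h1, h2⟩, h3⟩, h4⟩
    refine ⟨h1, h2, fun X hX => h3 _ hX rfl, fun X Y Z hXY hYZ => ?_⟩
    rcases h4 _ hXY _ hYZ with h | h
    · exact absurd rfl h
    · exact h
  · rintro ⟨h1, h2, h3, h4⟩
    refine ⟨⟨⟨h1, h2⟩, ?_⟩, ?_⟩
    · rintro ⟨X, Y⟩ hp h
      have h' : X = Y := h
      subst h'
      exact h3 X hp
    · rintro ⟨X, Y⟩ hp ⟨Y', Z⟩ hr
      by_cases h : Y = Y'
      · subst h
        exact Or.inr (h4 _ _ _ hp hr)
      · exact Or.inl h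

theorem PT_okB : PT fun T : Inst => okB T.P := by
  have hm : PT fun T : Inst => T.P.mini := PT_instMini PT.id
  have hf : PT fun T : Inst => T.P.fixd := PT_instFixd PT.id
  have hp : PT fun T : Inst => T.P.prec := PT_instPrec PT.id
  unfold okB
  refine PT.and (PT.and (PT.and ?_ ?_) ?_) ?_
  · exact PT.all (f := fun (T : Inst) (X : ℕ) => !decide (X ∈ T.P.fixd))
      (PT.not (PT.mem (by fun_prop) (PT.comp hf (f := fun p : Inst × ℕ => p.1) (by fun_prop)))) hm
  · exact PT.all (f := fun (T : Inst) (p : ℕ × ℕ) =>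
        decide (p.1 ∈ T.P.mini) && decide (p.2 ∈ T.P.mini))
      (PT.and (PT.mem (by fun_prop) (PT.comp hm (f := fun p : Inst × ℕ × ℕ => p.1) (by fun_prop)))
        (PT.mem (by fun_prop) (PT.comp hm (f := fun p : Inst × ℕ × ℕ => p.1) (by fun_prop)))) hp
  · exact PT.all (f := fun (_ : Inst) (p : ℕ × ℕ) => !decide (p.1 = p.2)) (by fun_prop) hp
  · refine PT.all (f := fun (T : Inst) (p : ℕ × ℕ) =>
      T.P.prec.all fun r => !decide (p.2 = r.1) || decide ((p.1, r.2) ∈ T.P.prec)) ?_ hp
    refine PT.all (f := fun (q : Inst × ℕ × ℕ) (r : ℕ × ℕ) =>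
      !decide (q.2.2 = r.1) || decide ((q.2.1, r.2) ∈ q.1.P.prec)) ?_
      (PT.comp hp (f := fun p : Inst × ℕ × ℕ => p.1) (by fun_prop))
    refine PT.or (by fun_prop) ?_
    refine (PT.mem (f := fun p : (Inst × ℕ × ℕ) × ℕ × ℕ => (p.1.2.1, p.2.2))
      (l := fun p => p.1.1.P.prec) (by fun_prop)
      (PT.comp hp (f := fun p : (Inst × ℕ × ℕ) × ℕ × ℕ => p.1.1) (by fun_prop))).congr ?_
    exact fun p => decide_eq_decide.2 Iff.rfl

end Pool.Agent.H24U
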