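import Pool.Agent.Lib.H24U.PTSysW

/-!
# Chunk PR3: the families of systems in polynomial time
-/

set_option autoImplicit false

namespace Pool.Agent.H24U

open Pool.Agent.PolyTime

variable {α : Type} [Enc α] {y : α → List Bool} {F : α → NF} {tys : α → List Ty}
  {Θ W : α → List Th} {l : α → List ℕ}

@[fun_prop] theorem PT_tysP (hy : PT y) (hF : PT F) : PT fun a => tysP (y a) (F a) := by
  unfold tysP
  exact PT.filter (f := fun (a : α) (t : Ty) => (F a).okT t) (by fun_prop)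
    (PT_capLists hy (PT.const _) (PT_len hF))

@[fun_prop] theorem PT_patsP {m : α → List (ℕ × ℕ)} (hy : PT y) (hΘ : PT Θ) (hm : PT m) :
    PT fun a => patsP (y a) (Θ a) (m a) := by
  unfold patsP
  refine PT.flatMap (f := fun (a : α) (k : ℕ) => capLists (y a) (Θ a) ((m a).take k)) ?_
    (PL.range (PL.add (PL.length hm) (PL.const 1)))
  exact PT_capLists (by fun_prop) (by fun_prop) (by fun_prop)

@[fun_prop] theorem PT_sgOk (hF : PT F) (hΘ : PT Θ) (hl : PT l) :
    PT fun a => sgOk (F a) (Θ a) (look (Θ a) (l a) 0) := by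
  unfold sgOk
  refine PT.all (f := fun (a : α) (i : ℕ) =>
    decide ((((Θ a).filter fun θ => bit θ.2 i).map (look (Θ a) (l a) 0)).sum = 1)) ?_ (PT_sgs hF)
  refine PT.decide_eq (PT_sum ?_) (PT.const 1)
  refine PT.map (f := fun (q : α × ℕ) (θ : Th) => look (Θ q.1) (l q.1) 0 θ)
    (PT_look (o := fun q : (α × ℕ) × Th => Θ q.1.1) (l := fun q => l q.1.1) (d := fun _ => 0)
      (x := fun q => q.2) (by fun_prop) (by fun_prop) (by fun_prop) (by fun_prop)) ?_
  exact PT.filter (f := fun (q : α × ℕ) (θ : Th) => bit θ.2 q.2) (by fun_prop) (by fun_prop)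

@[fun_prop] theorem PT_goalOk (hF : PT F) (hΘ : PT Θ) (hl : PT l) :
    PT fun a => goalOk (F a) (Θ a) (look (Θ a) (l a) 0) := by
  unfold goalOk
  exact PT.any (f := fun (a : α) (θ : Th) => decide (1 ≤ look (Θ a) (l a) 0 θ) &&
    bit θ.2 (F a).goal) (by fun_prop) hΘ

theorem PR3_subB {X : α → ℕ} (hW : PT W) (hX : PT X) : PT fun a => subB (W a) (X a) := by
  unfold subB
  exact PT.all (f := fun (a : α) (θ : Th) => !bit θ.2 (X a) || bit θ.1 (X a)) (by fun_prop) hW

theorem PR3_supB {X : α → ℕ} (hW : PT W) (hX : PT X) : PT fun a => supB (W a) (X a) := by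
  unfold supB
  exact PT.all (f := fun (a : α) (θ : Th) => !bit θ.1 (X a) || bit θ.2 (X a)) (by fun_prop) hW

theorem PR3_mem {X Y : α → ℕ} (hF : PT F) (hX : PT X) (hY : PT Y) :
    PT fun a => decide ((Y a, X a) ∈ (F a).prec) :=
  (PT.mem (f := fun a => (Y a, X a)) (l := fun a => (F a).prec) (PT.pair hY hX)
    (PT_prec hF)).congr fun _ => decide_eq_decide.2 Iff.rfl

@[fun_prop] theorem PT_betW (hF : PT F) (hW : PT W) : PT fun a => betW (F a) (W a) := by
  have m1 : PT fun q : (α × ℕ) × ℕ => decide ((q.2, q.1.2) ∈ (F q.1.1).prec) :=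
    PR3_mem (F := fun q : (α × ℕ) × ℕ => F q.1.1) (X := fun q => q.1.2) (Y := fun q => q.2)
      (by fun_prop) (by fun_prop) (by fun_prop)
  have s1 : PT fun q : (α × ℕ) × ℕ => subB (W q.1.1) q.2 :=
    PR3_subB (by fun_prop) (by fun_prop)
  have s2 : PT fun q : (α × ℕ) × ℕ => supB (W q.1.1) q.2 :=
    PR3_supB (by fun_prop) (by fun_prop)
  have s3 : PT fun q : α × ℕ => subB (W q.1) q.2 := PR3_subB (by fun_prop) (by fun_prop)
  have s4 : PT fun q : α × ℕ => supB (W q.1) q.2 := PR3_supB (by fun_prop) (by fun_prop)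
  unfold betW
  refine PT.and ?_ ?_
  · refine PT.all (f := fun (a : α) (X : ℕ) => subB (W a) X ||
      (F a).mini.any fun Y => decide ((Y, X) ∈ (F a).prec) && subB (W a) Y && !supB (W a) Y) ?_
      (PT_mini hF)
    refine PT.or s3 ?_
    exact PT.any (f := fun (q : α × ℕ) (Y : ℕ) =>
      decide ((Y, q.2) ∈ (F q.1).prec) && subB (W q.1) Y && !supB (W q.1) Y)
      (PT.and (PT.and m1 s1) (PT.not s2)) (by fun_prop)
  · refine PT.any (f := fun (a : α) (X : ℕ) => subB (W a) X && !supB (W a) X &&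
      (F a).mini.all fun Y => !decide ((Y, X) ∈ (F a).prec) || (subB (W a) Y && supB (W a) Y)) ?_
      (PT_mini hF)
    refine PT.and (PT.and s3 (PT.not s4)) ?_
    exact PT.all (f := fun (q : α × ℕ) (Y : ℕ) =>
      !decide ((Y, q.2) ∈ (F q.1).prec) || (subB (W q.1) Y && supB (W q.1) Y))
      (PT.or (PT.not m1) (PT.and s1 s2)) (by fun_prop)

@[fun_prop] theorem PT_betOk (hF : PT F) (hΘ : PT Θ) (hl : PT l) :
    PT fun a => betOk (F a) (Θ a) (look (Θ a) (l a) 0) := by
  unfold betOk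
  exact PT_betW hF (PT.filter (f := fun (a : α) (θ : Th) =>
    decide (1 ≤ look (Θ a) (l a) 0 θ)) (by fun_prop) hΘ)

theorem PR3_fam {pats : α → List (List Th)} {sups : α → List (List ℕ)}
    {ok : α → (Th → ℕ) → Bool} (hF : PT F) (ht : PT tys) (hΘ : PT Θ) (hp : PT pats)
    (hs : PT sups) (hok : PT fun q : α × List ℕ => ok q.1 (look (Θ q.1) q.2 0)) :
    PT fun a => fam (F a) (tys a) (Θ a) (pats a) (sups a) (ok a) := by
  have h1 : PT fun q : α × List ℕ =>
      sysW (F q.1) (tys q.1) (Θ q.1) (pats q.1) (look (Θ q.1) q.2 0) := by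
    refine PT_sysW ?_ ?_ ?_ ?_ ?_
    · fun_prop
    · fun_prop
    · fun_prop
    · fun_prop
    · fun_prop
  have h2 : PT fun a => (sups a).filter fun l => ok a (look (Θ a) l 0) :=
    PT.filter (f := fun (a : α) (l : List ℕ) => ok a (look (Θ a) l 0)) hok hs
  have h3 := PT.map (f := fun (a : α) (l : List ℕ) =>
    sysW (F a) (tys a) (Θ a) (pats a) (look (Θ a) l 0)) h1 h2
  exact h3

@[fun_prop] theorem PT_famI (hy : PT y) (hF : PT F) (ht : PT tys) (hΘ : PT Θ) :
    PT fun a => famI (y a) (F a) (tys a) (Θ a) := by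
  have h1 : PT fun q : α × List ℕ => sgOk (F q.1) (Θ q.1) (look (Θ q.1) q.2 0) := by
    refine PT_sgOk ?_ ?_ ?_
    · fun_prop
    · fun_prop
    · fun_prop
  have h2 : PT fun q : α × List ℕ => goalOk (F q.1) (Θ q.1) (look (Θ q.1) q.2 0) := by
    refine PT_goalOk ?_ ?_ ?_
    · fun_prop
    · fun_prop
    · fun_prop
  exact PR3_fam (ok := fun a sup => sgOk (F a) (Θ a) sup && goalOk (F a) (Θ a) sup) hF ht hΘ
    (PT_patsP hy hΘ (PT_kl hF)) (PT_capLists hy (PT.const _) hΘ) (PT.and h1 h2)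

@[fun_prop] theorem PT_famJ (hy : PT y) (hF : PT F) (ht : PT tys) (hΘ : PT Θ) :
    PT fun a => famJ (y a) (F a) (tys a) (Θ a) := by
  have h1 : PT fun q : α × List ℕ => sgOk (F q.1) (Θ q.1) (look (Θ q.1) q.2 0) := by
    refine PT_sgOk ?_ ?_ ?_
    · fun_prop
    · fun_prop
    · fun_prop
  have h2 : PT fun q : α × List ℕ => betOk (F q.1) (Θ q.1) (look (Θ q.1) q.2 0) := by
    refine PT_betOk ?_ ?_ ?_
    · fun_prop
    · fun_prop
    · fun_prop
  exact PR3_fam (ok := fun a sup => sgOk (F a) (Θ a) sup && betOk (F a) (Θ a) sup) hF ht hΘ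
    (PT_patsP hy hΘ (PT_kl hF)) (PT_capLists hy (PT.const _) hΘ) (PT.and h1 h2)

end Pool.Agent.H24U
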