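import Pool.Agent.Lib.H24U.Nf
import Pool.Agent.Lib.PolyTime.PL

/-!
# Chunks TR (PT_drec) and ST (PT_subtrees): recursion on trees

TR: compute `g d` with a stack machine. State: a list of tasks `D ⊕ (D × D)` (`inl d`: compute
`g d` and push it on the stack of values; `inr (a, b)`: pop `g b`, `g a` and push
`F a b (g a) (g b)`) and a list of values. One step of the machine is `PT`; after
`2 * d.size` steps the stack of values is `[g d]`; `PT.iterate_length`/`PT.iterate_sz`. At all times
the tasks are subtrees (total size at most `3 * d.size`) and there are at most `d.size` values, each of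
them `g` of a subtree of `d`, so of size at most `c * d.size ^ k`.
(Alternative: fold over the word of `d`.)
ST: `PT_drec` with `F a b x y = D.cons a b :: (x ++ y)`; the size is at most quadratic.
-/

set_option autoImplicit false

namespace Pool.Agent.H24U

open Pool.Agent.PolyTime

/-- tasks of the stack machine: compute `g d`, or combine two values -/
abbrev TRT : Type := D ⊕ (D × D)

/-- combine two values, second case distinction -/
def trPop2 {β : Type} (F : D → D → β → β → β) (s : List TRT × List β) (ts : List TRT)
    (p : D × D) (y : β) (l : List β) : List TRT × List β :=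
  match l with
  | [] => s
  | x :: vs => (ts, F p.1 p.2 x y :: vs)

/-- combine two values -/
def trPop {β : Type} (F : D → D → β → β → β) (s : List TRT × List β) (ts : List TRT)
    (p : D × D) : List TRT × List β :=
  match s.2 with
  | [] => s
  | y :: l => trPop2 F s ts p y l

/-- execute a task -/
def trTask {β : Type} (F : D → D → β → β → β) (g0 : β) (s : List TRT × List β) (t : TRT)
    (ts : List TRT) : List TRT × List β :=
  match t with
  | Sum.inl d => bif isNil d then (ts, g0 :: s.2)
      else (Sum.inl (D.hd d) :: Sum.inl (D.tl d) :: Sum.inr (D.hd d, D.tl d) :: ts, s.2)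
  | Sum.inr p => trPop F s ts p

/-- one step of the stack machine -/
def trStep {β : Type} (F : D → D → β → β → β) (g0 : β) (s : List TRT × List β) :
    List TRT × List β :=
  match s.1 with
  | [] => s
  | t :: ts => trTask F g0 s t ts

theorem PT_trStep {β : Type} [Enc β] (F : D → D → β → β → β) (g0 : β)
    (hF : PT fun p : D × D × β × β => F p.1 p.2.1 p.2.2.1 p.2.2.2) : PT (trStep F g0) := by
  have h2 : PT fun r : (List TRT × List β) × (List TRT) × (D × D) × β × List β =>
      trPop2 F r.1 r.2.1 r.2.2.1 r.2.2.2.1 r.2.2.2.2 := by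
    refine PT.listCases
      (l := fun r : (List TRT × List β) × (List TRT) × (D × D) × β × List β => r.2.2.2.2)
      (f := fun r => r.1) (g := fun r x vs => (r.2.1, F r.2.2.1.1 r.2.2.1.2 x r.2.2.2.1 :: vs))
      (by fun_prop) (by fun_prop) ?_
    refine PT.pair (by fun_prop) (PT.cons ?_ (by fun_prop))
    exact hF.comp (f := fun t : ((List TRT × List β) × (List TRT) × (D × D) × β × List β) ×
      β × List β => (t.1.2.2.1.1, t.1.2.2.1.2, t.2.1, t.1.2.2.2.1)) (by fun_prop)
  have h3 : PT fun r : (List TRT × List β) × (List TRT) × (D × D) =>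
      trPop F r.1 r.2.1 r.2.2 := by
    refine PT.listCases
      (l := fun r : (List TRT × List β) × (List TRT) × (D × D) => r.1.2)
      (f := fun r => r.1) (g := fun r y l => trPop2 F r.1 r.2.1 r.2.2 y l)
      (by fun_prop) (by fun_prop) ?_
    exact h2.comp (f := fun t : ((List TRT × List β) × (List TRT) × (D × D)) × β × List β =>
      (t.1.1, t.1.2.1, t.1.2.2, t.2.1, t.2.2)) (by fun_prop)
  have h4 : PT fun r : (List TRT × List β) × TRT × List TRT => trTask F g0 r.1 r.2.1 r.2.2 := by
    refine (PT.sumCases (o := fun p : (List TRT × List β) × TRT × List TRT => p.2.1)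
      (f := fun p d => bif isNil d then (p.2.2, g0 :: p.1.2)
        else (Sum.inl (D.hd d) :: Sum.inl (D.tl d) :: Sum.inr (D.hd d, D.tl d) :: p.2.2, p.1.2))
      (g := fun p q => trPop F p.1 p.2.2 q)
      (by fun_prop) ?_ ?_).congr (fun r => by unfold trTask; cases r.2.1 <;> rfl)
    · exact PT.bif (by fun_prop) (by fun_prop) (by fun_prop)
    · exact h3.comp (f := fun t : ((List TRT × List β) × TRT × List TRT) × (D × D) =>
        (t.1.1, t.1.2.2, t.2)) (by fun_prop)
  exact (PT.listCases (l := fun s : List TRT × List β => s.1) (f := fun s => s)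
    (g := fun s t ts => trTask F g0 s t ts) (by fun_prop) (by fun_prop) h4).congr
    (fun s => by unfold trStep; cases s.1 <;> rfl)

/-- well-formed states with result `r`; all trees have size at most `n` -/
def TRWF {β : Type} (g : D → β) (n : ℕ) (r : List β) : List TRT → List β → Prop
  | [], vs => vs = r
  | Sum.inl d :: ts, vs => d.size ≤ n ∧ TRWF g n r ts (g d :: vs)
  | Sum.inr p :: ts, vs => ∃ vs', vs = g p.2 :: g p.1 :: vs' ∧ p.1.size + p.2.size + 1 ≤ n ∧
      TRWF g n r ts (g (D.cons p.1 p.2) :: vs')

/-- weight of a task -/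
def trw : TRT → ℕ
  | Sum.inl d => 2 * d.size
  | Sum.inr _ => 1

theorem TRWF.step {β : Type} {F : D → D → β → β → β} {g : D → β}
    (hc : ∀ a b, g (D.cons a b) = F a b (g a) (g b)) {n : ℕ} {r : List β} {ts : List TRT}
    {vs : List β} (h : TRWF g n r ts vs) :
    TRWF g n r (trStep F (g D.nil) (ts, vs)).1 (trStep F (g D.nil) (ts, vs)).2 ∧
      (((trStep F (g D.nil) (ts, vs)).1).map trw).sum ≤ (ts.map trw).sum - 1 := by
  cases ts with
  | nil => exact ⟨h, by simp [trStep]⟩
  | cons t ts =>
    rcases t with d | p
    · cases d with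
      | nil =>
        refine ⟨h.2, ?_⟩
        show ((ts.map trw).sum) ≤ _
        simp [trw]
      | cons a b =>
        obtain ⟨h1, h2⟩ := h
        rw [D.size_cons] at h1
        refine ⟨⟨?_, ?_, vs, rfl, h1, h2⟩, ?_⟩
        · show a.size ≤ n
          omega
        · show b.size ≤ n
          omega
        · show ((Sum.inl a :: Sum.inl b :: Sum.inr (a, b) :: ts).map trw).sum ≤ _
          simp only [List.map_cons, List.sum_cons, trw, D.size_cons]
          omega
    · obtain ⟨vs', rfl, h1, h2⟩ := h
      refine ⟨?_, ?_⟩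
      · show TRWF g n r ts (F p.1 p.2 (g p.1) (g p.2) :: vs')
        rw [← hc]
        exact h2
      · show ((ts.map trw).sum) ≤ _
        simp only [List.map_cons, List.sum_cons, trw]
        omega

theorem TRWF.iter {β : Type} {F : D → D → β → β → β} {g : D → β}
    (hc : ∀ a b, g (D.cons a b) = F a b (g a) (g b)) {n : ℕ} {r : List β} (i : ℕ) :
    ∀ s : List TRT × List β, TRWF g n r s.1 s.2 →
      TRWF g n r ((trStep F (g D.nil))^[i] s).1 ((trStep F (g D.nil))^[i] s).2 ∧
      ((((trStep F (g D.nil))^[i] s).1).map trw).sum ≤ (s.1.map trw).sum - i := by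
  induction i with
  | zero => intro s h; exact ⟨h, by simp⟩
  | succ i ih =>
    rintro ⟨ts, vs⟩ h
    obtain ⟨h1, h2⟩ := h.step hc
    obtain ⟨h3, h4⟩ := ih _ h1
    rw [Function.iterate_succ_apply]
    exact ⟨h3, by simp only at h2 h4 ⊢; omega⟩

theorem TRWF.vals {β : Type} {g : D → β} {n : ℕ} {r : List β}
    (hr : ∀ v ∈ r, ∃ e : D, e.size ≤ n ∧ v = g e) (ts : List TRT) :
    ∀ vs : List β, TRWF g n r ts vs → (∀ v ∈ vs, ∃ e : D, e.size ≤ n ∧ v = g e) ∧
      vs.length ≤ r.length + ts.length := by
  induction ts with
  | nil => rintro vs rfl; exact ⟨hr, by simp⟩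
  | cons t ts ih =>
    intro vs h
    rcases t with d | p
    · obtain ⟨h1, h2⟩ := ih _ h.2
      rw [List.length_cons] at h2
      refine ⟨fun v hv => h1 v (List.mem_cons_of_mem _ hv), ?_⟩
      rw [List.length_cons]
      omega
    · obtain ⟨vs', rfl, h0, h3⟩ := h
      obtain ⟨h1, h2⟩ := ih _ h3
      rw [List.length_cons] at h2
      refine ⟨fun v hv => ?_, ?_⟩
      · rcases List.mem_cons.1 hv with rfl | hv
        · exact ⟨p.2, by omega, rfl⟩
        · rcases List.mem_cons.1 hv with rfl | hv
          · exact ⟨p.1, by omega, rfl⟩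
          · exact h1 v (List.mem_cons_of_mem _ hv)
      · simp only [List.length_cons]
        omega

theorem TRWF.tasks {β : Type} {g : D → β} {n : ℕ} {r : List β} (ts : List TRT) :
    ∀ vs : List β, TRWF g n r ts vs → ∀ t ∈ ts, sz t ≤ n + 5 := by
  induction ts with
  | nil => intro vs _ t ht; simp at ht
  | cons t ts ih =>
    intro vs h t' ht'
    rcases t with d | p
    · rcases List.mem_cons.1 ht' with rfl | ht'
      · have h1 := h.1
        rw [sz_inl]
        show d.size + 2 ≤ _
        omega
      · exact ih _ h.2 t' ht'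
    · obtain ⟨vs', rfl, h0, h3⟩ := h
      rcases List.mem_cons.1 ht' with rfl | ht'
      · rw [sz_inr, sz_prod]
        show p.1.size + p.2.size + 1 + 4 ≤ _
        omega
      · exact ih _ h3 t' ht'

theorem length_le_trw (ts : List TRT) : ts.length ≤ (ts.map trw).sum := by
  induction ts with
  | nil => simp
  | cons t ts ih =>
    have h1 : 1 ≤ trw t := by
      rcases t with d | p
      · have := D.size_pos d
        simp only [trw]
        omega
      · exact le_rfl
    rw [List.length_cons, List.map_cons, List.sum_cons]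
    omega

theorem PT_drec {β : Type} [Enc β] (F : D → D → β → β → β) (g : D → β)
    (hc : ∀ a b, g (D.cons a b) = F a b (g a) (g b))
    (hF : PT fun p : D × D × β × β => F p.1 p.2.1 p.2.2.1 p.2.2.2)
    (hB : PBd fun d : D => sz (g d)) : PT g := by
  obtain ⟨c, k, hck⟩ := hB
  have hinit : ∀ d : D, TRWF g d.size [g d] [Sum.inl d] [] := fun d => ⟨le_rfl, rfl⟩
  have hw : ∀ d : D, (([Sum.inl d] : List TRT).map trw).sum = 2 * d.size := fun d => by
    simp [trw]
  have h1 : PT fun d : D => (trStep F (g D.nil))^[sz (d, d)] (([Sum.inl d] : List TRT), ([] : List β)) := by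
    refine PT.iterate_sz (f := trStep F (g D.nil))
      (s := fun d : D => (([Sum.inl d] : List TRT), ([] : List β))) (n := fun d : D => (d, d))
      (B := fun d : D => (2 * sz d * (sz d + 6) + 1) + ((1 + 2 * sz d) * (c * sz d ^ k + 1) + 1) + 1)
      (PT_trStep F (g D.nil) hF) (by fun_prop) (by fun_prop) ?_ ?_
    · have e1 : PBd fun d : D => 2 * sz d := (PBd.const 2).mul PBd.sz
      have e2 : PBd fun d : D => sz d + 6 := PBd.sz.add (PBd.const 6)
      have e3 : PBd fun d : D => c * sz d ^ k + 1 :=
        ((PBd.const c).mul (PBd.sz.pow k)).add (PBd.const 1)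
      exact (((e1.mul e2).add (PBd.const 1)).add
        (((((PBd.const 1).add e1).mul e3)).add (PBd.const 1))).add (PBd.const 1)
    · intro d i _
      obtain ⟨h2, h3⟩ := TRWF.iter hc i (([Sum.inl d] : List TRT), ([] : List β)) (hinit d)
      generalize (trStep F (g D.nil))^[i] (([Sum.inl d] : List TRT), ([] : List β)) = s at h2 h3
      simp only at h3
      rw [hw] at h3
      have h4 := length_le_trw s.1
      have hs : sz d = d.size := rfl
      obtain ⟨h5, h6⟩ := h2.vals (r := [g d]) (by
        intro v hv
        rw [List.mem_singleton] at hv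
        exact ⟨d, le_rfl, hv⟩) s.1 s.2
      have h7 := h2.tasks s.1 s.2
      have h8 : sz s.1 ≤ s.1.length * (d.size + 5 + 1) + 1 := sz_list_le h7
      have h9 : sz s.2 ≤ s.2.length * (c * sz d ^ k + 1) + 1 := sz_list_le (by
        intro v hv
        obtain ⟨e, he, rfl⟩ := h5 v hv
        refine (hck e).trans (Nat.mul_le_mul_left c (Nat.pow_le_pow_left ?_ k))
        exact he)
      rw [List.length_singleton] at h6
      have h10 : s.1.length * (d.size + 5 + 1) ≤ 2 * sz d * (sz d + 6) := by
        rw [hs]
        exact Nat.mul_le_mul (by omega) le_rfl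
      have h11 : s.2.length * (c * sz d ^ k + 1) ≤ (1 + 2 * sz d) * (c * sz d ^ k + 1) :=
        Nat.mul_le_mul_right _ (by omega)
      rw [sz_prod]
      omega
  have h2 := PT.headD (PT.snd h1) (PT.const (g D.nil))
  refine h2.congr fun d => ?_
  obtain ⟨h3, h4⟩ := TRWF.iter hc (sz (d, d)) (([Sum.inl d] : List TRT), ([] : List β)) (hinit d)
  have h5 : (((trStep F (g D.nil))^[sz (d, d)] (([Sum.inl d] : List TRT), ([] : List β))).1) = [] := by
    have h6 := length_le_trw
      (((trStep F (g D.nil))^[sz (d, d)] (([Sum.inl d] : List TRT), ([] : List β))).1)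
    simp only at h4
    rw [hw, sz_pair] at h4
    have hs : sz d = d.size := rfl
    rw [hs] at h4
    rw [sz_pair, hs] at h6
    rw [sz_pair, hs]
    exact List.eq_nil_of_length_eq_zero (by omega)
  rw [h5] at h3
  have h6 : ((trStep F (g D.nil))^[sz (d, d)] (([Sum.inl d] : List TRT), ([] : List β))).2 =
      [g d] := h3
  rw [h6]
  rfl

theorem length_subtrees (d : D) : (subtrees d).length = d.size := by
  induction d with
  | nil => rfl
  | cons a b iha ihb => simp [subtrees, iha, ihb]

theorem size_le_of_mem_subtrees (d : D) : ∀ e ∈ subtrees d, e.size ≤ d.size := by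
  induction d with
  | nil => intro e he; simp [subtrees] at he; rw [he]
  | cons a b iha ihb =>
    intro e he
    simp only [subtrees, List.mem_cons, List.mem_append] at he
    rw [D.size_cons]
    rcases he with rfl | he | he
    · rw [D.size_cons]
    · have := iha e he; omega
    · have := ihb e he; omega

@[fun_prop] theorem PT_subtrees {α : Type} [Enc α] {f : α → D} (hf : PT f) :
    PT fun a => subtrees (f a) := by
  have h : PT subtrees := by
    refine PT_drec (fun a b x y => D.cons a b :: (x ++ y)) subtrees (fun a b => rfl)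
      (by fun_prop) ?_
    refine PBd.mono (h := fun d : D => sz d * (sz d + 1) + 1) (fun d => ?_)
      ((PBd.sz.mul (PBd.sz.add (PBd.const 1))).add (PBd.const 1))
    have h1 : sz (subtrees d) ≤ (subtrees d).length * (d.size + 1) + 1 :=
      sz_list_le (size_le_of_mem_subtrees d)
    rw [length_subtrees] at h1
    exact h1
  exact h.comp hf

end Pool.Agent.H24U
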