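import Pool.Agent.Lib.H24U.Check
import Pool.Agent.Lib.H24U.PTNF

/-!
# Chunk PR1: statuses in polynomial time

`PT.all`, `PT.any`, `PT.filter`, `PT.map`, `PT.flatMap` (the function argument has to be given
explicitly, e.g. `PT.all (f := fun (a : α) (p : ℕ × ℕ) => ..) (by fun_prop) (by fun_prop)`),
`PT_sum`, `PT_look`.
-/

set_option autoImplicit false

namespace Pool.Agent.H24U

open Pool.Agent.PolyTime

variable {α : Type} [Enc α] {ρ : α → Rd} {θ θ' : α → Th} {Θ : α → List Th} {l : α → List ℕ}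
  {pats : α → List (List Th)}

theorem PR1_beq {f : α → ℕ} (n : ℕ) (hf : PT f) : PT fun a => f a == n :=
  (PT.decide_eq (g := fun _ => n) hf (PT.const n)).congr fun _ => (beq_eq_decide ..).symm

@[fun_prop] theorem PT_comp (hρ : PT ρ) (h : PT θ) (h' : PT θ') :
    PT fun a => comp (ρ a) (θ a) (θ' a) := by
  unfold comp
  exact PT.and
    (PT.all (f := fun (a : α) (p : ℕ × ℕ) => !bit (θ' a).2 p.1 || bit (θ a).2 p.2) (by fun_prop)
      (by fun_prop))
    (PT.all (f := fun (a : α) (p : ℕ × ℕ) => !bit (θ a).2 p.1 || bit (θ' a).2 p.2) (by fun_prop)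
      (by fun_prop))

@[fun_prop] theorem PT_full (hρ : PT ρ) (h : PT θ) (h' : PT θ') :
    PT fun a => full (ρ a) (θ a) (θ' a) := by
  unfold full
  exact PT.all (f := fun (a : α) (p : ℕ × ℕ) => !bit (θ a).2 p.2 || bit (θ' a).2 p.1)
    (by fun_prop) (by fun_prop)

@[fun_prop] theorem PT_noneed (hρ : PT ρ) (h : PT θ) : PT fun a => noneed (ρ a) (θ a) := by
  unfold noneed
  exact PT.all (f := fun (a : α) (p : ℕ × ℕ) => !bit (θ a).2 p.2) (by fun_prop) (by fun_prop)

@[fun_prop] theorem PT_matOk (hρ : PT ρ) (h : PT θ) (h' : PT θ') :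
    PT fun a => matOk (ρ a) (θ a) (θ' a) := by
  unfold matOk
  fun_prop

@[fun_prop] theorem PT_attOk (hρ : PT ρ) (h : PT θ) (h' : PT θ') :
    PT fun a => attOk (ρ a) (θ a) (θ' a) := by
  unfold attOk
  fun_prop

@[fun_prop] theorem PT_free (hρ : PT ρ) (hΘ : PT Θ) (hl : PT l) (h : PT θ) (h' : PT θ') :
    PT fun a => free (ρ a) (look (Θ a) (l a) 0) (θ a) (θ' a) := by
  unfold free
  fun_prop

@[fun_prop] theorem PT_patOk {π : α → List Th} (hρ : PT ρ) (hΘ : PT Θ) (hl : PT l) (h : PT θ)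
    (hπ : PT π) : PT fun a => patOk (ρ a) (Θ a) (look (Θ a) (l a) 0) (θ a) (π a) := by
  have h1 : PT fun a => (π a).all (fun θ' => attOk (rflip (ρ a)) θ' (θ a)) :=
    PT.all (f := fun (a : α) (θ' : Th) => attOk (rflip (ρ a)) θ' (θ a)) (by fun_prop) hπ
  have h2 : PT fun a => (rex (ρ a)).all (fun p => !bit (θ a).2 p.2 ||
      (π a).any (fun θ' => bit θ'.2 p.1) ||
      (Θ a).any (fun θ' => free (ρ a) (look (Θ a) (l a) 0) (θ a) θ' && bit θ'.2 p.1)) := by
    refine PT.all (f := fun (a : α) (p : ℕ × ℕ) => !bit (θ a).2 p.2 ||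
      (π a).any (fun θ' => bit θ'.2 p.1) ||
      (Θ a).any (fun θ' => free (ρ a) (look (Θ a) (l a) 0) (θ a) θ' && bit θ'.2 p.1)) ?_
      (PT_rex hρ)
    refine PT.or (PT.or (by fun_prop) ?_) ?_
    · exact PT.any (f := fun (q : α × ℕ × ℕ) (θ' : Th) => bit θ'.2 q.2.1) (by fun_prop)
        (by fun_prop)
    · refine PT.any (f := fun (q : α × ℕ × ℕ) (θ' : Th) =>
        free (ρ q.1) (look (Θ q.1) (l q.1) 0) (θ q.1) θ' && bit θ'.2 q.2.1) ?_ (by fun_prop)
      exact PT.and (PT_free (ρ := fun q : (α × ℕ × ℕ) × Th => ρ q.1.1)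
        (Θ := fun q => Θ q.1.1) (l := fun q => l q.1.1) (θ := fun q => θ q.1.1)
        (θ' := fun q => q.2) (by fun_prop) (by fun_prop) (by fun_prop) (by fun_prop)
        (by fun_prop)) (by fun_prop)
  have h3 : PT fun a => (((Θ a).filter (free (ρ a) (look (Θ a) (l a) 0) (θ a))).map
      (look (Θ a) (l a) 0)).sum := by
    refine PT_sum ?_
    refine PT.map (f := fun (a : α) (θ' : Th) => look (Θ a) (l a) 0 θ')
      (PT_look (o := fun q : α × Th => Θ q.1) (l := fun q => l q.1) (d := fun _ => 0)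
        (x := fun q => q.2) (by fun_prop) (by fun_prop) (by fun_prop) (by fun_prop)) ?_
    exact PT.filter (f := fun (a : α) (θ' : Th) => free (ρ a) (look (Θ a) (l a) 0) (θ a) θ')
      (PT_free (ρ := fun q : α × Th => ρ q.1)
        (Θ := fun q => Θ q.1) (l := fun q => l q.1) (θ := fun q => θ q.1)
        (θ' := fun q => q.2) (by fun_prop) (by fun_prop) (by fun_prop) (by fun_prop)
        (by fun_prop)) hΘ
  unfold patOk
  exact PT.and (PT.and (PT.and (by fun_prop) h1) h2)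
    (PT.decide_le (PT.const 2) (PT.add (PT.length hπ) h3))

@[fun_prop] theorem PT_okSt {s : α → St} (hρ : PT ρ) (hΘ : PT Θ) (hl : PT l) (h : PT θ)
    (hs : PT s) : PT fun a => okSt (ρ a) (Θ a) (look (Θ a) (l a) 0) (θ a) (s a) := by
  have h1 : PT fun a => (s a).2.all (matOk (ρ a) (θ a)) :=
    PT.all (f := fun (a : α) (θ' : Th) => matOk (ρ a) (θ a) θ') (by fun_prop) (by fun_prop)
  have h2 : PT fun a => (s a).2.all (fun θ' => attOk (ρ a) (θ a) θ' &&
      decide (1 ≤ look (Θ a) (l a) 0 θ')) :=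
    PT.all (f := fun (a : α) (θ' : Th) => attOk (ρ a) (θ a) θ' &&
      decide (1 ≤ look (Θ a) (l a) 0 θ')) (by fun_prop) (by fun_prop)
  have h3 : PT fun a => patOk (ρ a) (Θ a) (look (Θ a) (l a) 0) (θ a) (s a).2 :=
    PT_patOk hρ hΘ hl h (PT.snd hs)
  unfold okSt
  exact PT.or (PT.or (PT.or (PT.and (PR1_beq 0 (PT.fst hs)) h1) (PT.and (PR1_beq 1 (PT.fst hs)) h2))
    (PT.and (PT.and (PR1_beq 2 (PT.fst hs)) (by fun_prop)) (by fun_prop)))
    (PT.and (PR1_beq 3 (PT.fst hs)) h3)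

@[fun_prop] theorem PT_allSt (hΘ : PT Θ) (hp : PT pats) :
    PT fun a => allSt (Θ a) (pats a) := by
  unfold allSt
  refine PT.append (PT.append (PT.append ?_ ?_) (PT.const _)) ?_
  · exact PT.map (f := fun (_ : α) (θ' : Th) => ((0, [θ']) : St)) (by fun_prop) hΘ
  · exact PT.map (f := fun (_ : α) (θ' : Th) => ((1, [θ']) : St)) (by fun_prop) hΘ
  · exact PT.map (f := fun (_ : α) (π : List Th) => ((3, π) : St)) (by fun_prop) hp

@[fun_prop] theorem PT_outSt (hρ : PT ρ) (hΘ : PT Θ) (hp : PT pats) (hl : PT l) (h : PT θ) :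
    PT fun a => outSt (ρ a) (Θ a) (pats a) (look (Θ a) (l a) 0) (θ a) := by
  unfold outSt
  exact PT.filter (f := fun (a : α) (s : St) => okSt (ρ a) (Θ a) (look (Θ a) (l a) 0) (θ a) s)
    (PT_okSt (ρ := fun q : α × St => ρ q.1) (Θ := fun q => Θ q.1) (l := fun q => l q.1)
      (θ := fun q => θ q.1) (s := fun q => q.2) (by fun_prop) (by fun_prop) (by fun_prop)
      (by fun_prop) (by fun_prop)) (PT_allSt hΘ hp)

@[fun_prop] theorem PT_need (hρ : PT ρ) (hΘ : PT Θ) (hp : PT pats) (hl : PT l) (h : PT θ)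
    (h' : PT θ') :
    PT fun a => need (ρ a) (Θ a) (pats a) (look (Θ a) (l a) 0) (θ a) (θ' a) := by
  unfold need
  refine PT.flatMap (f := fun (a : α) (s : St) =>
    (s.2.filter fun b => decide (b = θ' a)).map fun _ => s) ?_ ?_
  · refine PT.map (f := fun (q : α × St) (_ : Th) => q.2) (by fun_prop) ?_
    exact PT.filter (f := fun (q : α × St) (b : Th) => decide (b = θ' q.1))
      (PT.decide_eq (by fun_prop) (by fun_prop)) (by fun_prop)
  · exact PT.filter (f := fun (_ : α) (s : St) => s.1 == 3) (PR1_beq 3 (by fun_prop))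
      (PT_outSt hρ hΘ hp hl h)

end Pool.Agent.H24U
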