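import Pool.Agent.Lib.H24U.PTRole

/-!
# Chunk PR2: the systems in polynomial time

The variables `vn`, `vo` .. are tuples (unfold); `PT.zipIdx` for the roles.
-/

set_option autoImplicit false

namespace Pool.Agent.H24U

open Pool.Agent.PolyTime

variable {α : Type} [Enc α] {ρ : α → Rd} {θ θ' : α → Th} {Θ : α → List Th} {l : α → List ℕ}
  {pats : α → List (List Th)} {j : α → ℕ}

@[fun_prop] theorem PT_vN {s : α → Ty} (hs : PT s) : PT fun a => vN (s a) := by
  unfold vN
  fun_prop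

theorem PR2_vn (h : PT θ) : PT fun a => vn (θ a) := by
  unfold vn
  fun_prop

theorem PR2_vsl (h : PT θ) : PT fun a => vsl (θ a) := by
  unfold vsl
  fun_prop

theorem PR2_vo {s : α → St} (hj : PT j) (h : PT θ) (hs : PT s) :
    PT fun a => vo (j a) (θ a) (s a) := by
  unfold vo
  fun_prop

theorem PR2_vi {s : α → St} (hj : PT j) (h : PT θ) (hs : PT s) :
    PT fun a => vi (j a) (θ a) (s a) := by
  unfold vi
  fun_prop

theorem PR2_vs1 (hj : PT j) (h : PT θ) (h' : PT θ') : PT fun a => vs1 (j a) (θ a) (θ' a) := by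
  unfold vs1
  fun_prop

theorem PR2_vs2 (hj : PT j) (h : PT θ) (h' : PT θ') : PT fun a => vs2 (j a) (θ a) (θ' a) := by
  unfold vs2
  fun_prop

@[fun_prop] theorem PT_supEq (hΘ : PT Θ) (hl : PT l) (h : PT θ) :
    PT fun a => supEq (look (Θ a) (l a) 0) (θ a) := by
  have h1 : PT fun a => look (Θ a) (l a) 0 (θ a) := PT_look hΘ hl (PT.const 0) h
  unfold supEq
  refine PT.pair (PT.pair (PT.cons (PR2_vn h) (PT.const [])) (PT.const 0)) (PT.pair ?_ h1)
  exact PT.ite (PT.decide_le (PT.const 2) h1) (PT.cons (PR2_vsl h) (PT.const [])) (PT.const [])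

@[fun_prop] theorem PT_nEq {s : α → Ty} (hΘ : PT Θ) (hs : PT s) :
    PT fun a => nEq (Θ a) (s a) := by
  unfold nEq
  refine PT.pair (PT.pair (PT.cons (PT_vN hs) (PT.const [])) (PT.const 0))
    (PT.pair ?_ (PT.const 0))
  refine PT.map (f := fun (_ : α) (θ : Th) => vn θ) (PR2_vn (by fun_prop)) ?_
  exact PT.filter (f := fun (a : α) (θ : Th) => decide (θ.1 = s a))
    (PT.decide_eq (by fun_prop) (by fun_prop)) hΘ

@[fun_prop] theorem PT_sumEqs (hρ : PT ρ) (hΘ : PT Θ) (hp : PT pats) (hl : PT l) (hj : PT j) :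
    PT fun a => sumEqs (ρ a) (Θ a) (pats a) (look (Θ a) (l a) 0) (j a) := by
  unfold sumEqs
  refine PT.append ?_ ?_
  · refine PT.map (f := fun (a : α) (θ : Th) => (((([vn θ], 0) : List Va × ℕ),
      (((outSt (ρ a) (Θ a) (pats a) (look (Θ a) (l a) 0) θ).map (vo (j a) θ), 0) :
        List Va × ℕ)) : Eqn Va)) ?_ hΘ
    refine PT.pair (PT.pair (PT.cons (PR2_vn (by fun_prop)) (PT.const [])) (PT.const 0))
      (PT.pair ?_ (PT.const 0))
    refine PT.map (f := fun (q : α × Th) (s : St) => vo (j q.1) q.2 s)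
      (PR2_vo (by fun_prop) (by fun_prop) (by fun_prop)) ?_
    exact PT_outSt (ρ := fun q : α × Th => ρ q.1) (Θ := fun q => Θ q.1)
      (pats := fun q => pats q.1) (l := fun q => l q.1) (θ := fun q => q.2) (by fun_prop)
      (by fun_prop) (by fun_prop) (by fun_prop) (by fun_prop)
  · refine PT.map (f := fun (a : α) (θ : Th) => (((([vn θ], 0) : List Va × ℕ),
      (((outSt (rflip (ρ a)) (Θ a) (pats a) (look (Θ a) (l a) 0) θ).map (vi (j a) θ), 0) :
        List Va × ℕ)) : Eqn Va)) ?_ hΘ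
    refine PT.pair (PT.pair (PT.cons (PR2_vn (by fun_prop)) (PT.const [])) (PT.const 0))
      (PT.pair ?_ (PT.const 0))
    refine PT.map (f := fun (q : α × Th) (s : St) => vi (j q.1) q.2 s)
      (PR2_vi (by fun_prop) (by fun_prop) (by fun_prop)) ?_
    exact PT_outSt (ρ := fun q : α × Th => rflip (ρ q.1)) (Θ := fun q => Θ q.1)
      (pats := fun q => pats q.1) (l := fun q => l q.1) (θ := fun q => q.2) (by fun_prop)
      (by fun_prop) (by fun_prop) (by fun_prop) (by fun_prop)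

@[fun_prop] theorem PT_pairEqs (hρ : PT ρ) (hΘ : PT Θ) (hp : PT pats) (hl : PT l) (hj : PT j)
    (h : PT θ) (h' : PT θ') :
    PT fun a => pairEqs (ρ a) (Θ a) (pats a) (look (Θ a) (l a) 0) (j a) (θ a) (θ' a) := by
  have e0 : PT fun a => vo (j a) (θ a) (0, [θ' a]) := PR2_vo hj h (by fun_prop)
  have e1 : PT fun a => vi (j a) (θ' a) (0, [θ a]) := PR2_vi hj h' (by fun_prop)
  have e2 : PT fun a => vo (j a) (θ a) (1, [θ' a]) := PR2_vo hj h (by fun_prop)
  have e3 : PT fun a => vi (j a) (θ' a) (1, [θ a]) := PR2_vi hj h' (by fun_prop)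
  have n1 : PT fun a => (need (rflip (ρ a)) (Θ a) (pats a) (look (Θ a) (l a) 0) (θ' a)
      (θ a)).map (vi (j a) (θ' a)) := by
    refine PT.map (f := fun (a : α) (s : St) => vi (j a) (θ' a) s)
      (PR2_vi (by fun_prop) (by fun_prop) (by fun_prop)) ?_
    exact PT_need (ρ := fun a => rflip (ρ a)) (by fun_prop) hΘ hp hl h' h
  have n2 : PT fun a => (need (ρ a) (Θ a) (pats a) (look (Θ a) (l a) 0) (θ a)
      (θ' a)).map (vo (j a) (θ a)) := by
    refine PT.map (f := fun (a : α) (s : St) => vo (j a) (θ a) s)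
      (PR2_vo (by fun_prop) (by fun_prop) (by fun_prop)) ?_
    exact PT_need hρ hΘ hp hl h h'
  unfold pairEqs
  refine PT.cons ?_ (PT.cons ?_ (PT.cons ?_ (PT.const [])))
  · exact PT.pair (PT.pair (PT.cons e0 (PT.const [])) (PT.const 0))
      (PT.pair (PT.cons e1 (PT.const [])) (PT.const 0))
  · exact PT.pair (PT.pair (PT.append n1 (PT.cons (PR2_vs1 hj h h') (PT.const []))) (PT.const 0))
      (PT.pair (PT.cons e2 (PT.const [])) (PT.const 0))
  · exact PT.pair (PT.pair (PT.append n2 (PT.cons (PR2_vs2 hj h h') (PT.const []))) (PT.const 0))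
      (PT.pair (PT.cons e3 (PT.const [])) (PT.const 0))

@[fun_prop] theorem PT_roleEqs (hρ : PT ρ) (hΘ : PT Θ) (hp : PT pats) (hl : PT l) (hj : PT j) :
    PT fun a => roleEqs (ρ a) (Θ a) (pats a) (look (Θ a) (l a) 0) (j a) := by
  unfold roleEqs
  refine PT.append (PT_sumEqs hρ hΘ hp hl hj) ?_
  refine PT.flatMap (f := fun (a : α) (θ : Th) => (Θ a).flatMap fun θ' =>
    pairEqs (ρ a) (Θ a) (pats a) (look (Θ a) (l a) 0) (j a) θ θ') ?_ hΘ
  refine PT.flatMap (f := fun (q : α × Th) (θ' : Th) =>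
    pairEqs (ρ q.1) (Θ q.1) (pats q.1) (look (Θ q.1) (l q.1) 0) (j q.1) q.2 θ') ?_ (by fun_prop)
  exact PT_pairEqs (ρ := fun q : (α × Th) × Th => ρ q.1.1) (Θ := fun q => Θ q.1.1)
    (pats := fun q => pats q.1.1) (l := fun q => l q.1.1) (j := fun q => j q.1.1)
    (θ := fun q => q.1.2) (θ' := fun q => q.2) (by fun_prop) (by fun_prop) (by fun_prop)
    (by fun_prop) (by fun_prop) (by fun_prop) (by fun_prop)

@[fun_prop] theorem PT_sysW {F : α → NF} {tys : α → List Ty} (hF : PT F) (ht : PT tys)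
    (hΘ : PT Θ) (hp : PT pats) (hl : PT l) :
    PT fun a => sysW (F a) (tys a) (Θ a) (pats a) (look (Θ a) (l a) 0) := by
  have h1 : PT fun q : α × Th => supEq (look (Θ q.1) (l q.1) 0) q.2 := by
    refine PT_supEq ?_ ?_ ?_
    · fun_prop
    · fun_prop
    · fun_prop
  have h1' : PT fun a => (Θ a).map (supEq (look (Θ a) (l a) 0)) :=
    PT.map (f := fun (a : α) (θ : Th) => supEq (look (Θ a) (l a) 0) θ) h1 hΘ
  have h2 : PT fun q : α × Ty => nEq (Θ q.1) q.2 := by
    refine PT_nEq ?_ ?_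
    · fun_prop
    · fun_prop
  have h2' : PT fun a => (tys a).map (nEq (Θ a)) :=
    PT.map (f := fun (a : α) (s : Ty) => nEq (Θ a) s) h2 ht
  have h3 : PT fun q : α × Rd × ℕ => roleEqs q.2.1 (Θ q.1) (pats q.1)
      (look (Θ q.1) (l q.1) 0) q.2.2 :=
    PT_roleEqs (ρ := fun q : α × Rd × ℕ => q.2.1) (Θ := fun q => Θ q.1)
      (pats := fun q => pats q.1) (l := fun q => l q.1) (j := fun q => q.2.2) (by fun_prop)
      (by fun_prop) (by fun_prop) (by fun_prop) (by fun_prop)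
  have h4 : PT fun a => (F a).roles.zipIdx := PT.zipIdx (PT_roles hF)
  have h5 := PT.flatMap (f := fun (a : α) (p : Rd × ℕ) =>
      roleEqs p.1 (Θ a) (pats a) (look (Θ a) (l a) 0) p.2) h3 h4
  have h6 := PT.append (PT.append h1' h2') h5
  exact h6

end Pool.Agent.H24U
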