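import Pool.Agent.Lib.H24U.Role

/-!
# The relation constructed from statuses, a matching and attachments
-/

set_option autoImplicit false

namespace Pool.Agent.H24U

open Cardinal

/-- statuses `s` (sources), `u` (targets), matching `M`, attachments `a`, `b` -/
structure RData {Δ : Type} (ρ : Rd) (Θ : List Th) (pats : List (List Th)) (sup : Th → ℕ)
    (τ : Δ → Th) (s u : Δ → St) (M : Δ → Δ → Prop) (a b : Δ → Δ) : Prop where
  tau : ∀ x, τ x ∈ Θ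
  hsup : ∀ θ ∈ Θ, SupOk (sup θ) (cnt τ θ)
  s_mem : ∀ x, s x ∈ outSt ρ Θ pats sup (τ x)
  u_mem : ∀ y, u y ∈ outSt (rflip ρ) Θ pats sup (τ y)
  m_st : ∀ x y, M x y → s x = (0, [τ y]) ∧ u y = (0, [τ x])
  m_x : ∀ x θ', s x = (0, [θ']) → ∃ y, M x y
  m_y : ∀ y θ, u y = (0, [θ]) → ∃ x, M x y
  m_fx : ∀ x y z, M x y → M x z → y = z
  m_fy : ∀ x y z, M x y → M z y → x = z
  a_tau : ∀ x θ', s x = (1, [θ']) → τ (a x) = θ'
  a_own : ∀ y, (u y).1 = 3 → ∃ w : List Δ, w.Nodup ∧ w.map τ = (u y).2 ∧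
    ∀ x ∈ w, s x = (1, [τ y]) ∧ a x = y
  b_tau : ∀ y θ, u y = (1, [θ]) → τ (b y) = θ
  b_own : ∀ x, (s x).1 = 3 → ∃ w : List Δ, w.Nodup ∧ w.map τ = (s x).2 ∧
    ∀ y ∈ w, u y = (1, [τ x]) ∧ b y = x

/-- the relation -/
def rel {Δ : Type} (ρ : Rd) (τ : Δ → Th) (s u : Δ → St) (M : Δ → Δ → Prop) (a b : Δ → Δ)
    (x y : Δ) : Prop :=
  M x y ∨ ((∃ θ', s x = (1, [θ'])) ∧ a x = y) ∨ ((∃ θ, u y = (1, [θ])) ∧ b y = x) ∨
    (bit (τ x).2 (rf ρ) = false ∧ bit (τ y).2 (rg ρ) = false ∧ comp ρ (τ x) (τ y) = true)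

theorem comp_rflip (ρ : Rd) (θ θ' : Th) : comp (rflip ρ) θ' θ = comp ρ θ θ' := by
  simp only [comp, rex_rflip, rey_rflip, Bool.and_comm]

variable {Δ : Type} {ρ : Rd} {Θ : List Th} {pats : List (List Th)} {sup : Th → ℕ}
  {τ : Δ → Th} {s u : Δ → St} {M : Δ → Δ → Prop} {a b : Δ → Δ}

theorem RData.flip (h : RData ρ Θ pats sup τ s u M a b) :
    RData (rflip ρ) Θ pats sup τ u s (fun x y => M y x) b a where
  tau := h.tau
  hsup := h.hsup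
  s_mem := h.u_mem
  u_mem := h.s_mem
  m_st := fun x y hm => ⟨(h.m_st y x hm).2, (h.m_st y x hm).1⟩
  m_x := h.m_y
  m_y := h.m_x
  m_fx := fun x y z h1 h2 => h.m_fy y x z h1 h2
  m_fy := fun x y z h1 h2 => h.m_fx y x z h1 h2
  a_tau := h.b_tau
  a_own := h.b_own
  b_tau := h.a_tau
  b_own := h.a_own

theorem rel_flip (x y : Δ) :
    rel (rflip ρ) τ u s (fun x y => M y x) b a y x ↔ rel ρ τ s u M a b x y := by
  simp only [rel, rf_rflip, rg_rflip, comp_rflip]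
  tauto

end Pool.Agent.H24U
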