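import Pool.Agent.Lib.H24U.Stat
import Pool.Agent.Lib.H24U.NeedCard

/-!
# Chunk ARR: the linear conditions are necessary

Apply `exists_stat` to `ρ` and to `rflip ρ` (with `hP.flip`), giving `s` and `u`; put
`o θ t = #{x | τ x = θ, s x = t}`, `i θ t = #{y | τ y = θ, u y = t}`. `o_sum`, `i_sum`: `sum_fib`,
`nodup_outSt`. `mat`: `P` is a bijection between `{x | τ x = θ, s x = (0, [θ'])}` and
`{y | τ y = θ', u y = (0, [θ])}`. `att`: by `need_card` the left side is the cardinality of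
`Σ y : {y // τ y = θ'}, Fin (mult (u y) θ)`; map `(y, k)` to the `k`-th element of type `θ` in the
list `w` of `y`: it has `P x y`, `f x`, `¬ g y`, so `s x = (1, [θ'])`; injective since `y` is the only
successor of `x` and `w` has no duplicates.
-/

set_option autoImplicit false

namespace Pool.Agent.H24U

open Cardinal

private theorem ARR_mat {Δ : Type} (ρ : Rd) (τ : Δ → Th) (s u : Δ → St) (P : Δ → Δ → Prop)
    (hP : Real ρ (fun x => (τ x).2) P)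
    (hs : ∀ x θ', s x = (0, [θ']) ↔ ∃ y, P x y ∧ τ y = θ' ∧ bit (τ x).2 (rf ρ) = true ∧
        bit (τ y).2 (rg ρ) = true)
    (hu : ∀ y θ, u y = (0, [θ]) ↔ ∃ x, P x y ∧ τ x = θ ∧ bit (τ y).2 (rg ρ) = true ∧
        bit (τ x).2 (rf ρ) = true) (θ θ' : Th) :
    #{x // τ x = θ ∧ s x = (0, [θ'])} ≤ #{y // τ y = θ' ∧ u y = (0, [θ])} := by
  have h1 : ∀ x : {x // τ x = θ ∧ s x = (0, [θ'])}, ∃ y : {y // τ y = θ' ∧ u y = (0, [θ])},
      P x.1 y.1 ∧ bit (τ y.1).2 (rg ρ) = true := by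
    rintro ⟨x, hx, hsx⟩
    obtain ⟨y, h1, h2, h3, h4⟩ := (hs x θ').1 hsx
    exact ⟨⟨y, h2, (hu y θ).2 ⟨x, h1, hx, h4, h3⟩⟩, h1, h4⟩
  choose φ hφ using h1
  refine mk_le_of_injective (f := φ) fun x x' h => ?_
  have h2 := hφ x
  have h3 := hφ x'
  rw [← h] at h3
  exact Subtype.ext ((hP.g (φ x).1).1 h2.2 x.1 x'.1 h2.1 h3.1)

private theorem ARR_att {Δ : Type} (ρ : Rd) (Θ : List Th) (hΘ : Θ.Nodup) (pats : List (List Th))
    (hp : pats.Nodup) (sup : Th → ℕ) (τ : Δ → Th) (s u : Δ → St) (P : Δ → Δ → Prop)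
    (hP : Real ρ (fun x => (τ x).2) P)
    (hs : ∀ x θ', s x = (1, [θ']) ↔ ∃ y, P x y ∧ τ y = θ' ∧ bit (τ x).2 (rf ρ) = true ∧
        bit (τ y).2 (rg ρ) = false)
    (hu1 : ∀ y, u y ∈ outSt (rflip ρ) Θ pats sup (τ y))
    (hu4 : ∀ y, (u y).1 = 3 → bit (τ y).2 (rg ρ) = false ∧ ∃ w : List Δ, w.Nodup ∧
        w.map τ = (u y).2 ∧ ∀ x ∈ w, P x y ∧ bit (τ x).2 (rf ρ) = true) (θ θ' : Th) :
    ((need (rflip ρ) Θ pats sup θ' θ).map fun t => #{y // τ y = θ' ∧ u y = t}).sum ≤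
      #{x // τ x = θ ∧ s x = (1, [θ'])} := by
  classical
  rw [need_card (rflip ρ) Θ hΘ pats hp sup τ u hu1 θ' θ]
  have h1 : ∀ y : {y // τ y = θ'}, ∃ L : List Δ, L.Nodup ∧ L.length = mult (u y.1) θ ∧
      ∀ x ∈ L, P x y.1 ∧ bit (τ x).2 (rf ρ) = true ∧ τ x = θ ∧ s x = (1, [θ']) := by
    rintro ⟨y, hy⟩
    by_cases h3 : (u y).1 = 3
    · obtain ⟨h4, w, h5, h6, h7⟩ := hu4 y h3
      refine ⟨w.filter fun x => decide (τ x = θ), h5.filter _, ?_, ?_⟩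
      · rw [mult, if_pos h3, ← h6, List.count, List.countP_map, List.countP_eq_length_filter]
        congr 1
        refine List.filter_congr fun x _ => ?_
        rw [Function.comp, Bool.eq_iff_iff, decide_eq_true_eq, beq_iff_eq]
      · intro x hx
        rw [List.mem_filter, decide_eq_true_eq] at hx
        obtain ⟨h8, h9⟩ := h7 x hx.1
        exact ⟨h8, h9, hx.2, (hs x θ').2 ⟨y, h8, hy, h9, h4⟩⟩
    · refine ⟨[], List.nodup_nil, ?_, ?_⟩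
      · rw [mult, if_neg h3, List.length_nil]
      · intro x hx
        exact absurd hx List.not_mem_nil
  choose L hL1 hL2 hL3 using h1
  have hmem : ∀ z : (Σ y : {y // τ y = θ'}, Fin (mult (u y.1) θ)),
      (L z.1).get ⟨z.2.1, (hL2 z.1).symm ▸ z.2.2⟩ ∈ L z.1 := fun z => List.get_mem _ _
  refine mk_le_of_injective (f := fun z =>
    (⟨(L z.1).get ⟨z.2.1, (hL2 z.1).symm ▸ z.2.2⟩, (hL3 _ _ (hmem z)).2.2.1,
      (hL3 _ _ (hmem z)).2.2.2⟩ : {x // τ x = θ ∧ s x = (1, [θ'])})) ?_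
  rintro ⟨y, k⟩ ⟨y', k'⟩ h
  have h1 := congrArg Subtype.val h
  simp only at h1
  have h2 := hL3 _ _ (hmem ⟨y, k⟩)
  have h3 := hL3 _ _ (hmem ⟨y', k'⟩)
  simp only at h2 h3
  rw [← h1] at h3
  have h4 : y = y' := Subtype.ext ((hP.f _).1 h2.2.1 y.1 y'.1 h2.1 h3.1)
  subst h4
  have h5 := (List.nodup_iff_injective_get.1 (hL1 y)) h1
  have h6 : k = k' := Fin.ext (Fin.mk.inj h5)
  rw [h6]

theorem ar_of_real {Δ : Type} (ρ : Rd) (Θ : List Th) (hΘ : Θ.Nodup) (pats : List (List Th))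
    (K : ℕ) (hK : (rex ρ).length + 2 ≤ K) (hK' : (rey ρ).length + 2 ≤ K) (hp : PatsOk Θ pats K)
    (sup : Th → ℕ) (τ : Δ → Th) (hτ : ∀ x, τ x ∈ Θ)
    (hsup : ∀ θ ∈ Θ, SupOk (sup θ) (cnt τ θ)) (P : Δ → Δ → Prop)
    (hP : Real ρ (fun x => (τ x).2) P) :
    ∃ o i : Th → St → Cardinal.{0}, RoleAr ρ Θ pats sup (cnt τ) o i := by
  obtain ⟨s, s1, s2, s3, s4⟩ := exists_stat ρ Θ hΘ pats K hK hp sup τ hτ hsup P hP
  obtain ⟨u, u1, u2, u3, u4⟩ := exists_stat (rflip ρ) Θ hΘ pats K hK' hp sup τ hτ hsup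
    (fun x y => P y x) hP.flip
  refine ⟨fun θ t => #{x // τ x = θ ∧ s x = t}, fun θ t => #{y // τ y = θ ∧ u y = t},
    ⟨?_, ?_, ?_, ?_, ?_⟩⟩
  · intro θ _
    exact sum_fib τ s θ _ (nodup_outSt hΘ hp.nodup ρ sup θ) fun x hx => hx ▸ s1 x
  · intro θ _
    exact sum_fib τ u θ _ (nodup_outSt hΘ hp.nodup (rflip ρ) sup θ) fun x hx => hx ▸ u1 x
  · intro θ _ θ' _
    exact le_antisymm (ARR_mat ρ τ s u P hP s2 u2 θ θ')
      (ARR_mat (rflip ρ) τ u s (fun x y => P y x) hP.flip u2 s2 θ' θ)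
  · intro θ _ θ' _
    exact ARR_att ρ Θ hΘ pats hp.nodup sup τ s u P hP s3 u1 u4 θ θ'
  · intro θ _ θ' _
    exact ARR_att (rflip ρ) Θ hΘ pats hp.nodup sup τ u s (fun x y => P y x) hP.flip u3 s1 s4 θ' θ

end Pool.Agent.H24U
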