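import Pool.Agent.Lib.H24U.NF

/-!
# Roles: statuses and the linear conditions

`θ : Th` is a pair of types (the second one is the type for which the role has to be realised).
`Θ` is the list of all pairs, `sup θ` is `min 2 (number of elements of type θ)`.

Let `f θ` = `bit θ.2 (rf ρ)` (at most one successor), `g θ` = `bit θ.2 (rg ρ)` (at most one
predecessor). Statuses of an element of type `θ` (as a source of edges):
* `(0, [θ'])`, `f θ`: its successor has type `θ'` with `g θ'` (matched)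
* `(1, [θ'])`, `f θ`: its successor has type `θ'` with `¬ g θ'` (attached)
* `(2, [])`, `f θ`: it has no successor
* `(3, π)`, `¬ f θ`: it owns exclusively successors with types `π` (all `g`); besides it may have all
  elements of types `θ'` with `¬ g θ'`, compatible with `θ`, as successors.
The statuses as a target of edges are the statuses for `rflip ρ`.
-/

set_option autoImplicit false

namespace Pool.Agent.H24U

open Cardinal

/-- pairs of types: before and after -/
abbrev Th : Type := Ty × Ty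

/-- statuses -/
abbrev St : Type := ℕ × List Th

/-- edges from `θ` to `θ'` are allowed -/
def comp (ρ : Rd) (θ θ' : Th) : Bool :=
  (rex ρ).all (fun p => !bit θ'.2 p.1 || bit θ.2 p.2) &&
    (rey ρ).all (fun p => !bit θ.2 p.1 || bit θ'.2 p.2)

/-- a successor of type `θ'` satisfies all needs of `θ` -/
def full (ρ : Rd) (θ θ' : Th) : Bool := (rex ρ).all fun p => !bit θ.2 p.2 || bit θ'.2 p.1

/-- `θ` does not need a successor -/
def noneed (ρ : Rd) (θ : Th) : Bool := (rex ρ).all fun p => !bit θ.2 p.2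

/-- `θ` can be matched with `θ'` -/
def matOk (ρ : Rd) (θ θ' : Th) : Bool :=
  bit θ.2 (rf ρ) && bit θ'.2 (rg ρ) && comp ρ θ θ' && full ρ θ θ' && full (rflip ρ) θ' θ

/-- `θ` can be attached to `θ'` -/
def attOk (ρ : Rd) (θ θ' : Th) : Bool :=
  bit θ.2 (rf ρ) && !bit θ'.2 (rg ρ) && comp ρ θ θ' && full ρ θ θ'

/-- `θ'` exists and can be joined with elements of type `θ` (not `f`) freely -/
def free (ρ : Rd) (sup : Th → ℕ) (θ θ' : Th) : Bool :=
  !bit θ'.2 (rg ρ) && comp ρ θ θ' && decide (1 ≤ sup θ')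

/-- the pattern `π` of owned successors is possible for `θ` -/
def patOk (ρ : Rd) (Θ : List Th) (sup : Th → ℕ) (θ : Th) (π : List Th) : Bool :=
  !bit θ.2 (rf ρ) && π.all (fun θ' => attOk (rflip ρ) θ' θ) &&
    (rex ρ).all (fun p => !bit θ.2 p.2 || π.any (fun θ' => bit θ'.2 p.1) ||
      Θ.any (fun θ' => free ρ sup θ θ' && bit θ'.2 p.1)) &&
    decide (2 ≤ π.length + ((Θ.filter (free ρ sup θ)).map sup).sum)

/-- possible statuses of `θ` -/
def okSt (ρ : Rd) (Θ : List Th) (sup : Th → ℕ) (θ : Th) (s : St) : Bool :=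
  (s.1 == 0 && s.2.all (matOk ρ θ)) ||
    (s.1 == 1 && s.2.all (fun θ' => attOk ρ θ θ' && decide (1 ≤ sup θ'))) ||
    (s.1 == 2 && bit θ.2 (rf ρ) && noneed ρ θ) || (s.1 == 3 && patOk ρ Θ sup θ s.2)

/-- all statuses -/
def allSt (Θ : List Th) (pats : List (List Th)) : List St :=
  Θ.map (fun θ' => (0, [θ'])) ++ Θ.map (fun θ' => (1, [θ'])) ++ [(2, [])] ++
    pats.map fun π => (3, π)

/-- the possible statuses of `θ` -/
def outSt (ρ : Rd) (Θ : List Th) (pats : List (List Th)) (sup : Th → ℕ) (θ : Th) : List St :=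
  (allSt Θ pats).filter (okSt ρ Θ sup θ)

/-- the statuses `(3, π)` of `θ`, each with the multiplicity of `θ'` in `π` -/
def need (ρ : Rd) (Θ : List Th) (pats : List (List Th)) (sup : Th → ℕ) (θ θ' : Th) : List St :=
  ((outSt ρ Θ pats sup θ).filter fun s => s.1 == 3).flatMap fun s =>
    (s.2.filter fun a => decide (a = θ')).map fun _ => s

/-- `pats` is the list of all lists of length at most `K` over `Θ` -/
structure PatsOk (Θ : List Th) (pats : List (List Th)) (K : ℕ) : Prop where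
  nodup : pats.Nodup
  mem : ∀ π, π ∈ pats ↔ π.length ≤ K ∧ ∀ a ∈ π, a ∈ Θ

/-- number of elements of type `θ` -/
noncomputable def cnt {Δ T : Type} (τ : Δ → T) (θ : T) : Cardinal.{0} := #{x // τ x = θ}

/-- `s = min 2 c` -/
def SupOk (s : ℕ) (c : Cardinal.{0}) : Prop := (s ≤ 1 ∧ c = s) ∨ (s = 2 ∧ 2 ≤ c)

/-- the linear conditions for the role: `n θ` elements of type `θ`, `o θ s` of them have status `s`,
`i θ s` of them have status `s` for the inverse role -/
structure RoleAr (ρ : Rd) (Θ : List Th) (pats : List (List Th)) (sup : Th → ℕ)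
    (n : Th → Cardinal.{0}) (o i : Th → St → Cardinal.{0}) : Prop where
  o_sum : ∀ θ ∈ Θ, ((outSt ρ Θ pats sup θ).map (o θ)).sum = n θ
  i_sum : ∀ θ ∈ Θ, ((outSt (rflip ρ) Θ pats sup θ).map (i θ)).sum = n θ
  mat : ∀ θ ∈ Θ, ∀ θ' ∈ Θ, o θ (0, [θ']) = i θ' (0, [θ])
  att : ∀ θ ∈ Θ, ∀ θ' ∈ Θ,
    ((need (rflip ρ) Θ pats sup θ' θ).map (i θ')).sum ≤ o θ (1, [θ'])
  att' : ∀ θ ∈ Θ, ∀ θ' ∈ Θ, ((need ρ Θ pats sup θ θ').map (o θ)).sum ≤ i θ' (1, [θ])

end Pool.Agent.H24U
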