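import Pool.Agent.Lib.H24U.DP

/-!
# Chunks RS1 (sol_of_run) and RS2 (run_of_sol): runs and solutions

RS1: given a run with digits `β_0, ..., β_(m - 1)` let `v x = Σ_i 2 ^ i * β_i x`. By induction the
carries `(κ, κ')` of an equation after `i` digits satisfy
`Σ_{x ∈ l} (v x % 2 ^ i) + a = 2 ^ i κ + r`, `Σ_{x ∈ l'} (v x % 2 ^ i) + b = 2 ^ i κ' + r`.
(Perhaps easier: generalise the constants: a run from `(κ, κ')` to a final state gives a solution of
`Σ_l v + κ = Σ_l' v + κ'`, by induction on the run: `v x = β x + 2 * v' x`.)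
RS2: conversely by induction on the number of digits: a solution `v` of the equations with the
carries `c` in place of the constants gives the digits `β x = v x % 2`, the new carries and the
solution `v x / 2` for the new carries; after sufficiently many steps all `v x` (`x` occurring) are
`0` and the state is final.
-/

set_option autoImplicit false

namespace Pool.Agent.H24U

/-- `v` solves the equation with the carries `c` in place of the constants -/
private def RS_H {V : Type} (v : V → ℕ) (e : Eqn V) (c : ℕ × ℕ) : Prop :=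
  (e.1.1.map v).sum + c.1 = (e.2.1.map v).sum + c.2

private theorem RS_sum {V : Type} (β : V → Bool) (v v' : V → ℕ)
    (h : ∀ x, v x = (β x).toNat + 2 * v' x) (l : List V) :
    (l.map v).sum = l.countP β + 2 * (l.map v').sum := by
  induction l with
  | nil => simp
  | cons x l ih =>
    rw [List.map_cons, List.map_cons, List.sum_cons, List.sum_cons, ih, h x, List.countP_cons]
    cases β x <;> simp <;> ring

private theorem RS_valR {V : Type} (rows : List (V → Bool)) (n : ℕ) (x : V) :
    valR (rows ++ List.replicate n (fun _ => false)) x = valR rows x := by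
  induction rows with
  | nil =>
    induction n with
    | zero => rfl
    | succ n ih =>
      rw [List.nil_append] at ih
      rw [List.nil_append, List.replicate_succ]
      change (false).toNat + 2 * valR (List.replicate n fun _ => false) x = 0
      rw [ih]
      rfl
  | cons row rows ih =>
    rw [List.cons_append, valR, ih, valR]

private theorem RS_back {V : Type} (β : V → Bool) (v v' : V → ℕ)
    (h : ∀ x, v x = (β x).toNat + 2 * v' x) : ∀ (E : Sys V) (c c₁ : List (ℕ × ℕ)),
    c.length = E.length → stepS β E c c₁ = true → List.Forall₂ (RS_H v') E c₁ →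
    List.Forall₂ (RS_H v) E c := by
  intro E
  induction E with
  | nil =>
    intro c c₁ hc _ _
    rw [List.length_nil, List.length_eq_zero_iff] at hc
    subst hc
    exact List.Forall₂.nil
  | cons e E ih =>
    intro c c₁ hc hs hv
    cases hv with
    | @cons _ p₁ _ c₁' hp htl =>
      rcases c with _ | ⟨p, c⟩
      · simp at hc
      · have hs' : stepE β e p p₁ = true ∧ stepS β E c c₁' = true := by
          simpa [stepS, List.zip_cons_cons, List.all_cons] using hs
        refine List.Forall₂.cons ?_ (ih c c₁' (by simpa using hc) hs'.2 htl)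
        have h1 := hs'.1
        simp only [stepE, Bool.and_eq_true, decide_eq_true_eq] at h1
        obtain ⟨⟨h2, h3⟩, h4⟩ := h1
        unfold RS_H at hp ⊢
        rw [RS_sum β v v' h, RS_sum β v v' h]
        omega

private theorem RS_fwd {V : Type} (β : V → Bool) (v v' : V → ℕ)
    (h : ∀ x, v x = (β x).toNat + 2 * v' x) (E : Sys V) (c : List (ℕ × ℕ))
    (hv : List.Forall₂ (RS_H v) E c) :
    ∃ c₁ : List (ℕ × ℕ), c₁.length = E.length ∧ stepS β E c c₁ = true ∧
      List.Forall₂ (RS_H v') E c₁ := by
  induction hv with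
  | nil => exact ⟨[], rfl, rfl, List.Forall₂.nil⟩
  | @cons e p E c hp _ ih =>
    obtain ⟨c₁, h1, h2, h3⟩ := ih
    refine ⟨((p.1 + e.1.1.countP β) / 2, (p.2 + e.2.1.countP β) / 2) :: c₁, by simp [h1], ?_,
      List.Forall₂.cons ?_ h3⟩
    · have h4 : stepE β e p ((p.1 + e.1.1.countP β) / 2, (p.2 + e.2.1.countP β) / 2) = true := by
        unfold RS_H at hp
        rw [RS_sum β v v' h, RS_sum β v v' h] at hp
        simp only [stepE, Bool.and_eq_true, decide_eq_true_eq, true_and]
        omega
      simp only [stepS, List.zip_cons_cons, List.all_cons, Bool.and_eq_true]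
      exact ⟨h4, h2⟩
    · unfold RS_H at hp ⊢
      rw [RS_sum β v v' h, RS_sum β v v' h] at hp
      simp only
      omega

private theorem RS_init {V : Type} (v : V → ℕ) (E : Sys V) :
    List.Forall₂ (RS_H v) E (initS E) ↔ ∀ e ∈ E, Holds v e := by
  induction E with
  | nil => simp [initS]
  | cons e E ih =>
    have h1 : initS (e :: E) = (e.1.2, e.2.2) :: initS E := rfl
    rw [h1, List.forall₂_cons, ih, List.forall_mem_cons]
    simp [RS_H, Holds]

private theorem RS_run_sol {V : Type} (nv : List V) (E : Sys V) : ∀ (rows : List (V → Bool))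
    (c c' : List (ℕ × ℕ)), c.length = E.length → Run nv E rows c c' → finS c' = true →
    ∃ v : V → ℕ, (∀ x ∈ nv, v x = valR rows x) ∧ List.Forall₂ (RS_H v) E c := by
  intro rows
  induction rows with
  | nil =>
    intro c c' hc hr hf
    have hr' : c = c' := hr
    subst hr'
    refine ⟨fun _ => 0, fun x _ => rfl, ?_⟩
    rw [List.forall₂_iff_get]
    refine ⟨hc.symm, fun i h1 h2 => ?_⟩
    have h3 : c.get ⟨i, h2⟩ ∈ c := List.get_mem _ _
    have h4 := (List.all_eq_true.mp hf) _ h3
    simp only [decide_eq_true_eq] at h4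
    unfold RS_H
    rw [h4]
    simp
  | cons row rows ih =>
    intro c c' hc hr hf
    obtain ⟨c₁, β, h1, h2, h3, h4⟩ := hr
    obtain ⟨v', h5, h6⟩ := ih c₁ c' h2 h4 hf
    refine ⟨fun x => (β x).toNat + 2 * v' x, fun x hx => ?_,
      RS_back β _ v' (fun _ => rfl) E c c₁ hc h3 h6⟩
    change (β x).toNat + 2 * v' x = (row x).toNat + 2 * valR rows x
    rw [← h5 x hx, h1 x hx]

theorem sol_of_run {V : Type} (nv : List V) (E : Sys V) (rows : List (V → Bool)) (n : ℕ)
    (c' : List (ℕ × ℕ))
    (h : Run nv E (rows ++ List.replicate n (fun _ => false)) (initS E) c') (hf : finS c' = true) :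
    Sol nv E (valR rows) := by
  obtain ⟨v, h1, h2⟩ := RS_run_sol nv E _ _ _ (by simp [initS]) h hf
  exact ⟨v, fun x hx => by rw [h1 x hx, RS_valR], (RS_init v E).mp h2⟩

private theorem RS_mod {V : Type} (v : V → ℕ) (x : V) :
    v x = (decide (v x % 2 = 1)).toNat + 2 * (v x / 2) := by
  rcases Nat.mod_two_eq_zero_or_one (v x) with h | h
  · simp only [h, Nat.zero_ne_one, decide_false, Bool.toNat_false]
    omega
  · simp only [h, decide_true, Bool.toNat_true]
    omega

private theorem RS_tail {V : Type} (nv : List V) (E : Sys V) : ∀ (m : ℕ) (v : V → ℕ)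
    (c : List (ℕ × ℕ)), (∀ x ∈ occ E, v x ≤ m) → (∀ x ∈ nv, v x = 0) →
    List.Forall₂ (RS_H v) E c →
    ∃ (n : ℕ) (c' : List (ℕ × ℕ)),
      Run nv E (List.replicate n (fun _ => false)) c c' ∧ finS c' = true := by
  intro m
  induction m using Nat.strong_induction_on with
  | _ m ih =>
    intro v c hm h0 hv
    rcases Nat.eq_zero_or_pos m with h | h
    · subst h
      refine ⟨0, c, rfl, ?_⟩
      clear ih h0
      induction hv with
      | nil => rfl
      | @cons e p E c hp _ ih2 =>
        have hocc : occ (e :: E) = (e.1.1 ++ e.2.1) ++ occ E := by simp [occ]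
        have hz : ∀ l : List V, (∀ x ∈ l, v x ≤ 0) → (l.map v).sum = 0 := by
          intro l hl
          rw [List.sum_eq_zero_iff]
          intro y hy
          obtain ⟨x, hx, rfl⟩ := List.mem_map.mp hy
          exact Nat.le_zero.mp (hl x hx)
        unfold RS_H at hp
        rw [hz e.1.1 fun x hx => hm x (by
            rw [hocc]
            exact List.mem_append_left _ (List.mem_append_left _ hx)),
          hz e.2.1 fun x hx => hm x (by
            rw [hocc]
            exact List.mem_append_left _ (List.mem_append_right _ hx)), zero_add, zero_add] at hp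
        have h5 := ih2 fun x hx => hm x (by
          rw [hocc]
          exact List.mem_append_right _ hx)
        simp only [finS, List.all_cons, Bool.and_eq_true, decide_eq_true_eq]
        exact ⟨hp, h5⟩
    · obtain ⟨c₁, h1, h2, h3⟩ := RS_fwd (fun x => decide (v x % 2 = 1)) v (fun x => v x / 2)
        (RS_mod v) E c hv
      obtain ⟨n, c', h4, h5⟩ := ih (m / 2) (by omega) (fun x => v x / 2) c₁
        (fun x hx => Nat.div_le_div_right (hm x hx)) (fun x hx => by simp [h0 x hx]) h3
      refine ⟨n + 1, c', ?_, h5⟩
      rw [List.replicate_succ]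
      exact ⟨c₁, fun x => decide (v x % 2 = 1), fun x hx => by simp [h0 x hx], h1, h2, h4⟩

private theorem RS_sol_run {V : Type} (nv : List V) (E : Sys V) : ∀ (rows : List (V → Bool))
    (v : V → ℕ) (c : List (ℕ × ℕ)), (∀ x ∈ nv, v x = valR rows x) →
    List.Forall₂ (RS_H v) E c →
    ∃ (n : ℕ) (c' : List (ℕ × ℕ)),
      Run nv E (rows ++ List.replicate n (fun _ => false)) c c' ∧ finS c' = true := by
  intro rows
  induction rows with
  | nil =>
    intro v c h0 hv
    have hb : ∃ m, ∀ x ∈ occ E, v x ≤ m :=
      ⟨((occ E).map v).sum, fun x hx =>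
        List.single_le_sum (fun _ _ => Nat.zero_le _) _ (List.mem_map_of_mem hx)⟩
    obtain ⟨m, hm⟩ := hb
    exact RS_tail nv E m v c hm h0 hv
  | cons row rows ih =>
    intro v c h0 hv
    obtain ⟨c₁, h1, h2, h3⟩ := RS_fwd (fun x => decide (v x % 2 = 1)) v (fun x => v x / 2)
      (RS_mod v) E c hv
    have hrow : ∀ x ∈ nv, v x = (row x).toNat + 2 * valR rows x := fun x hx => h0 x hx
    obtain ⟨n, c', h4, h5⟩ := ih (fun x => v x / 2) c₁ (fun x hx => by
      have h6 := hrow x hx
      have h7 : (row x).toNat ≤ 1 := Bool.toNat_le (row x)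
      change v x / 2 = valR rows x
      omega) h3
    refine ⟨n, c', ?_, h5⟩
    rw [List.cons_append]
    refine ⟨c₁, fun x => decide (v x % 2 = 1), fun x hx => ?_, h1, h2, h4⟩
    have h6 := hrow x hx
    cases hr : row x
    · rw [hr] at h6
      simp only [Bool.toNat_false] at h6
      simp only [decide_eq_false_iff_not]
      omega
    · rw [hr] at h6
      simp only [Bool.toNat_true] at h6
      simp only [decide_eq_true_eq]
      omega

theorem run_of_sol {V : Type} (nv : List V) (E : Sys V) (rows : List (V → Bool))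
    (h : Sol nv E (valR rows)) :
    ∃ (n : ℕ) (c' : List (ℕ × ℕ)),
      Run nv E (rows ++ List.replicate n (fun _ => false)) (initS E) c' ∧ finS c' = true := by
  obtain ⟨v, h1, h2⟩ := h
  exact RS_sol_run nv E rows v (initS E) h1 ((RS_init v E).mpr h2)

end Pool.Agent.H24U
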