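import Pool.Agent.Lib.H24U.Check
import Pool.Agent.Lib.H24U.RunSol
import Pool.Agent.Lib.H24U.DPRun

/-!
# Chunk SOLP: correctness of the decision procedure with levels

All `capLists` are `lists` since `(M + 3) ^ (2 * M) ≤ y.length` (`capLists_eq`; the length of
`carries o` is `(o.length + 3) ^ 2`; for the reduced system use `redL`: fewer occurrences, fewer
equations). `dp_iff`, `sol_of_run`, `run_of_sol` give `dpP .. ↔ Sol nv (redL ..) (valV y nv)`. A list
`l ∈ lists (List.range (nv.length + 2)) (occ E).length` and the function `look (occ E) l 0`; `consL` and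
`redL` depend only on the levels of the variables in `occ E`; `lamV y nv x ≤ nv.length`; extend by
`lamV` on `nv` and `0` elsewhere.
-/

set_option autoImplicit false

namespace Pool.Agent.H24U

open Pool.Agent.PolyTime

theorem lamV_le {V : Type} [DecidableEq V] (y : List Bool) (nv : List V) (x : V) :
    lamV y nv x ≤ nv.length := by
  unfold lamV lamOf
  exact List.countP_le_length.trans (List.length_take_le _ _)

theorem SOLP_all {α : Type} {f g : α → Bool} (l : List α) (h : ∀ a ∈ l, f a = g a) :
    l.all f = l.all g := by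
  induction l with
  | nil => rfl
  | cons a l ih =>
    rw [List.all_cons, List.all_cons, h a List.mem_cons_self,
      ih fun b hb => h b (List.mem_cons_of_mem a hb)]

theorem SOLP_any {α : Type} {f g : α → Bool} (l : List α) (h : ∀ a ∈ l, f a = g a) :
    l.any f = l.any g := by
  induction l with
  | nil => rfl
  | cons a l ih =>
    rw [List.any_cons, List.any_cons, h a List.mem_cons_self,
      ih fun b hb => h b (List.mem_cons_of_mem a hb)]

theorem SOLP_leL {V : Type} {lv lv' : V → ℕ} (l l' : List V) (h : ∀ x ∈ l, lv x = lv' x)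
    (h' : ∀ x ∈ l', lv x = lv' x) : leL lv l l' = leL lv' l l' := by
  unfold leL
  refine SOLP_all l fun x hx => ?_
  rw [h x hx, SOLP_any l' fun y hy => by rw [h' y hy]]

theorem SOLP_occ {V : Type} {E : Sys V} {e : Eqn V} (he : e ∈ E) {x : V}
    (hx : x ∈ e.1.1 ++ e.2.1) : x ∈ occ E := List.mem_flatMap.2 ⟨e, he, hx⟩

theorem SOLP_consL {V : Type} {lv lv' : V → ℕ} {E : Sys V} (h : ∀ x ∈ occ E, lv x = lv' x) :
    consL lv E = consL lv' E := by
  unfold consL
  refine SOLP_all E fun e he => ?_
  have h1 : ∀ x ∈ e.1.1, lv x = lv' x := fun x hx =>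
    h x (SOLP_occ he (List.mem_append_left _ hx))
  have h2 : ∀ x ∈ e.2.1, lv x = lv' x := fun x hx =>
    h x (SOLP_occ he (List.mem_append_right _ hx))
  rw [SOLP_leL _ _ h1 h2, SOLP_leL _ _ h2 h1]

theorem SOLP_redL {V : Type} {lv lv' : V → ℕ} {E : Sys V} (h : ∀ x ∈ occ E, lv x = lv' x) :
    redL lv E = redL lv' E := by
  unfold redL
  refine List.filter_congr fun e he => ?_
  exact SOLP_all _ fun x hx => by rw [h x (SOLP_occ he hx)]

theorem SOLP_occ_le {V : Type} (p : Eqn V → Bool) (E : Sys V) :
    (occ (E.filter p)).length ≤ (occ E).length := by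
  induction E with
  | nil => exact le_rfl
  | cons e E ih =>
    have h1 : (occ (e :: E)).length = (e.1.1 ++ e.2.1).length + (occ E).length := by
      unfold occ
      rw [List.flatMap_cons, List.length_append]
    by_cases hp : p e = true
    · rw [List.filter_cons_of_pos hp]
      have h2 : (occ (e :: E.filter p)).length =
          (e.1.1 ++ e.2.1).length + (occ (E.filter p)).length := by
        unfold occ
        rw [List.flatMap_cons, List.length_append]
      omega
    · rw [List.filter_cons_of_neg hp]
      omega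

theorem SOLP_dpP {V : Type} [DecidableEq V] (M : ℕ) (y : List Bool) (nv : List V) (E : Sys V)
    (hE : E.length ≤ M) (ho : (occ E).length ≤ M) (hc : ∀ e ∈ E, e.1.2 ≤ 2 ∧ e.2.2 ≤ 2)
    (hy : (M + 3) ^ (2 * M) ≤ y.length) : dpP y nv E = true ↔ Sol nv E (valV y nv) := by
  have h1 : capLists y [false, true] (occ E) = lists [false, true] (occ E).length := by
    refine capLists_eq _ _ _ (le_trans ?_ hy)
    show 2 ^ (occ E).length ≤ _
    calc 2 ^ (occ E).length ≤ (M + 3) ^ (occ E).length := Nat.pow_le_pow_left (by omega) _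
      _ ≤ (M + 3) ^ (2 * M) := Nat.pow_le_pow_right (by omega) (by omega)
  have h2 : capLists y (carries (occ E)) E = lists (carries (occ E)) E.length := by
    refine capLists_eq _ _ _ (le_trans ?_ hy)
    have h3 : (carries (occ E)).length = ((occ E).length + 3) ^ 2 := by
      unfold carries
      rw [List.length_product, List.length_range, sq]
    rw [h3, ← pow_mul]
    calc ((occ E).length + 3) ^ (2 * E.length) ≤ (M + 3) ^ (2 * E.length) :=
          Nat.pow_le_pow_left (by omega) _
      _ ≤ (M + 3) ^ (2 * M) := Nat.pow_le_pow_right (by omega) (by omega)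
  unfold dpP
  rw [h1, h2, dp_iff nv E hc]
  constructor
  · rintro ⟨n, c', h3, h4⟩
    exact sol_of_run nv E _ n c' h3 h4
  · intro h3
    exact run_of_sol nv E _ h3

theorem SOLP_look {V : Type} [DecidableEq V] (o : List V) (lv : V → ℕ) {x : V} (hx : x ∈ o) :
    look o (o.map lv) 0 x = lv x := by
  unfold look
  have h1 : o.idxOf x < o.length := List.idxOf_lt_length_iff.2 hx
  rw [List.getD_eq_getElem?_getD, List.getElem?_map, List.getElem?_eq_getElem h1]
  simp

theorem SOLP_look_le {V : Type} [DecidableEq V] (o : List V) (l : List ℕ) (n : ℕ)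
    (h : ∀ a ∈ l, a ≤ n) (x : V) : look o l 0 x ≤ n := by
  unfold look
  rw [List.getD_eq_getElem?_getD]
  by_cases h1 : o.idxOf x < l.length
  · rw [List.getElem?_eq_getElem h1]
    exact h _ (List.getElem_mem h1)
  · rw [List.getElem?_eq_none (not_lt.1 h1)]
    exact Nat.zero_le _

theorem solP_iff {V : Type} [DecidableEq V] (M : ℕ) (y : List Bool) (nv : List V) (E : Sys V)
    (hnv : nv.length ≤ M) (hE : SmallSys M E) (hc : ∀ e ∈ E, e.1.2 ≤ 2 ∧ e.2.2 ≤ 2)
    (hy : (M + 3) ^ (2 * M) ≤ y.length) :
    solP y nv E = true ↔ SolL nv E (nv.length + 1) (lamV y nv) (valV y nv) := by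
  have h1 : capLists y (List.range (nv.length + 2)) (occ E) =
      lists (List.range (nv.length + 2)) (occ E).length := by
    refine capLists_eq _ _ _ (le_trans ?_ hy)
    rw [List.length_range]
    have ho := hE.occ
    calc (nv.length + 2) ^ (occ E).length ≤ (M + 3) ^ (occ E).length :=
          Nat.pow_le_pow_left (by omega) _
      _ ≤ (M + 3) ^ (2 * M) := Nat.pow_le_pow_right (by omega) (by omega)
  have h2 : ∀ lv : V → ℕ, dpP y nv (redL lv E) = true ↔ Sol nv (redL lv E) (valV y nv) := by
    intro lv
    refine SOLP_dpP M y nv _ ((List.length_filter_le _ _).trans hE.len)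
      ((SOLP_occ_le _ _).trans hE.occ) (fun e he => hc e (List.mem_filter.1 he).1) hy
  unfold solP
  rw [h1, List.any_eq_true]
  constructor
  · rintro ⟨l, hl, h3⟩
    rw [Bool.and_eq_true, Bool.and_eq_true, h2] at h3
    obtain ⟨⟨h3, h4⟩, h5⟩ := h3
    rw [mem_lists] at hl
    have hlook : ∀ x, look (occ E) l 0 x ≤ nv.length + 1 :=
      SOLP_look_le _ _ _ fun a ha => by
        have := hl.2 a ha
        rw [List.mem_range] at this
        omega
    have hag : ∀ x ∈ occ E, (if x ∈ nv then lamV y nv x else look (occ E) l 0 x) =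
        look (occ E) l 0 x := by
      intro x hx
      by_cases hxn : x ∈ nv
      · rw [if_pos hxn]
        have h6 := List.all_eq_true.1 h3 x hx
        simp only [hxn, decide_true, Bool.not_true, Bool.false_or, decide_eq_true_eq] at h6
        exact h6.symm
      · rw [if_neg hxn]
    refine ⟨fun x => if x ∈ nv then lamV y nv x else look (occ E) l 0 x, fun x hx => if_pos hx,
      fun x => ?_, ?_, ?_⟩
    · show (if x ∈ nv then lamV y nv x else look (occ E) l 0 x) ≤ _
      split_ifs
      · exact (lamV_le y nv x).trans (Nat.le_succ _)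
      · exact hlook x
    · rw [SOLP_consL hag]
      exact h4
    · rw [SOLP_redL hag]
      exact h5
  · rintro ⟨lv, h3, h4, h5, h6⟩
    have hag : ∀ x ∈ occ E, look (occ E) ((occ E).map lv) 0 x = lv x :=
      fun x hx => SOLP_look _ _ hx
    refine ⟨(occ E).map lv, mem_lists.2 ⟨List.length_map _, fun a ha => ?_⟩, ?_⟩
    · obtain ⟨x, -, rfl⟩ := List.mem_map.1 ha
      rw [List.mem_range]
      have := h4 x
      omega
    · rw [Bool.and_eq_true, Bool.and_eq_true, h2, SOLP_consL hag, SOLP_redL hag]
      refine ⟨⟨?_, h5⟩, h6⟩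
      unfold levOk
      rw [List.all_eq_true]
      intro x hx
      by_cases hxn : x ∈ nv
      · rw [hag x hx, h3 x hxn]
        simp
      · simp [hxn]

end Pool.Agent.H24U
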