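import Pool.Agent.Lib.H24U.SysW

/-!
# Chunk SOLW: solutions of the systems

(⇒) `n θ = v (vn θ)`, `o θ s = v (vo j θ s)`, `i θ s = v (vi j θ s)` where `j` is the position of `ρ`
in `F.roles`. (⇐) choose `o`, `i` for every position `j` and slacks (`c ≤ d → ∃ e, d = c + e`), and
define `v` by cases on the kind `p.1` of the variable `p`.
-/

set_option autoImplicit false

namespace Pool.Agent.H24U

open Cardinal

/-- slack -/
noncomputable def SOLW_sl (c d : Cardinal.{0}) : Cardinal.{0} := by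
  classical
  exact if h : c ≤ d then (exists_add_of_le h).choose else 0

theorem SOLW_sl_spec {c d : Cardinal.{0}} (h : c ≤ d) : c + SOLW_sl c d = d := by
  unfold SOLW_sl
  rw [dif_pos h]
  exact (exists_add_of_le h).choose_spec.symm

theorem SOLW_role (v : Va → Cardinal.{0}) (ρ : Rd) (Θ : List Th) (pats : List (List Th))
    (sup : Th → ℕ) (j : ℕ) :
    (∀ e ∈ roleEqs ρ Θ pats sup j, Holds v e) ↔
      (∀ θ ∈ Θ, v (vn θ) = ((outSt ρ Θ pats sup θ).map fun s => v (vo j θ s)).sum) ∧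
      (∀ θ ∈ Θ, v (vn θ) = ((outSt (rflip ρ) Θ pats sup θ).map fun s => v (vi j θ s)).sum) ∧
      ∀ θ ∈ Θ, ∀ θ' ∈ Θ, v (vo j θ (0, [θ'])) = v (vi j θ' (0, [θ])) ∧
        ((need (rflip ρ) Θ pats sup θ' θ).map fun s => v (vi j θ' s)).sum + v (vs1 j θ θ') =
          v (vo j θ (1, [θ'])) ∧
        ((need ρ Θ pats sup θ θ').map fun s => v (vo j θ s)).sum + v (vs2 j θ θ') =
          v (vi j θ' (1, [θ])) := by
  have e1 : ∀ θ, Holds v ((([vn θ], 0), ((outSt ρ Θ pats sup θ).map (vo j θ), 0)) : Eqn Va) ↔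
      v (vn θ) = ((outSt ρ Θ pats sup θ).map fun s => v (vo j θ s)).sum := by
    intro θ
    simp only [Holds, List.map_cons, List.map_nil, List.sum_cons, List.sum_nil, Nat.cast_zero,
      add_zero, List.map_map]
    rfl
  have e2 : ∀ θ, Holds v ((([vn θ], 0), ((outSt (rflip ρ) Θ pats sup θ).map (vi j θ), 0)) :
      Eqn Va) ↔ v (vn θ) = ((outSt (rflip ρ) Θ pats sup θ).map fun s => v (vi j θ s)).sum := by
    intro θ
    simp only [Holds, List.map_cons, List.map_nil, List.sum_cons, List.sum_nil, Nat.cast_zero,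
      add_zero, List.map_map]
    rfl
  have e3 : ∀ θ θ', (∀ e ∈ pairEqs ρ Θ pats sup j θ θ', Holds v e) ↔
      v (vo j θ (0, [θ'])) = v (vi j θ' (0, [θ])) ∧
        ((need (rflip ρ) Θ pats sup θ' θ).map fun s => v (vi j θ' s)).sum + v (vs1 j θ θ') =
          v (vo j θ (1, [θ'])) ∧
        ((need ρ Θ pats sup θ θ').map fun s => v (vo j θ s)).sum + v (vs2 j θ θ') =
          v (vi j θ' (1, [θ])) := by
    intro θ θ'
    unfold pairEqs
    simp only [List.mem_cons, List.not_mem_nil, or_false, forall_eq_or_imp, forall_eq]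
    simp only [Holds, List.map_cons, List.map_nil, List.sum_cons, List.sum_nil, Nat.cast_zero,
      add_zero, List.map_append, List.sum_append, List.map_map]
    rfl
  unfold roleEqs sumEqs
  rw [List.forall_mem_append, List.forall_mem_append]
  constructor
  · rintro ⟨⟨h1, h2⟩, h3⟩
    refine ⟨fun θ hθ => (e1 θ).mp (h1 _ (List.mem_map_of_mem hθ)),
      fun θ hθ => (e2 θ).mp (h2 _ (List.mem_map_of_mem hθ)), fun θ hθ θ' hθ' => ?_⟩
    refine (e3 θ θ').mp fun e he => h3 e ?_
    exact List.mem_flatMap.mpr ⟨θ, hθ, List.mem_flatMap.mpr ⟨θ', hθ', he⟩⟩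
  · rintro ⟨h1, h2, h3⟩
    refine ⟨⟨fun e he => ?_, fun e he => ?_⟩, fun e he => ?_⟩
    · obtain ⟨θ, hθ, rfl⟩ := List.mem_map.mp he
      exact (e1 θ).mpr (h1 θ hθ)
    · obtain ⟨θ, hθ, rfl⟩ := List.mem_map.mp he
      exact (e2 θ).mpr (h2 θ hθ)
    · obtain ⟨θ, hθ, he⟩ := List.mem_flatMap.mp he
      obtain ⟨θ', hθ', he⟩ := List.mem_flatMap.mp he
      exact (e3 θ θ').mpr (h3 θ hθ θ' hθ') e he

theorem SOLW_sup (v : Va → Cardinal.{0}) (sup : Th → ℕ) (θ : Th) :
    Holds v (supEq sup θ) ↔ v (vn θ) = (if 2 ≤ sup θ then v (vsl θ) else 0) + sup θ := by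
  unfold supEq Holds
  simp only [List.map_cons, List.map_nil, List.sum_cons, List.sum_nil, Nat.cast_zero, add_zero]
  split_ifs <;> simp

theorem SOLW_n (v : Va → Cardinal.{0}) (Θ : List Th) (s : Ty) :
    Holds v (nEq Θ s) ↔ v (vN s) = ((Θ.filter fun θ => decide (θ.1 = s)).map fun θ =>
      v (vn θ)).sum := by
  unfold nEq Holds
  simp only [List.map_cons, List.map_nil, List.sum_cons, List.sum_nil, Nat.cast_zero, add_zero,
    List.map_map]
  rfl

theorem sol_sysW (F : NF) (tys : List Ty) (Θ : List Th) (pats : List (List Th)) (sup : Th → ℕ)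
    (hs : ∀ θ ∈ Θ, sup θ ≤ 2) (N : Va → Cardinal.{0}) :
    Sol (tys.map vN) (sysW F tys Θ pats sup) N ↔
      ∃ n : Th → Cardinal.{0}, (∀ θ ∈ Θ, SupOk (sup θ) (n θ)) ∧
        (∀ s ∈ tys, ((Θ.filter fun θ => decide (θ.1 = s)).map n).sum = N (vN s)) ∧
        ∀ ρ ∈ F.roles, ∃ o i : Th → St → Cardinal.{0}, RoleAr ρ Θ pats sup n o i := by
  unfold sysW
  constructor
  · rintro ⟨v, hv, h⟩
    rw [List.forall_mem_append, List.forall_mem_append] at h
    obtain ⟨⟨h1, h2⟩, h3⟩ := h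
    refine ⟨fun θ => v (vn θ), fun θ hθ => ?_, fun s hs' => ?_, fun ρ hρ => ?_⟩
    · have h4 := (SOLW_sup v sup θ).mp (h1 _ (List.mem_map_of_mem hθ))
      have h5 := hs θ hθ
      rcases Nat.lt_or_ge (sup θ) 2 with h6 | h6
      · left
        refine ⟨by omega, ?_⟩
        rw [if_neg (by omega), zero_add] at h4
        exact h4
      · right
        have h7 : sup θ = 2 := by omega
        refine ⟨h7, ?_⟩
        rw [if_pos h6, h7] at h4
        show 2 ≤ v (vn θ)
        rw [h4]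
        exact le_add_self
    · rw [← hv _ (List.mem_map_of_mem hs')]
      exact ((SOLW_n v Θ s).mp (h2 _ (List.mem_map_of_mem hs'))).symm
    · obtain ⟨j, hj⟩ := List.mem_iff_getElem?.mp hρ
      have h4 := (SOLW_role v ρ Θ pats sup j).mp fun e he => h3 e
        (List.mem_flatMap.mpr ⟨(ρ, j), List.mem_zipIdx_iff_getElem?.mpr hj, he⟩)
      obtain ⟨a1, a2, a3⟩ := h4
      refine ⟨fun θ s => v (vo j θ s), fun θ s => v (vi j θ s), ⟨fun θ hθ => (a1 θ hθ).symm,
        fun θ hθ => (a2 θ hθ).symm, fun θ hθ θ' hθ' => (a3 θ hθ θ' hθ').1,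
        fun θ hθ θ' hθ' => ?_, fun θ hθ θ' hθ' => ?_⟩⟩
      · show _ ≤ v (vo j θ (1, [θ']))
        rw [← (a3 θ hθ θ' hθ').2.1]
        exact le_self_add
      · show _ ≤ v (vi j θ' (1, [θ]))
        rw [← (a3 θ hθ θ' hθ').2.2]
        exact le_self_add
  · rintro ⟨n, h1, h2, h3⟩
    choose! o i h4 using h3
    let R : ℕ → Rd := fun j => (F.roles[j]?).getD (0, 0, [], [])
    let v : Va → Cardinal.{0} := fun p =>
      if p.1 = 0 then N p else
      if p.1 = 1 then n p.2.2.1 else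
      if p.1 = 2 then SOLW_sl 2 (n p.2.2.1) else
      if p.1 = 3 then o (R p.2.1) p.2.2.1 p.2.2.2 else
      if p.1 = 4 then i (R p.2.1) p.2.2.1 p.2.2.2 else
      if p.1 = 5 then
        SOLW_sl (((need (rflip (R p.2.1)) Θ pats sup (p.2.2.2.2.headD ([], [])) p.2.2.1).map
          (i (R p.2.1) (p.2.2.2.2.headD ([], [])))).sum)
          (o (R p.2.1) p.2.2.1 (1, [p.2.2.2.2.headD ([], [])])) else
        SOLW_sl (((need (R p.2.1) Θ pats sup p.2.2.1 (p.2.2.2.2.headD ([], []))).map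
          (o (R p.2.1) p.2.2.1)).sum)
          (i (R p.2.1) (p.2.2.2.2.headD ([], [])) (1, [p.2.2.1]))
    refine ⟨v, fun x hx => ?_, ?_⟩
    · obtain ⟨s, -, rfl⟩ := List.mem_map.mp hx
      rfl
    · rw [List.forall_mem_append, List.forall_mem_append]
      refine ⟨⟨fun e he => ?_, fun e he => ?_⟩, fun e he => ?_⟩
      · obtain ⟨θ, hθ, rfl⟩ := List.mem_map.mp he
        rw [SOLW_sup]
        show n θ = (if 2 ≤ sup θ then SOLW_sl 2 (n θ) else 0) + sup θ
        rcases h1 θ hθ with ⟨h5, h6⟩ | ⟨h5, h6⟩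
        · rw [if_neg (by omega), zero_add]
          exact h6
        · rw [if_pos (by omega), h5, add_comm]
          exact (SOLW_sl_spec h6).symm
      · obtain ⟨s, hs', rfl⟩ := List.mem_map.mp he
        rw [SOLW_n]
        exact (h2 s hs').symm
      · obtain ⟨⟨ρ, j⟩, hj, he⟩ := List.mem_flatMap.mp he
        have hj' := List.mem_zipIdx_iff_getElem?.mp hj
        have hρ : ρ ∈ F.roles := List.mem_iff_getElem?.mpr ⟨j, hj'⟩
        have hR : R j = ρ := by
          show (F.roles[j]?).getD (0, 0, [], []) = ρ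
          have hj'' : F.roles[j]? = some ρ := hj'
          rw [hj'']
          rfl
        have hA := h4 ρ hρ
        refine (SOLW_role v ρ Θ pats sup j).mpr ⟨fun θ hθ => ?_, fun θ hθ => ?_,
          fun θ hθ θ' hθ' => ⟨?_, ?_, ?_⟩⟩ e he
        · show n θ = ((outSt ρ Θ pats sup θ).map fun s => o (R j) θ s).sum
          rw [hR]
          exact (hA.o_sum θ hθ).symm
        · show n θ = ((outSt (rflip ρ) Θ pats sup θ).map fun s => i (R j) θ s).sum
          rw [hR]
          exact (hA.i_sum θ hθ).symm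
        · show o (R j) θ (0, [θ']) = i (R j) θ' (0, [θ])
          rw [hR]
          exact hA.mat θ hθ θ' hθ'
        · show ((need (rflip ρ) Θ pats sup θ' θ).map fun s => i (R j) θ' s).sum +
            SOLW_sl ((need (rflip (R j)) Θ pats sup θ' θ).map (i (R j) θ')).sum
              (o (R j) θ (1, [θ'])) = o (R j) θ (1, [θ'])
          rw [hR]
          exact SOLW_sl_spec (hA.att θ hθ θ' hθ')
        · show ((need ρ Θ pats sup θ θ').map fun s => o (R j) θ s).sum +
            SOLW_sl ((need (R j) Θ pats sup θ θ').map (o (R j) θ)).sum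
              (i (R j) θ' (1, [θ])) = i (R j) θ' (1, [θ])
          rw [hR]
          exact SOLW_sl_spec (hA.att' θ hθ θ' hθ')

end Pool.Agent.H24U
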