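import Pool.Agent.Lib.H24U.Role

/-!
# Chunk STA: statuses of the elements for a given relation

`f x` (i.e. `bit (τ x).2 (rf ρ) = true`): if `x` has a successor `y` (unique by `hP.f`), the status is
`(0, [τ y])` if `g y` and `(1, [τ y])` otherwise; if it has none, `(2, [])`. `¬ f x`: there are two
different successors `y₁, y₂`; for every `p ∈ rex ρ` with `p.2` true at `x` choose a successor
satisfying `p.1`; let `w` be the list of all these elements without duplicates, filtered by `g`
(length `≤ K`); the status is `(3, w.map τ)`. `okSt`: compatibility and fullness follow from `hP`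
(for an owned `y` with `g y`, `x` is the only predecessor, so `full (rflip ρ) (τ y) (τ x)`); chosen
successors with `¬ g` are free (`free ρ sup`, since `1 ≤ cnt τ (τ y)`). For
`2 ≤ π.length + Σ sup`: consider `y₁, y₂`: both in `w`; or one in `w` and one free; or both free, of
different types or of the same type with `sup = 2`.
-/

set_option autoImplicit false

namespace Pool.Agent.H24U

open Cardinal

theorem STA_comp {Δ : Type} {ρ : Rd} {τ : Δ → Th} {P : Δ → Δ → Prop}
    (hP : Real ρ (fun x => (τ x).2) P) {x y : Δ} (h : P x y) : comp ρ (τ x) (τ y) = true := by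
  unfold comp
  rw [Bool.and_eq_true, List.all_eq_true, List.all_eq_true]
  constructor
  · intro p hp
    have h1 := (hP.ex p hp x).mpr
    cases hb : bit (τ y).2 p.1
    · rfl
    · rw [h1 ⟨y, h, hb⟩]
      rfl
  · intro p hp
    have h1 := (hP.ey p hp y).mpr
    cases hb : bit (τ x).2 p.1
    · rfl
    · rw [h1 ⟨x, h, hb⟩]
      rfl

theorem STA_full {Δ : Type} {ρ : Rd} {τ : Δ → Th} {P : Δ → Δ → Prop}
    (hP : Real ρ (fun x => (τ x).2) P) {x y : Δ} (h : P x y)
    (hf : bit (τ x).2 (rf ρ) = true) : full ρ (τ x) (τ y) = true := by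
  unfold full
  rw [List.all_eq_true]
  intro p hp
  cases hb : bit (τ x).2 p.2
  · rfl
  · obtain ⟨y', hy', hb'⟩ := (hP.ex p hp x).mp hb
    have h1 : y' = y := (hP.f x).mp hf y' y hy' h
    subst h1
    rw [hb']
    rfl

theorem STA_pos {Δ : Type} {s : ℕ} {τ' : Δ → Th} {x : Δ} (h : SupOk s (cnt τ' (τ' x))) :
    1 ≤ s := by
  have h0 : cnt τ' (τ' x) ≠ 0 := by
    rw [cnt, Cardinal.mk_ne_zero_iff]
    exact ⟨⟨x, rfl⟩⟩
  rcases h with ⟨h1, h2⟩ | ⟨h1, h2⟩
  · rw [h2, Nat.cast_ne_zero] at h0
    omega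
  · omega

theorem STA_pos2 {Δ : Type} {s : ℕ} {τ' : Δ → Th} {x y : Δ} (h : SupOk s (cnt τ' (τ' x)))
    (hxy : x ≠ y) (hτ : τ' x = τ' y) : 2 ≤ s := by
  rcases h with ⟨h1, h2⟩ | ⟨h1, h2⟩
  · have h3 : cnt τ' (τ' x) ≤ 1 := by
      rw [h2]
      exact_mod_cast h1
    rw [cnt, Cardinal.le_one_iff_subsingleton] at h3
    have h4 := h3.elim ⟨x, rfl⟩ ⟨y, hτ.symm⟩
    exact absurd (congrArg Subtype.val h4) hxy
  · omega

theorem STA_le {V : Type} (l : List V) (f : V → ℕ) (a : V) (ha : a ∈ l) :
    f a ≤ (l.map f).sum := by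
  induction l with
  | nil => simp at ha
  | cons c l ih =>
    rw [List.map_cons, List.sum_cons]
    rcases List.mem_cons.mp ha with rfl | h
    · omega
    · have := ih h
      omega

theorem STA_two {V : Type} (l : List V) (f : V → ℕ) (a b : V) (ha : a ∈ l) (hb : b ∈ l)
    (hab : a ≠ b) : f a + f b ≤ (l.map f).sum := by
  induction l with
  | nil => simp at ha
  | cons c l ih =>
    rw [List.map_cons, List.sum_cons]
    rcases List.mem_cons.mp ha with rfl | ha'
    · rcases List.mem_cons.mp hb with rfl | hb'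
      · exact absurd rfl hab
      · have := STA_le l f b hb'
        omega
    · rcases List.mem_cons.mp hb with rfl | hb'
      · have := STA_le l f a ha'
        omega
      · have := ih ha' hb'
        omega

theorem STA_pat {Δ : Type} (ρ : Rd) (Θ : List Th) (pats : List (List Th))
    (K : ℕ) (hK : (rex ρ).length + 2 ≤ K) (hp : PatsOk Θ pats K) (sup : Th → ℕ) (τ : Δ → Th)
    (hτ : ∀ x, τ x ∈ Θ) (hsup : ∀ θ ∈ Θ, SupOk (sup θ) (cnt τ θ)) (P : Δ → Δ → Prop)
    (hP : Real ρ (fun x => (τ x).2) P) (x : Δ) (hf : bit (τ x).2 (rf ρ) = false) :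
    ∃ w : List Δ, w.Nodup ∧ (∀ y ∈ w, P x y ∧ bit (τ y).2 (rg ρ) = true) ∧
      w.map τ ∈ pats ∧ patOk ρ Θ sup (τ x) (w.map τ) = true := by
  classical
  have h0 : ¬ ∀ y z, P x y → P x z → y = z := by
    intro h
    rw [← hP.f x, hf] at h
    exact absurd h (by simp)
  push Not at h0
  obtain ⟨y₁, y₂, hy₁, hy₂, hne⟩ := h0
  have hc : ∀ p : ℕ × ℕ, ∃ y, P x y ∧ (p ∈ rex ρ → bit (τ x).2 p.2 = true →
      bit (τ y).2 p.1 = true) := by
    intro p
    by_cases h : p ∈ rex ρ ∧ bit (τ x).2 p.2 = true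
    · obtain ⟨y, h1, h2⟩ := (hP.ex p h.1 x).mp h.2
      exact ⟨y, h1, fun _ _ => h2⟩
    · exact ⟨y₁, hy₁, fun h1 h2 => absurd ⟨h1, h2⟩ h⟩
  choose c hc1 hc2 using hc
  set v : List Δ := (y₁ :: y₂ :: (rex ρ).map c).dedup with hv
  set w : List Δ := v.filter (fun y => bit (τ y).2 (rg ρ)) with hw
  have hvP : ∀ y ∈ v, P x y := by
    intro y hy
    rw [hv, List.mem_dedup] at hy
    rcases List.mem_cons.mp hy with rfl | hy
    · exact hy₁
    · rcases List.mem_cons.mp hy with rfl | hy
      · exact hy₂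
      · obtain ⟨p, -, rfl⟩ := List.mem_map.mp hy
        exact hc1 p
  have hvn : v.Nodup := List.nodup_dedup _
  have hvl : v.length ≤ K := by
    have h1 : v.length ≤ (y₁ :: y₂ :: (rex ρ).map c).length := (List.dedup_sublist _).length_le
    rw [List.length_cons, List.length_cons, List.length_map] at h1
    omega
  have hwl : w.length ≤ K := (List.length_filter_le _ _).trans hvl
  have hwP : ∀ y ∈ w, P x y ∧ bit (τ y).2 (rg ρ) = true := by
    intro y hy
    obtain ⟨h1, h2⟩ := List.mem_filter.mp hy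
    exact ⟨hvP y h1, h2⟩
  have hfree : ∀ y ∈ v, bit (τ y).2 (rg ρ) = false → free ρ sup (τ x) (τ y) = true := by
    intro y hy hg
    unfold free
    rw [hg, STA_comp hP (hvP y hy)]
    have := STA_pos (hsup _ (hτ y))
    simpa using this
  have hmem1 : y₁ ∈ v := by rw [hv, List.mem_dedup]; simp
  have hmem2 : y₂ ∈ v := by rw [hv, List.mem_dedup]; simp
  refine ⟨w, hvn.filter _, hwP, (hp.mem _).mpr ⟨by rwa [List.length_map], ?_⟩, ?_⟩
  · intro a ha
    obtain ⟨y, -, rfl⟩ := List.mem_map.mp ha
    exact hτ y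
  · unfold patOk
    rw [Bool.and_eq_true, Bool.and_eq_true, Bool.and_eq_true, hf]
    refine ⟨⟨⟨rfl, ?_⟩, ?_⟩, ?_⟩
    · rw [List.all_eq_true]
      intro θ' hθ'
      obtain ⟨y, hy, rfl⟩ := List.mem_map.mp hθ'
      obtain ⟨h1, h2⟩ := hwP y hy
      unfold attOk
      rw [rf_rflip, rg_rflip, h2, hf, STA_comp (P := fun x y => P y x) hP.flip h1,
        STA_full (P := fun x y => P y x) hP.flip h1 h2]
      rfl
    · rw [List.all_eq_true]
      intro p hp
      cases hb : bit (τ x).2 p.2
      · rfl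
      · have h1 := hc2 p hp hb
        have h2 : c p ∈ v := by
          rw [hv, List.mem_dedup]
          exact List.mem_cons_of_mem _ (List.mem_cons_of_mem _ (List.mem_map_of_mem hp))
        cases hg : bit (τ (c p)).2 (rg ρ)
        · have h3 : (Θ.any fun θ' => free ρ sup (τ x) θ' && bit θ'.2 p.1) = true := by
            rw [List.any_eq_true]
            refine ⟨τ (c p), hτ _, ?_⟩
            rw [hfree _ h2 hg, h1]
            rfl
          rw [h3, Bool.or_true]
        · have h3 : ((w.map τ).any fun θ' => bit θ'.2 p.1) = true := by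
            rw [List.any_eq_true]
            exact ⟨τ (c p), List.mem_map_of_mem (List.mem_filter.mpr ⟨h2, hg⟩), h1⟩
          rw [h3]
          rfl
    · rw [decide_eq_true_iff, List.length_map]
      cases hg1 : bit (τ y₁).2 (rg ρ)
      · have hm1 : τ y₁ ∈ Θ.filter (free ρ sup (τ x)) :=
          List.mem_filter.mpr ⟨hτ _, hfree _ hmem1 hg1⟩
        have hs1 := STA_pos (hsup _ (hτ y₁))
        cases hg2 : bit (τ y₂).2 (rg ρ)
        · have hm2 : τ y₂ ∈ Θ.filter (free ρ sup (τ x)) :=
            List.mem_filter.mpr ⟨hτ _, hfree _ hmem2 hg2⟩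
          have hs2 := STA_pos (hsup _ (hτ y₂))
          by_cases he : τ y₁ = τ y₂
          · have h1 := STA_pos2 (hsup _ (hτ y₁)) hne he
            have h2 := STA_le _ sup _ hm1
            omega
          · have h2 := STA_two _ sup _ _ hm1 hm2 he
            omega
        · have h1 : y₂ ∈ w := List.mem_filter.mpr ⟨hmem2, hg2⟩
          have h2 := List.length_pos_of_mem h1
          have h3 := STA_le _ sup _ hm1
          omega
      · have h1 : y₁ ∈ w := List.mem_filter.mpr ⟨hmem1, hg1⟩
        cases hg2 : bit (τ y₂).2 (rg ρ)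
        · have hm2 : τ y₂ ∈ Θ.filter (free ρ sup (τ x)) :=
            List.mem_filter.mpr ⟨hτ _, hfree _ hmem2 hg2⟩
          have hs2 := STA_pos (hsup _ (hτ y₂))
          have h2 := List.length_pos_of_mem h1
          have h3 := STA_le _ sup _ hm2
          omega
        · have h2 : y₂ ∈ w := List.mem_filter.mpr ⟨hmem2, hg2⟩
          have h3 : [y₁, y₂] ⊆ w := by
            intro z hz
            rcases List.mem_cons.mp hz with rfl | hz
            · exact h1
            · rw [List.mem_singleton] at hz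
              rw [hz]
              exact h2
          have h4 := (List.subperm_of_subset (by simp [hne]) h3).length_le
          simp only [List.length_cons, List.length_nil] at h4
          omega

theorem STA_one {Δ : Type} (ρ : Rd) (Θ : List Th) (pats : List (List Th))
    (K : ℕ) (hK : (rex ρ).length + 2 ≤ K) (hp : PatsOk Θ pats K) (sup : Th → ℕ) (τ : Δ → Th)
    (hτ : ∀ x, τ x ∈ Θ) (hsup : ∀ θ ∈ Θ, SupOk (sup θ) (cnt τ θ)) (P : Δ → Δ → Prop)
    (hP : Real ρ (fun x => (τ x).2) P) (x : Δ) :
    ∃ t : St, t ∈ outSt ρ Θ pats sup (τ x) ∧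
      (∀ θ', t = (0, [θ']) ↔ ∃ y, P x y ∧ τ y = θ' ∧ bit (τ x).2 (rf ρ) = true ∧
        bit (τ y).2 (rg ρ) = true) ∧
      (∀ θ', t = (1, [θ']) ↔ ∃ y, P x y ∧ τ y = θ' ∧ bit (τ x).2 (rf ρ) = true ∧
        bit (τ y).2 (rg ρ) = false) ∧
      (t.1 = 3 → bit (τ x).2 (rf ρ) = false ∧ ∃ w : List Δ, w.Nodup ∧
        w.map τ = t.2 ∧ ∀ y ∈ w, P x y ∧ bit (τ y).2 (rg ρ) = true) := by
  cases hf : bit (τ x).2 (rf ρ)
  · obtain ⟨w, hw1, hw2, hw3, hw4⟩ := STA_pat ρ Θ pats K hK hp sup τ hτ hsup P hP x hf
    refine ⟨(3, w.map τ), ?_, ?_, ?_, ?_⟩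
    · refine List.mem_filter.mpr ⟨?_, ?_⟩
      · exact List.mem_append.mpr (Or.inr (List.mem_map_of_mem hw3))
      · simp [okSt, hw4]
    · intro θ'
      constructor
      · intro h
        simp at h
      · rintro ⟨y, -, -, h, -⟩
        simp at h
    · intro θ'
      constructor
      · intro h
        simp at h
      · rintro ⟨y, -, -, h, -⟩
        simp at h
    · intro _
      exact ⟨rfl, w, hw1, rfl, hw2⟩
  · have huniq := (hP.f x).mp hf
    by_cases hy : ∃ y, P x y
    · obtain ⟨y, hy⟩ := hy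
      cases hg : bit (τ y).2 (rg ρ)
      · refine ⟨(1, [τ y]), ?_, ?_, ?_, ?_⟩
        · refine List.mem_filter.mpr ⟨?_, ?_⟩
          · exact List.mem_append.mpr (Or.inl (List.mem_append.mpr (Or.inl
              (List.mem_append.mpr (Or.inr (List.mem_map.mpr ⟨τ y, hτ y, rfl⟩))))))
          · have h1 := STA_pos (hsup _ (hτ y))
            simp [okSt, attOk, hf, hg, STA_comp hP hy, STA_full hP hy hf, h1]
        · intro θ'
          constructor
          · intro h
            simp at h
          · rintro ⟨y', h1, -, -, h2⟩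
            rw [huniq y' y h1 hy, hg] at h2
            simp at h2
        · intro θ'
          constructor
          · intro h
            simp only [Prod.mk.injEq, List.cons.injEq, and_true, true_and] at h
            exact ⟨y, hy, h, rfl, hg⟩
          · rintro ⟨y', h1, h2, -, -⟩
            rw [← h2, huniq y' y h1 hy]
        · intro h
          simp at h
      · refine ⟨(0, [τ y]), ?_, ?_, ?_, ?_⟩
        · refine List.mem_filter.mpr ⟨?_, ?_⟩
          · exact List.mem_append.mpr (Or.inl (List.mem_append.mpr (Or.inl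
              (List.mem_append.mpr (Or.inl (List.mem_map.mpr ⟨τ y, hτ y, rfl⟩))))))
          · have h1 := STA_full (P := fun x y => P y x) hP.flip hy hg
            simp [okSt, matOk, hf, hg, STA_comp hP hy, STA_full hP hy hf, h1]
        · intro θ'
          constructor
          · intro h
            simp only [Prod.mk.injEq, List.cons.injEq, and_true, true_and] at h
            exact ⟨y, hy, h, rfl, hg⟩
          · rintro ⟨y', h1, h2, -, -⟩
            rw [← h2, huniq y' y h1 hy]
        · intro θ'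
          constructor
          · intro h
            simp at h
          · rintro ⟨y', h1, -, -, h2⟩
            rw [huniq y' y h1 hy, hg] at h2
            simp at h2
        · intro h
          simp at h
    · refine ⟨(2, []), ?_, ?_, ?_, ?_⟩
      · refine List.mem_filter.mpr ⟨?_, ?_⟩
        · exact List.mem_append.mpr (Or.inl (List.mem_append.mpr (Or.inr
            (List.mem_singleton.mpr rfl))))
        · have h1 : noneed ρ (τ x) = true := by
            unfold noneed
            rw [List.all_eq_true]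
            intro p hp
            cases hb : bit (τ x).2 p.2
            · rfl
            · obtain ⟨y, h1, -⟩ := (hP.ex p hp x).mp hb
              exact absurd ⟨y, h1⟩ hy
          simp [okSt, hf, h1]
      · intro θ'
        constructor
        · intro h
          simp at h
        · rintro ⟨y, h, -⟩
          exact absurd ⟨y, h⟩ hy
      · intro θ'
        constructor
        · intro h
          simp at h
        · rintro ⟨y, h, -⟩
          exact absurd ⟨y, h⟩ hy
      · intro h
        simp at h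

theorem exists_stat {Δ : Type} (ρ : Rd) (Θ : List Th) (hΘ : Θ.Nodup) (pats : List (List Th))
    (K : ℕ) (hK : (rex ρ).length + 2 ≤ K) (hp : PatsOk Θ pats K) (sup : Th → ℕ) (τ : Δ → Th)
    (hτ : ∀ x, τ x ∈ Θ) (hsup : ∀ θ ∈ Θ, SupOk (sup θ) (cnt τ θ)) (P : Δ → Δ → Prop)
    (hP : Real ρ (fun x => (τ x).2) P) :
    ∃ s : Δ → St, (∀ x, s x ∈ outSt ρ Θ pats sup (τ x)) ∧
      (∀ x θ', s x = (0, [θ']) ↔ ∃ y, P x y ∧ τ y = θ' ∧ bit (τ x).2 (rf ρ) = true ∧
        bit (τ y).2 (rg ρ) = true) ∧
      (∀ x θ', s x = (1, [θ']) ↔ ∃ y, P x y ∧ τ y = θ' ∧ bit (τ x).2 (rf ρ) = true ∧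
        bit (τ y).2 (rg ρ) = false) ∧
      ∀ x, (s x).1 = 3 → bit (τ x).2 (rf ρ) = false ∧ ∃ w : List Δ, w.Nodup ∧
        w.map τ = (s x).2 ∧ ∀ y ∈ w, P x y ∧ bit (τ y).2 (rg ρ) = true := by
  choose s h1 h2 h3 h4 using STA_one ρ Θ pats K hK hp sup τ hτ hsup P hP
  exact ⟨s, h1, h2, h3, h4⟩

end Pool.Agent.H24U
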