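import Pool.Agent.Lib.H24U.Role
import Pool.Agent.Lib.H24U.DP

/-!
# The systems of equations of an instance
-/

set_option autoImplicit false

namespace Pool.Agent.H24U

open Cardinal

/-- variables: kind, index of the role, type, status -/
abbrev Va : Type := ℕ × ℕ × Th × St

/-- number of elements of type `s` -/
def vN (s : Ty) : Va := (0, 0, (s, []), (0, []))
/-- number of elements with the pair of types `θ` -/
def vn (θ : Th) : Va := (1, 0, θ, (0, []))
/-- slack for `2 ≤ n θ` -/
def vsl (θ : Th) : Va := (2, 0, θ, (0, []))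
/-- number of elements with pair `θ` and status `s` for the role `j` -/
def vo (j : ℕ) (θ : Th) (s : St) : Va := (3, j, θ, s)
/-- the same for the inverse role -/
def vi (j : ℕ) (θ : Th) (s : St) : Va := (4, j, θ, s)
/-- slack -/
def vs1 (j : ℕ) (θ θ' : Th) : Va := (5, j, θ, (0, [θ']))
/-- slack -/
def vs2 (j : ℕ) (θ θ' : Th) : Va := (6, j, θ, (0, [θ']))

/-- `n θ` is `sup θ` or at least `2` -/
def supEq (sup : Th → ℕ) (θ : Th) : Eqn Va :=
  (([vn θ], 0), (if 2 ≤ sup θ then [vsl θ] else [], sup θ))

/-- the number of elements of type `s` -/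
def nEq (Θ : List Th) (s : Ty) : Eqn Va :=
  (([vN s], 0), ((Θ.filter fun θ => decide (θ.1 = s)).map vn, 0))

/-- all elements have statuses -/
def sumEqs (ρ : Rd) (Θ : List Th) (pats : List (List Th)) (sup : Th → ℕ) (j : ℕ) : Sys Va :=
  Θ.map (fun θ => (([vn θ], 0), ((outSt ρ Θ pats sup θ).map (vo j θ), 0))) ++
    Θ.map (fun θ => (([vn θ], 0), ((outSt (rflip ρ) Θ pats sup θ).map (vi j θ), 0)))

/-- matching and attachments between `θ` and `θ'` -/
def pairEqs (ρ : Rd) (Θ : List Th) (pats : List (List Th)) (sup : Th → ℕ) (j : ℕ) (θ θ' : Th) :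
    Sys Va :=
  [(([vo j θ (0, [θ'])], 0), ([vi j θ' (0, [θ])], 0)),
    (((need (rflip ρ) Θ pats sup θ' θ).map (vi j θ') ++ [vs1 j θ θ'], 0),
      ([vo j θ (1, [θ'])], 0)),
    (((need ρ Θ pats sup θ θ').map (vo j θ) ++ [vs2 j θ θ'], 0), ([vi j θ' (1, [θ])], 0))]

/-- the equations of a role -/
def roleEqs (ρ : Rd) (Θ : List Th) (pats : List (List Th)) (sup : Th → ℕ) (j : ℕ) : Sys Va :=
  sumEqs ρ Θ pats sup j ++ Θ.flatMap fun θ => Θ.flatMap fun θ' => pairEqs ρ Θ pats sup j θ θ'

/-- the system for the supports `sup` -/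
def sysW (F : NF) (tys : List Ty) (Θ : List Th) (pats : List (List Th)) (sup : Th → ℕ) : Sys Va :=
  Θ.map (supEq sup) ++ tys.map (nEq Θ) ++
    F.roles.zipIdx.flatMap fun p => roleEqs p.1 Θ pats sup p.2

/-- a list as long as the patterns may be -/
def kl (F : NF) : List (ℕ × ℕ) := (0, 0) :: (0, 0) :: F.roles.flatMap fun ρ => rex ρ ++ rey ρ

/-- all lists over `Θ` of length at most `K` -/
def patsOf (Θ : List Th) (K : ℕ) : List (List Th) := (List.range (K + 1)).flatMap (lists Θ)

/-- the pairs `(t, t)` -/
def thI (tys : List Ty) : List Th := tys.map fun t => (t, t)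

/-- the pairs `(s, t)` which agree on the fixed formulas -/
def thJ (F : NF) (tys : List Ty) : List Th :=
  tys.flatMap fun s => (tys.filter fun t => F.fixd.all fun i => bit t i == bit s i).map
    fun t => (s, t)

/-- the singletons have one element -/
def sgOk (F : NF) (Θ : List Th) (sup : Th → ℕ) : Bool :=
  F.sgs.all fun a => decide (((Θ.filter fun θ => bit θ.2 a).map sup).sum = 1)

/-- the concept is satisfied -/
def goalOk (F : NF) (Θ : List Th) (sup : Th → ℕ) : Bool :=
  Θ.any fun θ => decide (1 ≤ sup θ) && bit θ.2 F.goal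

/-- after ⊆ before -/
def subB (W : List Th) (X : ℕ) : Bool := W.all fun θ => !bit θ.2 X || bit θ.1 X

/-- before ⊆ after -/
def supB (W : List Th) (X : ℕ) : Bool := W.all fun θ => !bit θ.1 X || bit θ.2 X

/-- the second component is preferred to the first; `W` is the list of the pairs which occur -/
def betW (F : NF) (W : List Th) : Bool :=
  F.mini.all (fun X => subB W X ||
    F.mini.any fun Y => decide ((Y, X) ∈ F.prec) && subB W Y && !supB W Y) &&
  F.mini.any (fun X => subB W X && !supB W X &&
    F.mini.all fun Y => !decide ((Y, X) ∈ F.prec) || (subB W Y && supB W Y))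

/-- the second component is preferred to the first -/
def betOk (F : NF) (Θ : List Th) (sup : Th → ℕ) : Bool :=
  betW F (Θ.filter fun θ => decide (1 ≤ sup θ))

/-- a family of systems: one for every possible list of supports -/
def fam (F : NF) (tys : List Ty) (Θ : List Th) (pats : List (List Th)) (sups : List (List ℕ))
    (ok : (Th → ℕ) → Bool) : List (Sys Va) :=
  (sups.filter fun l => ok (look Θ l 0)).map fun l => sysW F tys Θ pats (look Θ l 0)

/-- the family of the satisfiable systems -/
def sysI (F : NF) : List (Sys Va) :=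
  fam F F.tys (thI F.tys) (patsOf (thI F.tys) (kl F).length)
    (lists [0, 1, 2] (thI F.tys).length)
    (fun sup => sgOk F (thI F.tys) sup && goalOk F (thI F.tys) sup)

/-- the family of the systems for better models -/
def sysJ (F : NF) : List (Sys Va) :=
  fam F F.tys (thJ F F.tys) (patsOf (thJ F F.tys) (kl F).length)
    (lists [0, 1, 2] (thJ F F.tys).length)
    (fun sup => sgOk F (thJ F F.tys) sup && betOk F (thJ F F.tys) sup)

/-- the given variables -/
def nvs (F : NF) : List Va := F.tys.map vN

end Pool.Agent.H24U
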